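import Pool.Agent.FR.CF

set_option linter.unusedSectionVars false

open Finset
open scoped Classical

namespace FRC

noncomputable section

section General

variable {α : Type*} [Lattice α] [BoundedOrder α] [Fintype α] {rk : α → ℕ}

/-- the edges at `u` which lie together with `e` in a 2-face -/
def cmp (rk : α → ℕ) (u e : α) : Finset α :=
  (lv rk e ⊤ 1).biUnion (fun G => (lv rk u G 1).erase e)

/-- A function on a connected set which changes by at most one along the relation takes at least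
`f b - f a + 1` values. -/
theorem Conn.spread {β : Type*} {r : β → β → Prop} {T : Finset β} (hT : Conn r T) {f : β → ℤ}
    (hf : ∀ u ∈ T, ∀ v ∈ T, r u v → f v ≤ f u + 1) {a b : β} (ha : a ∈ T) (hb : b ∈ T) :
    f b - f a + 1 ≤ T.card := by
  have hsub : Icc (f a) (f b) ⊆ T.image f := by
    intro k hk
    rw [mem_Icc] at hk
    rcases hk.1.eq_or_lt with h0 | h0
    · exact mem_image.2 ⟨a, ha, h0⟩
    · by_contra hcon
      have hS : ¬ ∀ u ∈ T.filter (fun w => f w < k), ∀ v ∈ T, r u v →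
          v ∈ T.filter (fun w => f w < k) := by
        intro hcl
        have := hT.2 (T.filter (fun w => f w < k)) (filter_subset _ _)
          ⟨a, mem_filter.2 ⟨ha, h0⟩⟩ hcl
        rw [← this] at hb
        have := (mem_filter.1 hb).2
        omega
      push Not at hS
      obtain ⟨u, hu, v, hv, huv, hnv⟩ := hS
      rw [mem_filter] at hu
      have h1 := hf u hu.1 v hv huv
      have h2 : ¬ f v < k := fun h2 => hnv (mem_filter.2 ⟨hv, h2⟩)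
      exact hcon (mem_image.2 ⟨v, hv, by omega⟩)
  have h1 := card_le_card hsub
  rw [Int.card_Icc] at h1
  have h2 := card_image_le (s := T) (f := f)
  omega

namespace ELC

variable (h : ELC rk)
include h

theorem pair_eq {a e u v : α} (hae : a ≤ e) (he : rk e = rk a + 2) (hu : u ∈ lv rk a e 1)
    (hv : v ∈ lv rk a e 1) (hne : u ≠ v) : lv rk a e 1 = {u, v} := by
  symm
  apply Finset.eq_of_subset_of_card_le
  · intro x hx
    rw [mem_insert, mem_singleton] at hx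
    rcases hx with rfl | rfl
    · exact hu
    · exact hv
  · rw [h.lv_card_two hae he, card_pair hne]

theorem erase_card {u e G : α} (he : e ∈ lv rk u ⊤ 1) (hG : G ∈ lv rk e ⊤ 1) :
    ((lv rk u G 1).erase e).card = 1 := by
  rw [mem_lv] at he hG
  rw [card_erase_of_mem (mem_lv.2 ⟨he.1, hG.1, he.2.2⟩),
    h.lv_card_two (he.1.trans hG.1) (by omega)]

theorem erase_disj {u e : α} (he : e ∈ lv rk u ⊤ 1) :
    Set.PairwiseDisjoint (lv rk e ⊤ 1 : Set α) (fun G => (lv rk u G 1).erase e) := by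
  intro G hG G' hG' hne
  rw [Function.onFun, disjoint_left]
  intro g hg hg'
  rw [mem_coe, mem_lv] at hG hG'
  rw [mem_erase, mem_lv] at hg hg'
  rw [mem_lv] at he
  exact hne (h.eq_of_two hg.1 (by omega) (by omega) (by omega) hg.2.2.1 hG.1 hg'.2.2.1 hG'.1)

theorem cmp_card {u e : α} (he : e ∈ lv rk u ⊤ 1) :
    (cmp rk u e).card = (lv rk e ⊤ 1).card := by
  rw [cmp, card_biUnion (h.erase_disj he), sum_congr rfl (fun G hG => h.erase_card he hG)]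
  simp

theorem cmp_sub {u e : α} (he : e ∈ lv rk u ⊤ 1) : cmp rk u e ⊆ (lv rk u ⊤ 1).erase e := by
  intro g hg
  rw [cmp, mem_biUnion] at hg
  obtain ⟨G, hG, hg⟩ := hg
  rw [mem_erase, mem_lv] at hg ⊢
  exact ⟨hg.1, hg.2.1, le_top, hg.2.2.2⟩

theorem t_lt {u e : α} (he : e ∈ lv rk u ⊤ 1) :
    (lv rk e ⊤ 1).card + 1 ≤ (lv rk u ⊤ 1).card := by
  have h1 := card_le_card (h.cmp_sub he)
  rw [h.cmp_card he, card_erase_of_mem he] at h1
  have : 0 < (lv rk u ⊤ 1).card := card_pos.2 ⟨e, he⟩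
  omega

/-- degrees of adjacent vertices -/
theorem deg_le (_htop : 4 ≤ rk (⊤ : α)) (hp : FRineq (α := α) rk)
    {u v : α} (hu : u ∈ lv rk (⊥ : α) ⊤ 1) (hv : v ∈ lv rk (⊥ : α) ⊤ 1) (huv : adj rk ⊥ ⊤ u v) :
    (lv rk v ⊤ 1).card ≤ 2 * (lv rk u ⊤ 1).card := by
  rcases eq_or_ne u v with rfl | hne
  · omega
  obtain ⟨e, he, hue, hve⟩ := huv
  have hI := hp e he
  rw [mem_lv] at he hu hv
  have hu' : u ∈ lv rk ⊥ e 1 := mem_lv.2 ⟨hu.1, hue, hu.2.2⟩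
  have hv' : v ∈ lv rk ⊥ e 1 := mem_lv.2 ⟨hv.1, hve, hv.2.2⟩
  rw [h.pair_eq he.1 he.2.2 hu' hv' hne, sum_pair hne] at hI
  have h1 := h.t_lt (u := u) (e := e) (mem_lv.2 ⟨hue, le_top, by omega⟩)
  omega

/-- lower bound for a sum over the edges at `u` -/
theorem sum_lower {u e : α} (he : e ∈ lv rk u ⊤ 1) (φ : α → ℤ)
    (hφ : ∀ g ∈ lv rk u ⊤ 1, -1 ≤ φ g) :
    φ e + ∑ G ∈ lv rk e ⊤ 1, ∑ g ∈ (lv rk u G 1).erase e, φ g
      - ((lv rk u ⊤ 1).card - 1 - (lv rk e ⊤ 1).card) ≤ ∑ g ∈ lv rk u ⊤ 1, φ g := by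
  have h1 : ∑ G ∈ lv rk e ⊤ 1, ∑ g ∈ (lv rk u G 1).erase e, φ g = ∑ g ∈ cmp rk u e, φ g := by
    rw [cmp, sum_biUnion (h.erase_disj he)]
  have h2 := sum_sdiff (h.cmp_sub he) (f := φ)
  have h3 := add_sum_erase _ φ he
  have h4 : -((((lv rk u ⊤ 1).erase e) \ cmp rk u e).card : ℤ)
      ≤ ∑ g ∈ ((lv rk u ⊤ 1).erase e) \ cmp rk u e, φ g := by
    have := card_nsmul_le_sum (((lv rk u ⊤ 1).erase e) \ cmp rk u e) φ (-1) (by
      intro g hg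
      exact hφ g (mem_of_mem_erase (mem_sdiff.1 hg).1))
    rw [nsmul_eq_mul] at this
    linarith
  have h5 := card_sdiff_add_card_eq_card (h.cmp_sub he)
  rw [h.cmp_card he, card_erase_of_mem he] at h5
  have h6 : 0 < (lv rk u ⊤ 1).card := card_pos.2 ⟨e, he⟩
  have h7 : ((((lv rk u ⊤ 1).erase e) \ cmp rk u e).card : ℤ) =
      (lv rk u ⊤ 1).card - 1 - (lv rk e ⊤ 1).card := by omega
  rw [h1]
  linarith

/-- sum over the two ends of an edge -/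
theorem sum_ends {g u : α} (hg : g ∈ lv rk u ⊤ 1) (hu : u ∈ lv rk (⊥ : α) ⊤ 1) (f : α → ℤ) :
    ∃ a ∈ lv rk (⊥ : α) g 1, a ≠ u ∧ ∑ w ∈ lv rk ⊥ g 1, f w = f u + f a := by
  rw [mem_lv] at hg hu
  have hc : (lv rk ⊥ g 1).card = 2 := h.lv_card_two bot_le (by omega)
  have hum : u ∈ lv rk ⊥ g 1 := mem_lv.2 ⟨bot_le, hg.1, hu.2.2⟩
  obtain ⟨a, ha, hne⟩ := Finset.exists_mem_ne (by omega : 1 < (lv rk ⊥ g 1).card) u
  refine ⟨a, ha, hne, ?_⟩
  rw [h.pair_eq bot_le (by omega) hum ha hne.symm, sum_pair hne.symm]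

/-- the main inequality in a 2-face `G` at the edge `e = uv` -/
theorem face_ineq {u v e G : α} (hu : u ∈ lv rk (⊥ : α) e 1) (hv : v ∈ lv rk (⊥ : α) e 1)
    (hne : u ≠ v) (he : e ∈ lv rk (⊥ : α) ⊤ 2) (hG : G ∈ lv rk e ⊤ 1) {f : α → ℤ}
    (hf : ∀ a ∈ lv rk (⊥ : α) ⊤ 1, ∀ b ∈ lv rk (⊥ : α) ⊤ 1, adj rk ⊥ ⊤ a b → f b ≤ f a + 1)
    (hfv : f v = f u + 1) :
    1 - (((lv rk (⊥ : α) G 1).card - 3 : ℕ) : ℤ) ≤
      (∑ g ∈ (lv rk u G 1).erase e, (∑ w ∈ lv rk ⊥ g 1, f w - 2 * f u)) -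
      ∑ g ∈ (lv rk v G 1).erase e, (∑ w ∈ lv rk ⊥ g 1, f w - 2 * f v) := by
  rw [mem_lv] at hu hv he
  have hG' := mem_lv.1 hG
  obtain ⟨g, hg⟩ := card_eq_one.1 (h.erase_card (u := u) (e := e) (G := G)
    (mem_lv.2 ⟨hu.2.1, le_top, by omega⟩) hG)
  obtain ⟨g', hg'⟩ := card_eq_one.1 (h.erase_card (u := v) (e := e) (G := G)
    (mem_lv.2 ⟨hv.2.1, le_top, by omega⟩) hG)
  have hgm : g ∈ (lv rk u G 1).erase e := by rw [hg]; exact mem_singleton_self g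
  have hgm' : g' ∈ (lv rk v G 1).erase e := by rw [hg']; exact mem_singleton_self g'
  rw [mem_erase, mem_lv] at hgm hgm'
  rw [hg, hg', sum_singleton, sum_singleton]
  obtain ⟨a, ha, hau, has⟩ := h.sum_ends (g := g) (u := u) (mem_lv.2 ⟨hgm.2.1, le_top, by omega⟩)
    (mem_lv.2 ⟨hu.1, le_top, hu.2.2⟩) f
  obtain ⟨b, hb, hbv, hbs⟩ := h.sum_ends (g := g') (u := v)
    (mem_lv.2 ⟨hgm'.2.1, le_top, by omega⟩) (mem_lv.2 ⟨hv.1, le_top, hv.2.2⟩) f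
  rw [has, hbs]
  rw [mem_lv] at ha hb
  -- the vertices outside `e`
  set T := (lv rk (⊥ : α) G 1).filter (fun w => ¬ w ≤ e) with hTdef
  have hT : Conn (adj rk ⊥ G) T := h.polygon_outer bot_le bot_le (by omega)
    (fun hle => by have := h.rk_le hle; omega) ⟨u, mem_lv.2 hu, hu.2.1.trans hG'.1⟩
  have hnot : ∀ x y : α, x ∈ lv rk (⊥ : α) e 1 → y ≠ x → rk y = rk (⊥ : α) + 1 →
      ∀ g : α, x ≤ g → y ≤ g → rk g = rk (⊥ : α) + 2 → g ≠ e → ¬ y ≤ e := by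
    intro x y hx hxy hy g hxg hyg hrg hge hye
    rw [mem_lv] at hx
    exact hge (h.eq_of_two hxy (by omega) (by omega) (by omega) hyg hxg hye hx.2.1)
  have haT : a ∈ T := by
    refine mem_filter.2 ⟨mem_lv.2 ⟨bot_le, ha.2.1.trans hgm.2.2.1, ha.2.2⟩, ?_⟩
    exact hnot u a (mem_lv.2 hu) hau ha.2.2 g hgm.2.1 ha.2.1 (by omega) hgm.1
  have hbT : b ∈ T := by
    refine mem_filter.2 ⟨mem_lv.2 ⟨bot_le, hb.2.1.trans hgm'.2.2.1, hb.2.2⟩, ?_⟩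
    exact hnot v b (mem_lv.2 hv) hbv hb.2.2 g' hgm'.2.1 hb.2.1 (by omega) hgm'.1
  have hsp := hT.spread (f := f) (by
    rintro x hx y hy ⟨d, hd, hxd, hyd⟩
    rw [mem_filter, mem_lv] at hx hy
    rw [mem_lv] at hd
    exact hf x (mem_lv.2 ⟨bot_le, le_top, hx.1.2.2⟩) y (mem_lv.2 ⟨bot_le, le_top, hy.1.2.2⟩)
      ⟨d, mem_lv.2 ⟨bot_le, le_top, hd.2.2⟩, hxd, hyd⟩) haT hbT
  have hcard : T.card + 2 = (lv rk (⊥ : α) G 1).card := by
    have h1 : ((lv rk (⊥ : α) G 1).filter (fun w => w ≤ e)).card + T.card =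
        (lv rk (⊥ : α) G 1).card :=
      card_filter_add_card_filter_not (s := lv rk (⊥ : α) G 1) (fun w => w ≤ e)
    have h2 : (lv rk (⊥ : α) G 1).filter (fun w => w ≤ e) = lv rk ⊥ e 1 := by
      ext w
      rw [mem_filter, mem_lv, mem_lv]
      constructor
      · rintro ⟨⟨x1, x2, x3⟩, x4⟩
        exact ⟨x1, x4, x3⟩
      · rintro ⟨x1, x2, x3⟩
        exact ⟨⟨x1, x2.trans hG'.1, x3⟩, x2⟩
    rw [h2, h.lv_card_two bot_le (by omega)] at h1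
    omega
  have h3 := h.three_le (a := ⊥) (b := G) bot_le (by omega)
  omega

/-- the Laplacian decreases along edges on which `f` increases -/
theorem lap_step (hp : FRineq (α := α) rk) {u v e : α} (hu : u ∈ lv rk (⊥ : α) e 1)
    (hv : v ∈ lv rk (⊥ : α) e 1)
    (hne : u ≠ v) (he : e ∈ lv rk (⊥ : α) ⊤ 2) {f : α → ℤ}
    (hf : ∀ a ∈ lv rk (⊥ : α) ⊤ 1, ∀ b ∈ lv rk (⊥ : α) ⊤ 1, adj rk ⊥ ⊤ a b → f b ≤ f a + 1)
    (hfv : f v = f u + 1) :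
    ∑ g ∈ lv rk v ⊤ 1, (∑ w ∈ lv rk ⊥ g 1, f w - 2 * f v) + 1 ≤
      ∑ g ∈ lv rk u ⊤ 1, (∑ w ∈ lv rk ⊥ g 1, f w - 2 * f u) := by
  have hu' := mem_lv.1 hu
  have hv' := mem_lv.1 hv
  have he' := mem_lv.1 he
  have hlip : ∀ x ∈ lv rk (⊥ : α) ⊤ 1, ∀ g ∈ lv rk x ⊤ 1,
      -1 ≤ ∑ w ∈ lv rk ⊥ g 1, f w - 2 * f x ∧ ∑ w ∈ lv rk ⊥ g 1, f w - 2 * f x ≤ 1 := by
    intro x hx g hg
    obtain ⟨a, ha, hax, has⟩ := h.sum_ends hg hx f
    rw [mem_lv] at ha hg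
    have hx' := mem_lv.1 hx
    have ham : a ∈ lv rk (⊥ : α) ⊤ 1 := mem_lv.2 ⟨ha.1, le_top, ha.2.2⟩
    have hadj : adj rk ⊥ ⊤ x a := ⟨g, mem_lv.2 ⟨bot_le, le_top, by omega⟩, hg.1, ha.2.1⟩
    have h1 := hf x hx a ham hadj
    have h2 := hf a ham x hx (adj_symm hadj)
    omega
  have hum : u ∈ lv rk (⊥ : α) ⊤ 1 := mem_lv.2 ⟨hu'.1, le_top, hu'.2.2⟩
  have hvm : v ∈ lv rk (⊥ : α) ⊤ 1 := mem_lv.2 ⟨hv'.1, le_top, hv'.2.2⟩
  have hue : e ∈ lv rk u ⊤ 1 := mem_lv.2 ⟨hu'.2.1, le_top, by omega⟩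
  have hve : e ∈ lv rk v ⊤ 1 := mem_lv.2 ⟨hv'.2.1, le_top, by omega⟩
  have L1 := h.sum_lower hue (fun g => ∑ w ∈ lv rk ⊥ g 1, f w - 2 * f u)
    (fun g hg => (hlip u hum g hg).1)
  have L2 := h.sum_lower hve (fun g => -(∑ w ∈ lv rk ⊥ g 1, f w - 2 * f v))
    (fun g hg => by have := (hlip v hvm g hg).2; linarith)
  simp only [sum_neg_distrib] at L2
  have hpair := h.pair_eq he'.1 he'.2.2 hu hv hne
  have hFe : ∑ w ∈ lv rk ⊥ e 1, f w = f u + f v := by rw [hpair, sum_pair hne]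
  have hsum : ∑ G ∈ lv rk e ⊤ 1, (1 - (((lv rk (⊥ : α) G 1).card - 3 : ℕ) : ℤ)) ≤
      ∑ G ∈ lv rk e ⊤ 1, ((∑ g ∈ (lv rk u G 1).erase e, (∑ w ∈ lv rk ⊥ g 1, f w - 2 * f u)) -
      ∑ g ∈ (lv rk v G 1).erase e, (∑ w ∈ lv rk ⊥ g 1, f w - 2 * f v)) :=
    sum_le_sum fun G hG => h.face_ineq hu hv hne he hG hf hfv
  rw [sum_sub_distrib, sum_sub_distrib] at hsum
  have hI := hp e he
  rw [hpair, sum_pair hne] at hI
  have hI' : ((lv rk u ⊤ 1).card : ℤ) + (lv rk v ⊤ 1).card +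
      ∑ G ∈ lv rk e ⊤ 1, (((lv rk (⊥ : α) G 1).card - 3 : ℕ) : ℤ) ≤
      3 * (lv rk e ⊤ 1).card + 3 := by exact_mod_cast hI
  have h1 : ∑ G ∈ lv rk e ⊤ 1, (1 : ℤ) = (lv rk e ⊤ 1).card := by simp
  rw [h1] at hsum
  rw [hFe] at L1 L2
  linarith

end ELC

/-! ### Balls -/

/-- neighbours (and the vertex itself) -/
def nb (rk : α → ℕ) (u : α) : Finset α := (lv rk (⊥ : α) ⊤ 1).filter (fun v => adj rk ⊥ ⊤ u v)

/-- the ball of radius `i` -/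
def bal (rk : α → ℕ) (x : α) : ℕ → Finset α
  | 0 => {x}
  | i + 1 => (bal rk x i).biUnion (nb rk)

/-- distance to `x` -/
def dst (rk : α → ℕ) (x y : α) : ℕ := if h : ∃ i, y ∈ bal rk x i then Nat.find h else 0

/-- bound for the cardinality of balls -/
def kb (Δ : ℕ) : ℕ → ℕ
  | 0 => 1
  | i + 1 => kb Δ i * (2 * (Δ * 2 ^ i))

theorem bal_vert {x : α} (hx : x ∈ lv rk (⊥ : α) ⊤ 1) (i : ℕ) :
    bal rk x i ⊆ lv rk (⊥ : α) ⊤ 1 := by
  cases i with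
  | zero =>
    intro y hy
    rw [bal, mem_singleton] at hy
    rwa [hy]
  | succ i =>
    intro y hy
    rw [bal, mem_biUnion] at hy
    obtain ⟨z, _, hy⟩ := hy
    exact (mem_filter.1 hy).1

namespace ELC

variable (h : ELC rk)
include h

theorem self_nb (htop : 4 ≤ rk (⊤ : α)) {u : α} (hu : u ∈ lv rk (⊥ : α) ⊤ 1) : u ∈ nb rk u := by
  have hu' := mem_lv.1 hu
  obtain ⟨e, he⟩ := h.exists_lv (i := 1) hu'.2.1 (by have := h.rk_bot; omega)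
  rw [mem_lv] at he
  exact mem_filter.2 ⟨hu, e, mem_lv.2 ⟨bot_le, he.2.1, by omega⟩, he.1, he.1⟩

theorem bal_mono (htop : 4 ≤ rk (⊤ : α)) {x : α} (hx : x ∈ lv rk (⊥ : α) ⊤ 1) {i j : ℕ}
    (hij : i ≤ j) : bal rk x i ⊆ bal rk x j := by
  induction hij with
  | refl => exact Subset.refl _
  | step hij ih =>
    intro y hy
    have := ih hy
    rw [bal, mem_biUnion]
    exact ⟨y, this, h.self_nb htop (bal_vert hx _ this)⟩

theorem exists_bal (htop : 4 ≤ rk (⊤ : α)) {x : α} (hx : x ∈ lv rk (⊥ : α) ⊤ 1) :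
    ∀ y ∈ lv rk (⊥ : α) ⊤ 1, ∃ i, y ∈ bal rk x i := by
  have hc := h.conn ⊥ ⊤ bot_le (by have := h.rk_bot; omega)
  refine hc.induct _ ⟨x, hx, 0, ?_⟩ ?_
  · rw [bal]; exact mem_singleton_self x
  · rintro u hu ⟨i, hi⟩ v hv huv
    refine ⟨i + 1, ?_⟩
    rw [bal, mem_biUnion]
    exact ⟨u, hi, mem_filter.2 ⟨hv, huv⟩⟩

theorem dst_le (htop : 4 ≤ rk (⊤ : α)) {x : α} (hx : x ∈ lv rk (⊥ : α) ⊤ 1) {y : α} {i : ℕ}
    (hy : y ∈ lv rk (⊥ : α) ⊤ 1) : dst rk x y ≤ i ↔ y ∈ bal rk x i := by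
  have hex := h.exists_bal htop hx y hy
  rw [dst, dif_pos hex, Nat.find_le_iff]
  constructor
  · rintro ⟨m, hm, hm'⟩
    exact h.bal_mono htop hx hm hm'
  · intro hm
    exact ⟨i, le_rfl, hm⟩

theorem dst_lip (htop : 4 ≤ rk (⊤ : α)) {x : α} (hx : x ∈ lv rk (⊥ : α) ⊤ 1) {a b : α}
    (ha : a ∈ lv rk (⊥ : α) ⊤ 1) (hb : b ∈ lv rk (⊥ : α) ⊤ 1) (hab : adj rk ⊥ ⊤ a b) :
    dst rk x b ≤ dst rk x a + 1 := by
  rw [h.dst_le htop hx hb, bal, mem_biUnion]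
  exact ⟨a, (h.dst_le htop hx ha).1 le_rfl, mem_filter.2 ⟨hb, hab⟩⟩

theorem dst_prev (htop : 4 ≤ rk (⊤ : α)) {x : α} (hx : x ∈ lv rk (⊥ : α) ⊤ 1) {y : α} {k : ℕ}
    (hy : y ∈ lv rk (⊥ : α) ⊤ 1) (hk : dst rk x y = k + 1) :
    ∃ z ∈ lv rk (⊥ : α) ⊤ 1, adj rk ⊥ ⊤ z y ∧ dst rk x z = k := by
  have h1 := (h.dst_le htop hx hy (i := k + 1)).1 (by omega)
  rw [bal, mem_biUnion] at h1
  obtain ⟨z, hz, hy'⟩ := h1
  have hzm := bal_vert hx _ hz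
  have hzy := (mem_filter.1 hy').2
  refine ⟨z, hzm, hzy, ?_⟩
  have h2 := (h.dst_le htop hx hzm).2 hz
  have h3 := h.dst_lip htop hx hzm hy hzy
  omega

/-- the distance is at most the sum of the degrees -/
theorem dst_deg (htop : 4 ≤ rk (⊤ : α)) (hp : FRineq (α := α) rk) {x y : α}
    (hx : x ∈ lv rk (⊥ : α) ⊤ 1) (hy : y ∈ lv rk (⊥ : α) ⊤ 1) :
    dst rk x y ≤ (lv rk x ⊤ 1).card + (lv rk y ⊤ 1).card := by
  set f : α → ℤ := fun z => (dst rk x z : ℤ) with hf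
  have hlip : ∀ a ∈ lv rk (⊥ : α) ⊤ 1, ∀ b ∈ lv rk (⊥ : α) ⊤ 1, adj rk ⊥ ⊤ a b →
      f b ≤ f a + 1 := by
    intro a ha b hb hab
    have := h.dst_lip htop hx ha hb hab
    simp only [hf]
    exact_mod_cast this
  have hxx : dst rk x x = 0 := by
    have := (h.dst_le htop hx hx (i := 0)).2 (by rw [bal]; exact mem_singleton_self x)
    omega
  have hstep : ∀ k : ℕ, ∀ y ∈ lv rk (⊥ : α) ⊤ 1, dst rk x y = k →
      ∑ g ∈ lv rk y ⊤ 1, (∑ w ∈ lv rk ⊥ g 1, f w - 2 * f y) + k ≤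
      ∑ g ∈ lv rk x ⊤ 1, (∑ w ∈ lv rk ⊥ g 1, f w - 2 * f x) := by
    intro k
    induction k with
    | zero =>
      intro y hy hk
      have h1 := (h.dst_le htop hx hy (i := 0)).1 (by omega)
      rw [bal, mem_singleton] at h1
      rw [h1]
      simp
    | succ k ih =>
      intro y hy hk
      obtain ⟨z, hz, hzy, hzk⟩ := h.dst_prev htop hx hy hk
      have h1 := ih z hz hzk
      obtain ⟨e, he, hze, hye⟩ := hzy
      have hne : z ≠ y := by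
        rintro rfl
        omega
      have h2 := h.lap_step hp (u := z) (v := y) (e := e)
        (mem_lv.2 ⟨bot_le, hze, (mem_lv.1 hz).2.2⟩) (mem_lv.2 ⟨bot_le, hye, (mem_lv.1 hy).2.2⟩)
        hne he (f := f) hlip (by simp only [hf]; rw [hzk, hk]; push_cast; ring)
      push_cast
      linarith
  have h1 := hstep _ y hy rfl
  have hup : ∑ g ∈ lv rk x ⊤ 1, (∑ w ∈ lv rk ⊥ g 1, f w - 2 * f x) ≤ (lv rk x ⊤ 1).card := by
    have := sum_le_card_nsmul (lv rk x ⊤ 1) (fun g => ∑ w ∈ lv rk ⊥ g 1, f w - 2 * f x) 1 (by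
      intro g hg
      obtain ⟨a, ha, hax, has⟩ := h.sum_ends hg hx f
      rw [mem_lv] at ha hg
      have := hlip x hx a (mem_lv.2 ⟨ha.1, le_top, ha.2.2⟩)
        ⟨g, mem_lv.2 ⟨bot_le, le_top, by have := mem_lv.1 hx; omega⟩, hg.1, ha.2.1⟩
      show ∑ w ∈ lv rk ⊥ g 1, f w - 2 * f x ≤ 1
      rw [has]
      linarith)
    rw [nsmul_eq_mul, mul_one] at this
    exact this
  have hlo : -((lv rk y ⊤ 1).card : ℤ) ≤ ∑ g ∈ lv rk y ⊤ 1, (∑ w ∈ lv rk ⊥ g 1, f w - 2 * f y) := by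
    have := card_nsmul_le_sum (lv rk y ⊤ 1) (fun g => ∑ w ∈ lv rk ⊥ g 1, f w - 2 * f y) (-1) (by
      intro g hg
      obtain ⟨a, ha, hax, has⟩ := h.sum_ends hg hy f
      rw [mem_lv] at ha hg
      have := hlip a (mem_lv.2 ⟨ha.1, le_top, ha.2.2⟩) y hy
        ⟨g, mem_lv.2 ⟨bot_le, le_top, by have := mem_lv.1 hy; omega⟩, ha.2.1, hg.1⟩
      show -1 ≤ ∑ w ∈ lv rk ⊥ g 1, f w - 2 * f y
      rw [has]
      linarith)
    rw [nsmul_eq_mul] at this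
    linarith
  have : ((dst rk x y : ℕ) : ℤ) ≤ (lv rk x ⊤ 1).card + (lv rk y ⊤ 1).card := by linarith
  exact_mod_cast this

theorem nb_card {u : α} (hu : u ∈ lv rk (⊥ : α) ⊤ 1) :
    (nb rk u).card ≤ 2 * (lv rk u ⊤ 1).card := by
  have hsub : nb rk u ⊆ (lv rk u ⊤ 1).biUnion (fun g => lv rk ⊥ g 1) := by
    intro v hv
    rw [nb, mem_filter] at hv
    obtain ⟨hv, e, he, hue, hve⟩ := hv
    rw [mem_lv] at hv hu he
    rw [mem_biUnion]
    exact ⟨e, mem_lv.2 ⟨hue, le_top, by omega⟩, mem_lv.2 ⟨bot_le, hve, hv.2.2⟩⟩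
  refine (card_le_card hsub).trans ((card_biUnion_le_card_mul _ _ 2 ?_).trans (by omega))
  intro g hg
  rw [mem_lv] at hg hu
  exact (h.lv_card_two bot_le (by omega)).le

theorem bal_card (htop : 4 ≤ rk (⊤ : α)) (hp : FRineq (α := α) rk) {x : α}
    (hx : x ∈ lv rk (⊥ : α) ⊤ 1) {Δ : ℕ} (hΔ : (lv rk x ⊤ 1).card ≤ Δ) (i : ℕ) :
    (∀ y ∈ bal rk x i, (lv rk y ⊤ 1).card ≤ Δ * 2 ^ i) ∧ (bal rk x i).card ≤ kb Δ i := by
  induction i with
  | zero =>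
    constructor
    · intro y hy
      rw [bal, mem_singleton] at hy
      rw [hy]; simpa using hΔ
    · rw [bal, card_singleton, kb]
  | succ i ih =>
    constructor
    · intro y hy
      rw [bal, mem_biUnion] at hy
      obtain ⟨z, hz, hy⟩ := hy
      have h1 := ih.1 z hz
      rw [nb, mem_filter] at hy
      have h2 := h.deg_le htop hp (bal_vert hx _ hz) hy.1 hy.2
      calc _ ≤ _ := h2
        _ ≤ 2 * (Δ * 2 ^ i) := by omega
        _ = _ := by ring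
    · rw [bal, kb]
      refine (card_biUnion_le_card_mul _ _ (2 * (Δ * 2 ^ i)) ?_).trans
        (Nat.mul_le_mul_right _ ih.2)
      intro z hz
      exact (h.nb_card (bal_vert hx _ hz)).trans (by have := ih.1 z hz; omega)

/-- counting -/
theorem sum_sq_le (hp : FRineq (α := α) rk) :
    ∑ v ∈ lv rk (⊥ : α) ⊤ 1, (lv rk v ⊤ 1).card ^ 2 ≤
      3 * ∑ v ∈ lv rk (⊥ : α) ⊤ 1, (lv rk v ⊤ 2).card + 3 * (lv rk (⊥ : α) ⊤ 2).card := by
  have h1 : ∑ e ∈ lv rk (⊥ : α) ⊤ 2, ∑ v ∈ lv rk ⊥ e 1, (lv rk v ⊤ 1).card =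
      ∑ v ∈ lv rk (⊥ : α) ⊤ 1, (lv rk v ⊤ 1).card ^ 2 := by
    rw [sum_lv_comm (by norm_num) (fun _ v => (lv rk v ⊤ 1).card)]
    refine sum_congr rfl fun v _ => ?_
    rw [sum_const, smul_eq_mul, sq]
  have h2 : ∑ e ∈ lv rk (⊥ : α) ⊤ 2, (lv rk e ⊤ 1).card =
      ∑ v ∈ lv rk (⊥ : α) ⊤ 1, (lv rk v ⊤ 2).card := by
    have a1 := sum_lv_comm (rk := rk) (a := (⊥ : α)) (b := ⊤) (i := 3) (j := 2) (by norm_num)
      (fun _ _ => (1 : ℕ))
    have a2 := sum_lv_comm (rk := rk) (a := (⊥ : α)) (b := ⊤) (i := 3) (j := 1) (by norm_num)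
      (fun _ _ => (1 : ℕ))
    simp only [sum_const, smul_eq_mul, mul_one, Nat.reduceSub] at a1 a2
    rw [← a1, ← a2]
    refine sum_congr rfl fun G hG => ?_
    rw [mem_lv] at hG
    exact (h.euler3 bot_le hG.2.2).symm
  rw [← h1, ← h2, mul_sum]
  calc _ ≤ ∑ e ∈ lv rk (⊥ : α) ⊤ 2, (3 * (lv rk e ⊤ 1).card + 3) :=
        sum_le_sum fun e he => (Nat.le_add_right _ _).trans (hp e he)
    _ = _ := by
      rw [sum_add_distrib, sum_const, smul_eq_mul]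
      ring

theorem sum_deg : ∑ v ∈ lv rk (⊥ : α) ⊤ 1, (lv rk v ⊤ 1).card = 2 * (lv rk (⊥ : α) ⊤ 2).card := by
  have a1 := sum_lv_comm (rk := rk) (a := (⊥ : α)) (b := ⊤) (i := 2) (j := 1) (by norm_num)
    (fun _ _ => (1 : ℕ))
  simp only [sum_const, smul_eq_mul, mul_one, Nat.reduceSub] at a1
  have a2 : ∑ e ∈ lv rk (⊥ : α) ⊤ 2, (lv rk (⊥ : α) e 1).card = ∑ _e ∈ lv rk (⊥ : α) ⊤ 2, 2 :=
    sum_congr rfl fun e he => h.lv_card_two bot_le (mem_lv.1 he).2.2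
  rw [← a1, a2, sum_const, smul_eq_mul]
  ring

end ELC

end General

/-- The number of vertices is bounded if the number of (vertex, 2-face) incidences is linearly
bounded by the number of edges. -/
theorem vertex_bound (C D : ℕ) : ∃ B : ℕ, ∀ (α : Type) [Lattice α] [BoundedOrder α] [Fintype α]
    (rk : α → ℕ), ELC rk → 4 ≤ rk (⊤ : α) → FRineq (α := α) rk →
    ∑ v ∈ lv rk (⊥ : α) ⊤ 1, (lv rk v ⊤ 2).card ≤ C * (lv rk (⊥ : α) ⊤ 2).card + D →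
    (lv rk (⊥ : α) ⊤ 1).card ≤ B := by
  set A : ℕ := 3 * C + 3 + 3 * D with hA
  refine ⟨2 * kb (2 * A) (4 * A), ?_⟩
  intro α _ _ _ rk h htop hp hN
  set V := lv rk (⊥ : α) ⊤ 1 with hV
  set S := ∑ v ∈ V, (lv rk v ⊤ 1).card with hS
  have h1 : ∑ v ∈ V, (lv rk v ⊤ 1).card ^ 2 ≤
      3 * ∑ v ∈ V, (lv rk v ⊤ 2).card + 3 * (lv rk (⊥ : α) ⊤ 2).card := h.sum_sq_le hp
  have h2 : S = 2 * (lv rk (⊥ : α) ⊤ 2).card := h.sum_deg
  have h3 : S ^ 2 ≤ V.card * ∑ v ∈ V, (lv rk v ⊤ 1).card ^ 2 := sq_sum_le_card_mul_sum_sq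
  have hpos : ∀ v ∈ V, 1 ≤ (lv rk v ⊤ 1).card := by
    intro v hv
    have hv' := mem_lv.1 hv
    exact card_pos.2 (h.exists_lv hv'.2.1 (by have := h.rk_bot; omega))
  have h4 : V.card ≤ S := by
    have := card_nsmul_le_sum V (fun v => (lv rk v ⊤ 1).card) 1 hpos
    simpa using this
  rcases Nat.eq_zero_or_pos V.card with h0 | h0
  · omega
  have h5 : S ≤ V.card * A := by
    have hS0 : 0 < S := by omega
    have h6 : ∑ v ∈ V, (lv rk v ⊤ 1).card ^ 2 ≤ A * S := by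
      have e1 : C * (lv rk (⊥ : α) ⊤ 2).card ≤ C * S := Nat.mul_le_mul_left _ (by omega)
      have e2 : D ≤ D * S := Nat.le_mul_of_pos_right _ hS0
      calc _ ≤ _ := h1
        _ ≤ 3 * (C * S + D * S) + 3 * S := by omega
        _ = A * S := by rw [hA]; ring
    have h7 : S * S ≤ (V.card * A) * S := by
      calc S * S = S ^ 2 := (sq S).symm
        _ ≤ _ := h3
        _ ≤ V.card * (A * S) := Nat.mul_le_mul_left _ h6
        _ = _ := by ring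
    exact Nat.le_of_mul_le_mul_right h7 hS0
  -- vertices of small degree
  set L := V.filter (fun v => (lv rk v ⊤ 1).card ≤ 2 * A) with hL
  have h8 : V.card ≤ 2 * L.card := by
    have e1 : L.card + (V.filter (fun v => ¬ (lv rk v ⊤ 1).card ≤ 2 * A)).card = V.card :=
      card_filter_add_card_filter_not _
    have e2 := card_nsmul_le_sum (V.filter (fun v => ¬ (lv rk v ⊤ 1).card ≤ 2 * A))
      (fun v => (lv rk v ⊤ 1).card) (2 * A + 1) (by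
        intro v hv
        have := (mem_filter.1 hv).2
        omega)
    have e3 : ∑ v ∈ V.filter (fun v => ¬ (lv rk v ⊤ 1).card ≤ 2 * A), (lv rk v ⊤ 1).card ≤ S :=
      sum_le_sum_of_subset (filter_subset _ _)
    rw [smul_eq_mul] at e2
    set H := (V.filter (fun v => ¬ (lv rk v ⊤ 1).card ≤ 2 * A)).card with hH
    by_contra hcon
    have e4 : V.card < 2 * H := by omega
    have e5 : H * (2 * A + 1) ≤ V.card * A := (e2.trans e3).trans h5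
    have e6 : V.card * A ≤ 2 * H * A := Nat.mul_le_mul_right _ e4.le
    have e7 : 0 < H := by omega
    nlinarith
  have h9 : L.Nonempty := card_pos.1 (by omega)
  obtain ⟨x, hx⟩ := h9
  rw [hL, mem_filter] at hx
  have h10 : L ⊆ bal rk x (4 * A) := by
    intro y hy
    rw [hL, mem_filter] at hy
    rw [← h.dst_le htop hx.1 hy.1]
    have := h.dst_deg htop hp hx.1 hy.1
    omega
  have h11 := (h.bal_card htop hp hx.1 hx.2 (4 * A)).2
  have h12 := card_le_card h10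
  omega

end

end FRC
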