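import Pool.Agent.FR.Defs

set_option linter.unusedSectionVars false

open Finset
open scoped Classical

namespace FRC

noncomputable section

variable {α : Type*} [Lattice α] [BoundedOrder α] [Fintype α] {rk : α → ℕ}

theorem mem_lv {a b c : α} {i : ℕ} : c ∈ lv rk a b i ↔ a ≤ c ∧ c ≤ b ∧ rk c = rk a + i := by
  simp [lv]

theorem adj_symm {a b u v : α} (h : adj rk a b u v) : adj rk a b v u := by
  obtain ⟨e, he, h1, h2⟩ := h
  exact ⟨e, he, h2, h1⟩

theorem dadj_symm {a b u v : α} {i : ℕ} (h : dadj rk a b i u v) : dadj rk a b i v u := by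
  obtain ⟨e, he, h1, h2⟩ := h
  exact ⟨e, he, h2, h1⟩

/-- to prove a property on a connected set -/
theorem Conn.induct {β : Type*} {r : β → β → Prop} {T : Finset β}
    (hT : Conn r T) (P : β → Prop)
    (h0 : ∃ u ∈ T, P u) (h1 : ∀ u ∈ T, P u → ∀ v ∈ T, r u v → P v) : ∀ u ∈ T, P u := by
  have := hT.2 (T.filter P) (filter_subset _ _)
    (by obtain ⟨u, hu, hp⟩ := h0; exact ⟨u, mem_filter.2 ⟨hu, hp⟩⟩)
    (by
      intro u hu v hv huv
      rw [mem_filter] at hu ⊢
      exact ⟨hv, h1 u hu.1 hu.2 v hv huv⟩)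
  intro u hu
  rw [← this] at hu
  exact (mem_filter.1 hu).2

namespace ELC

variable (h : ELC rk)
include h

theorem rk_lt {a b : α} (hab : a < b) : rk a < rk b := by
  induction b using WellFoundedLT.induction with
  | ind b ih =>
    obtain ⟨c, hc1, hc2⟩ := exists_le_covBy_of_lt hab
    have h1 := h.covBy _ _ hc2
    rcases hc1.eq_or_lt with rfl | hlt
    · omega
    · have := ih c hc2.lt hlt
      omega

theorem rk_le {a b : α} (hab : a ≤ b) : rk a ≤ rk b := by
  rcases hab.eq_or_lt with rfl | hlt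
  · exact le_rfl
  · exact (h.rk_lt hlt).le

theorem eq_of_rk {a b : α} (hab : a ≤ b) (hr : rk b ≤ rk a) : a = b := by
  rcases hab.eq_or_lt with rfl | hlt
  · rfl
  · have := h.rk_lt hlt
    omega

theorem exists_lv {a b : α} {i : ℕ} (hab : a ≤ b) (hi : rk a + i ≤ rk b) :
    (lv rk a b i).Nonempty := by
  induction i generalizing a with
  | zero => exact ⟨a, mem_lv.2 ⟨le_rfl, hab, rfl⟩⟩
  | succ i ih =>
    have hlt : a < b := lt_of_le_of_ne hab (by rintro rfl; omega)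
    obtain ⟨c, hc1, hc2⟩ := exists_covBy_le_of_lt hlt
    have h1 := h.covBy _ _ hc1
    obtain ⟨d, hd⟩ := ih hc2 (by omega)
    rw [mem_lv] at hd
    exact ⟨d, mem_lv.2 ⟨hc1.le.trans hd.1, hd.2.1, by omega⟩⟩

theorem lv_zero {a b : α} (hab : a ≤ b) : lv rk a b 0 = {a} := by
  ext c
  rw [mem_lv, mem_singleton]
  constructor
  · rintro ⟨h1, h2, h3⟩
    exact (h.eq_of_rk h1 (by omega)).symm
  · rintro rfl
    exact ⟨le_rfl, hab, rfl⟩

theorem lv_top {a b : α} (hab : a ≤ b) {n : ℕ} (hn : rk b = rk a + n) : lv rk a b n = {b} := by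
  ext c
  rw [mem_lv, mem_singleton]
  constructor
  · rintro ⟨h1, h2, h3⟩
    exact h.eq_of_rk h2 (by omega)
  · rintro rfl
    exact ⟨hab, le_rfl, hn⟩

theorem inf_rk_lt {x y : α} (hxy : x ≠ y) (hr : rk x = rk y) : rk (x ⊓ y) < rk x := by
  by_contra hcon
  have h1 : x ⊓ y = x := h.eq_of_rk inf_le_left (by omega)
  have h2 : x ≤ y := inf_eq_left.1 h1
  exact hxy (h.eq_of_rk h2 (by omega))

theorem lt_rk_sup {x y : α} (hxy : x ≠ y) (hr : rk x = rk y) : rk x < rk (x ⊔ y) := by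
  by_contra hcon
  have h1 : x = x ⊔ y := h.eq_of_rk le_sup_left (by omega)
  have h2 : y ≤ x := sup_eq_left.1 h1.symm
  exact hxy (h.eq_of_rk h2 (by omega)).symm

theorem eq_of_two {u v e e' : α} (huv : u ≠ v) (hr : rk u = rk v) (he : rk e = rk u + 1)
    (he' : rk e' = rk u + 1) (h1 : u ≤ e) (h2 : v ≤ e) (h3 : u ≤ e') (h4 : v ≤ e') : e = e' := by
  by_contra hne
  have a1 := h.lt_rk_sup huv hr
  have a2 := h.inf_rk_lt hne (by omega)
  have a3 : u ⊔ v ≤ e ⊓ e' := le_inf (sup_le h1 h2) (sup_le h3 h4)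
  have a4 := h.rk_le a3
  omega

/-- sum over the interval by levels -/
theorem euler_lv {a b : α} {n : ℕ} (hab : a ≤ b) (hn : rk b = rk a + n) (hpos : 0 < n) :
    ∑ i ∈ range (n + 1), (-1 : ℤ) ^ i * ((lv rk a b i).card : ℤ) = 0 := by
  have hlt : a < b := lt_of_le_of_ne hab (by rintro rfl; omega)
  have h1 := h.euler a b hlt
  have hmap : ∀ c ∈ univ.filter (fun c => a ≤ c ∧ c ≤ b), rk c - rk a ∈ range (n + 1) := by
    intro c hc
    rw [mem_filter] at hc
    have := h.rk_le hc.2.1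
    have := h.rk_le hc.2.2
    rw [mem_range]; omega
  rw [← Finset.sum_fiberwise_of_maps_to hmap] at h1
  have h2 : ∀ i ∈ range (n + 1),
      ∑ c ∈ (univ.filter (fun c => a ≤ c ∧ c ≤ b)).filter (fun c => rk c - rk a = i),
        (-1 : ℤ) ^ rk c = (-1 : ℤ) ^ rk a * ((-1 : ℤ) ^ i * ((lv rk a b i).card : ℤ)) := by
    intro i hi
    have hset : (univ.filter (fun c => a ≤ c ∧ c ≤ b)).filter (fun c => rk c - rk a = i)
        = lv rk a b i := by
      ext c
      simp only [mem_filter, mem_univ, true_and, mem_lv]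
      constructor
      · rintro ⟨⟨x1, x2⟩, x3⟩
        have := h.rk_le x1
        exact ⟨x1, x2, by omega⟩
      · rintro ⟨x1, x2, x3⟩
        exact ⟨⟨x1, x2⟩, by omega⟩
    rw [hset, Finset.sum_congr rfl (g := fun _ => (-1 : ℤ) ^ rk a * (-1) ^ i)]
    · rw [Finset.sum_const, nsmul_eq_mul]; ring
    · intro c hc
      rw [mem_lv] at hc
      rw [hc.2.2, pow_add]
  rw [Finset.sum_congr rfl h2, ← Finset.mul_sum] at h1
  have h3 : ((-1 : ℤ) ^ rk a) ≠ 0 := pow_ne_zero _ (by norm_num)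
  exact (mul_eq_zero.1 h1).resolve_left h3

theorem lv_card_two {a b : α} (hab : a ≤ b) (hn : rk b = rk a + 2) : (lv rk a b 1).card = 2 := by
  have h1 := h.euler_lv hab hn (by norm_num)
  simp only [Finset.sum_range_succ, Finset.sum_range_zero] at h1
  rw [h.lv_zero hab, h.lv_top hab hn] at h1
  simp at h1
  omega

theorem euler3 {a b : α} (hab : a ≤ b) (hn : rk b = rk a + 3) :
    (lv rk a b 1).card = (lv rk a b 2).card := by
  have h1 := h.euler_lv hab hn (by norm_num)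
  simp only [Finset.sum_range_succ, Finset.sum_range_zero] at h1
  rw [h.lv_zero hab, h.lv_top hab hn] at h1
  norm_num at h1
  omega

theorem euler4 {a b : α} (hab : a ≤ b) (hn : rk b = rk a + 4) :
    (lv rk a b 1).card + (lv rk a b 3).card = (lv rk a b 2).card + 2 := by
  have h1 := h.euler_lv hab hn (by norm_num)
  simp only [Finset.sum_range_succ, Finset.sum_range_zero] at h1
  rw [h.lv_zero hab, h.lv_top hab hn] at h1
  norm_num at h1
  omega

theorem euler5 {a b : α} (hab : a ≤ b) (hn : rk b = rk a + 5) :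
    (lv rk a b 1).card + (lv rk a b 3).card = (lv rk a b 2).card + (lv rk a b 4).card := by
  have h1 := h.euler_lv hab hn (by norm_num)
  simp only [Finset.sum_range_succ, Finset.sum_range_zero] at h1
  rw [h.lv_zero hab, h.lv_top hab hn] at h1
  norm_num at h1
  omega

theorem euler6 {a b : α} (hab : a ≤ b) (hn : rk b = rk a + 6) :
    (lv rk a b 1).card + (lv rk a b 3).card + (lv rk a b 5).card
      = (lv rk a b 2).card + (lv rk a b 4).card + 2 := by
  have h1 := h.euler_lv hab hn (by norm_num)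
  simp only [Finset.sum_range_succ, Finset.sum_range_zero] at h1
  rw [h.lv_zero hab, h.lv_top hab hn] at h1
  norm_num at h1
  omega

omit h in
/-- double counting of incidences -/
theorem sum_lv_comm {a b : α} {i j : ℕ} (hji : j ≤ i) {M : Type*} [AddCommMonoid M]
    (F : α → α → M) :
    ∑ x ∈ lv rk a b i, ∑ y ∈ lv rk a x j, F x y
      = ∑ y ∈ lv rk a b j, ∑ x ∈ lv rk y b (i - j), F x y := by
  apply Finset.sum_comm'
  intro x y
  simp only [mem_lv]
  constructor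
  · rintro ⟨⟨h1, h2, h3⟩, h4, h5, h6⟩
    exact ⟨⟨h5, h2, by omega⟩, h4, h5.trans h2, h6⟩
  · rintro ⟨⟨h1, h2, h3⟩, h4, h5, h6⟩
    exact ⟨⟨h4.trans h1, h2, by omega⟩, h4, h1, h6⟩

/-- a polygon has at least three vertices -/
theorem three_le {a b : α} (hab : a ≤ b) (hn : rk b = rk a + 3) : 3 ≤ (lv rk a b 1).card := by
  obtain ⟨v, hv⟩ := h.exists_lv (i := 1) hab (by omega)
  have hv' := mem_lv.1 hv
  have h2 : (lv rk v b 1).card = 2 := h.lv_card_two hv'.2.1 (by omega)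
  obtain ⟨e, f, hef, hs⟩ := Finset.card_eq_two.1 h2
  have he : e ∈ lv rk v b 1 := by rw [hs]; simp
  have hf : f ∈ lv rk v b 1 := by rw [hs]; simp
  rw [mem_lv] at he hf
  have key : ∀ g : α, v ≤ g → g ≤ b → rk g = rk v + 1 →
      ∃ u, u ≠ v ∧ u ∈ lv rk a g 1 := by
    intro g h1 h2 h3
    have hc : (lv rk a g 1).card = 2 := h.lv_card_two (hv'.1.trans h1) (by omega)
    have hvm : v ∈ lv rk a g 1 := mem_lv.2 ⟨hv'.1, h1, hv'.2.2⟩
    obtain ⟨u, hu, hne⟩ := Finset.exists_mem_ne (by omega : 1 < (lv rk a g 1).card) v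
    exact ⟨u, hne, hu⟩
  obtain ⟨u, hu1, hu2⟩ := key e he.1 he.2.1 (by omega)
  obtain ⟨w, hw1, hw2⟩ := key f hf.1 hf.2.1 (by omega)
  rw [mem_lv] at hu2 hw2
  have huw : u ≠ w := by
    rintro rfl
    exact hef (h.eq_of_two hu1 (by omega) (by omega) (by omega) hu2.2.1 he.1 hw2.2.1 hf.1)
  have hsub : ({u, v, w} : Finset α) ⊆ lv rk a b 1 := by
    intro x hx
    simp only [mem_insert, mem_singleton] at hx
    rcases hx with rfl | rfl | rfl
    · exact mem_lv.2 ⟨hu2.1, hu2.2.1.trans he.2.1, hu2.2.2⟩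
    · exact hv
    · exact mem_lv.2 ⟨hw2.1, hw2.2.1.trans hf.2.1, hw2.2.2⟩
  have hcard : ({u, v, w} : Finset α).card = 3 := by
    rw [Finset.card_eq_three]
    exact ⟨u, v, w, hu1, huw, hw1.symm, rfl⟩
  rw [← hcard]
  exact Finset.card_le_card hsub

/-- dual connectivity -/
theorem dconn {a b : α} {m : ℕ} (hab : a ≤ b) (hm : rk b = rk a + m + 3) :
    Conn (dadj rk a b (m + 1)) (lv rk a b (m + 2)) := by
  induction m generalizing a with
  | zero =>
    refine ⟨h.exists_lv hab (by omega), ?_⟩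
    intro S hS hne hcl
    have hconn := h.conn a b hab (by omega)
    have hU := hconn.induct (fun v => ∀ f ∈ lv rk a b 2, v ≤ f → f ∈ S) ?_ ?_
    · apply Finset.Subset.antisymm hS
      intro f hf
      obtain ⟨v, hv⟩ := h.exists_lv (i := 1) (mem_lv.1 hf).1 (by have := mem_lv.1 hf; omega)
      rw [mem_lv] at hv hf
      exact hU v (mem_lv.2 ⟨hv.1, hv.2.1.trans hf.2.1, hv.2.2⟩) f (mem_lv.2 hf) hv.2.1
    · obtain ⟨f, hf⟩ := hne
      have hf' := mem_lv.1 (hS hf)
      obtain ⟨v, hv⟩ := h.exists_lv (i := 1) hf'.1 (by omega)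
      rw [mem_lv] at hv
      refine ⟨v, mem_lv.2 ⟨hv.1, hv.2.1.trans hf'.2.1, hv.2.2⟩, ?_⟩
      intro g hg hvg
      exact hcl f hf g hg ⟨v, mem_lv.2 ⟨hv.1, hv.2.1.trans hf'.2.1, hv.2.2⟩, hv.2.1, hvg⟩
    · rintro u hu hPu v hv ⟨e, he, hue, hve⟩ f hf hvf
      have h1 := hPu e he hue
      exact hcl e h1 f hf ⟨v, hv, hve, hvf⟩
  | succ m ih =>
    refine ⟨h.exists_lv hab (by omega), ?_⟩
    intro S hS hne hcl
    have hconn := h.conn a b hab (by omega)
    -- for an atom v, all coatoms above it are in S as soon as one is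
    have hall : ∀ v ∈ lv rk a b 1, (∃ f ∈ S, v ≤ f) → ∀ f ∈ lv rk a b (m + 1 + 2), v ≤ f → f ∈ S := by
      rintro v hv ⟨f, hf, hvf⟩
      have hv' := mem_lv.1 hv
      have hv2 := ih (a := v) hv'.2.1 (by omega)
      have := hv2.induct (fun f => f ∈ S) ?_ ?_
      · intro g hg hvg
        rw [mem_lv] at hg
        exact this g (mem_lv.2 ⟨hvg, hg.2.1, by omega⟩)
      · have hf' := mem_lv.1 (hS hf)
        exact ⟨f, mem_lv.2 ⟨hvf, hf'.2.1, by omega⟩, hf⟩
      · rintro u hu hPu w hw ⟨e, he, heu, hew⟩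
        rw [mem_lv] at he hw
        refine hcl u hPu w (mem_lv.2 ⟨hv'.1.trans hw.1, hw.2.1, by omega⟩) ⟨e, ?_, heu, hew⟩
        exact mem_lv.2 ⟨hv'.1.trans he.1, he.2.1, by omega⟩
    have hU := hconn.induct (fun v => ∃ f ∈ S, v ≤ f) ?_ ?_
    · apply Finset.Subset.antisymm hS
      intro f hf
      have hf' := mem_lv.1 hf
      obtain ⟨v, hv⟩ := h.exists_lv (i := 1) hf'.1 (by omega)
      rw [mem_lv] at hv
      have hvm : v ∈ lv rk a b 1 := mem_lv.2 ⟨hv.1, hv.2.1.trans hf'.2.1, hv.2.2⟩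
      exact hall v hvm (hU v hvm) f hf hv.2.1
    · obtain ⟨f, hf⟩ := hne
      have hf' := mem_lv.1 (hS hf)
      obtain ⟨v, hv⟩ := h.exists_lv (i := 1) hf'.1 (by omega)
      rw [mem_lv] at hv
      exact ⟨v, mem_lv.2 ⟨hv.1, hv.2.1.trans hf'.2.1, hv.2.2⟩, f, hf, hv.2.1⟩
    · rintro u hu hPu v hv ⟨e, he, hue, hve⟩
      have he' := mem_lv.1 he
      obtain ⟨f, hf⟩ := h.exists_lv (i := m + 1) he'.2.1 (by omega)
      rw [mem_lv] at hf
      have hfm : f ∈ lv rk a b (m + 1 + 2) := mem_lv.2 ⟨he'.1.trans hf.1, hf.2.1, by omega⟩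
      exact ⟨f, hall u hu hPu f hfm (hue.trans hf.1), hve.trans hf.1⟩

end ELC

end

end FRC
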