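import Mathlib

/-!
# Convex polytopes, faces and the Forman–Ricci curvature of an edge
-/

namespace FRPoly

/-- A polytope in `ℝⁿ`: the convex hull of a finite nonempty set. -/
def IsPolytope {n : ℕ} (P : Set (Fin n → ℝ)) : Prop :=
  ∃ s : Set (Fin n → ℝ), s.Finite ∧ s.Nonempty ∧ P = convexHull ℝ s

/-- The face lattice: the exposed subsets of `P` (intersections with supporting hyperplanes,
together with `∅` and `P`), ordered by inclusion. -/
abbrev Face {n : ℕ} (P : Set (Fin n → ℝ)) : Type := {F : Set (Fin n → ℝ) // IsExposed ℝ P F}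

/-- Dimension of a set: the dimension of its affine hull, `-1` for the empty set. -/
noncomputable def pdim {n : ℕ} (F : Set (Fin n → ℝ)) : ℤ :=
  open Classical in
  if F = ∅ then -1 else (Module.finrank ℝ (vectorSpan ℝ F) : ℤ)

/-- the faces of dimension `k` -/
def facesOf {n : ℕ} (P : Set (Fin n → ℝ)) (k : ℤ) : Set (Set (Fin n → ℝ)) :=
  {F | IsExposed ℝ P F ∧ pdim F = k}

/-- 2-faces containing `e` -/
def up {n : ℕ} (P e : Set (Fin n → ℝ)) : Set (Set (Fin n → ℝ)) := {G ∈ facesOf P 2 | e ⊆ G}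

/-- vertices of `e` -/
def down {n : ℕ} (P e : Set (Fin n → ℝ)) : Set (Set (Fin n → ℝ)) := {v ∈ facesOf P 0 | v ⊆ e}

/-- parallel neighbours of the edge `e` -/
def parNbrs {n : ℕ} (P e : Set (Fin n → ℝ)) : Set (Set (Fin n → ℝ)) :=
  {e' ∈ facesOf P 1 |
    ((down P e ∩ down P e').Nonempty ∧ up P e ∩ up P e' = ∅) ∨
    ((up P e ∩ up P e').Nonempty ∧ down P e ∩ down P e' = ∅)}

/-- Forman–Ricci curvature of the edge `e` -/
noncomputable def forman {n : ℕ} (P e : Set (Fin n → ℝ)) : ℤ :=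
  (up P e).ncard + 2 - (parNbrs P e).ncard

/-- `P` is Forman–Ricci positive -/
def FRPositive {n : ℕ} (P : Set (Fin n → ℝ)) : Prop := ∀ e ∈ facesOf P 1, 0 < forman P e

/-- combinatorial equivalence: isomorphic face lattices -/
def CombEquiv {m n : ℕ} (P : Set (Fin m → ℝ)) (Q : Set (Fin n → ℝ)) : Prop :=
  Nonempty (Face P ≃o Face Q)

end FRPoly
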