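import Pool.Agent.FR.LFace
import Pool.Agent.FR.Poly

set_option linter.unusedSectionVars false

open Finset
open scoped Classical

namespace FRC

noncomputable section

/-- restrictions to `s` of the affine functions on `ℝⁿ` -/
def affL {n : ℕ} (s : Set (Fin n → ℝ)) : Submodule ℝ (s → ℝ) :=
  LinearMap.range
    ({ toFun := fun p v => p.1 v.1 + p.2
       map_add' := by intro p q; ext v; simp; ring
       map_smul' := by intro c p; ext v; simp; ring } :
      ((Module.Dual ℝ (Fin n → ℝ)) × ℝ) →ₗ[ℝ] (s → ℝ))

theorem affL_pointed {n : ℕ} (s : Set (Fin n → ℝ)) [Fintype s] : LFace (affL s) ∅ := by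
  refine ⟨fun _ => 1, ⟨(0, 1), by ext v; simp⟩, fun _ => zero_le_one, ?_⟩
  ext i; simp

/-- the restriction map -/
def affMap {n : ℕ} (s : Set (Fin n → ℝ)) :
    ((Module.Dual ℝ (Fin n → ℝ)) × ℝ) →ₗ[ℝ] (s → ℝ) :=
  { toFun := fun p v => p.1 v.1 + p.2
    map_add' := by intro p q; ext v; simp; ring
    map_smul' := by intro c p; ext v; simp; ring }

theorem affL_eq {n : ℕ} (s : Set (Fin n → ℝ)) : affL s = LinearMap.range (affMap s) := rfl

theorem affMap_apply {n : ℕ} (s : Set (Fin n → ℝ)) (p : (Module.Dual ℝ (Fin n → ℝ)) × ℝ)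
    (v : s) : affMap s p v = p.1 v.1 + p.2 := rfl

theorem mem_affL {n : ℕ} {s : Set (Fin n → ℝ)} {y : s → ℝ} :
    y ∈ affL s ↔ ∃ (p : Module.Dual ℝ (Fin n → ℝ)) (c : ℝ), ∀ v : s, y v = p v.1 + c := by
  rw [affL_eq, LinearMap.mem_range]
  constructor
  · rintro ⟨⟨p, c⟩, rfl⟩
    exact ⟨p, c, fun v => rfl⟩
  · rintro ⟨p, c, h⟩
    exact ⟨(p, c), funext fun v => (h v).symm⟩

/-- the zero set of a nonnegative affine function on a polytope is spanned by vertices -/
theorem zero_hull {n : ℕ} (s : Set (Fin n → ℝ)) (p : Module.Dual ℝ (Fin n → ℝ)) (c : ℝ)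
    (h : ∀ v ∈ s, 0 ≤ p v + c) :
    {x ∈ convexHull ℝ s | p x + c = 0} = convexHull ℝ {v ∈ s | p v + c = 0} := by
  set D : Set (Fin n → ℝ) := {v ∈ s | p v + c = 0} with hD
  have hDz : ∀ x ∈ convexHull ℝ D, p x + c = 0 := by
    intro x hx
    have hconv : Convex ℝ {x : Fin n → ℝ | p x + c = 0} := by
      intro x hx y hy a b ha hb hab
      simp only [Set.mem_ofPred_eq, map_add, map_smul, smul_eq_mul] at hx hy ⊢
      have : a * p x + b * p y + c = a * (p x + c) + b * (p y + c) := by
        have : c = (a + b) * c := by rw [hab, one_mul]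
        linear_combination this
      rw [this, hx, hy]; ring
    exact convexHull_min (fun v hv => hv.2) hconv hx
  have hC : Convex ℝ ({x : Fin n → ℝ | 0 < p x + c} ∪ convexHull ℝ D) := by
    intro x hx y hy a b ha hb hab
    have key : p (a • x + b • y) + c = a * (p x + c) + b * (p y + c) := by
      simp only [map_add, map_smul, smul_eq_mul]
      have : c = (a + b) * c := by rw [hab, one_mul]
      linear_combination this
    have hx0 : 0 ≤ p x + c := by
      rcases hx with hx | hx
      · exact le_of_lt hx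
      · exact le_of_eq (hDz x hx).symm
    have hy0 : 0 ≤ p y + c := by
      rcases hy with hy | hy
      · exact le_of_lt hy
      · exact le_of_eq (hDz y hy).symm
    rcases eq_or_lt_of_le ha with ha0 | ha0
    · have hb1 : b = 1 := by linarith
      rw [← ha0, hb1]; simpa using hy
    · rcases eq_or_lt_of_le hb with hb0 | hb0
      · have ha1 : a = 1 := by linarith
        rw [← hb0, ha1]; simpa using hx
      · rcases hx with hx | hx
        · left
          show 0 < p (a • x + b • y) + c
          rw [key]
          have h1 : 0 < a * (p x + c) := mul_pos ha0 hx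
          have h2 : 0 ≤ b * (p y + c) := mul_nonneg hb hy0
          linarith
        · rcases hy with hy | hy
          · left
            show 0 < p (a • x + b • y) + c
            rw [key]
            have h1 : 0 ≤ a * (p x + c) := mul_nonneg ha hx0
            have h2 : 0 < b * (p y + c) := mul_pos hb0 hy
            linarith
          · right
            exact convex_convexHull ℝ D hx hy ha hb hab
  have hsC : s ⊆ {x : Fin n → ℝ | 0 < p x + c} ∪ convexHull ℝ D := by
    intro v hv
    rcases eq_or_lt_of_le (h v hv) with h0 | h0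
    · right; exact subset_convexHull ℝ D ⟨hv, h0.symm⟩
    · left; exact h0
  ext x
  constructor
  · rintro ⟨hx, hx0⟩
    rcases convexHull_min hsC hC hx with h1 | h1
    · have h1' : 0 < p x + c := h1
      rw [hx0] at h1'
      exact absurd h1' (lt_irrefl _)
    · exact h1
  · intro hx
    exact ⟨convexHull_mono (fun v hv => hv.1) hx, hDz x hx⟩

theorem nonneg_hull {n : ℕ} (s : Set (Fin n → ℝ)) (p : Module.Dual ℝ (Fin n → ℝ)) (c : ℝ)
    (h : ∀ v ∈ s, 0 ≤ p v + c) : ∀ x ∈ convexHull ℝ s, 0 ≤ p x + c := by
  intro x hx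
  have hconv : Convex ℝ {x : Fin n → ℝ | 0 ≤ p x + c} := by
    intro x hx y hy a b ha hb hab
    simp only [Set.mem_ofPred_eq, map_add, map_smul, smul_eq_mul] at hx hy ⊢
    have : a * p x + b * p y + c = a * (p x + c) + b * (p y + c) := by
      have : c = (a + b) * c := by rw [hab, one_mul]
      linear_combination this
    rw [this]
    exact add_nonneg (mul_nonneg ha hx) (mul_nonneg hb hy)
  exact convexHull_min h hconv hx

/-- structure of the exposed faces -/
theorem exposed_iff {n : ℕ} (s F : Set (Fin n → ℝ)) :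
    IsExposed ℝ (convexHull ℝ s) F ↔
      ∃ (p : Module.Dual ℝ (Fin n → ℝ)) (c : ℝ), (∀ v ∈ s, 0 ≤ p v + c) ∧
        F = convexHull ℝ {v ∈ s | p v + c = 0} := by
  constructor
  · intro h
    rcases F.eq_empty_or_nonempty with rfl | hne
    · refine ⟨0, 1, fun v _ => by simp, ?_⟩
      simp
    · obtain ⟨l, hl⟩ := h hne
      obtain ⟨x0, hx0⟩ := hne
      have hx0' := hx0
      rw [hl] at hx0'
      refine ⟨-l.toLinearMap, l x0, ?_, ?_⟩
      · intro v hv
        have := hx0'.2 v (subset_convexHull ℝ s hv)
        simp only [LinearMap.neg_apply, ContinuousLinearMap.coe_coe]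
        linarith
      · rw [← zero_hull]
        · rw [hl]
          ext x
          constructor
          · rintro ⟨h1, h2⟩
            refine ⟨h1, ?_⟩
            have h3 := h2 x0 hx0'.1
            have h4 := hx0'.2 x h1
            simp only [LinearMap.neg_apply, ContinuousLinearMap.coe_coe]
            linarith
          · rintro ⟨h1, h2⟩
            refine ⟨h1, ?_⟩
            intro y hy
            have h4 := hx0'.2 y hy
            simp only [LinearMap.neg_apply, ContinuousLinearMap.coe_coe] at h2
            linarith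
        · intro v hv
          have := hx0'.2 v (subset_convexHull ℝ s hv)
          simp only [LinearMap.neg_apply, ContinuousLinearMap.coe_coe]
          linarith
  · rintro ⟨p, c, hp, rfl⟩
    intro hne
    obtain ⟨x0, hx0⟩ := hne
    rw [← zero_hull s p c hp] at hx0 ⊢
    refine ⟨-(LinearMap.toContinuousLinearMap p), ?_⟩
    ext x
    constructor
    · rintro ⟨h1, h2⟩
      refine ⟨h1, ?_⟩
      intro y hy
      have := nonneg_hull s p c hp y hy
      simp only [neg_apply, LinearMap.coe_toContinuousLinearMap']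
      linarith
    · rintro ⟨h1, h2⟩
      refine ⟨h1, ?_⟩
      have h3 := h2 x0 hx0.1
      have h4 := nonneg_hull s p c hp x h1
      have h5 : p x0 + c = 0 := hx0.2
      simp only [neg_apply, LinearMap.coe_toContinuousLinearMap'] at h3
      linarith

/-- the vertices of `s` in `F` form a face of the configuration, and `F` is their hull -/
theorem exposed_prop {n : ℕ} (s : Set (Fin n → ℝ)) [Fintype s] (F : Set (Fin n → ℝ))
    (h : IsExposed ℝ (convexHull ℝ s) F) :
    LFace (affL s) {v : s | v.1 ∈ F} ∧ F = convexHull ℝ (Subtype.val '' {v : s | v.1 ∈ F}) := by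
  obtain ⟨p, c, hp, hF⟩ := (exposed_iff s F).1 h
  have hmem : ∀ v ∈ s, (v ∈ F ↔ p v + c = 0) := by
    intro v hv
    rw [hF, ← zero_hull s p c hp]
    constructor
    · rintro ⟨_, h2⟩; exact h2
    · intro h2; exact ⟨subset_convexHull ℝ s hv, h2⟩
  constructor
  · refine ⟨fun v => p v.1 + c, mem_affL.2 ⟨p, c, fun v => rfl⟩, fun v => hp v.1 v.2, ?_⟩
    ext v
    exact hmem v.1 v.2
  · have : (Subtype.val '' {v : s | v.1 ∈ F}) = {v ∈ s | p v + c = 0} := by
      ext v
      constructor
      · rintro ⟨w, hw, rfl⟩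
        exact ⟨w.2, (hmem w.1 w.2).1 hw⟩
      · rintro ⟨hv, hv0⟩
        exact ⟨⟨v, hv⟩, (hmem v hv).2 hv0, rfl⟩
    rw [this]; exact hF

theorem lface_prop {n : ℕ} (s : Set (Fin n → ℝ)) [Fintype s] (T : Set s)
    (h : LFace (affL s) T) :
    IsExposed ℝ (convexHull ℝ s) (convexHull ℝ (Subtype.val '' T)) ∧
      T = {v : s | v.1 ∈ convexHull ℝ (Subtype.val '' T)} := by
  obtain ⟨y, hy, hy0, rfl⟩ := h
  obtain ⟨p, c, hpc⟩ := mem_affL.1 hy
  have hp : ∀ v ∈ s, 0 ≤ p v + c := by
    intro v hv
    have := hy0 ⟨v, hv⟩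
    rw [hpc] at this
    exact this
  have hT : (Subtype.val '' {i : s | y i = 0}) = {v ∈ s | p v + c = 0} := by
    ext v
    constructor
    · rintro ⟨w, hw, rfl⟩
      refine ⟨w.2, ?_⟩
      have hw' : y w = 0 := hw
      rw [hpc] at hw'
      exact hw'
    · rintro ⟨hv, hv0⟩
      refine ⟨⟨v, hv⟩, ?_, rfl⟩
      show y ⟨v, hv⟩ = 0
      rw [hpc]
      exact hv0
  constructor
  · rw [exposed_iff]
    exact ⟨p, c, hp, by rw [hT]⟩
  · rw [hT, ← zero_hull s p c hp]
    ext v
    constructor
    · intro hv
      refine ⟨subset_convexHull ℝ s v.2, ?_⟩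
      have hv' : y v = 0 := hv
      rw [hpc] at hv'
      exact hv'
    · rintro ⟨_, hv⟩
      show y v = 0
      rw [hpc]
      exact hv

/-- affine functions vanishing on a set -/
def affAnn {n : ℕ} (A : Set (Fin n → ℝ)) : Submodule ℝ ((Module.Dual ℝ (Fin n → ℝ)) × ℝ) where
  carrier := {p | ∀ v ∈ A, p.1 v + p.2 = 0}
  add_mem' := by
    intro p q hp hq v hv
    have h1 := hp v hv
    have h2 := hq v hv
    simp only [Prod.fst_add, Prod.snd_add, LinearMap.add_apply]
    linarith
  zero_mem' := by intro v _; simp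
  smul_mem' := by
    intro a p hp v hv
    have h1 := hp v hv
    simp only [Prod.smul_fst, Prod.smul_snd, LinearMap.smul_apply, smul_eq_mul]
    rw [← mul_add, h1, mul_zero]

theorem finrank_affAnn_empty {n : ℕ} :
    Module.finrank ℝ (affAnn (∅ : Set (Fin n → ℝ))) = n + 1 := by
  have : affAnn (∅ : Set (Fin n → ℝ)) = ⊤ := by
    rw [eq_top_iff]
    intro p _ v hv
    exact absurd hv (Set.notMem_empty v)
  rw [this, finrank_top, Module.finrank_prod, Subspace.dual_finrank_eq, Module.finrank_fin_fun,
    Module.finrank_self]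

theorem finrank_affAnn {n : ℕ} (A : Set (Fin n → ℝ)) (hA : A.Nonempty) :
    Module.finrank ℝ (vectorSpan ℝ A) + Module.finrank ℝ (affAnn A) = n := by
  obtain ⟨t0, ht0⟩ := hA
  have key : ∀ p : Module.Dual ℝ (Fin n → ℝ), p ∈ (vectorSpan ℝ A).dualAnnihilator ↔
      ∀ v ∈ A, p v = p t0 := by
    intro p
    rw [Submodule.mem_dualAnnihilator]
    constructor
    · intro h v hv
      have := h (v - t0) (vsub_mem_vectorSpan ℝ hv ht0)
      rw [map_sub] at this
      linarith
    · intro h w hw
      rw [vectorSpan_eq_span_vsub_set_right ℝ ht0] at hw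
      induction hw using Submodule.span_induction with
      | mem x hx =>
        obtain ⟨v, hv, rfl⟩ := hx
        simp only [vsub_eq_sub, map_sub]
        rw [h v hv, sub_self]
      | zero => simp
      | add x y _ _ hx hy => rw [map_add, hx, hy, add_zero]
      | smul a x _ hx => rw [map_smul, hx, smul_zero]
  have e : affAnn A ≃ₗ[ℝ] (vectorSpan ℝ A).dualAnnihilator :=
    LinearEquiv.ofBijective
      ({ toFun := fun q => ⟨q.1.1, (key _).2 (by
            intro v hv
            have h1 := q.2 v hv
            have h2 := q.2 t0 ht0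
            linarith)⟩
         map_add' := by intro a b; rfl
         map_smul' := by intro a b; rfl } :
        affAnn A →ₗ[ℝ] (vectorSpan ℝ A).dualAnnihilator)
      (by
        constructor
        · intro a b hab
          have h1 : a.1.1 = b.1.1 := congrArg Subtype.val hab
          have h2 := a.2 t0 ht0
          have h3 := b.2 t0 ht0
          rw [h1] at h2
          apply Subtype.ext
          apply Prod.ext
          · exact h1
          · linarith
        · intro b
          refine ⟨⟨(b.1, - b.1 t0), ?_⟩, ?_⟩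
          · intro v hv
            have := (key b.1).1 b.2 v hv
            simp only
            linarith
          · apply Subtype.ext
            rfl)
  rw [e.finrank_eq]
  have := Subspace.finrank_add_finrank_dualAnnihilator_eq (vectorSpan ℝ A)
  rw [Module.finrank_fin_fun] at this
  exact this

theorem lrk_eq {n : ℕ} (s : Set (Fin n → ℝ)) [Fintype s] (T : Set s) :
    lrk (affL s) T + Module.finrank ℝ (affAnn (Subtype.val '' T)) = n + 1 := by
  set A : Set (Fin n → ℝ) := Subtype.val '' T with hA
  have hker : LinearMap.ker (affMap s) ≤ affAnn A := by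
    intro p hp v hv
    rw [LinearMap.mem_ker] at hp
    obtain ⟨w, hw, rfl⟩ := hv
    have := congrFun hp w
    rw [affMap_apply] at this
    exact this
  have hvan : van (affL s) T = (affAnn A).map (affMap s) := by
    ext y
    rw [mem_van, Submodule.mem_map]
    constructor
    · rintro ⟨hy, hyT⟩
      rw [affL_eq, LinearMap.mem_range] at hy
      obtain ⟨p, rfl⟩ := hy
      refine ⟨p, ?_, rfl⟩
      intro v hv
      obtain ⟨w, hw, rfl⟩ := hv
      exact hyT w hw
    · rintro ⟨p, hp, rfl⟩
      refine ⟨by rw [affL_eq]; exact LinearMap.mem_range_self _ p, ?_⟩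
      intro w hw
      exact hp w.1 ⟨w, hw, rfl⟩
  have h1 : Module.finrank ℝ (affL s) + Module.finrank ℝ (LinearMap.ker (affMap s)) = n + 1 := by
    rw [affL_eq, LinearMap.finrank_range_add_finrank_ker, Module.finrank_prod,
      Subspace.dual_finrank_eq, Module.finrank_fin_fun, Module.finrank_self]
  have h2 : Module.finrank ℝ (van (affL s) T) + Module.finrank ℝ (LinearMap.ker (affMap s))
      = Module.finrank ℝ (affAnn A) := by
    rw [hvan]
    have h3 := LinearMap.finrank_range_add_finrank_ker (K := ℝ) (V := affAnn A)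
      ((affMap s).domRestrict (affAnn A))
    rw [LinearMap.range_domRestrict] at h3
    rw [← h3]
    congr 1
    rw [LinearMap.ker_domRestrict]
    exact (LinearEquiv.finrank_eq (Submodule.comapSubtypeEquivOfLe hker)).symm
  have h4 : Module.finrank ℝ (van (affL s) T) ≤ Module.finrank ℝ (affL s) := finrank_van_le _ _
  rw [lrk]
  omega

/-- The exposed faces of a polytope correspond to the faces of the configuration. -/
theorem bridge {n : ℕ} (s : Set (Fin n → ℝ)) [Fintype s] :
    ∃ Φ : FRPoly.Face (convexHull ℝ s) ≃o LF (affL s),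
      ∀ F, (lrk (affL s) (Φ F).1 : ℤ) = FRPoly.pdim F.1 + 1 := by
  let Φ : FRPoly.Face (convexHull ℝ s) ≃o LF (affL s) :=
    { toFun := fun F => ⟨{v : s | v.1 ∈ F.1}, (exposed_prop s F.1 F.2).1⟩
      invFun := fun T => ⟨convexHull ℝ (Subtype.val '' T.1), (lface_prop s T.1 T.2).1⟩
      left_inv := fun F => Subtype.ext (exposed_prop s F.1 F.2).2.symm
      right_inv := fun T => Subtype.ext (lface_prop s T.1 T.2).2.symm
      map_rel_iff' := by
        intro F G
        constructor
        · intro h
          show F.1 ⊆ G.1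
          rw [(exposed_prop s F.1 F.2).2, (exposed_prop s G.1 G.2).2]
          exact convexHull_mono (Set.image_mono h)
        · intro h v hv
          exact h hv }
  refine ⟨Φ, ?_⟩
  intro F
  have hF := (exposed_prop s F.1 F.2).2
  have h1 := lrk_eq s (Φ F).1
  have hΦ : (Φ F).1 = {v : s | v.1 ∈ F.1} := rfl
  rw [hΦ] at h1 ⊢
  set A : Set (Fin n → ℝ) := Subtype.val '' {v : s | v.1 ∈ F.1} with hA
  unfold FRPoly.pdim
  rcases A.eq_empty_or_nonempty with hAe | hAne
  · have hFe : F.1 = ∅ := by rw [hF, hAe, convexHull_empty]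
    rw [if_pos hFe]
    rw [hAe, finrank_affAnn_empty] at h1
    have : lrk (affL s) {v : s | v.1 ∈ F.1} = 0 := by omega
    rw [this]; norm_num
  · have hFne : F.1 ≠ ∅ := by
      rw [hF]
      exact (convexHull_nonempty_iff.2 hAne).ne_empty
    rw [if_neg hFne]
    have h2 := finrank_affAnn A hAne
    have h3 : vectorSpan ℝ F.1 = vectorSpan ℝ A := by
      rw [hF, ← direction_affineSpan, ← direction_affineSpan, affineSpan_convexHull]
    rw [h3]
    omega

end

end FRC
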