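import Pool.Agent.FR.Basic

set_option linter.unusedSectionVars false

open Finset
open scoped Classical

namespace FRC

noncomputable section

variable {α : Type*} [Lattice α] [BoundedOrder α] [Fintype α] {rk : α → ℕ}

namespace ELC

variable (h : ELC rk)
include h

theorem le_of_two {x y g w : α} (hxy : x ≠ y) (hr : rk x = rk y) (hg : rk g = rk x + 1)
    (h1 : x ≤ g) (h2 : y ≤ g) (h3 : x ≤ w) (h4 : y ≤ w) : g ≤ w := by
  have a1 := h.lt_rk_sup hxy hr
  have a2 : x ⊔ y ≤ g := sup_le h1 h2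
  have a3 : x ⊔ y = g := h.eq_of_rk a2 (by omega)
  rw [← a3]
  exact sup_le h3 h4

theorem other_atom {a g v : α} (hag : a ≤ g) (hg : rk g = rk a + 2) (v : α) :
    ∃ u ∈ lv rk a g 1, u ≠ v := by
  have hc := h.lv_card_two hag hg
  obtain ⟨u, hu, hne⟩ := Finset.exists_mem_ne (by omega : 1 < (lv rk a g 1).card) v
  exact ⟨u, hu, hne⟩

theorem no_three {a g x y z : α} (hag : a ≤ g) (hg : rk g = rk a + 2)
    (hx : x ∈ lv rk a g 1) (hy : y ∈ lv rk a g 1) (hz : z ∈ lv rk a g 1)
    (hxy : x ≠ y) (hxz : x ≠ z) (hyz : y ≠ z) : False := by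
  have hc := h.lv_card_two hag hg
  have hsub : ({x, y, z} : Finset α) ⊆ lv rk a g 1 := by
    intro t ht
    simp only [mem_insert, mem_singleton] at ht
    rcases ht with rfl | rfl | rfl <;> assumption
  have h3 : ({x, y, z} : Finset α).card = 3 := Finset.card_eq_three.2 ⟨x, y, z, hxy, hxz, hyz, rfl⟩
  have := Finset.card_le_card hsub
  omega

/-- counting edges by the number of vertices in `C` -/
theorem cut_count {a b : α} (hab : a ≤ b) (hl : rk b = rk a + 3) (C : Finset α)
    (hC : C ⊆ lv rk a b 1) :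
    ((lv rk a b 2).filter (fun e => (lv rk a e 1 ∩ C).card = 1)).card
      + 2 * ((lv rk a b 2).filter (fun e => (lv rk a e 1 ∩ C).card = 2)).card = 2 * C.card := by
  have key := sum_lv_comm (rk := rk) (a := a) (b := b) (i := 2) (j := 1) (by norm_num)
    (fun _ y => if y ∈ C then (1 : ℕ) else 0)
  have hL : ∑ x ∈ lv rk a b 2, ∑ y ∈ lv rk a x 1, (if y ∈ C then (1 : ℕ) else 0)
      = ∑ x ∈ lv rk a b 2, ((if (lv rk a x 1 ∩ C).card = 1 then 1 else 0)
        + 2 * (if (lv rk a x 1 ∩ C).card = 2 then 1 else 0)) := by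
    apply Finset.sum_congr rfl
    intro e he
    rw [mem_lv] at he
    have hc := h.lv_card_two he.1 he.2.2
    have h1 : ∑ y ∈ lv rk a e 1, (if y ∈ C then (1 : ℕ) else 0) = (lv rk a e 1 ∩ C).card := by
      rw [Finset.sum_boole, Finset.filter_mem_eq_inter]; simp
    have h2 : (lv rk a e 1 ∩ C).card ≤ 2 := by
      rw [← hc]; exact Finset.card_le_card Finset.inter_subset_left
    rw [h1]
    interval_cases (lv rk a e 1 ∩ C).card <;> simp
  have hR : ∑ y ∈ lv rk a b 1, ∑ x ∈ lv rk y b (2 - 1), (if y ∈ C then (1 : ℕ) else 0)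
      = 2 * C.card := by
    have : ∀ y ∈ lv rk a b 1, ∑ x ∈ lv rk y b (2 - 1), (if y ∈ C then (1 : ℕ) else 0)
        = if y ∈ C then 2 else 0 := by
      intro y hy
      rw [mem_lv] at hy
      have hc := h.lv_card_two hy.2.1 (by omega : rk b = rk y + 2)
      rw [Finset.sum_const, show (2 - 1 : ℕ) = 1 from rfl, hc]
      split_ifs <;> simp
    rw [Finset.sum_congr rfl this, ← Finset.sum_filter, Finset.filter_mem_eq_inter,
      Finset.inter_eq_right.2 hC, Finset.sum_const]
    simp [mul_comm]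
  rw [hL, hR, Finset.sum_add_distrib, ← Finset.mul_sum] at key
  simpa [Finset.sum_boole] using key

/-- In a polygon `[a,b]` the number of edges with exactly one vertex in `C` is even. -/
theorem cut_even {a b : α} (hab : a ≤ b) (hl : rk b = rk a + 3) (C : Finset α)
    (hC : C ⊆ lv rk a b 1) :
    Even ((lv rk a b 2).filter (fun e => (lv rk a e 1 ∩ C).card = 1)).card := by
  have := h.cut_count hab hl C hC
  rw [Nat.even_iff]
  omega

/-- ... and it is at least 2 if `C` is a nonempty proper subset of the vertices. -/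
theorem two_le_cut {a b : α} (hab : a ≤ b) (hl : rk b = rk a + 3) (C : Finset α)
    (hC : C ⊆ lv rk a b 1) (h1 : C.Nonempty) (h2 : C ≠ lv rk a b 1) :
    2 ≤ ((lv rk a b 2).filter (fun e => (lv rk a e 1 ∩ C).card = 1)).card := by
  have hev := h.cut_even hab hl C hC
  have hne : ((lv rk a b 2).filter (fun e => (lv rk a e 1 ∩ C).card = 1)).Nonempty := by
    by_contra hcon
    rw [Finset.not_nonempty_iff_eq_empty] at hcon
    apply h2
    apply (h.conn a b hab (by omega)).2 C hC h1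
    rintro u hu v hv ⟨e, he, hue, hve⟩
    by_contra hvC
    have : e ∈ (lv rk a b 2).filter (fun e => (lv rk a e 1 ∩ C).card = 1) := by
      rw [mem_filter]
      refine ⟨he, ?_⟩
      rw [mem_lv] at he
      have hu' := mem_lv.1 (hC hu)
      have hv' := mem_lv.1 hv
      have hue' : u ∈ lv rk a e 1 := mem_lv.2 ⟨hu'.1, hue, hu'.2.2⟩
      have hve' : v ∈ lv rk a e 1 := mem_lv.2 ⟨hv'.1, hve, hv'.2.2⟩
      have huv : u ≠ v := by rintro rfl; exact hvC hu
      rw [Finset.card_eq_one]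
      refine ⟨u, ?_⟩
      ext x
      rw [mem_inter, mem_singleton]
      constructor
      · rintro ⟨hx1, hx2⟩
        by_contra hxu
        by_cases hxv : x = v
        · subst hxv; exact hvC hx2
        · exact h.no_three he.1 he.2.2 hue' hve' hx1 huv (Ne.symm hxu) (Ne.symm hxv)
      · rintro rfl; exact ⟨hue', hu⟩
    rw [hcon] at this
    simp at this
  have := hne.card_pos
  rw [Nat.even_iff] at hev
  omega

theorem leave_eq_cut {a G w : α} (hG : rk G = rk a + 3) :
    (lv rk a G 2).filter (fun g => ¬ g ≤ w ∧ ∃ v ∈ lv rk a w 1, v ≤ g)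
      = (lv rk a G 2).filter (fun e => (lv rk a e 1 ∩ (lv rk a G 1).filter (· ≤ w)).card = 1) := by
  apply Finset.filter_congr
  intro g hg
  rw [mem_lv] at hg
  constructor
  · rintro ⟨h1, v, hv, hvg⟩
    rw [mem_lv] at hv
    rw [Finset.card_eq_one]
    refine ⟨v, ?_⟩
    ext x
    rw [mem_inter, mem_singleton, mem_filter, mem_lv, mem_lv]
    constructor
    · rintro ⟨hx1, hx2, hx3⟩
      by_contra hxv
      exact h1 (h.le_of_two hxv (by omega) (by omega) hx1.2.1 hvg hx3 hv.2.1)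
    · rintro rfl
      exact ⟨⟨hv.1, hvg, hv.2.2⟩, ⟨hv.1, hvg.trans hg.2.1, hv.2.2⟩, hv.2.1⟩
  · intro hc
    obtain ⟨v, hv⟩ := Finset.card_eq_one.1 hc
    have hv' : v ∈ lv rk a g 1 ∩ (lv rk a G 1).filter (· ≤ w) := by rw [hv]; simp
    rw [mem_inter, mem_filter] at hv'
    have hv1 := mem_lv.1 hv'.1
    refine ⟨?_, v, mem_lv.2 ⟨hv1.1, hv'.2.2, hv1.2.2⟩, hv1.2.1⟩
    intro hgw
    obtain ⟨u, hu, huv⟩ := h.other_atom (v := v) hg.1 hg.2.2 v
    have hu1 := mem_lv.1 hu
    have : u ∈ lv rk a g 1 ∩ (lv rk a G 1).filter (· ≤ w) := by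
      rw [mem_inter, mem_filter]
      exact ⟨hu, mem_lv.2 ⟨hu1.1, hu1.2.1.trans hg.2.1, hu1.2.2⟩, hu1.2.1.trans hgw⟩
    rw [hv, mem_singleton] at this
    exact huv this

theorem filter_le_eq {a G w : α} :
    (lv rk a G 1).filter (· ≤ w) = lv rk a (G ⊓ w) 1 := by
  ext x
  rw [mem_filter, mem_lv, mem_lv, le_inf_iff]
  tauto

/-- If the polygon `G` meets `w` and is not below `w`, exactly two of its edges leave `w`. -/
theorem polygon_leave {a G w : α} (haG : a ≤ G) (haw : a ≤ w) (hG : rk G = rk a + 3)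
    (hw : ¬ G ≤ w) (ht : ∃ v ∈ lv rk a w 1, v ≤ G) :
    ((lv rk a G 2).filter (fun g => ¬ g ≤ w ∧ ∃ v ∈ lv rk a w 1, v ≤ g)).card = 2 := by
  rw [h.leave_eq_cut hG]
  have hcount := h.cut_count haG hG ((lv rk a G 1).filter (· ≤ w)) (filter_subset _ _)
  rw [h.filter_le_eq] at hcount ⊢
  have haI : a ≤ G ⊓ w := le_inf haG haw
  have hI : rk (G ⊓ w) < rk a + 3 := by
    rw [← hG]
    exact h.rk_lt (lt_of_le_of_ne inf_le_left (fun hh => hw (inf_eq_left.1 hh)))
  obtain ⟨v, hv, hvG⟩ := ht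
  rw [mem_lv] at hv
  have hvI : v ≤ G ⊓ w := le_inf hvG hv.2.1
  have hI2 := h.rk_le hvI
  rcases Nat.lt_or_ge (rk (G ⊓ w)) (rk a + 2) with hlt | hge
  · have h1 : rk (G ⊓ w) = rk a + 1 := by omega
    rw [h.lv_top haI h1] at hcount ⊢
    have : ((lv rk a G 2).filter (fun e => (lv rk a e 1 ∩ {G ⊓ w}).card = 2)) = ∅ := by
      apply Finset.filter_false_of_mem
      intro e _ hcon
      have := Finset.card_le_card (Finset.inter_subset_right (s₁ := lv rk a e 1) (s₂ := {G ⊓ w}))
      rw [hcon, Finset.card_singleton] at this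
      omega
    rw [this] at hcount
    simpa using hcount
  · have h1 : rk (G ⊓ w) = rk a + 2 := by omega
    have hc2 := h.lv_card_two haI h1
    have : ((lv rk a G 2).filter (fun e => (lv rk a e 1 ∩ lv rk a (G ⊓ w) 1).card = 2))
        = {G ⊓ w} := by
      ext e
      rw [mem_filter, mem_singleton]
      constructor
      · rintro ⟨he, hce⟩
        rw [mem_lv] at he
        obtain ⟨x, y, hxy, hs⟩ := Finset.card_eq_two.1 hce
        have hx : x ∈ lv rk a e 1 ∩ lv rk a (G ⊓ w) 1 := by rw [hs]; simp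
        have hy : y ∈ lv rk a e 1 ∩ lv rk a (G ⊓ w) 1 := by rw [hs]; simp
        rw [mem_inter, mem_lv, mem_lv] at hx hy
        exact h.eq_of_two hxy (by omega) (by omega) (by omega) hx.1.2.1 hy.1.2.1 hx.2.2.1 hy.2.2.1
      · rintro rfl
        refine ⟨mem_lv.2 ⟨haI, inf_le_left, h1⟩, ?_⟩
        rw [Finset.inter_self, hc2]
    rw [this, hc2, Finset.card_singleton] at hcount
    omega

/-- If the polygon `G` meets `w` and is not below `w`, its vertices outside `w` form a
(nonempty) path. -/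
theorem polygon_outer {a G w : α} (haG : a ≤ G) (haw : a ≤ w) (hG : rk G = rk a + 3)
    (hw : ¬ G ≤ w) (ht : ∃ v ∈ lv rk a w 1, v ≤ G) :
    Conn (adj rk a G) ((lv rk a G 1).filter (fun v => ¬ v ≤ w)) := by
  have hleave := h.polygon_leave haG haw hG hw ht
  have haI : a ≤ G ⊓ w := le_inf haG haw
  have hI : rk (G ⊓ w) < rk a + 3 := by
    rw [← hG]
    exact h.rk_lt (lt_of_le_of_ne inf_le_left (fun hh => hw (inf_eq_left.1 hh)))
  constructor
  · -- nonempty
    by_contra hcon
    rw [Finset.not_nonempty_iff_eq_empty] at hcon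
    have hall : ∀ v ∈ lv rk a G 1, v ≤ w := by
      intro v hv
      by_contra hvw
      have : v ∈ (lv rk a G 1).filter (fun v => ¬ v ≤ w) := mem_filter.2 ⟨hv, hvw⟩
      rw [hcon] at this
      simp at this
    -- all edges below w
    obtain ⟨g, hg⟩ := Finset.card_pos.1 (by rw [hleave]; norm_num)
    rw [mem_filter, mem_lv] at hg
    obtain ⟨u, hu, -⟩ := h.other_atom (v := a) hg.1.1 hg.1.2.2 a
    obtain ⟨u', hu', hne⟩ := h.other_atom (v := u) hg.1.1 hg.1.2.2 u
    rw [mem_lv] at hu hu'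
    apply hg.2.1
    exact h.le_of_two hne (by omega) (by omega) hu'.2.1 hu.2.1
      (hall _ (mem_lv.2 ⟨hu'.1, hu'.2.1.trans hg.1.2.1, hu'.2.2⟩))
      (hall _ (mem_lv.2 ⟨hu.1, hu.2.1.trans hg.1.2.1, hu.2.2⟩))
  · intro S hS hne hcl
    by_contra hST
    set T := (lv rk a G 1).filter (fun v => ¬ v ≤ w) with hT
    set L := (lv rk a G 2).filter (fun g => ¬ g ≤ w ∧ ∃ v ∈ lv rk a w 1, v ≤ g) with hL
    have hTsub : T ⊆ lv rk a G 1 := filter_subset _ _
    obtain ⟨v0, hv0, hv0G⟩ := ht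
    have hv0' := mem_lv.1 hv0
    have hv0T : v0 ∉ T := fun hh => (mem_filter.1 hh).2 hv0'.2.1
    have hv0m : v0 ∈ lv rk a G 1 := mem_lv.2 ⟨hv0'.1, hv0G, hv0'.2.2⟩
    -- the cut edges of a closed set are leaving edges
    have hcut : ∀ C : Finset α, C ⊆ T → (∀ u ∈ C, ∀ v ∈ T, adj rk a G u v → v ∈ C) →
        ∀ e ∈ (lv rk a G 2).filter (fun e => (lv rk a e 1 ∩ C).card = 1),
          e ∈ L ∧ (∃ u ∈ C, u ∈ lv rk a e 1) ∧ ∃ v ∈ lv rk a e 1, v ≤ w := by
      intro C hC hCcl e he
      rw [mem_filter] at he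
      obtain ⟨he1, he2⟩ := he
      have he1' := mem_lv.1 he1
      obtain ⟨u, hu⟩ := Finset.card_eq_one.1 he2
      have hu' : u ∈ lv rk a e 1 ∩ C := by rw [hu]; simp
      rw [mem_inter] at hu'
      obtain ⟨v, hv, hvu⟩ := h.other_atom (v := u) he1'.1 he1'.2.2 u
      have hvC : v ∉ C := by
        intro hh
        have : v ∈ lv rk a e 1 ∩ C := mem_inter.2 ⟨hv, hh⟩
        rw [hu, mem_singleton] at this
        exact hvu this
      have hv' := mem_lv.1 hv
      have hu1 := mem_lv.1 hu'.1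
      have hvw : v ≤ w := by
        by_contra hvw
        apply hvC
        exact hCcl u hu'.2 v (mem_filter.2 ⟨mem_lv.2 ⟨hv'.1, hv'.2.1.trans he1'.2.1, hv'.2.2⟩, hvw⟩)
          ⟨e, he1, hu1.2.1, hv'.2.1⟩
      refine ⟨?_, ⟨u, hu'.2, hu'.1⟩, v, hv, hvw⟩
      rw [hL, mem_filter]
      refine ⟨he1, ?_, v, mem_lv.2 ⟨hv'.1, hvw, hv'.2.2⟩, hv'.2.1⟩
      intro hew
      exact (mem_filter.1 (hC hu'.2)).2 (hu1.2.1.trans hew)
    have hS2 := h.two_le_cut haG hG S (hS.trans hTsub) hne
      (by rintro rfl; exact hv0T (hS hv0m))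
    have hS'ne : (T \ S).Nonempty := by
      rw [Finset.sdiff_nonempty]
      exact fun hh => hST (Finset.Subset.antisymm hS hh)
    have hS'cl : ∀ u ∈ T \ S, ∀ v ∈ T, adj rk a G u v → v ∈ T \ S := by
      intro u hu v hv huv
      rw [mem_sdiff] at hu ⊢
      refine ⟨hv, fun hvS => hu.2 (hcl v hvS u hu.1 (adj_symm huv))⟩
    have hS'2 := h.two_le_cut haG hG (T \ S) (Finset.sdiff_subset.trans hTsub) hS'ne
      (by intro hh; exact hv0T (Finset.sdiff_subset (hh ▸ hv0m)))
    have hd : Disjoint ((lv rk a G 2).filter (fun e => (lv rk a e 1 ∩ S).card = 1))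
        ((lv rk a G 2).filter (fun e => (lv rk a e 1 ∩ (T \ S)).card = 1)) := by
      rw [Finset.disjoint_left]
      intro e he1 he2
      obtain ⟨-, ⟨u, hu1, hu2⟩, v, hv1, hv2⟩ := hcut S hS hcl e he1
      obtain ⟨-, ⟨u', hu1', hu2'⟩, -⟩ := hcut (T \ S) Finset.sdiff_subset hS'cl e he2
      have he := mem_lv.1 (mem_filter.1 he1).1
      refine h.no_three he.1 he.2.2 hu2 hu2' hv1 ?_ ?_ ?_
      · rintro rfl; exact (mem_sdiff.1 hu1').2 hu1
      · rintro rfl; exact (mem_filter.1 (hS hu1)).2 hv2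
      · rintro rfl; exact (mem_filter.1 (mem_sdiff.1 hu1').1).2 hv2
    have hsub : (lv rk a G 2).filter (fun e => (lv rk a e 1 ∩ S).card = 1)
        ∪ (lv rk a G 2).filter (fun e => (lv rk a e 1 ∩ (T \ S)).card = 1) ⊆ L := by
      apply Finset.union_subset
      · intro e he; exact (hcut S hS hcl e he).1
      · intro e he; exact (hcut (T \ S) Finset.sdiff_subset hS'cl e he).1
    have := Finset.card_le_card hsub
    rw [Finset.card_union_of_disjoint hd, hleave] at this
    omega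

/-- an atom outside a coatom -/
theorem exists_outer {a b w : α} {m : ℕ} (hab : a ≤ b) (hm : 1 ≤ m) (hb : rk b = rk a + m + 1)
    (hw : w ∈ lv rk a b m) : ∃ x ∈ lv rk a b 1, ¬ x ≤ w := by
  induction m generalizing a with
  | zero => omega
  | succ m ih =>
    have hw' := mem_lv.1 hw
    rcases Nat.eq_zero_or_pos m with rfl | hpos
    · obtain ⟨x, hx, hne⟩ := h.other_atom (v := w) hab (by omega) w
      refine ⟨x, hx, fun hle => hne ?_⟩
      rw [mem_lv] at hx
      exact h.eq_of_rk hle (by omega)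
    · obtain ⟨v, hv⟩ := h.exists_lv (i := 1) hw'.1 (by omega)
      rw [mem_lv] at hv
      obtain ⟨g, hg, hgw⟩ := ih (a := v) (hv.2.1.trans hw'.2.1) hpos (by omega)
        (mem_lv.2 ⟨hv.2.1, hw'.2.1, by omega⟩)
      rw [mem_lv] at hg
      obtain ⟨x, hx, hne⟩ := h.other_atom (v := v) (hv.1.trans hg.1) (by omega : rk g = rk a + 2) v
      rw [mem_lv] at hx
      refine ⟨x, mem_lv.2 ⟨hx.1, hx.2.1.trans hg.2.1, hx.2.2⟩, fun hxw => hgw ?_⟩
      exact h.le_of_two hne (by omega) (by omega) hx.2.1 hg.1 hxw hv.2.1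

/-- simultaneous induction for `outer_conn` and `lvg_conn` -/
theorem outer_lvg_aux (m : ℕ) : ∀ (a b w : α), a ≤ b → rk b = rk a + m + 1 → w ∈ lv rk a b m →
    (1 ≤ m → Conn (adj rk a b) ((lv rk a b 1).filter (fun v => ¬ v ≤ w))) ∧
    (3 ≤ m → Conn (fun g g' => ∃ G ∈ lv rk a b 3, g ≤ G ∧ g' ≤ G) (lvg rk a b w)) := by
  induction m with
  | zero => intro a b w _ _ _; exact ⟨by omega, by omega⟩
  | succ m ih =>
    intro a b w hab hb hw
    have hw' := mem_lv.1 hw
    have hbw : ¬ b ≤ w := by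
      intro hh
      have := h.rk_le hh
      omega
    have hLV : 3 ≤ m + 1 →
        Conn (fun g g' => ∃ G ∈ lv rk a b 3, g ≤ G ∧ g' ≤ G) (lvg rk a b w) := by
      intro hm
      -- all or none at an atom v of w
      have hone : ∀ Z ⊆ lvg rk a b w,
          (∀ u ∈ Z, ∀ v ∈ lvg rk a b w, (∃ G ∈ lv rk a b 3, u ≤ G ∧ v ≤ G) → v ∈ Z) →
          ∀ v ∈ lv rk a w 1, (∃ g ∈ Z, v ≤ g) → ∀ g ∈ lv rk v b 1, ¬ g ≤ w → g ∈ Z := by
        rintro Z hZ hcl v hv ⟨g0, hg0, hvg0⟩ g hg hgw
        have hv' := mem_lv.1 hv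
        have hO := (ih v b w (hv'.2.1.trans hw'.2.1) (by omega)
          (mem_lv.2 ⟨hv'.2.1, hw'.2.1, by omega⟩)).1 (by omega)
        refine hO.induct (fun g => g ∈ Z) ?_ ?_ g (mem_filter.2 ⟨hg, hgw⟩)
        · refine ⟨g0, mem_filter.2 ⟨?_, ?_⟩, hg0⟩
          · have := mem_lv.1 (mem_filter.1 (hZ hg0)).1
            exact mem_lv.2 ⟨hvg0, this.2.1, by omega⟩
          · exact (mem_filter.1 (hZ hg0)).2.1
        · rintro x hx hxZ y hy ⟨G, hG, hxG, hyG⟩
          rw [mem_filter] at hx hy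
          rw [mem_lv] at hG
          have hx1 := mem_lv.1 hx.1
          have hy1 := mem_lv.1 hy.1
          refine hcl x hxZ y ?_ ⟨G, mem_lv.2 ⟨hv'.1.trans hG.1, hG.2.1, by omega⟩, hxG, hyG⟩
          unfold lvg
          rw [mem_filter]
          exact ⟨mem_lv.2 ⟨hv'.1.trans hy1.1, hy1.2.1, by omega⟩, hy.2, v, hv, hy1.1⟩
      constructor
      · obtain ⟨v, hv⟩ := h.exists_lv (i := 1) hw'.1 (by omega)
        have hv' := mem_lv.1 hv
        obtain ⟨g, hg, hgw⟩ := h.exists_outer (m := m) (hv'.2.1.trans hw'.2.1) (by omega) (by omega)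
          (mem_lv.2 ⟨hv'.2.1, hw'.2.1, by omega⟩)
        have hg' := mem_lv.1 hg
        refine ⟨g, ?_⟩
        unfold lvg
        rw [mem_filter]
        exact ⟨mem_lv.2 ⟨hv'.1.trans hg'.1, hg'.2.1, by omega⟩, hgw, v, hv, hg'.1⟩
      · intro Z hZ hne hcl
        have hall := (h.conn a w hw'.1 (by omega)).induct
          (fun v => ∀ g ∈ lv rk v b 1, ¬ g ≤ w → g ∈ Z) ?_ ?_
        · apply Finset.Subset.antisymm hZ
          intro g hg
          unfold lvg at hg
          rw [mem_filter] at hg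
          obtain ⟨hg1, hg2, v, hv, hvg⟩ := hg
          have hv' := mem_lv.1 hv
          rw [mem_lv] at hg1
          exact hall v hv g (mem_lv.2 ⟨hvg, hg1.2.1, by omega⟩) hg2
        · obtain ⟨g, hg⟩ := hne
          have hg' := hZ hg
          unfold lvg at hg'
          rw [mem_filter] at hg'
          obtain ⟨hg1, hg2, v, hv, hvg⟩ := hg'
          exact ⟨v, hv, hone Z hZ hcl v hv ⟨g, hg, hvg⟩⟩
        · rintro v hv hPv v' hv' ⟨g0, hg0, hvg0, hvg0'⟩
          by_cases hvv : v = v'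
          · subst hvv; exact hPv
          have hg0' := mem_lv.1 hg0
          have hv1 := mem_lv.1 hv
          have hv1' := mem_lv.1 hv'
          obtain ⟨G, hG, hGw⟩ := h.exists_outer (a := g0) (b := b) (w := w) (m := m - 1)
            (hg0'.2.1.trans hw'.2.1) (by omega) (by omega)
            (mem_lv.2 ⟨hg0'.2.1, hw'.2.1, by omega⟩)
          have hG' := mem_lv.1 hG
          -- the second line of G at an atom x of g0
          have hsec : ∀ x ∈ lv rk a w 1, x ≤ g0 →
              ∃ g ∈ lv rk x b 1, g ≤ G ∧ ¬ g ≤ w := by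
            intro x hx hxg
            have hx' := mem_lv.1 hx
            obtain ⟨g, hg, hgne⟩ := h.other_atom (v := g0) (hxg.trans hG'.1)
              (by omega : rk G = rk x + 2) g0
            rw [mem_lv] at hg
            refine ⟨g, mem_lv.2 ⟨hg.1, hg.2.1.trans hG'.2.1, hg.2.2⟩, hg.2.1, fun hgw => hGw ?_⟩
            exact h.le_of_two hgne (by omega) (by omega) hg.2.1 hG'.1 hgw hg0'.2.1
          obtain ⟨g1, hg1, hg1G, hg1w⟩ := hsec v hv hvg0
          obtain ⟨g2, hg2, hg2G, hg2w⟩ := hsec v' hv' hvg0'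
          have hg1Z := hPv g1 hg1 hg1w
          have hg2' := mem_lv.1 hg2
          have hg2Z : g2 ∈ Z := by
            refine hcl g1 hg1Z g2 ?_ ⟨G, mem_lv.2 ⟨hg0'.1.trans hG'.1, hG'.2.1, by omega⟩,
              hg1G, hg2G⟩
            unfold lvg
            rw [mem_filter]
            exact ⟨mem_lv.2 ⟨hv1'.1.trans hg2'.1, hg2'.2.1, by omega⟩, hg2w, v', hv', hg2'.1⟩
          exact hone Z hZ hcl v' hv' ⟨g2, hg2Z, hg2'.1⟩
    refine ⟨?_, hLV⟩
    intro _
    rcases Nat.lt_or_ge m 1 with hm0 | hm1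
    · -- m = 0 : length 2
      have hm : m = 0 := by omega
      subst hm
      obtain ⟨x, hx, hxw⟩ := h.exists_outer hab (by omega) hb hw
      refine ⟨⟨x, mem_filter.2 ⟨hx, hxw⟩⟩, ?_⟩
      intro S hS hne _
      apply Finset.Subset.antisymm hS
      intro y hy
      obtain ⟨z, hz⟩ := hne
      have hz' := mem_filter.1 (hS hz)
      rw [mem_filter] at hy
      have hwm : w ∈ lv rk a b 1 := hw
      by_cases hyz : y = z
      · subst hyz; exact hz
      · exfalso
        refine h.no_three hab (by omega) hy.1 hz'.1 hwm hyz ?_ ?_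
        · rintro rfl; exact hy.2 le_rfl
        · rintro rfl; exact hz'.2 le_rfl
    · rcases Nat.lt_or_ge m 2 with hm2 | hm2
      · have hm : m = 1 := by omega
        subst hm
        obtain ⟨v, hv⟩ := h.exists_lv (i := 1) hw'.1 (by omega)
        exact h.polygon_outer hab hw'.1 (by omega) hbw ⟨v, hv, (mem_lv.1 hv).2.1.trans hw'.2.1⟩
      · have hLV' := hLV (by omega)
        obtain ⟨x0, hx0, hx0w⟩ := h.exists_outer hab (by omega) hb hw
        refine ⟨⟨x0, mem_filter.2 ⟨hx0, hx0w⟩⟩, ?_⟩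
        set T := (lv rk a b 1).filter (fun v => ¬ v ≤ w) with hT
        -- every leaving line meets every closed set
        have hmeet : ∀ S ⊆ T, S.Nonempty → (∀ u ∈ S, ∀ v ∈ T, adj rk a b u v → v ∈ S) →
            ∀ g ∈ lvg rk a b w, ∃ u ∈ S, u ≤ g := by
          intro S hS hne hcl
          have := hLV'.2 ((lvg rk a b w).filter (fun g => ∃ u ∈ S, u ≤ g)) (filter_subset _ _) ?_ ?_
          · intro g hg
            rw [← this] at hg
            exact (mem_filter.1 hg).2
          · by_contra hcon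
            rw [Finset.not_nonempty_iff_eq_empty] at hcon
            have hSall := (h.conn a b hab (by omega)).2 S (hS.trans (filter_subset _ _)) hne ?_
            · obtain ⟨v, hv⟩ := h.exists_lv (i := 1) hw'.1 (by omega)
              have hv' := mem_lv.1 hv
              have : v ∈ S := by
                rw [hSall]; exact mem_lv.2 ⟨hv'.1, hv'.2.1.trans hw'.2.1, hv'.2.2⟩
              exact (mem_filter.1 (hS this)).2 hv'.2.1
            · rintro u hu v hv ⟨e, he, hue, hve⟩
              by_cases hvw : v ≤ w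
              · exfalso
                have hu' := mem_filter.1 (hS hu)
                have hv' := mem_lv.1 hv
                have : e ∈ (lvg rk a b w).filter (fun g => ∃ u ∈ S, u ≤ g) := by
                  rw [mem_filter]
                  refine ⟨?_, u, hu, hue⟩
                  unfold lvg
                  rw [mem_filter]
                  exact ⟨he, fun hew => hu'.2 (hue.trans hew), v,
                    mem_lv.2 ⟨hv'.1, hvw, hv'.2.2⟩, hve⟩
                rw [hcon] at this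
                simp at this
              · exact hcl u hu v (mem_filter.2 ⟨hv, hvw⟩) ⟨e, he, hue, hve⟩
          · rintro g hg g' hg' ⟨G, hG, hgG, hgG'⟩
            rw [mem_filter] at hg ⊢
            refine ⟨hg', ?_⟩
            obtain ⟨hg1, u, hu, hug⟩ := hg
            have hG' := mem_lv.1 hG
            have hu' := mem_filter.1 (hS hu)
            have hu1 := mem_lv.1 hu'.1
            unfold lvg at hg'
            rw [mem_filter] at hg'
            obtain ⟨hg2, hg2w, v, hv, hvg⟩ := hg'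
            have hv' := mem_lv.1 hv
            have hg2' := mem_lv.1 hg2
            have hGw : ¬ G ≤ w := fun hh => hu'.2 ((hug.trans hgG).trans hh)
            have hO := h.polygon_outer hG'.1 hw'.1 hG'.2.2 hGw ⟨v, hv, hvg.trans hgG'⟩
            have hallS := hO.induct (fun x => x ∈ S) ?_ ?_
            · obtain ⟨y, hy, hyv⟩ := h.other_atom (v := v) hg2'.1 hg2'.2.2 v
              rw [mem_lv] at hy
              refine ⟨y, hallS y (mem_filter.2 ⟨mem_lv.2 ⟨hy.1, hy.2.1.trans hgG', hy.2.2⟩, ?_⟩),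
                hy.2.1⟩
              intro hyw
              exact hg2w (h.le_of_two hyv (by omega) (by omega) hy.2.1 hvg hyw hv'.2.1)
            · exact ⟨u, mem_filter.2 ⟨mem_lv.2 ⟨hu1.1, hug.trans hgG, hu1.2.2⟩, hu'.2⟩, hu⟩
            · rintro x hx hxS y hy ⟨e, he, hxe, hye⟩
              rw [mem_filter] at hx hy
              rw [mem_lv] at he
              have hy1 := mem_lv.1 hy.1
              exact hcl x hxS y (mem_filter.2 ⟨mem_lv.2 ⟨hy1.1, hy1.2.1.trans hG'.2.1, hy1.2.2⟩,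
                hy.2⟩) ⟨e, mem_lv.2 ⟨he.1, he.2.1.trans hG'.2.1, he.2.2⟩, hxe, hye⟩
        intro S hS hne hcl
        by_contra hST
        have hS'ne : (T \ S).Nonempty := by
          rw [Finset.sdiff_nonempty]
          exact fun hh => hST (Finset.Subset.antisymm hS hh)
        have hS'cl : ∀ u ∈ T \ S, ∀ v ∈ T, adj rk a b u v → v ∈ T \ S := by
          intro u hu v hv huv
          rw [mem_sdiff] at hu ⊢
          refine ⟨hv, fun hvS => hu.2 (hcl v hvS u hu.1 (adj_symm huv))⟩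
        obtain ⟨g, hg⟩ := hLV'.1
        obtain ⟨u, hu, hug⟩ := hmeet S hS hne hcl g hg
        obtain ⟨u', hu', hug'⟩ := hmeet (T \ S) Finset.sdiff_subset hS'ne hS'cl g hg
        unfold lvg at hg
        rw [mem_filter] at hg
        obtain ⟨hg1, hg2, v, hv, hvg⟩ := hg
        have hg1' := mem_lv.1 hg1
        have hu1 := mem_filter.1 (hS hu)
        have hu1' := mem_filter.1 (mem_sdiff.1 hu').1
        have hv' := mem_lv.1 hv
        have m1 := mem_lv.1 hu1.1
        have m2 := mem_lv.1 hu1'.1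
        refine h.no_three hg1'.1 hg1'.2.2 (x := u) (y := u') (z := v)
          (mem_lv.2 ⟨m1.1, hug, m1.2.2⟩) (mem_lv.2 ⟨m2.1, hug', m2.2.2⟩)
          (mem_lv.2 ⟨hv'.1, hvg, hv'.2.2⟩) ?_ ?_ ?_
        · rintro rfl; exact (mem_sdiff.1 hu').2 hu
        · rintro rfl; exact hu1.2 hv'.2.1
        · rintro rfl; exact hu1'.2 hv'.2.1

/-- the lines leaving a coatom `w` are connected through elements of rank 3 -/
theorem lvg_conn {a b w : α} {m : ℕ} (hab : a ≤ b) (hm : 3 ≤ m) (hb : rk b = rk a + m + 1)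
    (hw : w ∈ lv rk a b m) :
    Conn (fun g g' => ∃ G ∈ lv rk a b 3, g ≤ G ∧ g' ≤ G) (lvg rk a b w) :=
  (h.outer_lvg_aux m a b w hab hb hw).2 hm

/-- the atoms outside a coatom `w` are connected -/
theorem outer_conn {a b w : α} {m : ℕ} (hab : a ≤ b) (hm : 1 ≤ m) (hb : rk b = rk a + m + 1)
    (hw : w ∈ lv rk a b m) :
    Conn (adj rk a b) ((lv rk a b 1).filter (fun v => ¬ v ≤ w)) :=
  (h.outer_lvg_aux m a b w hab hb hw).1 hm

end ELC

end

end FRC
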