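import Pool.Agent.FR.Basic

set_option linter.unusedSectionVars false

open Finset
open scoped Classical

namespace FRC

noncomputable section

/-- Decomposition of a finite set into connected components for a symmetric relation. -/
theorem exists_comps {β : Type*} (r : β → β → Prop) (hr : ∀ u v, r u v → r v u) (T : Finset β) :
    ∃ 𝒦 : Finset (Finset β), (∀ K ∈ 𝒦, K ⊆ T ∧ Conn r K) ∧
      (∀ K ∈ 𝒦, ∀ L ∈ 𝒦, K ≠ L → Disjoint K L) ∧ (𝒦.biUnion id = T) ∧
      (∀ K ∈ 𝒦, ∀ u ∈ K, ∀ v ∈ T, r u v → v ∈ K) := by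
  -- closed sets
  set cl : Finset β → Prop := fun S => S ⊆ T ∧ ∀ u ∈ S, ∀ v ∈ T, r u v → v ∈ S with hcl
  have hdiff : ∀ S K, cl S → cl K → cl (S \ K) := by
    intro S K hS hK
    refine ⟨fun x hx => hS.1 (mem_sdiff.1 hx).1, ?_⟩
    intro u hu v hv huv
    rw [mem_sdiff] at hu ⊢
    refine ⟨hS.2 u hu.1 v hv huv, fun hvK => hu.2 (hK.2 v hvK u (hS.1 hu.1) (hr _ _ huv))⟩
  -- minimal nonempty closed sets
  set 𝒦 : Finset (Finset β) := T.powerset.filter
    (fun K => K.Nonempty ∧ cl K ∧ ∀ S ⊆ K, S.Nonempty → cl S → S = K) with h𝒦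
  have hmem : ∀ K, K ∈ 𝒦 ↔ K.Nonempty ∧ cl K ∧ ∀ S ⊆ K, S.Nonempty → cl S → S = K := by
    intro K
    rw [h𝒦, mem_filter, mem_powerset]
    exact ⟨fun h => h.2, fun h => ⟨h.2.1.1, h⟩⟩
  refine ⟨𝒦, ?_, ?_, ?_, ?_⟩
  · intro K hK
    rw [hmem] at hK
    obtain ⟨h1, h2, h3⟩ := hK
    refine ⟨h2.1, h1, ?_⟩
    intro S hS hne hc
    refine h3 S hS hne ⟨hS.trans h2.1, ?_⟩
    intro u hu v hv huv
    exact hc u hu v (h2.2 u (hS hu) v hv huv) huv
  · intro K hK L hL hne
    rw [hmem] at hK hL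
    rw [Finset.disjoint_left]
    intro x hxK hxL
    apply hne
    have hI : cl (K ∩ L) := by
      refine ⟨fun x hx => hK.2.1.1 (mem_inter.1 hx).1, ?_⟩
      intro u hu v hv huv
      rw [mem_inter] at hu ⊢
      exact ⟨hK.2.1.2 u hu.1 v hv huv, hL.2.1.2 u hu.2 v hv huv⟩
    have e1 := hK.2.2 (K ∩ L) inter_subset_left ⟨x, mem_inter.2 ⟨hxK, hxL⟩⟩ hI
    have e2 := hL.2.2 (K ∩ L) inter_subset_right ⟨x, mem_inter.2 ⟨hxK, hxL⟩⟩ hI
    rw [← e1, e2]
  · apply Finset.Subset.antisymm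
    · intro x hx
      rw [mem_biUnion] at hx
      obtain ⟨K, hK, hxK⟩ := hx
      exact ((hmem K).1 hK).2.1.1 hxK
    · -- every nonempty closed set contains a minimal one; the complement of the union is closed
      have hex : ∀ n : ℕ, ∀ S : Finset β, S.card = n → S.Nonempty → cl S → ∃ K ∈ 𝒦, K ⊆ S := by
        intro n
        induction n using Nat.strong_induction_on with
        | _ n ih =>
          intro S hSn hne hSc
          by_cases hmin : ∀ S' ⊆ S, S'.Nonempty → cl S' → S' = S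
          · exact ⟨S, (hmem S).2 ⟨hne, hSc, hmin⟩, Finset.Subset.refl _⟩
          · push Not at hmin
            obtain ⟨S', h1, h2, h3, h4⟩ := hmin
            have hlt : S'.card < n := by
              rw [← hSn]
              exact Finset.card_lt_card (Finset.ssubset_iff_subset_ne.2 ⟨h1, h4⟩)
            obtain ⟨K, hK, hKS⟩ := ih _ hlt S' rfl h2 h3
            exact ⟨K, hK, hKS.trans h1⟩
      intro x hx
      by_contra hcon
      have hU : cl (𝒦.biUnion id) := by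
        refine ⟨?_, ?_⟩
        · intro y hy
          rw [mem_biUnion] at hy
          obtain ⟨K, hK, hyK⟩ := hy
          exact ((hmem K).1 hK).2.1.1 hyK
        · intro u hu v hv huv
          rw [mem_biUnion] at hu ⊢
          obtain ⟨K, hK, huK⟩ := hu
          exact ⟨K, hK, ((hmem K).1 hK).2.1.2 u huK v hv huv⟩
      have hT : cl T := ⟨Finset.Subset.refl _, fun _ _ v hv _ => hv⟩
      obtain ⟨K, hK, hKS⟩ := hex _ (T \ 𝒦.biUnion id) rfl ⟨x, mem_sdiff.2 ⟨hx, hcon⟩⟩ (hdiff _ _ hT hU)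
      obtain ⟨y, hy⟩ := ((hmem K).1 hK).1
      exact (mem_sdiff.1 (hKS hy)).2 (mem_biUnion.2 ⟨K, hK, hy⟩)
  · intro K hK u hu v hv huv
    exact ((hmem K).1 hK).2.1.2 u hu v hv huv

end

end FRC
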