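import Pool.Agent.FR.Basic

set_option linter.unusedSectionVars false
set_option linter.unusedVariables false

open Finset
open scoped Classical

namespace FRC

noncomputable section

variable {α : Type*} [Lattice α] [BoundedOrder α] [Fintype α] {rk : α → ℕ}

/-- Positivity in terms of degrees and sizes of 2-faces -/
theorem ELC.FRineq_of_FRpos (h : ELC rk) (htop : 4 ≤ rk (⊤ : α)) (hp : FRpos (α := α) rk) :
    FRineq (α := α) rk := by
  intro e he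
  have hpe := hp e he
  have he' := mem_lv.1 he
  have hbot := h.rk_bot
  have hc2 : (lv rk ⊥ e 1).card = 2 := h.lv_card_two bot_le (by omega)
  obtain ⟨u, v, huv, hs⟩ := Finset.card_eq_two.1 hc2
  have hu : u ∈ lv rk ⊥ e 1 := by rw [hs]; simp
  have hv : v ∈ lv rk ⊥ e 1 := by rw [hs]; simp
  rw [hs, Finset.sum_pair huv]
  have hu' := mem_lv.1 hu
  have hv' := mem_lv.1 hv
  set A : α → Finset α := fun w => (lv rk w ⊤ 1).filter
    (fun g => g ≠ e ∧ ¬ ∃ G ∈ lv rk (⊥ : α) ⊤ 3, e ≤ G ∧ g ≤ G) with hA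
  set B : α → Finset α := fun G => (lv rk ⊥ G 2).filter
    (fun g => ¬ ∃ w ∈ lv rk (⊥ : α) ⊤ 1, w ≤ e ∧ w ≤ g) with hB
  -- (i)
  have h1 : ∀ w ∈ lv rk ⊥ e 1, (lv rk w ⊤ 1).card ≤ (A w).card + 1 + (lv rk e ⊤ 1).card := by
    intro w hw
    have hw' := mem_lv.1 hw
    have hsub : lv rk w ⊤ 1 ⊆ (A w ∪ {e}) ∪ (lv rk e ⊤ 1).biUnion (fun G => (lv rk w G 1).erase e) := by
      intro g hg
      have hg' := mem_lv.1 hg
      simp only [mem_union, mem_singleton, mem_biUnion, mem_erase]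
      by_cases hge : g = e
      · exact Or.inl (Or.inr hge)
      · by_cases hG : ∃ G ∈ lv rk (⊥ : α) ⊤ 3, e ≤ G ∧ g ≤ G
        · right
          obtain ⟨G, hG1, hG2, hG3⟩ := hG
          have hG' := mem_lv.1 hG1
          exact ⟨G, mem_lv.2 ⟨hG2, le_top, by omega⟩, hge, mem_lv.2 ⟨hg'.1, hG3, hg'.2.2⟩⟩
        · left; left
          exact mem_filter.2 ⟨hg, hge, hG⟩
    refine (Finset.card_le_card hsub).trans ((Finset.card_union_le _ _).trans ?_)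
    have hb : ((lv rk e ⊤ 1).biUnion (fun G => (lv rk w G 1).erase e)).card ≤ (lv rk e ⊤ 1).card := by
      refine Finset.card_biUnion_le.trans ?_
      rw [Finset.card_eq_sum_ones]
      refine Finset.sum_le_sum ?_
      intro G hG
      have hG' := mem_lv.1 hG
      rw [Finset.card_erase_of_mem (mem_lv.2 ⟨hw'.2.1, hG'.1, by omega⟩),
        h.lv_card_two (hw'.2.1.trans hG'.1) (by omega)]
    have hc : (A w ∪ {e}).card ≤ (A w).card + 1 :=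
      (Finset.card_union_le _ _).trans (by simp)
    omega
  -- (ii)
  have h2 : ∀ G ∈ lv rk e ⊤ 1, (lv rk ⊥ G 1).card - 3 ≤ (B G).card := by
    intro G hG
    have hG' := mem_lv.1 hG
    have hsub : lv rk ⊥ G 2 ⊆ B G ∪ (lv rk u G 1 ∪ lv rk v G 1) := by
      intro g hg
      have hg' := mem_lv.1 hg
      simp only [mem_union]
      by_cases hw : ∃ w ∈ lv rk (⊥ : α) ⊤ 1, w ≤ e ∧ w ≤ g
      · right
        obtain ⟨w, hw1, hw2, hw3⟩ := hw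
        have hw' := mem_lv.1 hw1
        have hwe : w ∈ lv rk ⊥ e 1 := mem_lv.2 ⟨bot_le, hw2, hw'.2.2⟩
        rw [hs] at hwe
        simp only [mem_insert, mem_singleton] at hwe
        rcases hwe with rfl | rfl
        · exact Or.inl (mem_lv.2 ⟨hw3, hg'.2.1, by omega⟩)
        · exact Or.inr (mem_lv.2 ⟨hw3, hg'.2.1, by omega⟩)
      · left
        exact mem_filter.2 ⟨hg, hw⟩
    have hcu : (lv rk u G 1).card = 2 := h.lv_card_two (hu'.2.1.trans hG'.1) (by omega)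
    have hcv : (lv rk v G 1).card = 2 := h.lv_card_two (hv'.2.1.trans hG'.1) (by omega)
    have hinter : 1 ≤ (lv rk u G 1 ∩ lv rk v G 1).card := by
      rw [Nat.one_le_iff_ne_zero, Finset.card_ne_zero]
      exact ⟨e, mem_inter.2 ⟨mem_lv.2 ⟨hu'.2.1, hG'.1, by omega⟩,
        mem_lv.2 ⟨hv'.2.1, hG'.1, by omega⟩⟩⟩
    have hui := Finset.card_union_add_card_inter (lv rk u G 1) (lv rk v G 1)
    have hcard := (Finset.card_le_card hsub).trans (Finset.card_union_le _ _)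
    have heu : (lv rk ⊥ G 1).card = (lv rk ⊥ G 2).card := h.euler3 bot_le (by omega)
    omega
  -- (iii)
  have h3 : ∀ G ∈ lv rk e ⊤ 1, ∀ G' ∈ lv rk e ⊤ 1, G ≠ G' → Disjoint (B G) (B G') := by
    intro G hG G' hG' hne
    have hGm := mem_lv.1 hG
    have hGm' := mem_lv.1 hG'
    rw [Finset.disjoint_left]
    intro g hg hg2
    have a1 := mem_filter.1 hg
    have a2 := mem_filter.1 hg2
    have b1 := mem_lv.1 a1.1
    have b2 := mem_lv.1 a2.1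
    have hge : g ≠ e := by
      rintro rfl
      exact a1.2 ⟨u, mem_lv.2 ⟨bot_le, le_top, hu'.2.2⟩, hu'.2.1, hu'.2.1⟩
    exact hne (h.eq_of_two hge (by omega) (by omega) (by omega) b1.2.1 hGm.1 b2.2.1 hGm'.1)
  -- (iv)
  have h4 : Disjoint (A u) (A v) := by
    rw [Finset.disjoint_left]
    intro g hg hg2
    have a1 := mem_filter.1 hg
    have a2 := mem_filter.1 hg2
    have b1 := mem_lv.1 a1.1
    have b2 := mem_lv.1 a2.1
    exact a1.2.1 (h.eq_of_two huv (by omega) (by omega) (by omega) b1.1 b2.1 hu'.2.1 hv'.2.1)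
  -- (v)
  have h5 : Disjoint (A u ∪ A v) ((lv rk e ⊤ 1).biUnion B) := by
    rw [Finset.disjoint_left]
    intro g hg hg2
    obtain ⟨G, hG, hgG⟩ := mem_biUnion.1 hg2
    have a2 := mem_filter.1 hgG
    rcases mem_union.1 hg with hg | hg
    · have a1 := mem_filter.1 hg
      exact a2.2 ⟨u, mem_lv.2 ⟨bot_le, le_top, hu'.2.2⟩, hu'.2.1, (mem_lv.1 a1.1).1⟩
    · have a1 := mem_filter.1 hg
      exact a2.2 ⟨v, mem_lv.2 ⟨bot_le, le_top, hv'.2.2⟩, hv'.2.1, (mem_lv.1 a1.1).1⟩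
  -- (vi)
  have h6 : (A u ∪ A v) ∪ ((lv rk e ⊤ 1).biUnion B) ⊆
      (lv rk (⊥ : α) ⊤ 2).filter (fun e' => par rk e e') := by
    have key : ∀ w ∈ lv rk ⊥ e 1, ∀ g ∈ A w,
        g ∈ (lv rk (⊥ : α) ⊤ 2).filter (fun e' => par rk e e') := by
      intro w hw g hg
      have hw' := mem_lv.1 hw
      have a1 := mem_filter.1 hg
      have b1 := mem_lv.1 a1.1
      refine mem_filter.2 ⟨mem_lv.2 ⟨bot_le, le_top, by omega⟩, Or.inl ⟨⟨w, ?_, hw'.2.1, b1.1⟩, a1.2.2⟩⟩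
      exact mem_lv.2 ⟨bot_le, le_top, hw'.2.2⟩
    intro g hg
    rcases mem_union.1 hg with hg | hg
    · rcases mem_union.1 hg with hg | hg
      · exact key u hu g hg
      · exact key v hv g hg
    · obtain ⟨G, hG, hgG⟩ := mem_biUnion.1 hg
      have hG' := mem_lv.1 hG
      have a1 := mem_filter.1 hgG
      have b1 := mem_lv.1 a1.1
      refine mem_filter.2 ⟨mem_lv.2 ⟨bot_le, le_top, b1.2.2⟩, Or.inr ⟨⟨G, ?_, hG'.1, b1.2.1⟩, a1.2⟩⟩
      exact mem_lv.2 ⟨bot_le, le_top, by omega⟩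
  have h7 := Finset.card_le_card h6
  rw [Finset.card_union_of_disjoint h5, Finset.card_union_of_disjoint h4,
    Finset.card_biUnion h3] at h7
  have h8 : ∑ G ∈ lv rk e ⊤ 1, ((lv rk ⊥ G 1).card - 3) ≤ ∑ G ∈ lv rk e ⊤ 1, (B G).card :=
    Finset.sum_le_sum h2
  have h9 := h1 u hu
  have h10 := h1 v hv
  omega

/-- summed over all edges -/
theorem ELC.hsum_of_FRineq (h : ELC rk) (htop : 4 ≤ rk (⊤ : α)) (hp : FRineq (α := α) rk) :
    ∑ G ∈ lv rk (⊥ : α) ⊤ 3, ((lv rk ⊥ G 1).card : ℤ) * ((lv rk ⊥ G 1).card - 4)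
      ≤ 2 * (lv rk (⊥ : α) ⊤ 2).card + 2 * ∑ v ∈ lv rk (⊥ : α) ⊤ 1, ((lv rk v ⊤ 2).card : ℤ)
        - ∑ v ∈ lv rk (⊥ : α) ⊤ 1, ((lv rk v ⊤ 1).card : ℤ) * ((lv rk v ⊤ 1).card - 1) := by
  have hbot := h.rk_bot
  -- integer form of the inequality at each edge
  have key : ∀ e ∈ lv rk (⊥ : α) ⊤ 2,
      (∑ v ∈ lv rk ⊥ e 1, ((lv rk v ⊤ 1).card : ℤ))
        + (∑ G ∈ lv rk e ⊤ (3 - 2), (((lv rk ⊥ G 1).card : ℤ) - 3))
        ≤ (∑ G ∈ lv rk e ⊤ (3 - 2), (3 : ℤ)) + 3 := by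
    intro e he
    have he' := mem_lv.1 he
    have h1 := hp e he
    have h2 : (∑ G ∈ lv rk e ⊤ 1, (((lv rk ⊥ G 1).card : ℤ) - 3))
        = ((∑ G ∈ lv rk e ⊤ 1, ((lv rk ⊥ G 1).card - 3) : ℕ) : ℤ) := by
      push_cast
      refine Finset.sum_congr rfl ?_
      intro G hG
      have hG' := mem_lv.1 hG
      have := h.three_le (bot_le : ⊥ ≤ G) (by omega)
      omega
    have h3 : (3 - 2 : ℕ) = 1 := rfl
    rw [h3, h2, Finset.sum_const, nsmul_eq_mul]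
    have h4 : (∑ v ∈ lv rk ⊥ e 1, ((lv rk v ⊤ 1).card : ℤ))
      = ((∑ v ∈ lv rk ⊥ e 1, (lv rk v ⊤ 1).card : ℕ) : ℤ) := by push_cast; rfl
    rw [h4]
    generalize (∑ v ∈ lv rk ⊥ e 1, (lv rk v ⊤ 1).card : ℕ) = x at h1 ⊢
    generalize (∑ G ∈ lv rk e ⊤ 1, ((lv rk ⊥ G 1).card - 3) : ℕ) = y at h1 ⊢
    omega
  have S := Finset.sum_le_sum key
  rw [Finset.sum_add_distrib, Finset.sum_add_distrib] at S
  -- double counting
  have d1 : ∑ e ∈ lv rk (⊥ : α) ⊤ 2, ∑ v ∈ lv rk ⊥ e 1, ((lv rk v ⊤ 1).card : ℤ)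
      = ∑ v ∈ lv rk (⊥ : α) ⊤ 1, ((lv rk v ⊤ 1).card : ℤ) * ((lv rk v ⊤ 1).card : ℤ) := by
    rw [ELC.sum_lv_comm (by norm_num)]
    refine Finset.sum_congr rfl ?_
    intro v _
    rw [Finset.sum_const, nsmul_eq_mul]
  have d2 : ∀ c : α → ℤ, ∑ e ∈ lv rk (⊥ : α) ⊤ 2, ∑ G ∈ lv rk e ⊤ (3 - 2), c G
      = ∑ G ∈ lv rk (⊥ : α) ⊤ 3, ((lv rk ⊥ G 1).card : ℤ) * c G := by
    intro c
    rw [← ELC.sum_lv_comm (i := 3) (j := 2) (by norm_num) (fun x _ => c x)]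
    refine Finset.sum_congr rfl ?_
    intro G hG
    have hG' := mem_lv.1 hG
    rw [Finset.sum_const, nsmul_eq_mul, h.euler3 bot_le (by omega)]
  have d3 : ∑ v ∈ lv rk (⊥ : α) ⊤ 1, ((lv rk v ⊤ 1).card : ℤ) = 2 * (lv rk (⊥ : α) ⊤ 2).card := by
    have := ELC.sum_lv_comm (rk := rk) (a := (⊥ : α)) (b := ⊤) (i := 2) (j := 1) (by norm_num)
      (fun _ _ => (1 : ℤ))
    simp only [Finset.sum_const, nsmul_eq_mul, mul_one] at this
    have h3 : (2 - 1 : ℕ) = 1 := rfl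
    rw [h3] at this
    rw [← this]
    rw [Finset.sum_congr rfl (g := fun _ => (2 : ℤ))]
    · rw [Finset.sum_const, nsmul_eq_mul]; ring
    · intro e he
      have he' := mem_lv.1 he
      rw [h.lv_card_two bot_le (by omega)]; rfl
  have d4 : ∑ v ∈ lv rk (⊥ : α) ⊤ 1, ((lv rk v ⊤ 2).card : ℤ)
      = ∑ G ∈ lv rk (⊥ : α) ⊤ 3, ((lv rk ⊥ G 1).card : ℤ) := by
    have := ELC.sum_lv_comm (rk := rk) (a := (⊥ : α)) (b := ⊤) (i := 3) (j := 1) (by norm_num)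
      (fun _ _ => (1 : ℤ))
    simp only [Finset.sum_const, nsmul_eq_mul, mul_one] at this
    exact this.symm
  rw [d1, d2, d2, Finset.sum_const, nsmul_eq_mul] at S
  rw [d4]
  have e1 : ∑ v ∈ lv rk (⊥ : α) ⊤ 1, ((lv rk v ⊤ 1).card : ℤ) * (((lv rk v ⊤ 1).card : ℤ) - 1)
      = ∑ v ∈ lv rk (⊥ : α) ⊤ 1, ((lv rk v ⊤ 1).card : ℤ) * ((lv rk v ⊤ 1).card : ℤ)
        - ∑ v ∈ lv rk (⊥ : α) ⊤ 1, ((lv rk v ⊤ 1).card : ℤ) := by
    rw [← Finset.sum_sub_distrib]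
    refine Finset.sum_congr rfl ?_
    intro v _
    ring
  have e2 : ∑ G ∈ lv rk (⊥ : α) ⊤ 3, ((lv rk ⊥ G 1).card : ℤ) * (((lv rk ⊥ G 1).card : ℤ) - 4)
      = ∑ G ∈ lv rk (⊥ : α) ⊤ 3, ((lv rk ⊥ G 1).card : ℤ) * (((lv rk ⊥ G 1).card : ℤ) - 3)
        - ∑ G ∈ lv rk (⊥ : α) ⊤ 3, ((lv rk ⊥ G 1).card : ℤ) := by
    rw [← Finset.sum_sub_distrib]
    refine Finset.sum_congr rfl ?_
    intro v _
    ring
  have e3 : ∑ G ∈ lv rk (⊥ : α) ⊤ 3, ((lv rk ⊥ G 1).card : ℤ) * 3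
      = 3 * ∑ G ∈ lv rk (⊥ : α) ⊤ 3, ((lv rk ⊥ G 1).card : ℤ) := by
    rw [Finset.mul_sum]
    refine Finset.sum_congr rfl ?_
    intro v _
    ring
  rw [e1, e2, d3]
  rw [e3] at S
  linarith

end

end FRC
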