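import Mathlib

/-!
# Finiteness of Forman–Ricci positive 5-polytopes: definitions

`α` is a finite bounded lattice with a rank function `rk`.  All the combinatorial modules work in the
interval `[a,b]` of `α`; `lv rk a b i` is the set of elements of `[a,b]` of rank `i` above `a`.
-/

open Finset
open scoped Classical

namespace FRC

noncomputable section

variable {α : Type*} [Lattice α] [BoundedOrder α] [Fintype α]

/-- elements of rank `i` above `a` in the interval `[a,b]` -/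
def lv (rk : α → ℕ) (a b : α) (i : ℕ) : Finset α :=
  univ.filter (fun c => a ≤ c ∧ c ≤ b ∧ rk c = rk a + i)

/-- `T` is connected for the relation `r`: every nonempty subset of `T` closed under `r` is `T`. -/
def Conn (r : α → α → Prop) (T : Finset α) : Prop :=
  T.Nonempty ∧ ∀ S ⊆ T, S.Nonempty → (∀ u ∈ S, ∀ v ∈ T, r u v → v ∈ S) → S = T

/-- adjacency of two atoms of `[a,b]` : they lie below a common element of rank 2 -/
def adj (rk : α → ℕ) (a b u v : α) : Prop := ∃ e ∈ lv rk a b 2, u ≤ e ∧ v ≤ e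

/-- dual adjacency: two elements of `[a,b]` lie above a common element of rank `i` -/
def dadj (rk : α → ℕ) (a b : α) (i : ℕ) (u v : α) : Prop := ∃ e ∈ lv rk a b i, e ≤ u ∧ e ≤ v

/-- Eulerian lattice with connected sections. -/
structure ELC (rk : α → ℕ) : Prop where
  rk_bot : rk (⊥ : α) = 0
  covBy : ∀ a b : α, a ⋖ b → rk b = rk a + 1
  euler : ∀ a b : α, a < b →
    ∑ c ∈ univ.filter (fun c => a ≤ c ∧ c ≤ b), (-1 : ℤ) ^ rk c = 0
  conn : ∀ a b : α, a ≤ b → rk a + 3 ≤ rk b → Conn (adj rk a b) (lv rk a b 1)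

/-- the lines (rank 2 elements) of `[a,b]` that meet `w` but are not below `w` -/
def lvg (rk : α → ℕ) (a b w : α) : Finset α :=
  (lv rk a b 2).filter (fun g => ¬ g ≤ w ∧ ∃ v ∈ lv rk a w 1, v ≤ g)

/-- for `[a,b]` of length 4 : the faces disjoint from `w` -/
def dsj (rk : α → ℕ) (a b w : α) : Finset α :=
  (lv rk a b 3).filter (fun f => f ⊓ w = a)

/-- number of edges of the 3-polytope `[a,b]` both of whose faces are triangles -/
def eps (rk : α → ℕ) (a b : α) : ℕ :=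
  ((lv rk a b 2).filter (fun e => ∀ f ∈ lv rk e b 1, (lv rk a f 1).card = 3)).card

def lam : ℚ := 199 / 6000

def kap (s : ℕ) : ℚ := max 0 (((s : ℚ) - 4) * (1 / 4 - lam * s))

/-- weighted number of non-adjacent pairs of vertices of the 3-polytope `[a,b]` -/
def mu (rk : α → ℕ) (a b : α) : ℚ :=
  ((lv rk a b 1).card : ℚ) * ((lv rk a b 1).card - 1) / 2 - (lv rk a b 2).card
    - (∑ f ∈ lv rk a b 3, ((lv rk a f 1).card : ℚ) * ((lv rk a f 1).card - 3)) / 4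

/-- the weight `W(Q)` of the 4-polytope `[a,b]` -/
def WQ (rk : α → ℕ) (a b : α) : ℚ :=
  ((∑ u ∈ lv rk a b 1, ((lv rk u b 3).card : ℚ)) - 2 * (lv rk a b 1).card
      - 4 * (lv rk a b 4).card + 8) / 8
    + 2 * lam * ∑ u ∈ lv rk a b 1, mu rk u b
    + (1 / 72 - lam / 6) * ∑ Y ∈ lv rk a b 4, (eps rk a Y : ℚ)
    - (1 / 3) * ∑ G ∈ lv rk a b 3, kap (lv rk a G 1).card

/-- two edges (rank 2 elements) are parallel neighbours -/
def par (rk : α → ℕ) (e e' : α) : Prop :=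
  ((∃ v ∈ lv rk (⊥ : α) ⊤ 1, v ≤ e ∧ v ≤ e') ∧ ¬ ∃ G ∈ lv rk (⊥ : α) ⊤ 3, e ≤ G ∧ e' ≤ G) ∨
  ((∃ G ∈ lv rk (⊥ : α) ⊤ 3, e ≤ G ∧ e' ≤ G) ∧ ¬ ∃ v ∈ lv rk (⊥ : α) ⊤ 1, v ≤ e ∧ v ≤ e')

/-- Forman–Ricci positivity -/
def FRpos (rk : α → ℕ) : Prop :=
  ∀ e ∈ lv rk (⊥ : α) ⊤ 2,
    ((lv rk (⊥ : α) ⊤ 2).filter (fun e' => par rk e e')).card < (lv rk e ⊤ 1).card + 2

/-- consequence of positivity at each edge -/
def FRineq (rk : α → ℕ) : Prop :=
  ∀ e ∈ lv rk (⊥ : α) ⊤ 2,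
    (∑ v ∈ lv rk ⊥ e 1, (lv rk v ⊤ 1).card) + (∑ G ∈ lv rk e ⊤ 1, ((lv rk ⊥ G 1).card - 3))
      ≤ 3 * (lv rk e ⊤ 1).card + 3

end

end FRC
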