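import Pool.Agent.FR.Poly
import Pool.Agent.FR.Basic

set_option linter.unusedSectionVars false

open Finset
open scoped Classical

namespace FRC

noncomputable section

theorem ELC.exists_atom {α : Type*} [Lattice α] [BoundedOrder α] [Fintype α] {rk : α → ℕ}
    (h : ELC rk) : ∀ (n : ℕ) (x w : α), rk x = n → ¬ x ≤ w →
      ∃ v ∈ lv rk (⊥ : α) ⊤ 1, v ≤ x ∧ ¬ v ≤ w := by
  intro n
  induction n using Nat.strong_induction_on with
  | _ n ih =>
  intro x w hx hxw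
  have hbot := h.rk_bot
  rcases Nat.lt_or_ge n 1 with h0 | h0
  · exfalso
    apply hxw
    have : (⊥ : α) = x := h.eq_of_rk bot_le (by omega)
    rw [← this]; exact bot_le
  rcases Nat.lt_or_ge n 2 with h1 | h1
  · refine ⟨x, ?_, le_rfl, hxw⟩
    rw [mem_lv]
    exact ⟨bot_le, le_top, by omega⟩
  have ht : x ⊓ w < x := lt_of_le_of_ne inf_le_left (fun h' => hxw (inf_eq_left.1 h'))
  obtain ⟨c, hc1, hc2⟩ := exists_le_covBy_of_lt ht
  have hrc := h.covBy _ _ hc2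
  have hbc : (⊥ : α) < c := by
    refine lt_of_le_of_ne bot_le ?_
    rintro rfl
    omega
  obtain ⟨u, -, hu⟩ := exists_le_covBy_of_lt hbc
  have hru := h.covBy _ _ hu
  have hux : u ≤ x := hu.le.trans hc2.le
  have hcard := h.lv_card_two hux (by omega)
  have hcm : c ∈ lv rk u x 1 := mem_lv.2 ⟨hu.le, hc2.le, by omega⟩
  obtain ⟨c', hc', hne⟩ := Finset.exists_mem_ne (by omega : 1 < (lv rk u x 1).card) c
  rw [mem_lv] at hc'
  obtain ⟨v, hv1, hv2, hv3⟩ := ih (rk c') (by omega) c' c rfl (by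
    intro hle
    exact hne (h.eq_of_rk hle (by omega)))
  refine ⟨v, hv1, hv2.trans hc'.2.1, ?_⟩
  intro hvw
  exact hv3 ((le_inf (hv2.trans hc'.2.1) hvw).trans hc1)

/-- an element is determined by the atoms below it -/
theorem ELC.eq_of_atoms {α : Type*} [Lattice α] [BoundedOrder α] [Fintype α] {rk : α → ℕ}
    (h : ELC rk) {x y : α} (hxy : ∀ v ∈ lv rk (⊥ : α) ⊤ 1, v ≤ x ↔ v ≤ y) : x = y := by
  apply le_antisymm
  · by_contra hcon
    obtain ⟨v, hv1, hv2, hv3⟩ := h.exists_atom _ x y rfl hcon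
    exact hv3 ((hxy v hv1).1 hv2)
  · by_contra hcon
    obtain ⟨v, hv1, hv2, hv3⟩ := h.exists_atom _ y x rfl hcon
    exact hv3 ((hxy v hv1).2 hv2)

theorem ELC.card_le {α : Type*} [Lattice α] [BoundedOrder α] [Fintype α] {rk : α → ℕ}
    (h : ELC rk) : Fintype.card α ≤ 2 ^ (lv rk (⊥ : α) ⊤ 1).card := by
  rw [← Finset.card_powerset, ← Finset.card_univ]
  apply Finset.card_le_card_of_injOn (fun x => (lv rk (⊥ : α) ⊤ 1).filter (fun v => v ≤ x))
  · intro x _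
    rw [Finset.mem_coe, Finset.mem_powerset]
    exact Finset.filter_subset _ _
  · intro x _ y _ hxy
    apply h.eq_of_atoms
    intro v hv
    have h1 : v ∈ (lv rk (⊥ : α) ⊤ 1).filter (fun v => v ≤ x) ↔
        v ∈ (lv rk (⊥ : α) ⊤ 1).filter (fun v => v ≤ y) := by
      have hxy' : (lv rk (⊥ : α) ⊤ 1).filter (fun v => v ≤ x)
        = (lv rk (⊥ : α) ⊤ 1).filter (fun v => v ≤ y) := hxy
      rw [hxy']
    rw [Finset.mem_filter, Finset.mem_filter] at h1
    constructor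
    · intro h2; exact (h1.1 ⟨hv, h2⟩).2
    · intro h2; exact (h1.2 ⟨hv, h2⟩).2

/-- `c` is a code of the face lattice of `P` -/
def HasCode {B n : ℕ} (P : Set (Fin n → ℝ)) (c : Σ m : Fin (B + 1), (Fin m → Fin m → Prop)) :
    Prop :=
  ∃ e : FRPoly.Face P ≃ Fin c.1, ∀ x y, x ≤ y ↔ c.2 (e x) (e y)

theorem HasCode.equiv {B m n : ℕ} {P : Set (Fin m → ℝ)} {Q : Set (Fin n → ℝ)}
    {c : Σ m : Fin (B + 1), (Fin m → Fin m → Prop)} (hP : HasCode P c) (hQ : HasCode Q c) :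
    FRPoly.CombEquiv P Q := by
  obtain ⟨e, he⟩ := hP
  obtain ⟨e', he'⟩ := hQ
  refine ⟨⟨e.trans e'.symm, ?_⟩⟩
  intro x y
  rw [he', he]
  simp

theorem exists_code {B n : ℕ} (P : Set (Fin n → ℝ)) (hf : Finite (FRPoly.Face P))
    (hB : Nat.card (FRPoly.Face P) ≤ B) :
    ∃ c : Σ m : Fin (B + 1), (Fin m → Fin m → Prop), HasCode P c := by
  let e : FRPoly.Face P ≃ Fin (Nat.card (FRPoly.Face P)) := Finite.equivFin _
  exact ⟨⟨⟨Nat.card (FRPoly.Face P), by omega⟩, fun i j => e.symm i ≤ e.symm j⟩, e,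
    fun x y => by simp⟩

/-- a family of polytopes with boundedly many faces falls into finitely many combinatorial types -/
theorem finite_list (p : (n : ℕ) → Set (Fin n → ℝ) → Prop) (B : ℕ)
    (hB : ∀ n P, p n P → Finite (FRPoly.Face P) ∧ Nat.card (FRPoly.Face P) ≤ B) :
    ∃ (k : ℕ) (d : Fin k → ℕ) (R : (i : Fin k) → Set (Fin (d i) → ℝ)),
      (∀ i, p (d i) (R i)) ∧ ∀ n P, p n P → ∃ i, FRPoly.CombEquiv P (R i) := by
  let S := {c : Σ m : Fin (B + 1), (Fin m → Fin m → Prop) // ∃ n P, p n P ∧ HasCode P c}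
  let f : S ≃ Fin (Nat.card S) := Finite.equivFin _
  refine ⟨Nat.card S, fun i => (f.symm i).2.choose, fun i => (f.symm i).2.choose_spec.choose,
    fun i => (f.symm i).2.choose_spec.choose_spec.1, ?_⟩
  intro n P hP
  obtain ⟨h1, h2⟩ := hB n P hP
  obtain ⟨c, hc⟩ := exists_code P h1 h2
  refine ⟨f ⟨c, n, P, hP, hc⟩, ?_⟩
  have h3 := (f.symm (f ⟨c, n, P, hP, hc⟩)).2.choose_spec.choose_spec.2
  have h4 : (f.symm (f ⟨c, n, P, hP, hc⟩)).1 = c := by
    rw [Equiv.symm_apply_apply]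
  have h5 : HasCode P (f.symm (f ⟨c, n, P, hP, hc⟩)).1 := by
    rw [h4]; exact hc
  exact h5.equiv h3

end

end FRC
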