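import Pool.Agent.FR.SignedSum

set_option linter.unusedSectionVars false

open Finset
open scoped Classical

namespace FRC

noncomputable section

variable {ι : Type*} [Fintype ι]

/-- a nonnegative function with zero set `T` dominates everything off `T` -/
theorem exists_big {T : Set ι} {y : ι → ℝ} (hy : ∀ i, 0 ≤ y i) (hT : T = {i | y i = 0})
    (w : ι → ℝ) : ∃ N : ℝ, ∀ i, i ∉ T → 0 < w i + N * y i := by
  refine ⟨∑ i, |w i| / y i + 1, ?_⟩
  intro i hi
  have hpos : 0 < y i := by
    refine lt_of_le_of_ne (hy i) ?_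
    intro h0
    exact hi (by rw [hT]; exact h0.symm)
  have h1 : |w i| / y i ≤ ∑ i, |w i| / y i :=
    Finset.single_le_sum (f := fun i => |w i| / y i)
      (fun j _ => div_nonneg (abs_nonneg _) (hy j)) (Finset.mem_univ i)
  have h2 : |w i| + y i ≤ (∑ i, |w i| / y i + 1) * y i := by
    have h3 : (|w i| / y i + 1) * y i ≤ (∑ i, |w i| / y i + 1) * y i :=
      mul_le_mul_of_nonneg_right (by linarith) hpos.le
    have h4 : (|w i| / y i + 1) * y i = |w i| + y i := by
      field_simp
    linarith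
  have := neg_abs_le (w i)
  linarith

/-- a vector outside finitely many subspaces -/
theorem exists_generic {κ : Type*} (s : Finset κ) (V : Submodule ℝ (ι → ℝ))
    (W : κ → Submodule ℝ (ι → ℝ)) (hW : ∀ k ∈ s, ¬ V ≤ W k) :
    ∃ l ∈ V, ∀ k ∈ s, l ∉ W k := by
  have h1 := Subspace.biUnion_ne_univ_of_top_notMem (k := ℝ) (E := V)
    (s := s.image (fun k => (W k).comap V.subtype)) (by
      intro hmem
      rw [Finset.mem_image] at hmem
      obtain ⟨k, hk, hk2⟩ := hmem
      apply hW k hk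
      intro x hx
      have : (⟨x, hx⟩ : V) ∈ (W k).comap V.subtype := by rw [hk2]; trivial
      exact this)
  rw [Set.ne_univ_iff_exists_notMem] at h1
  obtain ⟨l, hl⟩ := h1
  refine ⟨l.1, l.2, ?_⟩
  intro k hk hmem
  apply hl
  simp only [Finset.mem_image, Set.iUnion_exists, Set.mem_iUnion]
  exact ⟨_, k, ⟨hk, rfl⟩, hmem⟩

section

variable {L : Submodule ℝ (ι → ℝ)}

theorem van_van {S T : Set ι} (hST : S ⊆ T) : van (van L S) T = van L T := by
  ext y
  simp only [mem_van]
  constructor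
  · rintro ⟨⟨h1, _⟩, h2⟩; exact ⟨h1, h2⟩
  · rintro ⟨h1, h2⟩; exact ⟨⟨h1, fun i hi => h2 i (hST hi)⟩, h2⟩

theorem LFace_van {S T : Set ι} : LFace (van L S) T ↔ LFace L T ∧ S ⊆ T := by
  constructor
  · rintro ⟨y, hy, hy0, rfl⟩
    exact ⟨⟨y, hy.1, hy0, rfl⟩, fun i hi => hy.2 i hi⟩
  · rintro ⟨⟨y, hy, hy0, rfl⟩, h2⟩
    exact ⟨y, ⟨hy, fun i hi => h2 hi⟩, hy0, rfl⟩

theorem lrk_add (T : Set ι) :
    lrk L T + Module.finrank ℝ (van L T) = Module.finrank ℝ L := by
  have := finrank_van_le L T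
  rw [lrk]; omega

theorem neg_one_pow_lrk (T : Set ι) :
    (-1 : ℤ) ^ lrk L T = (-1 : ℤ) ^ Module.finrank ℝ L * (-1 : ℤ) ^ Module.finrank ℝ (van L T) := by
  rw [← lrk_add (L := L) T, pow_add, mul_assoc, ← pow_add, ← two_mul]
  simp

theorem finrank_van_lt {S T : LF L} (h : S < T) :
    Module.finrank ℝ (van L T.1) < Module.finrank ℝ (van L S.1) := by
  apply Submodule.finrank_lt_finrank_of_lt
  refine lt_of_le_of_ne (van_mono L (LF.le_iff.1 h.le)) ?_
  intro heq
  obtain ⟨y, hy, hy0, hS⟩ := S.2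
  have h1 : y ∈ van L S.1 := ⟨hy, fun i hi => by rw [hS] at hi; exact hi⟩
  rw [← heq] at h1
  have h2 : T.1 ⊆ S.1 := by
    intro i hi
    rw [hS]
    exact h1.2 i hi
  exact absurd (LF.le_iff.2 h2) (not_le_of_gt h)

theorem lrk_lt {S T : LF L} (h : S < T) : lrk L S.1 < lrk L T.1 := by
  have h1 := finrank_van_lt h
  have h2 := lrk_add (L := L) S.1
  have h3 := lrk_add (L := L) T.1
  omega

theorem lrk_inj {S T : LF L} (h : S ≤ T) (hr : lrk L T.1 ≤ lrk L S.1) : S = T := by
  rcases h.eq_or_lt with h | h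
  · exact h
  · have := lrk_lt h
    omega

theorem exists_between {S T : LF L} (h : S < T)
    (hr : Module.finrank ℝ (van L T.1) + 2 ≤ Module.finrank ℝ (van L S.1)) :
    ∃ U : LF L, S < U ∧ U < T := by
  obtain ⟨y, hy, hy0, hS⟩ := S.2
  obtain ⟨t, ht, ht0, hT⟩ := T.2
  have hyS : y ∈ van L S.1 := ⟨hy, fun i hi => by rw [hS] at hi; exact hi⟩
  have htT : t ∈ van L T.1 := ⟨ht, fun i hi => by rw [hT] at hi; exact hi⟩
  -- z in van S, not in van T + ℝ y
  obtain ⟨z, hz, hz2⟩ : ∃ z ∈ van L S.1, z ∉ van L T.1 ⊔ Submodule.span ℝ {y} := by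
    by_contra hcon
    push Not at hcon
    have hle : van L S.1 ≤ van L T.1 ⊔ Submodule.span ℝ {y} := hcon
    have h1 := Submodule.finrank_mono hle
    have h2 := Submodule.finrank_add_le_finrank_add_finrank (van L T.1) (Submodule.span ℝ {y})
    have h3 : Module.finrank ℝ (Submodule.span ℝ {y}) ≤ 1 := by
      by_cases h0 : y = 0
      · rw [h0, Submodule.span_zero_singleton, finrank_bot]; omega
      · rw [finrank_span_singleton h0]
    omega
  -- the minimum ratio on T \ S
  have hne : (Finset.univ.filter (fun i => i ∈ T.1 ∧ i ∉ S.1)).Nonempty := by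
    have : ¬ T.1 ⊆ S.1 := fun h' => absurd (LF.le_iff.2 h') (not_le_of_gt h)
    rw [Set.not_subset] at this
    obtain ⟨i, hi, hi2⟩ := this
    exact ⟨i, by simp [hi, hi2]⟩
  obtain ⟨m, hm, hmin⟩ := Finset.exists_min_image _ (fun i => z i / y i) hne
  simp only [Finset.mem_filter, Finset.mem_univ, true_and] at hm hmin
  have hypos : ∀ i, i ∉ S.1 → 0 < y i := by
    intro i hi
    refine lt_of_le_of_ne (hy0 i) ?_
    intro h0
    exact hi (by rw [hS]; exact h0.symm)
  have hSz : ∀ i ∈ S.1, z i = 0 := hz.2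
  have hSy : ∀ i ∈ S.1, y i = 0 := hyS.2
  set r := z m / y m with hr
  obtain ⟨N, hN⟩ := exists_big ht0 hT (z - r • y)
  have hTt : ∀ i ∈ T.1, t i = 0 := htT.2
  have hpos : ∀ i ∈ T.1, i ∉ S.1 → 0 ≤ z i - r * y i := by
    intro i hi hi2
    have h1 := hmin i ⟨hi, hi2⟩
    rw [le_div_iff₀ (hypos i hi2)] at h1
    linarith
  have hmem : (z - r • y) + N • t ∈ L :=
    L.add_mem (L.sub_mem hz.1 (L.smul_mem _ hy)) (L.smul_mem _ ht)
  have hval : ∀ i, ((z - r • y) + N • t) i = z i - r * y i + N * t i := fun i => by simp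
  have hnn : ∀ i, 0 ≤ ((z - r • y) + N • t) i := by
    intro i
    by_cases hiT : i ∈ T.1
    · rw [hval, hTt i hiT, mul_zero, add_zero]
      by_cases hiS : i ∈ S.1
      · rw [hSz i hiS, hSy i hiS]; simp
      · exact hpos i hiT hiS
    · have := hN i hiT
      rw [hval]
      simp at this
      exact this.le
  let U : LF L := ⟨{i | ((z - r • y) + N • t) i = 0}, _, hmem, hnn, rfl⟩
  have hUmem : ∀ i, i ∈ U.1 ↔ z i - r * y i + N * t i = 0 := by
    intro i
    change ((z - r • y) + N • t) i = 0 ↔ _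
    rw [hval]
  have hSU : S ≤ U := by
    rw [LF.le_iff]
    intro i hi
    rw [hUmem, hSz i hi, hSy i hi, hTt i (LF.le_iff.1 h.le hi)]
    simp
  have hUT : U ≤ T := by
    rw [LF.le_iff]
    intro i hi
    by_contra hiT
    have := hN i hiT
    rw [hUmem] at hi
    simp at this
    linarith
  refine ⟨U, lt_of_le_of_ne hSU ?_, lt_of_le_of_ne hUT ?_⟩
  · rintro heq
    apply hm.2
    rw [heq, hUmem, hTt m hm.1, hr]
    have := hypos m hm.2
    field_simp
    ring
  · rintro heq
    apply hz2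
    rw [Submodule.mem_sup]
    refine ⟨z - r • y, ⟨L.sub_mem hz.1 (L.smul_mem _ hy), ?_⟩, r • y,
      Submodule.smul_mem _ _ (Submodule.mem_span_singleton_self y), by abel⟩
    intro i hi
    have h1 := hTt i hi
    rw [← heq, hUmem] at hi
    rw [h1] at hi
    simpa using hi

theorem lrk_covBy {S T : LF L} (h : S ⋖ T) : lrk L T.1 = lrk L S.1 + 1 := by
  have h1 := lrk_lt h.lt
  have h2 := lrk_add (L := L) S.1
  have h3 := lrk_add (L := L) T.1
  by_contra hcon
  obtain ⟨U, hU1, hU2⟩ := exists_between h.lt (by omega)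
  exact h.2 hU1 hU2

/-- Euler relation, in terms of `signed_sum` -/
theorem signed_sum' (S T : LF L) (hST : S ≤ T) (w : ι → ℝ) (hw : w ∈ van L S.1)
    (hw0 : ∀ i ∈ T.1, i ∉ S.1 → w i ≠ 0) (hneg : ∃ i ∈ T.1, i ∉ S.1 ∧ w i < 0) :
    ∑ U ∈ univ.filter (fun U : LF L => S ≤ U ∧ U ≤ T ∧ ∀ i ∈ U.1, i ∉ S.1 → w i < 0),
      (-1 : ℤ) ^ lrk L U.1 = 0 := by
  obtain ⟨y, hy, hy0, hS⟩ := S.2
  obtain ⟨t, ht, ht0, hT⟩ := T.2
  have hyS : y ∈ van L S.1 := ⟨hy, fun i hi => by rw [hS] at hi; exact hi⟩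
  have htT : t ∈ van L T.1 := ⟨ht, fun i hi => by rw [hT] at hi; exact hi⟩
  have htS : t ∈ van L S.1 := van_mono L (LF.le_iff.1 hST) htT
  have hypos : ∀ i, i ∉ S.1 → 0 < y i := by
    intro i hi
    refine lt_of_le_of_ne (hy0 i) ?_
    intro h0
    exact hi (by rw [hS]; exact h0.symm)
  have hsupp : ∀ i, (∃ z ∈ van L S.1, z i ≠ 0) ↔ i ∉ S.1 := by
    intro i
    constructor
    · rintro ⟨z, hz, hz2⟩ hi
      exact hz2 (hz.2 i hi)
    · intro hi
      exact ⟨y, hyS, (hypos i hi).ne'⟩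
  obtain ⟨N, hN⟩ := exists_big ht0 hT w
  have hTt : ∀ i ∈ T.1, t i = 0 := htT.2
  have hval : ∀ i, (w + N • t) i = w i + N * t i := fun i => by simp
  have key := signed_sum (van L S.1) y (w + N • t) hyS
    (Submodule.add_mem _ hw (Submodule.smul_mem _ _ htS))
    (by
      intro i hi
      rw [hsupp] at hi
      exact hypos i hi)
    (by
      intro i hi
      rw [hsupp] at hi
      rw [hval]
      by_cases hiT : i ∈ T.1
      · rw [hTt i hiT, mul_zero, add_zero]
        exact hw0 i hiT hi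
      · exact (hN i hiT).ne')
  rw [if_neg] at key
  · -- reindex
    have hre : ∑ U ∈ univ.filter (fun U : LF L => S ≤ U ∧ U ≤ T ∧ ∀ i ∈ U.1, i ∉ S.1 → w i < 0),
      (-1 : ℤ) ^ Module.finrank ℝ (van L U.1) = 0 := by
      rw [← key]
      refine Finset.sum_bij (fun U _ => U.1) ?_ ?_ ?_ ?_
      · intro U hU
        simp only [Finset.mem_filter, Finset.mem_univ, true_and] at hU ⊢
        obtain ⟨h1, h2, h3⟩ := hU
        refine ⟨LFace_van.2 ⟨U.2, LF.le_iff.1 h1⟩, ?_⟩
        intro i hi hi2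
        rw [hsupp] at hi2
        rw [hval, hTt i (LF.le_iff.1 h2 hi), mul_zero, add_zero]
        exact h3 i hi hi2
      · intro U _ V _ hUV
        exact Subtype.ext hUV
      · intro U hU
        simp only [Finset.mem_filter, Finset.mem_univ, true_and] at hU
        obtain ⟨h1, h2⟩ := hU
        rw [LFace_van] at h1
        have hUT : U ⊆ T.1 := by
          intro i hi
          by_contra hiT
          have hiS : i ∉ S.1 := fun h' => hiT (LF.le_iff.1 hST h')
          have h4 := h2 i hi ((hsupp i).2 hiS)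
          rw [hval] at h4
          have := hN i hiT
          linarith
        refine ⟨(⟨U, h1.1⟩ : LF L), Finset.mem_filter.2 ⟨Finset.mem_univ _,
          LF.le_iff.2 h1.2, LF.le_iff.2 hUT, ?_⟩, rfl⟩
        intro i hi hi2
        have h4 := h2 i hi ((hsupp i).2 hi2)
        rw [hval, hTt i (hUT hi), mul_zero, add_zero] at h4
        exact h4
      · intro U hU
        simp only [Finset.mem_filter, Finset.mem_univ, true_and] at hU
        rw [van_van (LF.le_iff.1 hU.1)]
    calc _ = ∑ U ∈ univ.filter (fun U : LF L => S ≤ U ∧ U ≤ T ∧ ∀ i ∈ U.1, i ∉ S.1 → w i < 0),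
      ((-1 : ℤ) ^ Module.finrank ℝ L * (-1 : ℤ) ^ Module.finrank ℝ (van L U.1)) :=
          Finset.sum_congr rfl (fun U _ => neg_one_pow_lrk U.1)
      _ = 0 := by rw [← Finset.mul_sum, hre, mul_zero]
  · push Not
    obtain ⟨i, hi, hi2, hi3⟩ := hneg
    refine ⟨i, (hsupp i).2 hi2, ?_⟩
    rw [hval, hTt i hi, mul_zero, add_zero]
    exact hi3.le

theorem LF.euler' {S T : LF L} (h : S < T) :
    ∑ U ∈ univ.filter (fun U : LF L => S ≤ U ∧ U ≤ T), (-1 : ℤ) ^ lrk L U.1 = 0 := by
  obtain ⟨y, hy, hy0, hS⟩ := S.2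
  have hyS : y ∈ van L S.1 := ⟨hy, fun i hi => by rw [hS] at hi; exact hi⟩
  have hypos : ∀ i, i ∉ S.1 → 0 < y i := by
    intro i hi
    refine lt_of_le_of_ne (hy0 i) ?_
    intro h0
    exact hi (by rw [hS]; exact h0.symm)
  have hne : ∃ i ∈ T.1, i ∉ S.1 := by
    have : ¬ T.1 ⊆ S.1 := fun h' => absurd (LF.le_iff.2 h') (not_le_of_gt h)
    rw [Set.not_subset] at this
    exact this
  obtain ⟨i, hi, hi2⟩ := hne
  have := signed_sum' S T h.le (-y) (Submodule.neg_mem _ hyS)
    (by intro j _ hj; have := hypos j hj; simp only [Pi.neg_apply]; linarith)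
    ⟨i, hi, hi2, by have := hypos i hi2; simp only [Pi.neg_apply]; linarith⟩
  rw [← this]
  apply Finset.sum_congr _ (fun _ _ => rfl)
  ext U
  simp only [Finset.mem_filter, Finset.mem_univ, true_and]
  constructor
  · rintro ⟨h1, h2⟩
    exact ⟨h1, h2, fun j _ hj => by have := hypos j hj; simp only [Pi.neg_apply]; linarith⟩
  · rintro ⟨h1, h2, _⟩
    exact ⟨h1, h2⟩

theorem LF.other {S G A : LF L} (hSA : S < A) (hAG : A < G) (hr : lrk L G.1 = lrk L S.1 + 2) :
    ∃ B : LF L, S < B ∧ B < G ∧ B ≠ A := by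
  by_contra hcon
  push Not at hcon
  have h1 := LF.euler' (hSA.trans hAG)
  have h2 : univ.filter (fun U : LF L => S ≤ U ∧ U ≤ G) = {S, A, G} := by
    ext U
    simp only [Finset.mem_filter, Finset.mem_univ, true_and, Finset.mem_insert,
      Finset.mem_singleton]
    constructor
    · rintro ⟨h3, h4⟩
      rcases h3.eq_or_lt with h3 | h3
      · exact Or.inl h3.symm
      · rcases h4.eq_or_lt with h4 | h4
        · exact Or.inr (Or.inr h4)
        · exact Or.inr (Or.inl (hcon U h3 h4))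
    · rintro (rfl | rfl | rfl)
      · exact ⟨le_rfl, (hSA.trans hAG).le⟩
      · exact ⟨hSA.le, hAG.le⟩
      · exact ⟨(hSA.trans hAG).le, le_rfl⟩
  have h3 := lrk_lt hSA
  have h4 := lrk_lt hAG
  have h5 : lrk L A.1 = lrk L S.1 + 1 := by omega
  rw [h2, Finset.sum_insert, Finset.sum_insert, Finset.sum_singleton, hr, h5, pow_succ,
    pow_succ, pow_succ] at h1
  · have h6 : (-1 : ℤ) ^ lrk L S.1 ≠ 0 := pow_ne_zero _ (by norm_num)
    apply h6
    linarith
  · rw [Finset.mem_singleton]; exact hAG.ne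
  · rw [Finset.mem_insert, Finset.mem_singleton]
    push Not
    exact ⟨hSA.ne, (hSA.trans hAG).ne⟩

theorem LF.conn' {S T : LF L} (hST : S < T) :
    Conn (adj (fun T : LF L => lrk L T.1) S T) (lv (fun T : LF L => lrk L T.1) S T 1) := by
  have hmem : ∀ A : LF L, A ∈ lv (fun T : LF L => lrk L T.1) S T 1 ↔
      S ≤ A ∧ A ≤ T ∧ lrk L A.1 = lrk L S.1 + 1 := fun A => mem_lv
  obtain ⟨y, hy, hy0, hS⟩ := S.2
  have hyS : y ∈ van L S.1 := ⟨hy, fun i hi => by rw [hS] at hi; exact hi⟩
  have hypos : ∀ i, i ∉ S.1 → 0 < y i := by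
    intro i hi
    refine lt_of_le_of_ne (hy0 i) ?_
    intro h0
    exact hi (by rw [hS]; exact h0.symm)
  have hspan : Module.finrank ℝ (Submodule.span ℝ {y}) ≤ 1 := by
    by_cases h0 : y = 0
    · rw [h0, Submodule.span_zero_singleton, finrank_bot]; omega
    · rw [finrank_span_singleton h0]
  -- finrank of atoms
  have hfr : ∀ A : LF L, A ∈ lv (fun T : LF L => lrk L T.1) S T 1 →
      Module.finrank ℝ (van L A.1) + 1 = Module.finrank ℝ (van L S.1) := by
    intro A hA
    rw [hmem] at hA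
    have h2 := lrk_add (L := L) S.1
    have h3 := lrk_add (L := L) A.1
    omega
  -- an element of `A \ S` for two distinct atoms
  have hdiff : ∀ A ∈ lv (fun T : LF L => lrk L T.1) S T 1,
      ∀ B ∈ lv (fun T : LF L => lrk L T.1) S T 1, B ≠ A → ∃ i ∈ B.1, i ∉ A.1 := by
    intro A hA B hB hne
    rw [hmem] at hA hB
    by_contra hcon
    push Not at hcon
    exact hne (lrk_inj (LF.le_iff.2 hcon) (by omega))
  -- generic functional
  obtain ⟨l, hl, hgen⟩ := exists_generic (ι := ι)
    ((Finset.univ : Finset (LF L × ι)).filter (fun p =>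
      p.1 ∈ lv (fun T : LF L => lrk L T.1) S T 1 ∧ p.2 ∉ p.1.1)) (van L S.1)
    (fun p => van L (insert p.2 p.1.1) ⊔ Submodule.span ℝ {y}) (by
      rintro ⟨A, i⟩ hp hle
      simp only [Finset.mem_filter, Finset.mem_univ, true_and] at hp hle
      obtain ⟨hA, hi⟩ := hp
      obtain ⟨t, ht, ht0, hT⟩ := A.2
      have h1 : van L (insert i A.1) < van L A.1 := by
        refine lt_of_le_of_ne (van_mono L (Set.subset_insert _ _)) ?_
        intro heq
        have h2 : t ∈ van L A.1 := ⟨ht, fun j hj => by rw [hT] at hj; exact hj⟩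
        rw [← heq] at h2
        apply hi
        rw [hT]
        exact h2.2 i (Set.mem_insert _ _)
      have h2 := Submodule.finrank_lt_finrank_of_lt h1
      have h3 := Submodule.finrank_mono hle
      have h4 := Submodule.finrank_add_le_finrank_add_finrank (van L (insert i A.1))
        (Submodule.span ℝ {y})
      have h5 := hfr A hA
      omega)
  have hr : ∀ A : LF L, ∃ r : ℝ, A ∈ lv (fun T : LF L => lrk L T.1) S T 1 →
      l - r • y ∈ van L A.1 := by
    intro A
    by_cases hA : A ∈ lv (fun T : LF L => lrk L T.1) S T 1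
    · have h1 := hfr A hA
      have hA' := (hmem A).1 hA
      have hle : van L A.1 ⊔ Submodule.span ℝ {y} ≤ van L S.1 := by
        rw [sup_le_iff]
        refine ⟨van_mono L (LF.le_iff.1 hA'.1), ?_⟩
        rw [Submodule.span_singleton_le_iff_mem]
        exact hyS
      have hlt : van L A.1 < van L A.1 ⊔ Submodule.span ℝ {y} := by
        refine lt_of_le_of_ne le_sup_left ?_
        intro heq
        have h2 : y ∈ van L A.1 := by
          rw [heq]
          exact Submodule.mem_sup_right (Submodule.mem_span_singleton_self y)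
        have h3 : A.1 ⊆ S.1 := by
          intro i hi
          rw [hS]
          exact h2.2 i hi
        have h4 := lrk_inj (LF.le_iff.2 h3)
        have h5 := h4 (by omega)
        rw [h5] at hA'
        omega
      have h2 := Submodule.finrank_lt_finrank_of_lt hlt
      have heq := Submodule.eq_of_le_of_finrank_le hle (by omega)
      rw [← heq, Submodule.mem_sup] at hl
      obtain ⟨a, ha, b, hb, hab⟩ := hl
      rw [Submodule.mem_span_singleton] at hb
      obtain ⟨r, rfl⟩ := hb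
      refine ⟨r, fun _ => ?_⟩
      rw [← hab]
      simpa using ha
    · exact ⟨0, fun h' => absurd h' hA⟩
  choose r hr using hr
  have hval : ∀ A ∈ lv (fun T : LF L => lrk L T.1) S T 1, ∀ i ∈ A.1, l i = r A * y i := by
    intro A hA i hi
    have := (hr A hA).2 i hi
    simp only [Pi.sub_apply, Pi.smul_apply, smul_eq_mul] at this
    linarith
  have hgen' : ∀ A ∈ lv (fun T : LF L => lrk L T.1) S T 1, ∀ i, i ∉ A.1 → l i ≠ r A * y i := by
    intro A hA i hi heq
    apply hgen (A, i) (by simp [hA, hi])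
    rw [Submodule.mem_sup]
    refine ⟨l - r A • y, ⟨(hr A hA).1, ?_⟩, r A • y,
      Submodule.smul_mem _ _ (Submodule.mem_span_singleton_self y), by abel⟩
    intro j hj
    rcases Set.mem_insert_iff.1 hj with rfl | hj
    · simp only [Pi.sub_apply, Pi.smul_apply, smul_eq_mul]
      linarith
    · exact (hr A hA).2 j hj
  have hdist : ∀ A ∈ lv (fun T : LF L => lrk L T.1) S T 1,
      ∀ B ∈ lv (fun T : LF L => lrk L T.1) S T 1, r A = r B → A = B := by
    intro A hA B hB hAB
    by_contra hne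
    obtain ⟨i, hi, hi2⟩ := hdiff A hA B hB (Ne.symm hne)
    apply hgen' A hA i hi2
    rw [hAB]
    exact hval B hB i hi
  have hdesc : ∀ A ∈ lv (fun T : LF L => lrk L T.1) S T 1,
      ∀ B ∈ lv (fun T : LF L => lrk L T.1) S T 1, r B < r A →
      ∃ C ∈ lv (fun T : LF L => lrk L T.1) S T 1,
        adj (fun T : LF L => lrk L T.1) S T A C ∧ r C < r A := by
    intro A hA B hB hlt
    have hA' := (hmem A).1 hA
    have hSA : S < A := lt_of_le_of_ne hA'.1 (by rintro rfl; omega)
    have hB' := (hmem B).1 hB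
    obtain ⟨i, hi, hi2⟩ := hdiff A hA B hB (by rintro rfl; exact lt_irrefl _ hlt)
    have hSA1 : S.1 ⊆ A.1 := LF.le_iff.1 hA'.1
    have key := signed_sum' A T hA'.2.1 (l - r A • y) (hr A hA)
      (by
        intro j _ hj
        have := hgen' A hA j hj
        simp only [Pi.sub_apply, Pi.smul_apply, smul_eq_mul]
        exact sub_ne_zero.2 this)
      ⟨i, LF.le_iff.1 hB'.2.1 hi, hi2, by
        have h1 := hval B hB i hi
        have h2 := hypos i (fun h' => hi2 (hSA1 h'))
        simp only [Pi.sub_apply, Pi.smul_apply, smul_eq_mul]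
        rw [h1]
        have := mul_lt_mul_of_pos_right hlt h2
        linarith⟩
    set F := univ.filter (fun U : LF L => A ≤ U ∧ U ≤ T ∧
      ∀ i ∈ U.1, i ∉ A.1 → (l - r A • y) i < 0) with hF
    have hAF : A ∈ F := by
      rw [hF, Finset.mem_filter]
      exact ⟨Finset.mem_univ _, le_rfl, hA'.2.1, fun j hj hj2 => absurd hj hj2⟩
    obtain ⟨T', hT', hne⟩ : ∃ T' ∈ F, T' ≠ A := by
      by_contra hcon
      push Not at hcon
      have hF' : F = {A} := by
        ext U
        rw [Finset.mem_singleton]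
        exact ⟨fun h' => hcon U h', fun h' => by rw [h']; exact hAF⟩
      rw [hF', Finset.sum_singleton] at key
      exact pow_ne_zero _ (by norm_num) key
    rw [hF, Finset.mem_filter] at hT'
    obtain ⟨-, h1, h2, h3⟩ := hT'
    obtain ⟨G, hG1, hG2⟩ := exists_covBy_le_of_lt (lt_of_le_of_ne h1 (Ne.symm hne))
    have h4 := lrk_covBy hG1
    obtain ⟨C, hC1, hC2, hC3⟩ := LF.other hSA hG1.lt (by omega)
    have h5 := lrk_lt hC1
    have h6 := lrk_lt hC2
    have hC : C ∈ lv (fun T : LF L => lrk L T.1) S T 1 :=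
      (hmem C).2 ⟨hC1.le, (hC2.le.trans hG2).trans h2, by omega⟩
    refine ⟨C, hC, ⟨G, ?_, hG1.le, hC2.le⟩, ?_⟩
    · rw [mem_lv]
      exact ⟨(hSA.trans hG1.lt).le, hG2.trans h2, by omega⟩
    · obtain ⟨j, hj, hj2⟩ := hdiff A hA C hC hC3
      have h7 := h3 j (LF.le_iff.1 (hC2.le.trans hG2) hj) hj2
      simp only [Pi.sub_apply, Pi.smul_apply, smul_eq_mul] at h7
      rw [hval C hC j hj] at h7
      have h8 := hypos j (fun h' => hj2 (hSA1 h'))
      by_contra hcon
      push Not at hcon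
      have := mul_le_mul_of_nonneg_right hcon h8.le
      linarith
  refine ⟨?_, ?_⟩
  · obtain ⟨A, hA1, hA2⟩ := exists_covBy_le_of_lt hST
    exact ⟨A, (hmem A).2 ⟨hA1.le, hA2, lrk_covBy hA1⟩⟩
  · intro Z hZ hne hcl
    by_contra hcon
    have hne2 : (lv (fun T : LF L => lrk L T.1) S T 1 \ Z).Nonempty := by
      rw [Finset.sdiff_nonempty]
      intro h'
      exact hcon (Finset.Subset.antisymm hZ h')
    obtain ⟨M, hM, hMmin⟩ := Finset.exists_min_image Z r hne
    obtain ⟨M', hM', hMmin'⟩ := Finset.exists_min_image _ r hne2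
    rw [Finset.mem_sdiff] at hM'
    rcases lt_trichotomy (r M) (r M') with hlt | heq | hlt
    · obtain ⟨C, hC, hadj, hr'⟩ := hdesc M' hM'.1 M (hZ hM) hlt
      by_cases hCZ : C ∈ Z
      · exact hM'.2 (hcl C hCZ M' hM'.1 (adj_symm hadj))
      · have := hMmin' C (Finset.mem_sdiff.2 ⟨hC, hCZ⟩)
        linarith
    · have := hdist M (hZ hM) M' hM'.1 heq
      rw [← this] at hM'
      exact hM'.2 hM
    · obtain ⟨C, hC, hadj, hr'⟩ := hdesc M (hZ hM) M' hM'.1 hlt
      have h1 := hcl M hM C hC hadj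
      have := hMmin C h1
      linarith

end

/-- the face lattice of a pointed configuration is an Eulerian lattice with connected sections -/
theorem LF.elc (L : Submodule ℝ (ι → ℝ)) (hp : LFace L ∅) :
    ELC (fun T : LF L => lrk L T.1) where
  rk_bot := by
    change lrk L (⊥ : LF L).1 = 0
    rw [LF.bot_val L hp, lrk, van_empty]
    omega
  covBy := fun a b hab => lrk_covBy hab
  euler := fun a b hab => LF.euler' hab
  conn := by
    intro a b hab hr
    apply LF.conn'
    refine lt_of_le_of_ne hab ?_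
    rintro rfl
    omega

end

end FRC
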