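import Pool.Agent.FR.Main5
import Pool.Agent.FR.Curv
import Pool.Agent.FR.Ball
import Pool.Agent.FR.LFElc
import Pool.Agent.FR.Bridge
import Pool.Agent.FR.FinList

set_option linter.unusedSectionVars false

open Finset
open scoped Classical

namespace FRC

noncomputable section

/-- transport of Forman–Ricci positivity to the abstract lattice -/
theorem frpos_transport {n : ℕ} {P : Set (Fin n → ℝ)} {α : Type} [Lattice α] [BoundedOrder α]
    [Fintype α] {rk : α → ℕ} (h0 : rk ⊥ = 0) (Φ : FRPoly.Face P ≃o α)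
    (hΦ : ∀ F, (rk (Φ F) : ℤ) = FRPoly.pdim F.1 + 1) (hp : FRPoly.FRPositive P) :
    FRpos (α := α) rk := by
  -- dimension of the face of an element
  have hdim : ∀ (x : α) (k : ℕ), rk x = k + 1 →
      (Φ.symm x).1 ∈ FRPoly.facesOf P (k : ℤ) := by
    intro x k hk
    refine ⟨(Φ.symm x).2, ?_⟩
    have := hΦ (Φ.symm x)
    rw [Φ.apply_symm_apply, hk] at this
    push_cast at this
    linarith
  have hdim' : ∀ (F : Set (Fin n → ℝ)) (k : ℕ) (hF : F ∈ FRPoly.facesOf P (k : ℤ)),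
      rk (Φ ⟨F, hF.1⟩) = k + 1 := by
    intro F k hF
    have h1 : (rk (Φ ⟨F, hF.1⟩) : ℤ) = FRPoly.pdim F + 1 := hΦ ⟨F, hF.1⟩
    have h2 : FRPoly.pdim F = (k : ℤ) := hF.2
    omega
  have hle : ∀ (x y : α), (Φ.symm x).1 ⊆ (Φ.symm y).1 ↔ x ≤ y := by
    intro x y
    have : Φ.symm x ≤ Φ.symm y ↔ x ≤ y := Φ.symm.le_iff_le
    exact this
  have hmem : ∀ (x : α) (k : ℕ), x ∈ lv rk (⊥ : α) ⊤ k ↔ rk x = k := by
    intro x k
    rw [mem_lv, h0]
    simp
  intro e he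
  rw [hmem] at he
  have hE := hdim e 1 he
  have hpos := hp _ hE
  -- the 2-faces above `x`
  have hup : ∀ x : α, FRPoly.up P (Φ.symm x).1
      = (fun G : α => (Φ.symm G).1) '' {G : α | rk G = 3 ∧ x ≤ G} := by
    intro x
    ext G
    constructor
    · rintro ⟨hG, hxG⟩
      refine ⟨Φ ⟨G, hG.1⟩, ⟨hdim' G 2 hG, ?_⟩, by simp⟩
      rw [← hle, Φ.symm_apply_apply]
      exact hxG
    · rintro ⟨G', ⟨h1, h2⟩, rfl⟩
      exact ⟨hdim G' 2 h1, (hle _ _).2 h2⟩
  have hdn : ∀ x : α, FRPoly.down P (Φ.symm x).1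
      = (fun G : α => (Φ.symm G).1) '' {G : α | rk G = 1 ∧ G ≤ x} := by
    intro x
    ext G
    constructor
    · rintro ⟨hG, hxG⟩
      refine ⟨Φ ⟨G, hG.1⟩, ⟨hdim' G 0 hG, ?_⟩, by simp⟩
      rw [← hle, Φ.symm_apply_apply]
      exact hxG
    · rintro ⟨G', ⟨h1, h2⟩, rfl⟩
      exact ⟨hdim G' 0 h1, (hle _ _).2 h2⟩
  have hinj : Function.Injective (fun G : α => (Φ.symm G).1) := by
    intro x y hxy
    exact Φ.symm.injective (Subtype.ext hxy)
  have hpar : FRPoly.parNbrs P (Φ.symm e).1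
      = (fun G : α => (Φ.symm G).1) '' {e' : α | rk e' = 2 ∧ par rk e e'} := by
    have key : ∀ e' : α, ((((FRPoly.down P (Φ.symm e).1 ∩ FRPoly.down P (Φ.symm e').1).Nonempty ∧
        FRPoly.up P (Φ.symm e).1 ∩ FRPoly.up P (Φ.symm e').1 = ∅) ∨
      ((FRPoly.up P (Φ.symm e).1 ∩ FRPoly.up P (Φ.symm e').1).Nonempty ∧
        FRPoly.down P (Φ.symm e).1 ∩ FRPoly.down P (Φ.symm e').1 = ∅))) ↔ par rk e e' := by
      intro e'
      have hU : (FRPoly.up P (Φ.symm e).1 ∩ FRPoly.up P (Φ.symm e').1).Nonempty ↔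
          ∃ G ∈ lv rk (⊥ : α) ⊤ 3, e ≤ G ∧ e' ≤ G := by
        rw [hup, hup, ← Set.image_inter hinj, Set.image_nonempty]
        constructor
        · rintro ⟨G, h1, h2⟩
          exact ⟨G, (hmem _ _).2 h1.1, h1.2, h2.2⟩
        · rintro ⟨G, h1, h2, h3⟩
          exact ⟨G, ⟨(hmem _ _).1 h1, h2⟩, ⟨(hmem _ _).1 h1, h3⟩⟩
      have hD : (FRPoly.down P (Φ.symm e).1 ∩ FRPoly.down P (Φ.symm e').1).Nonempty ↔
          ∃ v ∈ lv rk (⊥ : α) ⊤ 1, v ≤ e ∧ v ≤ e' := by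
        rw [hdn, hdn, ← Set.image_inter hinj, Set.image_nonempty]
        constructor
        · rintro ⟨G, h1, h2⟩
          exact ⟨G, (hmem _ _).2 h1.1, h1.2, h2.2⟩
        · rintro ⟨G, h1, h2, h3⟩
          exact ⟨G, ⟨(hmem _ _).1 h1, h2⟩, ⟨(hmem _ _).1 h1, h3⟩⟩
      rw [← Set.not_nonempty_iff_eq_empty, ← Set.not_nonempty_iff_eq_empty, hU, hD]
      rfl
    ext G
    constructor
    · rintro ⟨hG, hxG⟩
      refine ⟨Φ ⟨G, hG.1⟩, ⟨hdim' G 1 hG, ?_⟩, by simp⟩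
      rw [← key, Φ.symm_apply_apply]
      exact hxG
    · rintro ⟨G', ⟨h1, h2⟩, rfl⟩
      exact ⟨hdim G' 1 h1, (key G').2 h2⟩
  have c1 : (FRPoly.up P (Φ.symm e).1).ncard = (lv rk e ⊤ 1).card := by
    rw [hup, Set.ncard_image_of_injective _ hinj, ← Set.ncard_coe_finset]
    congr 1
    ext G
    simp only [Set.mem_ofPred_eq, Finset.mem_coe, mem_lv, he]
    constructor
    · rintro ⟨h1, h2⟩; exact ⟨h2, le_top, by omega⟩
    · rintro ⟨h1, _, h2⟩; exact ⟨by omega, h1⟩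
  have c2 : (FRPoly.parNbrs P (Φ.symm e).1).ncard
      = ((lv rk (⊥ : α) ⊤ 2).filter (fun e' => par rk e e')).card := by
    rw [hpar, Set.ncard_image_of_injective _ hinj, ← Set.ncard_coe_finset]
    congr 1
    ext G
    simp only [Set.mem_ofPred_eq, Finset.mem_coe, mem_filter, hmem]
  unfold FRPoly.forman at hpos
  rw [c1, c2] at hpos
  omega

theorem final : ∃ (k : ℕ) (d : Fin k → ℕ) (R : (i : Fin k) → Set (Fin (d i) → ℝ)),
    (∀ i, FRPoly.IsPolytope (R i) ∧ FRPoly.pdim (R i) = 5 ∧ FRPoly.FRPositive (R i)) ∧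
    ∀ (n : ℕ) (P : Set (Fin n → ℝ)), FRPoly.IsPolytope P → FRPoly.pdim P = 5 →
      FRPoly.FRPositive P → ∃ i, FRPoly.CombEquiv P (R i) := by
  obtain ⟨B, hB⟩ := vertex_bound 6798 24000
  obtain ⟨k, d, R, h1, h2⟩ := finite_list
    (fun n P => FRPoly.IsPolytope P ∧ FRPoly.pdim P = 5 ∧ FRPoly.FRPositive P) (2 ^ B) (by
      rintro n P ⟨⟨s, hs, hsne, rfl⟩, hdim, hpos⟩
      have : Fintype s := hs.fintype
      obtain ⟨Φ, hΦ⟩ := bridge s
      have hE := LF.elc (affL s) (affL_pointed s)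
      have htop : Φ ⟨_, IsExposed.refl _⟩ = ⊤ := by
        apply le_antisymm le_top
        rw [← Φ.symm_apply_le]
        exact (Φ.symm ⊤).2.subset
      have h6 : lrk (affL s) (⊤ : LF (affL s)).1 = 6 := by
        have := hΦ ⟨_, IsExposed.refl _⟩
        rw [htop] at this
        rw [show FRPoly.pdim (⟨_, IsExposed.refl _⟩ : FRPoly.Face (convexHull ℝ s)).1 = 5
          from hdim] at this
        norm_num at this
        exact_mod_cast this
      have hFR := frpos_transport (rk := fun T : LF (affL s) => lrk (affL s) T.1)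
        hE.rk_bot Φ hΦ hpos
      have h4 : 4 ≤ (fun T : LF (affL s) => lrk (affL s) T.1) ⊤ := by
        show 4 ≤ lrk (affL s) (⊤ : LF (affL s)).1
        omega
      have hI := hE.FRineq_of_FRpos h4 hFR
      have hs1 := hE.hsum_of_FRineq h4 hI
      have hm := hE.main5 h6 hs1
      have hv := hB (LF (affL s)) _ hE h4 hI hm
      have hc := hE.card_le
      have e1 : Nat.card (FRPoly.Face (convexHull ℝ s)) = Fintype.card (LF (affL s)) := by
        rw [Nat.card_congr Φ.toEquiv, Nat.card_eq_fintype_card]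
      refine ⟨Finite.of_equiv _ Φ.toEquiv.symm, ?_⟩
      rw [e1]
      exact hc.trans (Nat.pow_le_pow_right (by norm_num) hv))
  exact ⟨k, d, R, h1, fun n P a b c => h2 n P ⟨a, b, c⟩⟩

end

end FRC
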