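import Pool.Agent.FR.R3

set_option linter.unusedSectionVars false

open Finset
open scoped Classical

namespace FRC

noncomputable section

variable {α : Type*} [Lattice α] [BoundedOrder α] [Fintype α] {rk : α → ℕ}

/-- Lower bound theorem for the 4-polytope `[a,b]`. -/
theorem ELC.LB (h : ELC rk) {a b : α} (hab : a ≤ b) (hl : rk b = rk a + 5) (w : α → ℤ)
    (hw : ∀ u ∈ lv rk a b 1, ∀ Y ∈ lv rk u b 3,
      ((lv rk u b 3).card : ℤ) - 3 + (dsj rk u b Y).card ≤ w u) :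
    3 * ((lv rk a b 4).card : ℤ) - 10 ≤ ∑ u ∈ lv rk a b 1, w u := by
  obtain ⟨Y, hY⟩ := h.exists_lv (i := 4) hab (by omega)
  have hY' := mem_lv.1 hY
  set T := (lv rk a b 1).filter (fun v => ¬ v ≤ Y) with hT
  have hTc := h.outer_conn (m := 4) hab (by norm_num) (by omega) hY
  obtain ⟨v0, hv0⟩ := h.exists_lv (i := 1) hY'.1 (by omega)
  have hv0' := mem_lv.1 hv0
  have hTne : T ≠ lv rk a b 1 := by
    intro hh
    have : v0 ∈ T := by rw [hh]; exact mem_lv.2 ⟨hv0'.1, hv0'.2.1.trans hY'.2.1, hv0'.2.2⟩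
    exact (mem_filter.1 this).2 hv0'.2.1
  have hR3 := h.R3 hab hl w hw T (filter_subset _ _) hTc hTne
  have hfc := h.facet_count hab hl hY (lv rk a Y 1) (Finset.Subset.refl _)
  -- facets meeting / disjoint from Y
  set 𝒴 := (lv rk a b 4).erase Y with h𝒴
  set M := 𝒴.filter (fun Y' => (lv rk a Y' 1 ∩ lv rk a Y 1).Nonempty) with hM
  set D := 𝒴.filter (fun Y' => ¬ (lv rk a Y' 1 ∩ lv rk a Y 1).Nonempty) with hD
  have hMD : M.card + D.card = (lv rk a b 4).card - 1 := by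
    rw [hM, hD, Finset.card_filter_add_card_filter_not, h𝒴, Finset.card_erase_of_mem hY]
  have hnpos : 0 < (lv rk a b 4).card := Finset.card_pos.2 ⟨Y, hY⟩
  have hDc : D.card ≤ ((lv rk a b 4).filter (fun Y => lv rk a Y 1 ⊆ T)).card := by
    apply Finset.card_le_card
    intro Y1 hY1
    rw [hD, mem_filter, h𝒴, mem_erase] at hY1
    obtain ⟨⟨h1, h2⟩, h3⟩ := hY1
    have h2' := mem_lv.1 h2
    rw [mem_filter]
    refine ⟨h2, ?_⟩
    intro x hx
    have hx' := mem_lv.1 hx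
    rw [hT, mem_filter]
    refine ⟨mem_lv.2 ⟨hx'.1, hx'.2.1.trans h2'.2.1, hx'.2.2⟩, fun hxY => h3 ⟨x, ?_⟩⟩
    exact mem_inter.2 ⟨hx, mem_lv.2 ⟨hx'.1, hxY, hx'.2.2⟩⟩
  have hVc : (lv rk a b 4).card - 1
      ≤ ((lv rk a b 4).filter (fun Y => (lv rk a Y 1 ∩ T).Nonempty)).card := by
    rw [← Finset.card_erase_of_mem hY]
    apply Finset.card_le_card
    intro Y1 hY1
    rw [mem_erase] at hY1
    have h2' := mem_lv.1 hY1.2
    have hnle : ¬ Y1 ≤ Y := fun hh => hY1.1 (h.eq_of_rk hh (by omega))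
    obtain ⟨x, hx, hxY⟩ := h.exists_atom_not_le h2'.1 hY'.1 hnle
    have hx' := mem_lv.1 hx
    rw [mem_filter]
    exact ⟨hY1.2, x, mem_inter.2 ⟨hx, mem_filter.2
      ⟨mem_lv.2 ⟨hx'.1, hx'.2.1.trans h2'.2.1, hx'.2.2⟩, hxY⟩⟩⟩
  -- evaluate the count at Y
  have e1 : (lv rk a Y 3).filter (fun M => lv rk a M 1 ⊆ lv rk a Y 1) = lv rk a Y 3 := by
    apply Finset.filter_true_of_mem
    intro M hM x hx
    have := mem_lv.1 hM
    have hx' := mem_lv.1 hx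
    exact mem_lv.2 ⟨hx'.1, hx'.2.1.trans this.2.1, hx'.2.2⟩
  have e2 : (lv rk a Y 3).filter (fun M => (lv rk a M 1 ∩ lv rk a Y 1).Nonempty)
      = lv rk a Y 3 := by
    apply Finset.filter_true_of_mem
    intro M hM
    have hM' := mem_lv.1 hM
    obtain ⟨x, hx⟩ := h.exists_lv (i := 1) hM'.1 (by omega)
    have hx' := mem_lv.1 hx
    exact ⟨x, mem_inter.2 ⟨hx, mem_lv.2 ⟨hx'.1, hx'.2.1.trans hM'.2.1, hx'.2.2⟩⟩⟩
  have e3 : 𝒴.filter (fun Y' => Y' ⊓ Y ≠ a ∧ lv rk a (Y' ⊓ Y) 1 ⊆ lv rk a Y 1) = M := by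
    rw [hM]
    apply Finset.filter_congr
    intro Y1 hY1
    rw [h𝒴, mem_erase] at hY1
    have h2' := mem_lv.1 hY1.2
    have haI : a ≤ Y1 ⊓ Y := le_inf h2'.1 hY'.1
    constructor
    · rintro ⟨h1, -⟩
      have hr : rk a + 1 ≤ rk (Y1 ⊓ Y) := by
        by_contra hcon
        exact h1 (h.eq_of_rk haI (by omega)).symm
      obtain ⟨x, hx⟩ := h.exists_lv (i := 1) haI hr
      have hx' := mem_lv.1 hx
      exact ⟨x, mem_inter.2 ⟨mem_lv.2 ⟨hx'.1, hx'.2.1.trans inf_le_left, hx'.2.2⟩,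
        mem_lv.2 ⟨hx'.1, hx'.2.1.trans inf_le_right, hx'.2.2⟩⟩⟩
    · rintro ⟨x, hx⟩
      rw [mem_inter] at hx
      have hx1 := mem_lv.1 hx.1
      have hx2 := mem_lv.1 hx.2
      have hxI : x ≤ Y1 ⊓ Y := le_inf hx1.2.1 hx2.2.1
      refine ⟨?_, ?_⟩
      · intro hh
        rw [hh] at hxI
        have := h.rk_le hxI
        omega
      · intro y hy
        have hy' := mem_lv.1 hy
        exact mem_lv.2 ⟨hy'.1, hy'.2.1.trans inf_le_right, hy'.2.2⟩
  rw [e1, e2, e3] at hfc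
  have hdeg : ∑ u ∈ lv rk a Y 1, ((lv rk u Y 1).card : ℤ) = 2 * (lv rk a Y 2).card := by
    have key := sum_lv_comm (rk := rk) (a := a) (b := Y) (i := 2) (j := 1) (by norm_num)
      (fun _ _ => (1 : ℤ))
    have hL : ∀ e ∈ lv rk a Y 2, ∑ y ∈ lv rk a e 1, (1 : ℤ) = 2 := by
      intro e he
      have he' := mem_lv.1 he
      rw [Finset.sum_const, h.lv_card_two he'.1 he'.2.2]; simp
    rw [Finset.sum_congr rfl hL] at key
    simp only [Finset.sum_const, nsmul_eq_mul, mul_one] at key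
    rw [mul_comm, key]
  have he4 := h.euler4 hY'.1 hY'.2.2
  have he4' : ((lv rk a Y 1).card : ℤ) + (lv rk a Y 3).card = (lv rk a Y 2).card + 2 := by
    exact_mod_cast he4
  rw [Finset.sum_sub_distrib (f := fun u => ((lv rk u Y 1).card : ℤ)), hdeg, Finset.sum_const] at hfc
  simp only [nsmul_eq_mul] at hfc
  have hwS : ∑ u ∈ lv rk a Y 1, (((lv rk u b 3).card : ℤ) - 3 + (dsj rk u b Y).card)
      ≤ ∑ u ∈ lv rk a Y 1, w u := by
    apply Finset.sum_le_sum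
    intro u hu
    have hu' := mem_lv.1 hu
    exact hw u (mem_lv.2 ⟨hu'.1, hu'.2.1.trans hY'.2.1, hu'.2.2⟩) Y
      (mem_lv.2 ⟨hu'.2.1, hY'.2.1, by omega⟩)
  have hsplit : ∑ u ∈ lv rk a b 1, w u = ∑ u ∈ lv rk a Y 1, w u + ∑ u ∈ T, w u := by
    rw [← Finset.sum_filter_add_sum_filter_not (lv rk a b 1) (fun v => v ≤ Y)]
    congr 1
    apply Finset.sum_congr _ (fun _ _ => rfl)
    ext x
    rw [mem_filter, mem_lv, mem_lv]
    constructor
    · rintro ⟨⟨h1, h2, h3⟩, h4⟩; exact ⟨h1, h4, h3⟩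
    · rintro ⟨h1, h2, h3⟩; exact ⟨⟨h1, h2.trans hY'.2.1, h3⟩, h2⟩
  rw [hsplit]
  have hMD' : (M.card : ℤ) + D.card = (lv rk a b 4).card - 1 := by
    have : M.card + D.card + 1 = (lv rk a b 4).card := by omega
    have := congrArg (fun n : ℕ => (n : ℤ)) this
    push_cast at this
    linarith
  have hDc' : (D.card : ℤ) ≤ ((lv rk a b 4).filter (fun Y => lv rk a Y 1 ⊆ T)).card := by
    exact_mod_cast hDc
  have hVc' : ((lv rk a b 4).card : ℤ) - 1
      ≤ ((lv rk a b 4).filter (fun Y => (lv rk a Y 1 ∩ T).Nonempty)).card := by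
    have : (lv rk a b 4).card
      ≤ ((lv rk a b 4).filter (fun Y => (lv rk a Y 1 ∩ T).Nonempty)).card + 1 := by omega
    have : ((lv rk a b 4).card : ℤ)
      ≤ ((lv rk a b 4).filter (fun Y => (lv rk a Y 1 ∩ T).Nonempty)).card + 1 := by
      exact_mod_cast this
    linarith
  linarith

end

end FRC
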