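import Pool.Agent.FR.Basic

set_option linter.unusedSectionVars false

open Finset
open scoped Classical

namespace FRC

noncomputable section

variable {ι : Type*} [Fintype ι]

/-- Faces of the vector configuration given by a space `L` of real functions on `ι`:
the zero sets of the nonnegative functions of `L`. -/
def LFace (L : Submodule ℝ (ι → ℝ)) (T : Set ι) : Prop :=
  ∃ y ∈ L, (∀ i, 0 ≤ y i) ∧ T = {i | y i = 0}

/-- functions of `L` vanishing on `T` -/
def van (L : Submodule ℝ (ι → ℝ)) (T : Set ι) : Submodule ℝ (ι → ℝ) where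
  carrier := {y | y ∈ L ∧ ∀ i ∈ T, y i = 0}
  add_mem' := by
    rintro a b ⟨ha, ha'⟩ ⟨hb, hb'⟩
    exact ⟨L.add_mem ha hb, fun i hi => by simp [ha' i hi, hb' i hi]⟩
  zero_mem' := ⟨L.zero_mem, fun i _ => rfl⟩
  smul_mem' := by
    rintro c x ⟨hx, hx'⟩
    exact ⟨L.smul_mem c hx, fun i hi => by simp [hx' i hi]⟩

theorem mem_van {L : Submodule ℝ (ι → ℝ)} {T : Set ι} {y : ι → ℝ} :
    y ∈ van L T ↔ y ∈ L ∧ ∀ i ∈ T, y i = 0 := Iff.rfl

/-- rank of `T` -/
def lrk (L : Submodule ℝ (ι → ℝ)) (T : Set ι) : ℕ :=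
  Module.finrank ℝ L - Module.finrank ℝ (van L T)

theorem van_le (L : Submodule ℝ (ι → ℝ)) (T : Set ι) : van L T ≤ L := fun _ hy => hy.1

theorem van_mono (L : Submodule ℝ (ι → ℝ)) {S T : Set ι} (hST : S ⊆ T) : van L T ≤ van L S :=
  fun _ hy => ⟨hy.1, fun i hi => hy.2 i (hST hi)⟩

theorem van_empty (L : Submodule ℝ (ι → ℝ)) : van L ∅ = L := by
  ext y
  simp [mem_van]

theorem finrank_van_le (L : Submodule ℝ (ι → ℝ)) (T : Set ι) :
    Module.finrank ℝ (van L T) ≤ Module.finrank ℝ L :=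
  Submodule.finrank_mono (van_le L T)

theorem LFace.univ (L : Submodule ℝ (ι → ℝ)) : LFace L Set.univ :=
  ⟨0, L.zero_mem, fun _ => le_rfl, by ext; simp⟩

theorem LFace.inter {L : Submodule ℝ (ι → ℝ)} {S T : Set ι} (hS : LFace L S) (hT : LFace L T) :
    LFace L (S ∩ T) := by
  obtain ⟨y, hy, hy0, rfl⟩ := hS
  obtain ⟨z, hz, hz0, rfl⟩ := hT
  refine ⟨y + z, L.add_mem hy hz, fun i => add_nonneg (hy0 i) (hz0 i), ?_⟩
  ext i
  simp only [Set.mem_inter_iff, Set.mem_ofPred_eq, Pi.add_apply]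
  constructor
  · rintro ⟨h1, h2⟩; rw [h1, h2, add_zero]
  · intro h
    have := hy0 i
    have := hz0 i
    constructor <;> linarith

/-- the faces of `L`, ordered by inclusion -/
def LF (L : Submodule ℝ (ι → ℝ)) : Type _ := {T : Set ι // LFace L T}

instance (L : Submodule ℝ (ι → ℝ)) : Fintype (LF L) :=
  inferInstanceAs (Fintype {T : Set ι // LFace L T})

instance (L : Submodule ℝ (ι → ℝ)) : PartialOrder (LF L) :=
  inferInstanceAs (PartialOrder {T : Set ι // LFace L T})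

theorem LFace.sInter {L : Submodule ℝ (ι → ℝ)} (𝒮 : Set (LF L)) :
    LFace L {i | ∀ T ∈ 𝒮, i ∈ T.1} := by
  have key : ∀ F : Finset (LF L), LFace L {i | ∀ T ∈ F, i ∈ T.1} := by
    intro F
    induction F using Finset.induction_on with
    | empty => simpa using LFace.univ L
    | insert T F hT ih =>
      have h1 := LFace.inter T.2 ih
      convert h1 using 1
      ext i
      simp
  have := key (Finset.univ.filter (fun T => T ∈ 𝒮))
  simpa using this

instance (L : Submodule ℝ (ι → ℝ)) : InfSet (LF L) :=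
  ⟨fun 𝒮 => ⟨{i | ∀ T ∈ 𝒮, i ∈ T.1}, LFace.sInter 𝒮⟩⟩

theorem LF.isGLB_sInf {L : Submodule ℝ (ι → ℝ)} (𝒮 : Set (LF L)) : IsGLB 𝒮 (sInf 𝒮) := by
  constructor
  · intro T hT
    change {i | ∀ T ∈ 𝒮, i ∈ T.1} ⊆ T.1
    intro i hi
    exact hi T hT
  · intro T hT
    change T.1 ⊆ {i | ∀ T ∈ 𝒮, i ∈ T.1}
    intro i hi S hS
    exact (hT hS) hi

instance instCL (L : Submodule ℝ (ι → ℝ)) : CompleteLattice (LF L) :=
  completeLatticeOfInf _ LF.isGLB_sInf

theorem LF.le_iff {L : Submodule ℝ (ι → ℝ)} {S T : LF L} : S ≤ T ↔ S.1 ⊆ T.1 := Iff.rfl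

/-- a face as an element of the lattice -/
def LF.mk {L : Submodule ℝ (ι → ℝ)} (T : Set ι) (hT : LFace L T) : LF L := ⟨T, hT⟩

theorem LF.top_val (L : Submodule ℝ (ι → ℝ)) : (⊤ : LF L).1 = Set.univ := by
  have h : LF.mk Set.univ (LFace.univ L) ≤ ⊤ := le_top
  exact Set.univ_subset_iff.1 h

theorem LF.bot_val (L : Submodule ℝ (ι → ℝ)) (hp : LFace L ∅) : (⊥ : LF L).1 = ∅ := by
  have h : ⊥ ≤ LF.mk ∅ hp := bot_le
  exact Set.subset_empty_iff.1 h

theorem LF.rk_top (L : Submodule ℝ (ι → ℝ)) :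
    lrk L (⊤ : LF L).1 = Module.finrank ℝ L := by
  rw [LF.top_val]
  have h1 : van L Set.univ = ⊥ := by
    ext y
    simp only [mem_van, Set.mem_univ, forall_const, Submodule.mem_bot]
    constructor
    · rintro ⟨_, h⟩; exact funext h
    · rintro rfl; exact ⟨L.zero_mem, fun _ => rfl⟩
  rw [lrk, h1, finrank_bot, Nat.sub_zero]

end

end FRC
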