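import Pool.Agent.FR.Basic

set_option linter.unusedSectionVars false

open Finset
open scoped Classical

namespace FRC

noncomputable section

variable {α : Type*} [Lattice α] [BoundedOrder α] [Fintype α] {rk : α → ℕ}

/-- ordered pairs of atoms of `[a,c]` whose join has rank at least 3 -/
def npairs (rk : α → ℕ) (a c : α) : Finset (α × α) :=
  ((lv rk a c 1) ×ˢ (lv rk a c 1)).filter (fun p => rk a + 3 ≤ rk (p.1 ⊔ p.2))

theorem mem_npairs {a c : α} {p : α × α} :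
    p ∈ npairs rk a c ↔ p.1 ∈ lv rk a c 1 ∧ p.2 ∈ lv rk a c 1 ∧ rk a + 3 ≤ rk (p.1 ⊔ p.2) := by
  simp only [npairs, mem_filter, mem_product, and_assoc]

theorem ELC.card_npairs (h : ELC rk) {a c : α} :
    (npairs rk a c).card + (lv rk a c 1).card + 2 * (lv rk a c 2).card
      = (lv rk a c 1).card * (lv rk a c 1).card := by
  set S := (lv rk a c 1) ×ˢ (lv rk a c 1) with hS
  have h1 : (npairs rk a c).card + (S.filter (fun p => ¬ rk a + 3 ≤ rk (p.1 ⊔ p.2))).card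
      = S.card := Finset.card_filter_add_card_filter_not _
  have hScard : S.card = (lv rk a c 1).card * (lv rk a c 1).card := Finset.card_product _ _
  set A := S.filter (fun p => ¬ rk a + 3 ≤ rk (p.1 ⊔ p.2)) with hA
  have h2 : (A.filter (fun p => p.1 = p.2)).card + (A.filter (fun p => ¬ p.1 = p.2)).card
      = A.card := Finset.card_filter_add_card_filter_not _
  have h3 : (A.filter (fun p => p.1 = p.2)) = (lv rk a c 1).diag := by
    ext p
    simp only [hA, hS, mem_filter, mem_product, mem_diag]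
    constructor
    · rintro ⟨⟨⟨x1, x2⟩, x3⟩, x4⟩
      exact ⟨x1, x4⟩
    · rintro ⟨x1, x4⟩
      refine ⟨⟨⟨x1, x4 ▸ x1⟩, ?_⟩, x4⟩
      rw [← x4, sup_idem]
      have := (mem_lv.1 x1).2.2
      omega
  have h4 : (A.filter (fun p => ¬ p.1 = p.2)).card = ∑ e ∈ lv rk a c 2, 2 := by
    rw [Finset.card_eq_sum_card_fiberwise (f := fun p => p.1 ⊔ p.2) (t := lv rk a c 2)]
    · apply Finset.sum_congr rfl
      intro e he
      have he' := mem_lv.1 he
      have hset : ((A.filter (fun p => ¬ p.1 = p.2)).filter (fun p => p.1 ⊔ p.2 = e))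
          = (lv rk a e 1).offDiag := by
        ext p
        simp only [hA, hS, mem_filter, mem_product, mem_offDiag, mem_lv]
        constructor
        · rintro ⟨⟨⟨⟨x1, x2⟩, x3⟩, x4⟩, x5⟩
          refine ⟨⟨x1.1, x5 ▸ le_sup_left, x1.2.2⟩, ⟨x2.1, x5 ▸ le_sup_right, x2.2.2⟩, x4⟩
        · rintro ⟨x1, x2, x4⟩
          have x6 := h.lt_rk_sup x4 (by omega)
          have x7 : p.1 ⊔ p.2 ≤ e := sup_le x1.2.1 x2.2.1
          have x8 : p.1 ⊔ p.2 = e := h.eq_of_rk x7 (by omega)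
          refine ⟨⟨⟨⟨⟨x1.1, x1.2.1.trans he'.2.1, x1.2.2⟩,
            ⟨x2.1, x2.2.1.trans he'.2.1, x2.2.2⟩⟩, ?_⟩, x4⟩, x8⟩
          rw [x8]; omega
      rw [hset, Finset.offDiag_card, h.lv_card_two he'.1 he'.2.2]
    · intro p hp
      simp only [hA, hS, coe_filter, mem_filter, mem_product, mem_lv,
        Set.mem_ofPred_eq, Finset.mem_coe] at hp ⊢
      obtain ⟨⟨⟨x1, x2⟩, x3⟩, x4⟩ := hp
      have x6 := h.lt_rk_sup x4 (by omega)
      exact ⟨x1.1.trans le_sup_left, sup_le x1.2.1 x2.2.1, by omega⟩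
  rw [h3, Finset.diag_card, h4, Finset.sum_const, smul_eq_mul] at h2
  omega

theorem ELC.sum_npairs {a b : α} (i : ℕ) :
    ∑ Q ∈ lv rk a b i, (npairs rk a Q).card
      = ∑ p ∈ npairs rk a b, ((lv rk a b i).filter (fun Q => p.1 ⊔ p.2 ≤ Q)).card := by
  have h1 : ∀ Q ∈ lv rk a b i, (npairs rk a Q).card = ∑ p ∈ npairs rk a Q, 1 := by
    intro Q _; rw [Finset.card_eq_sum_ones]
  have h2 : ∀ p ∈ npairs rk a b, ((lv rk a b i).filter (fun Q => p.1 ⊔ p.2 ≤ Q)).card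
      = ∑ Q ∈ (lv rk a b i).filter (fun Q => p.1 ⊔ p.2 ≤ Q), 1 := by
    intro Q _; rw [Finset.card_eq_sum_ones]
  rw [Finset.sum_congr rfl h1, Finset.sum_congr rfl h2]
  apply Finset.sum_comm'
  intro Q p
  simp only [mem_npairs, mem_filter, mem_lv]
  constructor
  · rintro ⟨⟨x1, x2, x3⟩, ⟨y1, y2, y3⟩, ⟨z1, z2, z3⟩, w⟩
    exact ⟨⟨⟨x1, x2, x3⟩, sup_le y2 z2⟩, ⟨y1, y2.trans x2, y3⟩, ⟨z1, z2.trans x2, z3⟩, w⟩
  · rintro ⟨⟨⟨x1, x2, x3⟩, y⟩, ⟨z1, z2, z3⟩, ⟨t1, t2, t3⟩, w⟩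
    exact ⟨⟨x1, x2, x3⟩, ⟨z1, le_sup_left.trans y, z3⟩, ⟨t1, le_sup_right.trans y, t3⟩, w⟩

/-- number of pairs of edges at a vertex of `[v,⊤]` that are not in a common 2-face,
compared with the weights `mu` of the sections `[v,Q]`. -/
theorem ELC.mu_le (h : ELC rk) {a b : α} (hab : a ≤ b) (hl : rk b = rk a + 5) :
    ∑ Q ∈ lv rk a b 4, mu rk a Q
      ≤ ((lv rk a b 1).card : ℚ) * ((lv rk a b 1).card - 1) / 2 - (lv rk a b 2).card := by
  have hQ : ∀ Q ∈ lv rk a b 4, mu rk a Q = ((npairs rk a Q).card : ℚ) / 2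
      - (∑ f ∈ lv rk a Q 3, ((npairs rk a f).card : ℚ)) / 4 := by
    intro Q _
    have e1 : ((npairs rk a Q).card : ℚ) + (lv rk a Q 1).card + 2 * (lv rk a Q 2).card
        = (lv rk a Q 1).card * (lv rk a Q 1).card := by
      exact_mod_cast h.card_npairs (a := a) (c := Q)
    have e2 : ∑ f ∈ lv rk a Q 3, ((npairs rk a f).card : ℚ)
        = ∑ f ∈ lv rk a Q 3, ((lv rk a f 1).card : ℚ) * ((lv rk a f 1).card - 3) := by
      apply Finset.sum_congr rfl
      intro f hf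
      have hf' := mem_lv.1 hf
      have e3 : ((npairs rk a f).card : ℚ) + (lv rk a f 1).card + 2 * (lv rk a f 2).card
          = (lv rk a f 1).card * (lv rk a f 1).card := by
        exact_mod_cast h.card_npairs (a := a) (c := f)
      rw [← h.euler3 hf'.1 hf'.2.2] at e3
      linarith
    rw [e2, mu]
    linarith
  rw [Finset.sum_congr rfl hQ, Finset.sum_sub_distrib, ← Finset.sum_div, ← Finset.sum_div]
  have h2 : ∑ Q ∈ lv rk a b 4, ∑ f ∈ lv rk a Q 3, ((npairs rk a f).card : ℚ)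
      = 2 * ∑ f ∈ lv rk a b 3, ((npairs rk a f).card : ℚ) := by
    rw [ELC.sum_lv_comm (by norm_num) (fun _ f => ((npairs rk a f).card : ℚ)), Finset.mul_sum]
    apply Finset.sum_congr rfl
    intro f hf
    have hf' := mem_lv.1 hf
    rw [Finset.sum_const, h.lv_card_two hf'.2.1 (by omega), nsmul_eq_mul]
    norm_num
  have h3 : ∑ Q ∈ lv rk a b 4, (npairs rk a Q).card
      ≤ (npairs rk a b).card + ∑ f ∈ lv rk a b 3, (npairs rk a f).card := by
    rw [ELC.sum_npairs, ELC.sum_npairs, Finset.card_eq_sum_ones, ← Finset.sum_add_distrib]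
    apply Finset.sum_le_sum
    intro p hp
    rw [mem_npairs] at hp
    obtain ⟨hx, hy, hr⟩ := hp
    have hx' := mem_lv.1 hx
    have hy' := mem_lv.1 hy
    have hjb : p.1 ⊔ p.2 ≤ b := sup_le hx'.2.1 hy'.2.1
    have haj : a ≤ p.1 ⊔ p.2 := hx'.1.trans le_sup_left
    have hjr := h.rk_le hjb
    by_cases h3 : rk (p.1 ⊔ p.2) = rk a + 3
    · have hs : (lv rk a b 4).filter (fun Q => p.1 ⊔ p.2 ≤ Q) ⊆ lv rk (p.1 ⊔ p.2) b 1 := by
        intro Q hQ
        rw [mem_filter, mem_lv] at hQ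
        exact mem_lv.2 ⟨hQ.2, hQ.1.2.1, by omega⟩
      have hs2 := Finset.card_le_card hs
      rw [h.lv_card_two hjb (by omega)] at hs2
      have hs3 : p.1 ⊔ p.2 ∈ (lv rk a b 3).filter (fun Q => p.1 ⊔ p.2 ≤ Q) :=
        mem_filter.2 ⟨mem_lv.2 ⟨haj, hjb, h3⟩, le_rfl⟩
      have hs4 := Finset.card_pos.2 ⟨_, hs3⟩
      omega
    · have hs : (lv rk a b 4).filter (fun Q => p.1 ⊔ p.2 ≤ Q) ⊆ {p.1 ⊔ p.2} := by
        intro Q hQ
        rw [mem_filter, mem_lv] at hQ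
        rw [mem_singleton]
        exact (h.eq_of_rk hQ.2 (by omega)).symm
      have hs2 := Finset.card_le_card hs
      rw [Finset.card_singleton] at hs2
      omega
  have h4 : ((npairs rk a b).card : ℚ) + (lv rk a b 1).card + 2 * (lv rk a b 2).card
      = (lv rk a b 1).card * (lv rk a b 1).card := by
    exact_mod_cast h.card_npairs (a := a) (c := b)
  have h3' : ∑ Q ∈ lv rk a b 4, ((npairs rk a Q).card : ℚ)
      ≤ (npairs rk a b).card + ∑ f ∈ lv rk a b 3, ((npairs rk a f).card : ℚ) := by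
    exact_mod_cast h3
  rw [h2]
  linarith

end

end FRC
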