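import Pool.Agent.FR.Comps

set_option linter.unusedSectionVars false

open Finset
open scoped Classical

namespace FRC

noncomputable section

variable {α : Type*} [Lattice α] [BoundedOrder α] [Fintype α] {rk : α → ℕ}

/-- a nonempty even set of lines has at least three elements -/
theorem ELC.three_le_cycle (h : ELC rk) {a b : α} (B : Finset α) (hB : B ⊆ lv rk a b 2)
    (hne : B.Nonempty)
    (hev : ∀ v ∈ lv rk a b 1, Even ((B.filter (fun e => v ≤ e)).card)) : 3 ≤ B.card := by
  obtain ⟨e, he⟩ := hne
  have he' := mem_lv.1 (hB he)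
  have hc := h.lv_card_two he'.1 (by omega)
  obtain ⟨u, v, huv, hs⟩ := Finset.card_eq_two.1 hc
  have hu : u ∈ lv rk a e 1 := by rw [hs]; simp
  have hv : v ∈ lv rk a e 1 := by rw [hs]; simp
  have key : ∀ w ∈ lv rk a e 1, ∃ e1 ∈ B, w ≤ e1 ∧ e1 ≠ e := by
    intro w hw
    rw [mem_lv] at hw
    have hev1 := hev w (mem_lv.2 ⟨hw.1, hw.2.1.trans he'.2.1, hw.2.2⟩)
    have hpos : 0 < (B.filter (fun e => w ≤ e)).card :=
      Finset.card_pos.2 ⟨e, mem_filter.2 ⟨he, hw.2.1⟩⟩
    have h2 : 1 < (B.filter (fun e => w ≤ e)).card := by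
      rcases hev1 with ⟨k, hk⟩
      omega
    obtain ⟨e1, he1, hne1⟩ := Finset.exists_mem_ne h2 e
    rw [mem_filter] at he1
    exact ⟨e1, he1.1, he1.2, hne1⟩
  obtain ⟨e1, h11, h12, h13⟩ := key u hu
  obtain ⟨e2, h21, h22, h23⟩ := key v hv
  rw [mem_lv] at hu hv
  have hne12 : e1 ≠ e2 := by
    rintro rfl
    have h1' := mem_lv.1 (hB h11)
    exact h13 (h.eq_of_two huv (by omega) (by omega) (by omega) h12 h22 hu.2.1 hv.2.1)
  have hsub : ({e, e1, e2} : Finset α) ⊆ B := by
    intro x hx
    simp only [mem_insert, mem_singleton] at hx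
    rcases hx with rfl | rfl | rfl
    · exact he
    · exact h11
    · exact h21
  have hcard : ({e, e1, e2} : Finset α).card = 3 := by
    rw [Finset.card_eq_three]
    exact ⟨e, e1, e2, h13.symm, h23.symm, hne12, rfl⟩
  rw [← hcard]
  exact Finset.card_le_card hsub

/-- the boundary of a set of faces is even at every vertex -/
theorem ELC.even_bdry (h : ELC rk) {a b v : α} (hl : rk b = rk a + 4)
    (hv : v ∈ lv rk a b 1) (K : Finset α) (hK : K ⊆ lv rk a b 3) :
    Even ((((lv rk a b 2).filter (fun e => (lv rk e b 1 ∩ K).card = 1)).filter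
      (fun e => v ≤ e)).card) := by
  rw [mem_lv] at hv
  have hset : ((lv rk a b 2).filter (fun e => (lv rk e b 1 ∩ K).card = 1)).filter (fun e => v ≤ e)
      = (lv rk v b 1).filter (fun e => Odd ((lv rk e b 1 ∩ K).card)) := by
    ext e
    simp only [mem_filter]
    constructor
    · rintro ⟨⟨h1, h2⟩, h3⟩
      rw [mem_lv] at h1
      refine ⟨mem_lv.2 ⟨h3, h1.2.1, by omega⟩, ?_⟩
      rw [h2]; decide
    · rintro ⟨h1, h2⟩
      rw [mem_lv] at h1
      refine ⟨⟨mem_lv.2 ⟨hv.1.trans h1.1, h1.2.1, by omega⟩, ?_⟩, h1.1⟩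
      have hc := h.lv_card_two h1.2.1 (by omega)
      have hle : (lv rk e b 1 ∩ K).card ≤ 2 := by
        rw [← hc]; exact Finset.card_le_card inter_subset_left
      rcases h2 with ⟨k, hk⟩
      omega
  rw [hset, ← Finset.even_sum_iff_even_card_odd]
  have hsum : ∑ e ∈ lv rk v b 1, (lv rk e b 1 ∩ K).card
      = ∑ f ∈ K.filter (fun f => v ≤ f), (lv rk v f 1).card := by
    simp only [Finset.card_eq_sum_ones]
    apply Finset.sum_comm'
    intro e f
    simp only [mem_inter, mem_filter]
    constructor
    · rintro ⟨h1, h2, h3⟩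
      rw [mem_lv] at h1 h2
      exact ⟨mem_lv.2 ⟨h1.1, h2.1, h1.2.2⟩, h3, h1.1.trans h2.1⟩
    · rintro ⟨h1, h2, h3⟩
      have hf := mem_lv.1 (hK h2)
      rw [mem_lv] at h1
      exact ⟨mem_lv.2 ⟨h1.1, h1.2.1.trans hf.2.1, h1.2.2⟩,
        mem_lv.2 ⟨h1.2.1, hf.2.1, by omega⟩, h2⟩
  rw [hsum]
  have h2 : ∀ f ∈ K.filter (fun f => v ≤ f), (lv rk v f 1).card = 2 := by
    intro f hf
    rw [mem_filter] at hf
    have hf' := mem_lv.1 (hK hf.1)
    exact h.lv_card_two hf.2 (by omega)
  rw [Finset.sum_congr rfl h2, Finset.sum_const, smul_eq_mul]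
  exact even_two.mul_left _

/-- rank count over `ZMod 2` : number of classes of faces -/
theorem ELC.planar_key (h : ELC rk) {a b : α} (hab : a ≤ b) (hl : rk b = rk a + 4) (A : Finset α)
    (hA : A ⊆ lv rk a b 1) (hne : A.Nonempty) (𝒦 : Finset (Finset α))
    (h1 : ∀ K ∈ 𝒦, Conn (fun f g => ∃ e ∈ (lv rk a b 2).filter (fun e => ¬ lv rk a e 1 ⊆ A),
      e ≤ f ∧ e ≤ g) K)
    (h2 : 𝒦.biUnion id = lv rk a b 3) :
    (lv rk a b 3).card + (lv rk a b 1 \ A).card
      ≤ 𝒦.card + ((lv rk a b 2).filter (fun e => ¬ lv rk a e 1 ⊆ A)).card := by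
  set F := lv rk a b 3 with hF
  set D := (lv rk a b 2).filter (fun e => ¬ lv rk a e 1 ⊆ A) with hD
  set W := lv rk a b 1 \ A with hW
  let δ : (↥F → ZMod 2) →ₗ[ZMod 2] (↥D → ZMod 2) :=
    Matrix.mulVecLin (Matrix.of (fun (e : ↥D) (f : ↥F) => if (e : α) ≤ f then (1 : ZMod 2) else 0))
  let d : (↥D → ZMod 2) →ₗ[ZMod 2] (↥W → ZMod 2) :=
    Matrix.mulVecLin (Matrix.of (fun (v : ↥W) (e : ↥D) => if (v : α) ≤ e then (1 : ZMod 2) else 0))
  have hδ : ∀ φ e, δ φ e = ∑ f : ↥F, if (e : α) ≤ f then φ f else 0 := by
    intro φ e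
    simp [δ, Matrix.mulVecLin_apply, Matrix.mulVec, dotProduct]
  have hd : ∀ ψ v, d ψ v = ∑ e : ↥D, if (v : α) ≤ e then ψ e else 0 := by
    intro φ e
    simp [d, Matrix.mulVecLin_apply, Matrix.mulVec, dotProduct]
  -- d ∘ δ = 0
  have hcomp : LinearMap.range δ ≤ LinearMap.ker d := by
    rintro _ ⟨φ, rfl⟩
    rw [LinearMap.mem_ker]
    funext v
    rw [hd, Pi.zero_apply]
    have hv := mem_sdiff.1 v.2
    have hv' := mem_lv.1 hv.1
    have e1 : ∀ e : ↥D, (if (v : α) ≤ e then δ φ e else 0)
        = ∑ f : ↥F, if (v : α) ≤ e ∧ (e : α) ≤ f then φ f else 0 := by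
      intro e
      split_ifs with hve
      · rw [hδ]; simp [hve]
      · simp [hve]
    rw [Finset.sum_congr rfl (fun e _ => e1 e), Finset.sum_comm]
    apply Finset.sum_eq_zero
    intro f _
    rw [← Finset.sum_filter, Finset.sum_const]
    have hf' := mem_lv.1 f.2
    by_cases hvf : (v : α) ≤ f
    · have hcard : (univ.filter (fun e : ↥D => (v : α) ≤ e ∧ (e : α) ≤ f)).card = 2 := by
        rw [← h.lv_card_two hvf (by omega)]
        apply Finset.card_bij (fun (e : ↥D) _ => (e : α))
        · intro e he
          rw [mem_filter] at he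
          have := mem_lv.1 (mem_filter.1 e.2).1
          exact mem_lv.2 ⟨he.2.1, he.2.2, by omega⟩
        · intro e _ e' _ hee
          exact Subtype.ext hee
        · intro e he
          rw [mem_lv] at he
          have heD : e ∈ D := by
            rw [hD, mem_filter]
            refine ⟨mem_lv.2 ⟨hv'.1.trans he.1, he.2.1.trans hf'.2.1, by omega⟩, ?_⟩
            intro hcon
            exact hv.2 (hcon (mem_lv.2 ⟨hv'.1, he.1, hv'.2.2⟩))
          exact ⟨⟨e, heD⟩, by simp [he.1, he.2.1], rfl⟩
      rw [hcard]
      have : (2 : ℕ) • φ f = (2 : ZMod 2) * φ f := by rw [nsmul_eq_mul]; norm_num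
      rw [this]
      have h20 : (2 : ZMod 2) = 0 := by decide
      rw [h20, zero_mul]
    · have hcard : (univ.filter (fun e : ↥D => (v : α) ≤ e ∧ (e : α) ≤ f)) = ∅ := by
        apply Finset.filter_eq_empty_iff.2
        rintro e - ⟨h3, h4⟩
        exact hvf (h3.trans h4)
      rw [hcard, card_empty, zero_smul]
  -- d is surjective
  have hsurj : LinearMap.range d = ⊤ := by
    have hP : ∀ u ∈ lv rk a b 1, ∀ hu : u ∈ W, Pi.single (⟨u, hu⟩ : ↥W) (1 : ZMod 2) ∈ LinearMap.range d := by
      apply (h.conn a b hab (by omega)).induct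
        (P := fun u => ∀ hu : u ∈ W, Pi.single (⟨u, hu⟩ : ↥W) (1 : ZMod 2) ∈ LinearMap.range d)
      · obtain ⟨u, hu⟩ := hne
        exact ⟨u, hA hu, fun hu' => absurd hu (mem_sdiff.1 hu').2⟩
      · rintro u hu hPu v hv ⟨e, he, hue, hve⟩ hvW
        by_cases huv : u = v
        · subst huv; exact hPu hvW
        · have he' := mem_lv.1 he
          have hu' := mem_lv.1 hu
          have hv' := mem_lv.1 hv
          have hvA := (mem_sdiff.1 hvW).2
          have heD : e ∈ D := by
            rw [hD, mem_filter]
            exact ⟨he, fun hcon => hvA (hcon (mem_lv.2 ⟨hv'.1, hve, hv'.2.2⟩))⟩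
          have hcard2 := h.lv_card_two he'.1 (by omega)
          have hpair : ∀ w ∈ lv rk a e 1, w = u ∨ w = v := by
            have hsub : ({u, v} : Finset α) ⊆ lv rk a e 1 := by
              intro x hx
              simp only [mem_insert, mem_singleton] at hx
              rcases hx with rfl | rfl
              · exact mem_lv.2 ⟨hu'.1, hue, hu'.2.2⟩
              · exact mem_lv.2 ⟨hv'.1, hve, hv'.2.2⟩
            have heq := Finset.eq_of_subset_of_card_le hsub (by
              rw [hcard2, Finset.card_pair huv])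
            intro w hw
            rw [← heq] at hw
            simpa using hw
          -- value of d on the edge e
          have hval : d (Pi.single (⟨e, heD⟩ : ↥D) 1) = fun w : ↥W => if (w : α) ≤ e then 1 else 0 := by
            funext w
            rw [hd, Finset.sum_eq_single (⟨e, heD⟩ : ↥D)]
            · simp
            · intro e' _ hne'
              simp [Pi.single_apply, hne']
            · simp
          by_cases huW : u ∈ W
          · have hsplit : (Pi.single (⟨v, hvW⟩ : ↥W) (1 : ZMod 2))
                = d (Pi.single (⟨e, heD⟩ : ↥D) 1) - Pi.single (⟨u, huW⟩ : ↥W) (1 : ZMod 2) := by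
              rw [hval]
              funext w
              simp only [Pi.sub_apply, Pi.single_apply]
              by_cases hwe : (w : α) ≤ e
              · have hw' := mem_lv.1 (mem_sdiff.1 w.2).1
                rcases hpair w (mem_lv.2 ⟨hw'.1, hwe, hw'.2.2⟩) with hw | hw
                · have e3 : w = ⟨u, huW⟩ := Subtype.ext hw
                  have e4 : w ≠ ⟨v, hvW⟩ := by
                    intro hcon
                    apply huv
                    rw [← hw, hcon]
                  simp only [hwe, e4, if_true, if_false]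
                  rw [if_pos e3]
                  simp
                · have e3 : w = ⟨v, hvW⟩ := Subtype.ext hw
                  have e4 : w ≠ ⟨u, huW⟩ := by
                    intro hcon
                    apply huv
                    rw [← hw, hcon]
                  simp only [hwe, e4, if_true, if_false]
                  rw [if_pos e3]
                  simp
              · have e3 : w ≠ ⟨u, huW⟩ := by
                  intro hcon
                  apply hwe
                  rw [hcon]; exact hue
                have e4 : w ≠ ⟨v, hvW⟩ := by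
                  intro hcon
                  apply hwe
                  rw [hcon]; exact hve
                simp [hwe, e3, e4]
            rw [hsplit]
            exact Submodule.sub_mem _ ⟨_, rfl⟩ (hPu huW)
          · have hsplit : (Pi.single (⟨v, hvW⟩ : ↥W) (1 : ZMod 2))
                = d (Pi.single (⟨e, heD⟩ : ↥D) 1) := by
              rw [hval]
              funext w
              simp only [Pi.single_apply]
              by_cases hwe : (w : α) ≤ e
              · have hw' := mem_lv.1 (mem_sdiff.1 w.2).1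
                rcases hpair w (mem_lv.2 ⟨hw'.1, hwe, hw'.2.2⟩) with hw | hw
                · exact absurd (hw ▸ w.2) huW
                · have e3 : w = ⟨v, hvW⟩ := Subtype.ext hw
                  rw [if_pos e3, if_pos hwe]
              · have e4 : w ≠ ⟨v, hvW⟩ := by
                  intro hcon
                  apply hwe
                  rw [hcon]; exact hve
                simp [hwe, e4]
            rw [hsplit]
            exact ⟨_, rfl⟩
    rw [eq_top_iff]
    intro ψ _
    have hψ : ψ = ∑ w : ↥W, ψ w • Pi.single w (1 : ZMod 2) := by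
      funext w
      rw [Finset.sum_apply, Finset.sum_eq_single w]
      · simp
      · intro w' _ hne'
        simp [Pi.single_apply, hne'.symm]
      · simp
    rw [hψ]
    apply Submodule.sum_mem
    intro w _
    exact Submodule.smul_mem _ _ (hP w (mem_sdiff.1 w.2).1 w.2)
  -- kernel of δ
  have hker : Module.finrank (ZMod 2) (LinearMap.ker δ) ≤ 𝒦.card := by
    have hrep : ∀ K : ↥𝒦, ∃ f : ↥F, (f : α) ∈ (K : Finset α) := by
      intro K
      obtain ⟨f, hf⟩ := (h1 K K.2).1
      have : f ∈ F := by
        rw [← h2]; exact mem_biUnion.2 ⟨K, K.2, hf⟩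
      exact ⟨⟨f, this⟩, hf⟩
    choose rep hrep using hrep
    let ev : (LinearMap.ker δ) →ₗ[ZMod 2] (↥𝒦 → ZMod 2) :=
      { toFun := fun φ K => (φ : ↥F → ZMod 2) (rep K)
        map_add' := by intro x y; rfl
        map_smul' := by intro c x; rfl }
    have hinj : Function.Injective ev := by
      rw [← LinearMap.ker_eq_bot, LinearMap.ker_eq_bot']
      intro φ hφ
      apply Subtype.ext
      funext f
      have hφ0 : ∀ K : ↥𝒦, (φ : ↥F → ZMod 2) (rep K) = 0 := fun K => congrFun hφ K
      have hfF : (f : α) ∈ 𝒦.biUnion id := by rw [h2]; exact f.2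
      rw [mem_biUnion] at hfF
      obtain ⟨K, hK, hfK⟩ := hfF
      have := (h1 K hK).induct (fun g => ∀ hg : g ∈ F, (φ : ↥F → ZMod 2) ⟨g, hg⟩ = 0) ?_ ?_
      · exact this f hfK f.2
      · exact ⟨rep ⟨K, hK⟩, hrep ⟨K, hK⟩, fun _ => hφ0 ⟨K, hK⟩⟩
      · rintro g hg hPg g' hg' ⟨e, he, heg, heg'⟩ hg'F
        by_cases hgg : g = g'
        · subst hgg; exact hPg hg'F
        have hgF : g ∈ F := by rw [← h2]; exact mem_biUnion.2 ⟨K, hK, hg⟩
        have hz := congrFun (LinearMap.mem_ker.1 φ.2) ⟨e, he⟩
        rw [hδ, Pi.zero_apply] at hz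
        have he' := mem_lv.1 (mem_filter.1 he).1
        have hg1 := mem_lv.1 hgF
        have hg2 := mem_lv.1 hg'F
        have hpair : ∀ f ∈ lv rk e b 1, f = g ∨ f = g' := by
          have hsub : ({g, g'} : Finset α) ⊆ lv rk e b 1 := by
            intro x hx
            simp only [mem_insert, mem_singleton] at hx
            rcases hx with rfl | rfl
            · exact mem_lv.2 ⟨heg, hg1.2.1, by omega⟩
            · exact mem_lv.2 ⟨heg', hg2.2.1, by omega⟩
          have heq := Finset.eq_of_subset_of_card_le hsub (by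
            rw [h.lv_card_two he'.2.1 (by omega), Finset.card_pair hgg])
          intro w hw
          rw [← heq] at hw
          simpa using hw
        rw [Finset.sum_eq_single (⟨g', hg'F⟩ : ↥F)] at hz
        · simpa [heg'] using hz
        · intro f' _ hne'
          split_ifs with hef
          · have hf' := mem_lv.1 f'.2
            rcases hpair f' (mem_lv.2 ⟨hef, hf'.2.1, by omega⟩) with hw | hw
            · have : f' = ⟨g, hgF⟩ := Subtype.ext hw
              rw [this]; exact hPg hgF
            · exact absurd (Subtype.ext hw) hne'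
          · rfl
        · simp
    have := LinearMap.finrank_le_finrank_of_injective hinj
    rw [Module.finrank_fintype_fun_eq_card, Fintype.card_coe] at this
    exact this
  have r1 := LinearMap.finrank_range_add_finrank_ker δ
  have r2 := LinearMap.finrank_range_add_finrank_ker d
  rw [Module.finrank_fintype_fun_eq_card, Fintype.card_coe] at r1 r2
  rw [hsurj, finrank_top, Module.finrank_fintype_fun_eq_card, Fintype.card_coe] at r2
  have r3 := Submodule.finrank_mono hcomp
  omega

/-- planarity bound for the subgraph induced on a set `A` of vertices of the 3-polytope `[a,b]` -/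
theorem ELC.planar (h : ELC rk) {a b : α} (hab : a ≤ b) (hl : rk b = rk a + 4) (A : Finset α)
    (hA : A ⊆ lv rk a b 1) :
    ((lv rk a b 2).filter (fun e => lv rk a e 1 ⊆ A)).card ≤ 3 * A.card := by
  rcases A.eq_empty_or_nonempty with rfl | hne
  · have : (lv rk a b 2).filter (fun e => lv rk a e 1 ⊆ ∅) = ∅ := by
      apply Finset.filter_eq_empty_iff.2
      intro e he hcon
      have he' := mem_lv.1 he
      have hc := h.lv_card_two he'.1 (by omega)
      rw [Finset.subset_empty.1 hcon] at hc
      simp at hc
    rw [this]; simp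
  set F := lv rk a b 3 with hF
  set D := (lv rk a b 2).filter (fun e => ¬ lv rk a e 1 ⊆ A) with hD
  set E' := (lv rk a b 2).filter (fun e => lv rk a e 1 ⊆ A) with hE'
  obtain ⟨𝒦, k1, k2, k3, k4⟩ := exists_comps (fun f g => ∃ e ∈ D, e ≤ f ∧ e ≤ g)
    (by rintro u v ⟨e, he, h1, h2⟩; exact ⟨e, he, h2, h1⟩) F
  have hkey : F.card + (lv rk a b 1 \ A).card ≤ 𝒦.card + D.card :=
    h.planar_key hab hl A hA hne 𝒦 (fun K hK => (k1 K hK).2) k3
  have heuler : (lv rk a b 1).card + F.card = (lv rk a b 2).card + 2 := h.euler4 hab hl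
  have hsplit : E'.card + D.card = (lv rk a b 2).card :=
    Finset.card_filter_add_card_filter_not _
  have hsd : (lv rk a b 1 \ A).card + A.card = (lv rk a b 1).card :=
    Finset.card_sdiff_add_card_eq_card hA
  by_cases hK1 : 𝒦.card ≤ 1
  · skip
    omega
  · push Not at hK1
    -- the boundary of each class has at least three edges
    set B : Finset α → Finset α := fun K => (lv rk a b 2).filter (fun e => (lv rk e b 1 ∩ K).card = 1)
      with hB
    have hBE : ∀ K ∈ 𝒦, B K ⊆ E' := by
      intro K hK e he
      rw [hB, mem_filter] at he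
      rw [hE', mem_filter]
      refine ⟨he.1, ?_⟩
      by_contra hcon
      have heD : e ∈ D := mem_filter.2 ⟨he.1, hcon⟩
      have he' := mem_lv.1 he.1
      have hc := h.lv_card_two he'.2.1 (by omega)
      obtain ⟨f, hf⟩ := Finset.card_pos.1 (by omega : 0 < (lv rk e b 1 ∩ K).card)
      rw [mem_inter] at hf
      have hall : lv rk e b 1 ∩ K = lv rk e b 1 := by
        apply Finset.inter_eq_left.2
        intro g hg
        have hg' := mem_lv.1 hg
        have hf' := mem_lv.1 hf.1
        exact k4 K hK f hf.2 g (mem_lv.2 ⟨he'.1.trans hg'.1, hg'.2.1, by omega⟩)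
          ⟨e, heD, hf'.1, hg'.1⟩
      rw [hall] at he
      omega
    have hB3 : ∀ K ∈ 𝒦, 3 ≤ (B K).card := by
      intro K hK
      apply h.three_le_cycle (a := a) (b := b) (B K) (filter_subset _ _)
      · -- nonempty
        have hdc := h.dconn (m := 1) hab (by omega)
        have hKF : K ≠ F := by
          intro hcon
          obtain ⟨L, hL, hLK⟩ := Finset.exists_mem_ne hK1 K
          have hdis := k2 L hL K hK hLK
          obtain ⟨f, hf⟩ := (k1 L hL).2.1
          exact (Finset.disjoint_left.1 hdis hf) (hcon ▸ (k1 L hL).1 hf)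
        by_contra hcon
        rw [Finset.not_nonempty_iff_eq_empty] at hcon
        apply hKF
        apply hdc.2 K (k1 K hK).1 (k1 K hK).2.1
        rintro f hf g hg ⟨e, he, hef, heg⟩
        by_contra hgK
        have hfF := mem_lv.1 ((k1 K hK).1 hf)
        have he' := mem_lv.1 he
        have hg' := mem_lv.1 hg
        have : e ∈ B K := by
          rw [hB, mem_filter]
          refine ⟨he, ?_⟩
          have hc := h.lv_card_two he'.2.1 (by omega)
          have hpos : 0 < (lv rk e b 1 ∩ K).card :=
            Finset.card_pos.2 ⟨f, mem_inter.2 ⟨mem_lv.2 ⟨hef, hfF.2.1, by omega⟩, hf⟩⟩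
          have hlt : (lv rk e b 1 ∩ K).card < (lv rk e b 1).card := by
            apply Finset.card_lt_card
            refine ⟨inter_subset_left, fun hsub => hgK ?_⟩
            exact (mem_inter.1 (hsub (mem_lv.2 ⟨heg, hg'.2.1, by omega⟩))).2
          omega
        rw [hcon] at this
        simp at this
      · intro v hv
        exact h.even_bdry hl hv K (k1 K hK).1
    have hcount : 3 * 𝒦.card ≤ 2 * E'.card := by
      have s1 : 3 * 𝒦.card ≤ ∑ K ∈ 𝒦, (B K).card := by
        have := Finset.card_nsmul_le_sum 𝒦 (fun K => (B K).card) 3 hB3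
        simpa [mul_comm] using this
      have s2 : ∀ K ∈ 𝒦, (B K).card ≤ ∑ e ∈ E', (lv rk e b 1 ∩ K).card := by
        intro K hK
        rw [Finset.card_eq_sum_ones]
        calc ∑ e ∈ B K, 1 ≤ ∑ e ∈ B K, (lv rk e b 1 ∩ K).card := by
              apply Finset.sum_le_sum
              intro e he
              rw [hB, mem_filter] at he
              omega
          _ ≤ ∑ e ∈ E', (lv rk e b 1 ∩ K).card :=
              Finset.sum_le_sum_of_subset (hBE K hK)
      have s3 : ∑ K ∈ 𝒦, (B K).card ≤ ∑ e ∈ E', ∑ K ∈ 𝒦, (lv rk e b 1 ∩ K).card := by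
        rw [Finset.sum_comm]
        exact Finset.sum_le_sum s2
      have s4 : ∀ e ∈ E', ∑ K ∈ 𝒦, (lv rk e b 1 ∩ K).card = 2 := by
        intro e he
        have he' := mem_lv.1 (mem_filter.1 he).1
        rw [← Finset.card_biUnion]
        · rw [← h.lv_card_two he'.2.1 (by omega)]
          congr 1
          ext f
          rw [mem_biUnion]
          constructor
          · rintro ⟨K, hK, hf⟩
            exact (mem_inter.1 hf).1
          · intro hf
            have hf' := mem_lv.1 hf
            have hfF : f ∈ 𝒦.biUnion id := by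
              rw [k3]
              exact mem_lv.2 ⟨he'.1.trans hf'.1, hf'.2.1, by omega⟩
            rw [mem_biUnion] at hfF
            obtain ⟨K, hK, hfK⟩ := hfF
            exact ⟨K, hK, mem_inter.2 ⟨hf, hfK⟩⟩
        · intro K hK L hL hne
          exact (k2 K hK L hL hne).mono inter_subset_right inter_subset_right
      rw [Finset.sum_congr rfl s4] at s3
      simp only [Finset.sum_const, smul_eq_mul] at s3
      omega
    omega

end

end FRC
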