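import Pool.Agent.FR.PerQ
import Pool.Agent.FR.Planar
import Pool.Agent.FR.Mu

set_option linter.unusedSectionVars false

open Finset
open scoped Classical

namespace FRC

noncomputable section

variable {α : Type*} [Lattice α] [BoundedOrder α] [Fintype α] {rk : α → ℕ}

/-- triangles pay for the edges whose two 2-faces in a 3-face are triangles -/
theorem ELC.eps_le (h : ELC rk) (htop : rk (⊤ : α) = 6) :
    ∑ Y ∈ lv rk (⊥ : α) ⊤ 4, eps rk ⊥ Y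
      ≤ 9 * ((lv rk (⊥ : α) ⊤ 3).filter (fun G => (lv rk ⊥ G 1).card = 3)).card := by
  have hb := h.rk_bot
  have h1 : ∑ Y ∈ lv rk (⊥ : α) ⊤ 4, eps rk ⊥ Y
      = ∑ Y ∈ lv rk (⊥ : α) ⊤ 4, ∑ e ∈ lv rk ⊥ Y 2,
          (if ∀ f ∈ lv rk e Y 1, (lv rk ⊥ f 1).card = 3 then 1 else 0) := by
    apply Finset.sum_congr rfl
    intro Y hY
    rw [eps, Finset.card_filter]
  rw [h1, ELC.sum_lv_comm (by norm_num)]
  have h2 : ∀ e ∈ lv rk (⊥ : α) ⊤ 2,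
      ∑ Y ∈ lv rk e ⊤ (4 - 2), (if ∀ f ∈ lv rk e Y 1, (lv rk ⊥ f 1).card = 3 then 1 else 0)
      ≤ 3 * ∑ G ∈ lv rk e ⊤ (3 - 2), (if (lv rk ⊥ G 1).card = 3 then 1 else 0) := by
    intro e he
    have he' := mem_lv.1 he
    have hpl := h.planar (a := e) (b := ⊤) le_top (by omega)
      ((lv rk e ⊤ 1).filter (fun G => (lv rk ⊥ G 1).card = 3)) (filter_subset _ _)
    rw [← Finset.card_filter, ← Finset.card_filter]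
    refine le_trans (Finset.card_le_card ?_) hpl
    intro Y hY
    rw [mem_filter] at hY ⊢
    refine ⟨hY.1, ?_⟩
    intro f hf
    rw [mem_filter]
    refine ⟨?_, hY.2 f hf⟩
    rw [mem_lv] at hf ⊢
    exact ⟨hf.1, le_top, hf.2.2⟩
  refine (Finset.sum_le_sum h2).trans ?_
  rw [← Finset.mul_sum, ← ELC.sum_lv_comm (i := 3) (j := 2) (by norm_num)]
  rw [Finset.card_filter, Finset.mul_sum, Finset.mul_sum]
  apply Finset.sum_le_sum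
  intro G hG
  have hG' := mem_lv.1 hG
  rw [Finset.sum_const, smul_eq_mul]
  have he3 := h.euler3 (a := ⊥) (b := G) bot_le (by omega)
  split_ifs with hc
  · rw [← he3, hc]
    norm_num
  · simp

/-- main inequality for 5-polytopes: the sum of the weights -/
theorem ELC.sum_WQ_le (h : ELC rk) (htop : rk (⊤ : α) = 6)
    (hsum : ∑ G ∈ lv rk (⊥ : α) ⊤ 3, ((lv rk ⊥ G 1).card : ℤ) * ((lv rk ⊥ G 1).card - 4)
      ≤ 2 * (lv rk (⊥ : α) ⊤ 2).card + 2 * ∑ v ∈ lv rk (⊥ : α) ⊤ 1, ((lv rk v ⊤ 2).card : ℤ)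
        - ∑ v ∈ lv rk (⊥ : α) ⊤ 1, ((lv rk v ⊤ 1).card : ℤ) * ((lv rk v ⊤ 1).card - 1)) :
    ∑ Q ∈ lv rk (⊥ : α) ⊤ 5, WQ rk ⊥ Q
      ≤ (1 / 2 + 2 * lam) * (lv rk (⊥ : α) ⊤ 2).card + 2 := by
  have hb := h.rk_bot
  have hlam : lam = 199 / 6000 := rfl
  -- f03, f04
  have t1 : ∑ Q ∈ lv rk (⊥ : α) ⊤ 5, ∑ u ∈ lv rk ⊥ Q 1, ((lv rk u Q 3).card : ℚ)
      = 2 * ∑ v ∈ lv rk (⊥ : α) ⊤ 1, ((lv rk v ⊤ 3).card : ℚ) := by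
    rw [ELC.sum_lv_comm (by norm_num), Finset.mul_sum]
    apply Finset.sum_congr rfl
    intro v hv
    have hv' := mem_lv.1 hv
    have e1 : ∀ Q ∈ lv rk v ⊤ (5 - 1), ((lv rk v Q 3).card : ℚ) = ∑ Y ∈ lv rk v Q 3, (1 : ℚ) := by
      intro Q _
      simp
    rw [Finset.sum_congr rfl e1, ELC.sum_lv_comm (by norm_num)]
    have e2 : ∀ Y ∈ lv rk v ⊤ 3, ∑ Q ∈ lv rk Y ⊤ (5 - 1 - 3), (1 : ℚ) = 2 := by
      intro Y hY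
      have hY' := mem_lv.1 hY
      have := h.lv_card_two (a := Y) (b := ⊤) le_top (by omega)
      simp [this]
    rw [Finset.sum_congr rfl e2]
    simp [mul_comm]
  have t2 : ∑ Q ∈ lv rk (⊥ : α) ⊤ 5, ((lv rk ⊥ Q 1).card : ℚ)
      = ∑ v ∈ lv rk (⊥ : α) ⊤ 1, ((lv rk v ⊤ 4).card : ℚ) := by
    have e1 : ∀ Q ∈ lv rk (⊥ : α) ⊤ 5, ((lv rk ⊥ Q 1).card : ℚ) = ∑ v ∈ lv rk ⊥ Q 1, (1 : ℚ) := by
      intro Q _
      simp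
    rw [Finset.sum_congr rfl e1, ELC.sum_lv_comm (by norm_num)]
    simp
  have t3 : ∑ Q ∈ lv rk (⊥ : α) ⊤ 5, ((lv rk ⊥ Q 4).card : ℚ)
      = 2 * ((lv rk (⊥ : α) ⊤ 4).card : ℚ) := by
    have e1 : ∀ Q ∈ lv rk (⊥ : α) ⊤ 5, ((lv rk ⊥ Q 4).card : ℚ) = ∑ v ∈ lv rk ⊥ Q 4, (1 : ℚ) := by
      intro Q _
      simp
    rw [Finset.sum_congr rfl e1, ELC.sum_lv_comm (by norm_num)]
    have e2 : ∀ Y ∈ lv rk (⊥ : α) ⊤ 4, ∑ Q ∈ lv rk Y ⊤ (5 - 4), (1 : ℚ) = 2 := by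
      intro Y hY
      have hY' := mem_lv.1 hY
      have := h.lv_card_two (a := Y) (b := ⊤) le_top (by omega)
      simp [this]
    rw [Finset.sum_congr rfl e2]
    simp [mul_comm]
  have t4 : ∑ v ∈ lv rk (⊥ : α) ⊤ 1, ((lv rk v ⊤ 1).card : ℚ)
      = 2 * ((lv rk (⊥ : α) ⊤ 2).card : ℚ) := by
    have e1 : ∀ v ∈ lv rk (⊥ : α) ⊤ 1, ((lv rk v ⊤ 1).card : ℚ)
        = ∑ e ∈ lv rk v ⊤ (2 - 1), (1 : ℚ) := by
      intro Q _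
      simp
    rw [Finset.sum_congr rfl e1, ← ELC.sum_lv_comm (by norm_num)]
    have e2 : ∀ e ∈ lv rk (⊥ : α) ⊤ 2, ∑ v ∈ lv rk ⊥ e 1, (1 : ℚ) = 2 := by
      intro e he
      have he' := mem_lv.1 he
      have := h.lv_card_two (a := ⊥) (b := e) bot_le (by omega)
      simp [this]
    rw [Finset.sum_congr rfl e2]
    simp [mul_comm]
  -- Euler
  have t5 : ∑ v ∈ lv rk (⊥ : α) ⊤ 1, ((lv rk v ⊤ 1).card : ℚ)
        + ∑ v ∈ lv rk (⊥ : α) ⊤ 1, ((lv rk v ⊤ 3).card : ℚ)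
      = ∑ v ∈ lv rk (⊥ : α) ⊤ 1, ((lv rk v ⊤ 2).card : ℚ)
        + ∑ v ∈ lv rk (⊥ : α) ⊤ 1, ((lv rk v ⊤ 4).card : ℚ) := by
    rw [← Finset.sum_add_distrib, ← Finset.sum_add_distrib]
    apply Finset.sum_congr rfl
    intro v hv
    have hv' := mem_lv.1 hv
    have := h.euler5 (a := v) (b := ⊤) le_top (by omega)
    exact_mod_cast this
  have t6 : ((lv rk (⊥ : α) ⊤ 1).card : ℚ) + (lv rk (⊥ : α) ⊤ 3).card + (lv rk (⊥ : α) ⊤ 5).card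
      = (lv rk (⊥ : α) ⊤ 2).card + (lv rk (⊥ : α) ⊤ 4).card + 2 := by
    have := h.euler6 (a := (⊥ : α)) (b := ⊤) bot_le (by omega)
    exact_mod_cast this
  -- mu
  have t7 : ∑ Q ∈ lv rk (⊥ : α) ⊤ 5, ∑ u ∈ lv rk ⊥ Q 1, mu rk u Q
      ≤ (∑ v ∈ lv rk (⊥ : α) ⊤ 1, ((lv rk v ⊤ 1).card : ℚ) * ((lv rk v ⊤ 1).card - 1)) / 2
        - ∑ v ∈ lv rk (⊥ : α) ⊤ 1, ((lv rk v ⊤ 2).card : ℚ) := by
    rw [ELC.sum_lv_comm (by norm_num), Finset.sum_div, ← Finset.sum_sub_distrib]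
    apply Finset.sum_le_sum
    intro v hv
    have hv' := mem_lv.1 hv
    exact h.mu_le (a := v) (b := ⊤) le_top (by omega)
  -- eps
  have t8 : ∑ Q ∈ lv rk (⊥ : α) ⊤ 5, ∑ Y ∈ lv rk ⊥ Q 4, (eps rk ⊥ Y : ℚ)
      ≤ 18 * (((lv rk (⊥ : α) ⊤ 3).filter (fun G => (lv rk ⊥ G 1).card = 3)).card : ℚ) := by
    rw [ELC.sum_lv_comm (by norm_num)]
    have e2 : ∀ Y ∈ lv rk (⊥ : α) ⊤ 4, ∑ Q ∈ lv rk Y ⊤ (5 - 4), (eps rk ⊥ Y : ℚ)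
        = 2 * (eps rk ⊥ Y : ℚ) := by
      intro Y hY
      have hY' := mem_lv.1 hY
      have := h.lv_card_two (a := Y) (b := ⊤) le_top (by omega)
      simp [this]
    rw [Finset.sum_congr rfl e2, ← Finset.mul_sum]
    have := h.eps_le htop
    have h' : (∑ Y ∈ lv rk (⊥ : α) ⊤ 4, (eps rk ⊥ Y : ℚ))
      ≤ 9 * (((lv rk (⊥ : α) ⊤ 3).filter (fun G => (lv rk ⊥ G 1).card = 3)).card : ℚ) := by
      exact_mod_cast this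
    linarith
  -- kap
  have kap_nonneg : ∀ s : ℕ, 0 ≤ kap s := fun s => le_max_left _ _
  have t9 : ∑ G ∈ lv rk (⊥ : α) ⊤ 3, 3 * kap (lv rk ⊥ G 1).card
      ≤ ∑ Q ∈ lv rk (⊥ : α) ⊤ 5, ∑ G ∈ lv rk ⊥ Q 3, kap (lv rk ⊥ G 1).card := by
    rw [ELC.sum_lv_comm (by norm_num)]
    apply Finset.sum_le_sum
    intro G hG
    have hG' := mem_lv.1 hG
    rw [Finset.sum_const, nsmul_eq_mul]
    have h3 := h.three_le (a := G) (b := ⊤) le_top (by omega)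
    rw [h.euler3 (a := G) (b := ⊤) le_top (by omega)] at h3
    have h3' : (3 : ℚ) ≤ ((lv rk G ⊤ (5 - 3)).card : ℚ) := by exact_mod_cast h3
    exact mul_le_mul_of_nonneg_right h3' (kap_nonneg _)
  -- N
  have t10 : ∑ v ∈ lv rk (⊥ : α) ⊤ 1, ((lv rk v ⊤ 2).card : ℚ)
      = ∑ G ∈ lv rk (⊥ : α) ⊤ 3, ((lv rk ⊥ G 1).card : ℚ) := by
    have e1 : ∀ v ∈ lv rk (⊥ : α) ⊤ 1, ((lv rk v ⊤ 2).card : ℚ)
        = ∑ e ∈ lv rk v ⊤ (3 - 1), (1 : ℚ) := by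
      intro Q _
      simp
    rw [Finset.sum_congr rfl e1, ← ELC.sum_lv_comm (by norm_num)]
    simp
  -- hsum
  have t11 : ∑ G ∈ lv rk (⊥ : α) ⊤ 3, ((lv rk ⊥ G 1).card : ℚ) * ((lv rk ⊥ G 1).card - 4)
      ≤ 2 * (lv rk (⊥ : α) ⊤ 2).card + 2 * ∑ v ∈ lv rk (⊥ : α) ⊤ 1, ((lv rk v ⊤ 2).card : ℚ)
        - ∑ v ∈ lv rk (⊥ : α) ⊤ 1, ((lv rk v ⊤ 1).card : ℚ) * ((lv rk v ⊤ 1).card - 1) := by
    exact_mod_cast hsum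
  -- pointwise
  have t12 : ∑ G ∈ lv rk (⊥ : α) ⊤ 3, (((lv rk ⊥ G 1).card : ℚ) / 4 - 1
      - lam * (((lv rk ⊥ G 1).card : ℚ) * ((lv rk ⊥ G 1).card - 4)) - kap (lv rk ⊥ G 1).card
      + (1 / 4 - 3 * lam) * (if (lv rk ⊥ G 1).card = 3 then 1 else 0)) ≤ 0 := by
    apply Finset.sum_nonpos
    intro G hG
    have h1 : (((lv rk ⊥ G 1).card : ℚ) - 4) * (1 / 4 - lam * (lv rk ⊥ G 1).card)
      ≤ kap (lv rk ⊥ G 1).card := le_max_right _ _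
    have h0 := kap_nonneg (lv rk ⊥ G 1).card
    split_ifs with hc
    · rw [hc] at h0 ⊢
      push_cast
      rw [hlam]
      linarith
    · linarith
  have t12' : ∑ G ∈ lv rk (⊥ : α) ⊤ 3, (((lv rk ⊥ G 1).card : ℚ) / 4 - 1
      - lam * (((lv rk ⊥ G 1).card : ℚ) * ((lv rk ⊥ G 1).card - 4)) - kap (lv rk ⊥ G 1).card
      + (1 / 4 - 3 * lam) * (if (lv rk ⊥ G 1).card = 3 then 1 else 0))
      = (∑ G ∈ lv rk (⊥ : α) ⊤ 3, ((lv rk ⊥ G 1).card : ℚ)) / 4 - (lv rk (⊥ : α) ⊤ 3).card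
        - lam * ∑ G ∈ lv rk (⊥ : α) ⊤ 3, ((lv rk ⊥ G 1).card : ℚ) * ((lv rk ⊥ G 1).card - 4)
        - ∑ G ∈ lv rk (⊥ : α) ⊤ 3, kap (lv rk ⊥ G 1).card
        + (1 / 4 - 3 * lam) *
          (((lv rk (⊥ : α) ⊤ 3).filter (fun G => (lv rk ⊥ G 1).card = 3)).card : ℚ) := by
    rw [Finset.sum_add_distrib, Finset.sum_sub_distrib, Finset.sum_sub_distrib,
      Finset.sum_sub_distrib, ← Finset.mul_sum, ← Finset.mul_sum, ← Finset.sum_div,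
      Finset.card_filter]
    push_cast
    simp
  -- expand the sum of WQ
  have t13 : ∑ Q ∈ lv rk (⊥ : α) ⊤ 5, WQ rk ⊥ Q
      = ((∑ Q ∈ lv rk (⊥ : α) ⊤ 5, ∑ u ∈ lv rk ⊥ Q 1, ((lv rk u Q 3).card : ℚ))
          - 2 * ∑ Q ∈ lv rk (⊥ : α) ⊤ 5, ((lv rk ⊥ Q 1).card : ℚ)
          - 4 * ∑ Q ∈ lv rk (⊥ : α) ⊤ 5, ((lv rk ⊥ Q 4).card : ℚ)
          + 8 * (lv rk (⊥ : α) ⊤ 5).card) / 8
        + 2 * lam * ∑ Q ∈ lv rk (⊥ : α) ⊤ 5, ∑ u ∈ lv rk ⊥ Q 1, mu rk u Q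
        + (1 / 72 - lam / 6) * ∑ Q ∈ lv rk (⊥ : α) ⊤ 5, ∑ Y ∈ lv rk ⊥ Q 4, (eps rk ⊥ Y : ℚ)
        - (1 / 3) * ∑ Q ∈ lv rk (⊥ : α) ⊤ 5, ∑ G ∈ lv rk ⊥ Q 3, kap (lv rk ⊥ G 1).card := by
    simp only [WQ]
    rw [Finset.sum_sub_distrib, Finset.sum_add_distrib, Finset.sum_add_distrib,
      ← Finset.sum_div, Finset.sum_add_distrib, Finset.sum_sub_distrib, Finset.sum_sub_distrib,
      ← Finset.mul_sum, ← Finset.mul_sum, ← Finset.mul_sum, ← Finset.mul_sum, ← Finset.mul_sum]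
    simp [mul_comm]
  rw [t13, t1, t2, t3]
  rw [← Finset.mul_sum] at t9
  rw [t12'] at t12
  have hn1 : (0 : ℚ) ≤ ((lv rk (⊥ : α) ⊤ 1).card : ℚ) := by positivity
  rw [hlam] at *
  linarith

/-- number of (vertex, 2-face) incidences is linearly bounded by the number of edges -/
theorem ELC.main5 (h : ELC rk) (htop : rk (⊤ : α) = 6)
    (hsum : ∑ G ∈ lv rk (⊥ : α) ⊤ 3, ((lv rk ⊥ G 1).card : ℤ) * ((lv rk ⊥ G 1).card - 4)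
      ≤ 2 * (lv rk (⊥ : α) ⊤ 2).card + 2 * ∑ v ∈ lv rk (⊥ : α) ⊤ 1, ((lv rk v ⊤ 2).card : ℤ)
        - ∑ v ∈ lv rk (⊥ : α) ⊤ 1, ((lv rk v ⊤ 1).card : ℤ) * ((lv rk v ⊤ 1).card - 1)) :
    ∑ v ∈ lv rk (⊥ : α) ⊤ 1, (lv rk v ⊤ 2).card ≤ 6798 * (lv rk (⊥ : α) ⊤ 2).card + 24000 := by
  have hb := h.rk_bot
  have hlam : lam = 199 / 6000 := rfl
  have hW := h.sum_WQ_le htop hsum
  have hP : ∑ Q ∈ lv rk (⊥ : α) ⊤ 5, (1 / 24000 : ℚ) * ∑ u ∈ lv rk ⊥ Q 1, ((lv rk u Q 3).card : ℚ)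
      ≤ ∑ Q ∈ lv rk (⊥ : α) ⊤ 5, WQ rk ⊥ Q := by
    apply Finset.sum_le_sum
    intro Q hQ
    have hQ' := mem_lv.1 hQ
    exact h.perQ (a := ⊥) (b := Q) bot_le (by omega)
  have t1 : ∑ Q ∈ lv rk (⊥ : α) ⊤ 5, ∑ u ∈ lv rk ⊥ Q 1, ((lv rk u Q 3).card : ℚ)
      = 2 * ∑ v ∈ lv rk (⊥ : α) ⊤ 1, ((lv rk v ⊤ 3).card : ℚ) := by
    rw [ELC.sum_lv_comm (by norm_num), Finset.mul_sum]
    apply Finset.sum_congr rfl
    intro v hv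
    have hv' := mem_lv.1 hv
    have e1 : ∀ Q ∈ lv rk v ⊤ (5 - 1), ((lv rk v Q 3).card : ℚ) = ∑ Y ∈ lv rk v Q 3, (1 : ℚ) := by
      intro Q _
      simp
    rw [Finset.sum_congr rfl e1, ELC.sum_lv_comm (by norm_num)]
    have e2 : ∀ Y ∈ lv rk v ⊤ 3, ∑ Q ∈ lv rk Y ⊤ (5 - 1 - 3), (1 : ℚ) = 2 := by
      intro Y hY
      have hY' := mem_lv.1 hY
      have := h.lv_card_two (a := Y) (b := ⊤) le_top (by omega)
      simp [this]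
    rw [Finset.sum_congr rfl e2]
    simp [mul_comm]
  have t4 : ∑ v ∈ lv rk (⊥ : α) ⊤ 1, ((lv rk v ⊤ 1).card : ℚ)
      = 2 * ((lv rk (⊥ : α) ⊤ 2).card : ℚ) := by
    have e1 : ∀ v ∈ lv rk (⊥ : α) ⊤ 1, ((lv rk v ⊤ 1).card : ℚ)
        = ∑ e ∈ lv rk v ⊤ (2 - 1), (1 : ℚ) := by
      intro Q _
      simp
    rw [Finset.sum_congr rfl e1, ← ELC.sum_lv_comm (by norm_num)]
    have e2 : ∀ e ∈ lv rk (⊥ : α) ⊤ 2, ∑ v ∈ lv rk ⊥ e 1, (1 : ℚ) = 2 := by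
      intro e he
      have he' := mem_lv.1 he
      have := h.lv_card_two (a := ⊥) (b := e) bot_le (by omega)
      simp [this]
    rw [Finset.sum_congr rfl e2]
    simp [mul_comm]
  have t5 : ∑ v ∈ lv rk (⊥ : α) ⊤ 1, ((lv rk v ⊤ 2).card : ℚ)
      ≤ ∑ v ∈ lv rk (⊥ : α) ⊤ 1, ((lv rk v ⊤ 1).card : ℚ)
        + ∑ v ∈ lv rk (⊥ : α) ⊤ 1, ((lv rk v ⊤ 3).card : ℚ) := by
    rw [← Finset.sum_add_distrib]
    apply Finset.sum_le_sum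
    intro v hv
    have hv' := mem_lv.1 hv
    have := h.euler5 (a := v) (b := ⊤) le_top (by omega)
    have h2 : (lv rk v ⊤ 2).card ≤ (lv rk v ⊤ 1).card + (lv rk v ⊤ 3).card := by omega
    exact_mod_cast h2
  rw [← Finset.mul_sum, t1] at hP
  have hfin : ∑ v ∈ lv rk (⊥ : α) ⊤ 1, ((lv rk v ⊤ 2).card : ℚ)
      ≤ 6798 * (lv rk (⊥ : α) ⊤ 2).card + 24000 := by
    rw [hlam] at hW
    linarith
  exact_mod_cast hfin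

end

end FRC
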