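import Pool.Agent.FR.Poly3

set_option linter.unusedSectionVars false

open Finset
open scoped Classical

namespace FRC

noncomputable section

variable {α : Type*} [Lattice α] [BoundedOrder α] [Fintype α] {rk : α → ℕ}

namespace ELC

variable (h : ELC rk)
include h

/-- the sum of the numbers of vertices of the faces -/
theorem num_sum_faces {a b : α} (hl : rk b = rk a + 4) :
    ∑ f ∈ lv rk a b 3, (lv rk a f 1).card = 2 * (lv rk a b 2).card := by
  have h1 : ∀ f ∈ lv rk a b 3, (lv rk a f 1).card = ∑ y ∈ lv rk a f 2, 1 := by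
    intro f hf
    have hf' := mem_lv.1 hf
    rw [h.euler3 hf'.1 hf'.2.2]; simp
  rw [Finset.sum_congr rfl h1, sum_lv_comm (by norm_num)]
  have h2 : ∀ y ∈ lv rk a b 2, ∑ x ∈ lv rk y b (3 - 2), 1 = 2 := by
    intro y hy
    have hy' := mem_lv.1 hy
    rw [Finset.sum_const, smul_eq_mul, mul_one]
    exact h.lv_card_two hy'.2.1 (by omega)
  rw [Finset.sum_congr rfl h2, Finset.sum_const, smul_eq_mul, mul_comm]

/-- the sum of the degrees of the vertices -/
theorem num_sum_vertices {a b : α} (hl : rk b = rk a + 4) :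
    ∑ v ∈ lv rk a b 1, (lv rk v b 1).card = 2 * (lv rk a b 2).card := by
  have h0 := sum_lv_comm (rk := rk) (a := a) (b := b) (i := 2) (j := 1) (by norm_num)
    (fun _ _ => (1 : ℕ))
  have h1 : ∀ e ∈ lv rk a b 2, ∑ y ∈ lv rk a e 1, 1 = 2 := by
    intro e he
    have he' := mem_lv.1 he
    rw [Finset.sum_const, smul_eq_mul, mul_one]
    exact h.lv_card_two he'.1 (by omega)
  rw [Finset.sum_congr rfl h1] at h0
  simp only [Finset.sum_const, smul_eq_mul, mul_one, Nat.reduceSub] at h0
  omega

theorem num_three_j {a b : α} (hl : rk b = rk a + 4) :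
    3 * (lv rk a b 1).card ≤ 2 * (lv rk a b 2).card := by
  rw [← h.num_sum_vertices hl, mul_comm, ← smul_eq_mul, ← Finset.sum_const]
  refine Finset.sum_le_sum fun v hv => ?_
  have hv' := mem_lv.1 hv
  exact h.three_le hv'.2.1 (by omega)

theorem num_three_k {a b : α} (hl : rk b = rk a + 4) :
    3 * (lv rk a b 3).card ≤ 2 * (lv rk a b 2).card := by
  rw [← h.num_sum_faces hl, mul_comm, ← smul_eq_mul, ← Finset.sum_const]
  refine Finset.sum_le_sum fun f hf => ?_
  have hf' := mem_lv.1 hf
  exact h.three_le hf'.1 hf'.2.2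

/-- the sum of `m_f - 3` -/
theorem num_sum_sub {a b : α} (hab : a ≤ b) (hl : rk b = rk a + 4) :
    ∑ f ∈ lv rk a b 3, (((lv rk a f 1).card : ℚ) - 3)
      = 2 * ((lv rk a b 1).card : ℚ) - 4 - (lv rk a b 3).card := by
  have h1 := h.num_sum_faces (a := a) (b := b) hl
  have h2 := h.euler4 hab hl
  have h1' : ∑ f ∈ lv rk a b 3, ((lv rk a f 1).card : ℚ) = 2 * ((lv rk a b 2).card : ℚ) := by
    exact_mod_cast h1
  have h2' : ((lv rk a b 1).card : ℚ) + (lv rk a b 3).card = (lv rk a b 2).card + 2 := by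
    exact_mod_cast h2
  rw [Finset.sum_sub_distrib, h1', Finset.sum_const, nsmul_eq_mul]
  linarith

theorem num_mu {a b : α} (hab : a ≤ b) (hl : rk b = rk a + 4) :
    mu rk a b = (((lv rk a b 1).card : ℚ) - 3) * ((lv rk a b 1).card - 4) / 2
      - (∑ f ∈ lv rk a b 3, (((lv rk a f 1).card : ℚ) - 3) * ((lv rk a f 1).card - 4)) / 4 := by
  have h1 := h.num_sum_sub hab hl
  have h2 := h.euler4 hab hl
  have h2' : ((lv rk a b 1).card : ℚ) + (lv rk a b 3).card = (lv rk a b 2).card + 2 := by
    exact_mod_cast h2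
  have h3 : ∑ f ∈ lv rk a b 3, (((lv rk a f 1).card : ℚ)) * ((lv rk a f 1).card - 3)
      = ∑ f ∈ lv rk a b 3, (((lv rk a f 1).card : ℚ) - 3) * ((lv rk a f 1).card - 4)
        + 4 * ∑ f ∈ lv rk a b 3, (((lv rk a f 1).card : ℚ) - 3) := by
    rw [Finset.mul_sum, ← Finset.sum_add_distrib]
    refine Finset.sum_congr rfl fun f _ => ?_
    ring
  unfold mu
  rw [h3, h1]
  have h4 : ((lv rk a b 2).card : ℚ) = (lv rk a b 1).card + (lv rk a b 3).card - 2 := by linarith
  rw [h4]
  ring

theorem num_S_le {a b : α} (hab : a ≤ b) (hl : rk b = rk a + 4) (M : ℚ)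
    (hM : ∀ f ∈ lv rk a b 3, ((lv rk a f 1).card : ℚ) ≤ M) :
    ∑ f ∈ lv rk a b 3, (((lv rk a f 1).card : ℚ) - 3) * ((lv rk a f 1).card - 4)
      ≤ (M - 4) * (2 * ((lv rk a b 1).card : ℚ) - 4 - (lv rk a b 3).card) := by
  rw [← h.num_sum_sub hab hl, Finset.mul_sum]
  refine Finset.sum_le_sum fun f hf => ?_
  have hf' := mem_lv.1 hf
  have h3 : (3 : ℚ) ≤ (lv rk a f 1).card := by exact_mod_cast h.three_le hf'.1 hf'.2.2
  have := hM f hf
  nlinarith

/-- Vertex lemma for the 3-polytope `[a,b]` (a vertex figure `Q/u`) and its face `w` -/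
theorem vertex_lemma {a b w : α} (hab : a ≤ b) (hl : rk b = rk a + 4)
    (hw : w ∈ lv rk a b 3) :
    ((lv rk a b 3).card : ℚ) / 80 + ((dsj rk a b w).card : ℚ) / 10
      ≤ 1 / 20 + 2 * lam * mu rk a b := by
  have hmu := h.num_mu hab hl
  have hS := h.num_S_le hab hl
  have e4 := h.euler4 hab hl
  have hj3 := h.num_three_j hl
  have hk3 := h.num_three_k hl
  have hw' := mem_lv.1 hw
  have hmw := h.three_le hw'.1 hw'.2.2
  have hlt := h.face_lt hab hl hw
  have hM1 : ∀ f ∈ lv rk a b 3, ((lv rk a f 1).card : ℚ) ≤ (lv rk a b 1).card - 1 := by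
    intro f hf
    have := h.face_lt hab hl hf
    have h' : ((lv rk a f 1).card : ℚ) + 1 ≤ (lv rk a b 1).card := by exact_mod_cast this
    linarith
  have hd1 := h.dsj_le hab hl hw
  have hkj : (lv rk a b 3).card + 4 ≤ 2 * (lv rk a b 1).card := by omega
  have hjk : (lv rk a b 1).card + 4 ≤ 2 * (lv rk a b 3).card := by omega
  have hj4 : 4 ≤ (lv rk a b 1).card := by omega
  rcases Nat.eq_zero_or_pos (dsj rk a b w).card with hi | hi
  · -- no disjoint face
    have hS1 := hS _ hM1
    rw [hi]
    set j := (lv rk a b 1).card with hj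
    set k := (lv rk a b 3).card with hk
    set S := ∑ f ∈ lv rk a b 3, (((lv rk a f 1).card : ℚ) - 3) * ((lv rk a f 1).card - 4) with hSd
    rw [hmu]
    have hkjq : (k : ℚ) + 4 ≤ 2 * j := by exact_mod_cast hkj
    have hjkq : (j : ℚ) + 4 ≤ 2 * k := by exact_mod_cast hjk
    have hj4q : (4 : ℚ) ≤ j := by exact_mod_cast hj4
    unfold lam
    rcases Nat.lt_or_ge j 5 with h5 | h5
    · have hj' : j = 4 := by omega
      have hk' : k = 4 := by omega
      rw [hj', hk'] at hS1 ⊢
      push_cast at hS1 ⊢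
      nlinarith
    · have h5q : (5 : ℚ) ≤ j := by exact_mod_cast h5
      push_cast
      nlinarith [mul_nonneg (sub_nonneg.2 h5q) (sub_nonneg.2 hjkq),
        mul_nonneg (sub_nonneg.2 h5q) (sub_nonneg.2 hj4q), hS1]
  · -- some disjoint face
    have hne : (dsj rk a b w).Nonempty := Finset.card_pos.1 hi
    have hd2 := h.dsj_le' hab hl hw hne
    have hM2 : ∀ f ∈ lv rk a b 3, ((lv rk a f 1).card : ℚ) ≤ (lv rk a b 1).card - 2 := by
      intro f hf
      have h1 := h.face_lt hab hl hf
      have h2 : (lv rk a f 1).card + 1 ≠ (lv rk a b 1).card := by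
        intro h3
        have := h.pyr hab hl hf h3 hw
        omega
      have h' : (lv rk a f 1).card + 2 ≤ (lv rk a b 1).card := by omega
      have h'' : ((lv rk a f 1).card : ℚ) + 2 ≤ (lv rk a b 1).card := by exact_mod_cast h'
      linarith
    have hS2 := hS _ hM2
    set j := (lv rk a b 1).card with hj
    set k := (lv rk a b 3).card with hk
    set i := (dsj rk a b w).card with hid
    set S := ∑ f ∈ lv rk a b 3, (((lv rk a f 1).card : ℚ) - 3) * ((lv rk a f 1).card - 4) with hSd
    rw [hmu]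
    have hi1 : i + 11 ≤ 2 * j := by omega
    have hj6 : 6 ≤ j := by omega
    have hkjq : (k : ℚ) + 4 ≤ 2 * j := by exact_mod_cast hkj
    have hjkq : (j : ℚ) + 4 ≤ 2 * k := by exact_mod_cast hjk
    have hj6q : (6 : ℚ) ≤ j := by exact_mod_cast hj6
    have hi1q : (i : ℚ) + 11 ≤ 2 * j := by exact_mod_cast hi1
    have hd1q : (i : ℚ) + 4 ≤ k := by exact_mod_cast hd1
    unfold lam
    -- lower bound for the right-hand side
    have key : (k : ℚ) / 80 + (i : ℚ) / 10 ≤ 1 / 20 + 2 * (199 / 6000) *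
        (((j : ℚ) - 3) * (j - 4) / 2 - ((j : ℚ) - 2 - 4) * (2 * (j : ℚ) - 4 - k) / 4) := by
      rcases Nat.lt_or_ge j 13 with h13 | h13
      · interval_cases j
        · push_cast at *; linarith
        · push_cast at *; linarith
        · push_cast at *; linarith
        · push_cast at *; linarith
        · push_cast at *; linarith
        · push_cast at *; linarith
        · push_cast at *; linarith
      · have h13q : (13 : ℚ) ≤ j := by exact_mod_cast h13
        nlinarith [mul_nonneg (sub_nonneg.2 h13q) (sub_nonneg.2 hjkq),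
          mul_nonneg (sub_nonneg.2 h13q) (Nat.cast_nonneg (α := ℚ) k)]
    linarith

omit h in
/-- kap is at most linear -/
theorem num_kap_le (s : ℕ) (hs : 3 ≤ s) : kap s ≤ 101 / 1200 * ((s : ℚ) - 3) := by
  unfold kap lam
  rcases Nat.lt_or_ge s 5 with h5 | h5
  · interval_cases s
    · norm_num
    · norm_num
  · have h5q : (5 : ℚ) ≤ s := by exact_mod_cast h5
    apply max_le
    · linarith
    · nlinarith

omit h in
/-- a better bound when there is no triangle -/
theorem num_kap_le4 (s : ℕ) (hs : 4 ≤ s) : kap s ≤ 101 / 1200 * ((s : ℚ) - 4) := by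
  unfold kap lam
  rcases Nat.lt_or_ge s 5 with h5 | h5
  · have : s = 4 := by omega
    subst this
    norm_num
  · have h5q : (5 : ℚ) ≤ s := by exact_mod_cast h5
    apply max_le
    · linarith
    · nlinarith

omit h in
theorem num_kap_zero (s : ℕ) (h3 : 3 ≤ s) (h4 : s ≤ 4) : kap s = 0 := by
  unfold kap lam
  interval_cases s
  · norm_num
  · norm_num

omit h in
theorem num_kap_half (s : ℕ) (h3 : 3 ≤ s) (h4 : s ≤ 5) : kap s ≤ 101 / 2400 * ((s : ℚ) - 3) := by
  unfold kap lam
  interval_cases s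
  · norm_num
  · norm_num
  · norm_num

/-- edges on triangles only -/
theorem num_eps {a b : α} (hl : rk b = rk a + 4)
    (hM : ∀ f ∈ lv rk a b 3, (lv rk a f 1).card ≤ 4) :
    (lv rk a b 2).card ≤ eps rk a b + ∑ f ∈ lv rk a b 3, 4 * ((lv rk a f 1).card - 3) := by
  have h0 := Finset.card_filter_add_card_filter_not (s := lv rk a b 2)
    (fun e => ∀ f ∈ lv rk e b 1, (lv rk a f 1).card = 3)
  have hsub : (lv rk a b 2).filter (fun e => ¬ ∀ f ∈ lv rk e b 1, (lv rk a f 1).card = 3)
      ⊆ (lv rk a b 3).biUnion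
        (fun f => if (lv rk a f 1).card = 3 then ∅ else lv rk a f 2) := by
    intro e he
    rw [mem_filter] at he
    obtain ⟨he1, he2⟩ := he
    push Not at he2
    obtain ⟨f, hf, hf3⟩ := he2
    have he1' := mem_lv.1 he1
    have hf' := mem_lv.1 hf
    rw [mem_biUnion]
    refine ⟨f, mem_lv.2 ⟨he1'.1.trans hf'.1, hf'.2.1, by omega⟩, ?_⟩
    rw [if_neg hf3]
    exact mem_lv.2 ⟨he1'.1, hf'.1, he1'.2.2⟩
  have h1 := (Finset.card_le_card hsub).trans Finset.card_biUnion_le
  have h2 : ∑ f ∈ lv rk a b 3, (if (lv rk a f 1).card = 3 then ∅ else lv rk a f 2 : Finset α).card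
      ≤ ∑ f ∈ lv rk a b 3, 4 * ((lv rk a f 1).card - 3) := by
    refine Finset.sum_le_sum fun f hf => ?_
    have hf' := mem_lv.1 hf
    have h3 := h.three_le hf'.1 hf'.2.2
    have h4 := hM f hf
    have h5 := h.euler3 hf'.1 hf'.2.2
    split_ifs with hc
    · simp
    · omega
  have h3 : eps rk a b = ((lv rk a b 2).filter
      (fun e => ∀ f ∈ lv rk e b 1, (lv rk a f 1).card = 3)).card := rfl
  omega

/-- Facet lemma for the 3-polytope `[a,b]` (a facet `Y` of `Q`) -/
theorem facet_lemma {a b : α} (hab : a ≤ b) (hl : rk b = rk a + 4) :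
    0 ≤ (((lv rk a b 1).card : ℚ) - 8) / 40 + (1 / 60 + lam) / 4 * (lv rk a b 1).card
      + (1 / 72 - lam / 6) * (eps rk a b : ℚ)
      - (1 / 6) * ∑ f ∈ lv rk a b 3, kap (lv rk a f 1).card := by
  have e4 := h.euler4 hab hl
  have hj3 := h.num_three_j hl
  have hk3 := h.num_three_k hl
  have hsub := h.num_sum_sub hab hl
  have hthree : ∀ f ∈ lv rk a b 3, 3 ≤ (lv rk a f 1).card := by
    intro f hf
    have hf' := mem_lv.1 hf
    exact h.three_le hf'.1 hf'.2.2
  have hlt : ∀ f ∈ lv rk a b 3, (lv rk a f 1).card + 1 ≤ (lv rk a b 1).card :=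
    fun f hf => h.face_lt hab hl hf
  obtain ⟨f0, hf0⟩ := h.exists_lv (i := 3) hab (by omega)
  have hj4 : 4 ≤ (lv rk a b 1).card := by
    have := hthree f0 hf0
    have := hlt f0 hf0
    omega
  have hkj : (lv rk a b 3).card + 4 ≤ 2 * (lv rk a b 1).card := by omega
  have hjk : (lv rk a b 1).card + 4 ≤ 2 * (lv rk a b 3).card := by omega
  have heps0 : (0 : ℚ) ≤ eps rk a b := Nat.cast_nonneg _
  -- general bound for the sum of kap
  have hkap : ∑ f ∈ lv rk a b 3, kap (lv rk a f 1).card
      ≤ 101 / 1200 * (2 * ((lv rk a b 1).card : ℚ) - 4 - (lv rk a b 3).card) := by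
    rw [← hsub, Finset.mul_sum]
    exact Finset.sum_le_sum fun f hf => num_kap_le _ (hthree f hf)
  have hkjq : ((lv rk a b 3).card : ℚ) + 4 ≤ 2 * (lv rk a b 1).card := by exact_mod_cast hkj
  have hjkq : ((lv rk a b 1).card : ℚ) + 4 ≤ 2 * (lv rk a b 3).card := by exact_mod_cast hjk
  rcases Nat.lt_or_ge (lv rk a b 1).card 8 with h8 | h8
  · rcases Nat.lt_or_ge (lv rk a b 1).card 6 with h6 | h6
    · -- 4 or 5 vertices
      have hM : ∀ f ∈ lv rk a b 3, (lv rk a f 1).card ≤ 4 := by
        intro f hf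
        have := hlt f hf
        omega
      have hz : ∑ f ∈ lv rk a b 3, kap (lv rk a f 1).card = 0 :=
        Finset.sum_eq_zero fun f hf => num_kap_zero _ (hthree f hf) (hM f hf)
      have he := h.num_eps hl hM
      have he1 : ((∑ f ∈ lv rk a b 3, 4 * ((lv rk a f 1).card - 3) : ℕ) : ℚ)
          = 4 * (2 * ((lv rk a b 1).card : ℚ) - 4 - (lv rk a b 3).card) := by
        rw [← hsub, Finset.mul_sum]
        push_cast
        refine Finset.sum_congr rfl fun f hf => ?_
        rw [Nat.cast_sub (hthree f hf)]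
        push_cast
        ring
      have he2 : ((lv rk a b 2).card : ℚ) ≤ eps rk a b
          + 4 * (2 * ((lv rk a b 1).card : ℚ) - 4 - (lv rk a b 3).card) := by
        rw [← he1]
        exact_mod_cast he
      have e4' : ((lv rk a b 1).card : ℚ) + (lv rk a b 3).card = (lv rk a b 2).card + 2 := by
        exact_mod_cast e4
      rw [hz]
      unfold lam
      rcases Nat.lt_or_ge (lv rk a b 1).card 5 with h5 | h5
      · have hj' : (lv rk a b 1).card = 4 := by omega
        have hk' : (lv rk a b 3).card = 4 := by omega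
        rw [hj', hk'] at he2 e4'
        rw [hj']
        push_cast at *
        linarith
      · have hj' : (lv rk a b 1).card = 5 := by omega
        have hk' : (5 : ℚ) ≤ (lv rk a b 3).card := by
          have : 5 ≤ (lv rk a b 3).card := by omega
          exact_mod_cast this
        rw [hj'] at he2 e4'
        rw [hj']
        push_cast at *
        linarith
    · rcases Nat.lt_or_ge (lv rk a b 1).card 7 with h7 | h7
      · -- 6 vertices
        have hj' : (lv rk a b 1).card = 6 := by omega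
        have hk' : (5 : ℚ) ≤ (lv rk a b 3).card := by
          have : 5 ≤ (lv rk a b 3).card := by omega
          exact_mod_cast this
        have hkap2 : ∑ f ∈ lv rk a b 3, kap (lv rk a f 1).card
            ≤ 101 / 2400 * (2 * ((lv rk a b 1).card : ℚ) - 4 - (lv rk a b 3).card) := by
          rw [← hsub, Finset.mul_sum]
          refine Finset.sum_le_sum fun f hf => num_kap_half _ (hthree f hf) ?_
          have := hlt f hf
          omega
        unfold lam
        rw [hj'] at hkap2 ⊢
        push_cast at *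
        nlinarith
      · -- 7 vertices
        have hj' : (lv rk a b 1).card = 7 := by omega
        have hk' : (6 : ℚ) ≤ (lv rk a b 3).card := by
          have : 6 ≤ (lv rk a b 3).card := by omega
          exact_mod_cast this
        have hq : ∑ f ∈ lv rk a b 3, kap (lv rk a f 1).card
            ≤ 101 / 1200 * (2 * ((lv rk a b 1).card : ℚ) - 4 - (lv rk a b 3).card) := hkap
        unfold lam
        rw [hj'] at hq ⊢
        push_cast at *
        nlinarith
  · -- at least 8 vertices
    have h8q : (8 : ℚ) ≤ (lv rk a b 1).card := by exact_mod_cast h8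
    unfold lam
    nlinarith

end ELC

end

end FRC
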