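import Pool.Agent.FR.LB
import Pool.Agent.FR.Num

set_option linter.unusedSectionVars false

open Finset
open scoped Classical

namespace FRC

noncomputable section

variable {α : Type*} [Lattice α] [BoundedOrder α] [Fintype α] {rk : α → ℕ}

/-- key inequality for every 4-polytope `[a,b]` -/
theorem ELC.perQ (h : ELC rk) {a b : α} (hab : a ≤ b) (hl : rk b = rk a + 5) :
    (1 / 24000) * ∑ u ∈ lv rk a b 1, ((lv rk u b 3).card : ℚ) ≤ WQ rk a b := by
  -- the largest number of faces disjoint from a face in the vertex figure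
  let im : α → ℕ := fun u => (lv rk u b 3).sup (fun Y => (dsj rk u b Y).card)
  -- lower bound theorem
  have hLB := h.LB hab hl (fun u => ((lv rk u b 3).card : ℤ) - 3 + (im u : ℤ)) (by
    intro u _ Y hY
    have h1 : (dsj rk u b Y).card ≤ im u :=
      Finset.le_sup (f := fun Y => (dsj rk u b Y).card) hY
    show ((lv rk u b 3).card : ℤ) - 3 + (dsj rk u b Y).card
      ≤ ((lv rk u b 3).card : ℤ) - 3 + (im u : ℤ)
    omega)
  have hLBq : 3 * ((lv rk a b 4).card : ℚ) - 10
      ≤ ∑ u ∈ lv rk a b 1, (((lv rk u b 3).card : ℚ) - 3 + (im u : ℚ)) := by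
    exact_mod_cast hLB
  rw [Finset.sum_add_distrib, Finset.sum_sub_distrib, Finset.sum_const, nsmul_eq_mul] at hLBq
  -- vertex lemma
  have hv : ∀ u ∈ lv rk a b 1, ((lv rk u b 3).card : ℚ) / 80 + (im u : ℚ) / 10
      ≤ 1 / 20 + 2 * lam * mu rk u b := by
    intro u hu
    have hu' := mem_lv.1 hu
    have hlen : rk b = rk u + 4 := by omega
    obtain ⟨Y, hY, hYm⟩ := Finset.exists_mem_eq_sup (lv rk u b 3)
      (h.exists_lv hu'.2.1 (by omega)) (fun Y => (dsj rk u b Y).card)
    have h1 := h.vertex_lemma hu'.2.1 hlen hY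
    have h2 : im u = (dsj rk u b Y).card := hYm
    rw [h2]
    exact h1
  have hvs := Finset.sum_le_sum hv
  rw [Finset.sum_add_distrib, Finset.sum_add_distrib, Finset.sum_const, nsmul_eq_mul,
    ← Finset.sum_div, ← Finset.sum_div, ← Finset.mul_sum] at hvs
  -- facet lemma
  have hf : ∀ Y ∈ lv rk a b 4, 0 ≤ (((lv rk a Y 1).card : ℚ) - 8) / 40
      + (1 / 60 + lam) / 4 * (lv rk a Y 1).card
      + (1 / 72 - lam / 6) * (eps rk a Y : ℚ)
      - (1 / 6) * ∑ f ∈ lv rk a Y 3, kap (lv rk a f 1).card := by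
    intro Y hY
    have hY' := mem_lv.1 hY
    exact h.facet_lemma hY'.1 hY'.2.2
  have hfs := Finset.sum_nonneg hf
  rw [Finset.sum_sub_distrib, Finset.sum_add_distrib, Finset.sum_add_distrib,
    ← Finset.sum_div, Finset.sum_sub_distrib, Finset.sum_const, nsmul_eq_mul,
    ← Finset.mul_sum, ← Finset.mul_sum, ← Finset.mul_sum] at hfs
  -- double counting
  have S1 : ∑ Y ∈ lv rk a b 4, ((lv rk a Y 1).card : ℚ)
      = ∑ u ∈ lv rk a b 1, ((lv rk u b 3).card : ℚ) := by
    have := sum_lv_comm (rk := rk) (a := a) (b := b) (i := 4) (j := 1) (by norm_num)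
      (fun _ _ => (1 : ℚ))
    simpa using this
  have S2 : ∑ Y ∈ lv rk a b 4, ∑ f ∈ lv rk a Y 3, kap (lv rk a f 1).card
      = 2 * ∑ G ∈ lv rk a b 3, kap (lv rk a G 1).card := by
    rw [sum_lv_comm (rk := rk) (a := a) (b := b) (i := 4) (j := 3) (by norm_num)
      (fun _ f => kap (lv rk a f 1).card), Finset.mul_sum]
    apply Finset.sum_congr rfl
    intro G hG
    have hG' := mem_lv.1 hG
    rw [Finset.sum_const, nsmul_eq_mul, h.lv_card_two hG'.2.1 (by omega)]
    norm_num
  rw [S1, S2] at hfs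
  unfold WQ
  unfold lam at *
  linarith

end

end FRC
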