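import Pool.Agent.FR.CF

set_option linter.unusedSectionVars false

open Finset
open scoped Classical

namespace FRC

noncomputable section

variable {α : Type*} [Lattice α] [BoundedOrder α] [Fintype α] {rk : α → ℕ}

namespace ELC

variable (h : ELC rk)
include h

/-- an element of rank at most 2 has at most two atoms -/
theorem p3_le_two {a x : α} (hax : a ≤ x) (hr : rk x ≤ rk a + 2) : (lv rk a x 1).card ≤ 2 := by
  have h0 := h.rk_le hax
  rcases (by omega : rk x = rk a ∨ rk x = rk a + 1 ∨ rk x = rk a + 2) with h1 | h1 | h1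
  · have : a = x := h.eq_of_rk hax (by omega)
    subst this
    have he : lv rk a a 1 = ∅ := by
      rw [Finset.eq_empty_iff_forall_notMem]
      intro c hc
      rw [mem_lv] at hc
      have := h.rk_le hc.2.1
      omega
    rw [he]; simp
  · rw [h.lv_top hax h1]; simp
  · rw [h.lv_card_two hax h1]

/-- distinct faces have at most two common vertices -/
theorem p3_common {a b f f' : α} (hf : f ∈ lv rk a b 3) (hf' : f' ∈ lv rk a b 3) (hne : f ≠ f') :
    ((lv rk a f' 1).filter (fun v => v ≤ f)).card ≤ 2 := by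
  rw [mem_lv] at hf hf'
  have h1 := h.inf_rk_lt hne (by omega)
  have h2 : ((lv rk a f' 1).filter (fun v => v ≤ f)) ⊆ lv rk a (f ⊓ f') 1 := by
    intro v hv
    rw [mem_filter, mem_lv] at hv
    exact mem_lv.2 ⟨hv.1.1, le_inf hv.2 hv.1.2.1, hv.1.2.2⟩
  exact (Finset.card_le_card h2).trans (h.p3_le_two (le_inf hf.1 hf'.1) (by omega))

/-- a face has a vertex outside any other face -/
theorem p3_exists_not_le {a b f f' : α} (hf : f ∈ lv rk a b 3) (hf' : f' ∈ lv rk a b 3)
    (hne : f ≠ f') : ∃ v ∈ lv rk a f' 1, ¬ v ≤ f := by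
  by_contra hcon
  push Not at hcon
  have h1 := h.p3_common hf hf' hne
  rw [Finset.filter_true_of_mem hcon] at h1
  rw [mem_lv] at hf'
  have := h.three_le hf'.1 hf'.2.2
  omega

/-- a face does not contain all the vertices -/
theorem face_lt {a b f : α} (hab : a ≤ b) (hl : rk b = rk a + 4) (hf : f ∈ lv rk a b 3) :
    (lv rk a f 1).card + 1 ≤ (lv rk a b 1).card := by
  have hf' := mem_lv.1 hf
  obtain ⟨e, he⟩ := h.exists_lv (i := 2) hf'.1 (by omega)
  rw [mem_lv] at he
  have h2 : (lv rk e b 1).card = 2 := h.lv_card_two (he.2.1.trans hf'.2.1) (by omega)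
  obtain ⟨f', hf1, hne⟩ := Finset.exists_mem_ne (by omega : 1 < (lv rk e b 1).card) f
  rw [mem_lv] at hf1
  have hf2 : f' ∈ lv rk a b 3 := mem_lv.2 ⟨he.1.trans hf1.1, hf1.2.1, by omega⟩
  obtain ⟨v, hv, hvf⟩ := h.p3_exists_not_le hf hf2 hne.symm
  rw [mem_lv] at hv
  have hlt : lv rk a f 1 ⊂ lv rk a b 1 := by
    rw [Finset.ssubset_iff_of_subset]
    · refine ⟨v, mem_lv.2 ⟨hv.1, hv.2.1.trans hf1.2.1, hv.2.2⟩, ?_⟩
      intro hm
      exact hvf (mem_lv.1 hm).2.1
    · intro u hu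
      rw [mem_lv] at hu ⊢
      exact ⟨hu.1, hu.2.1.trans hf'.2.1, hu.2.2⟩
  exact Finset.card_lt_card hlt

/-- in a pyramid any two faces meet -/
theorem pyr {a b f w : α} (hab : a ≤ b) (hl : rk b = rk a + 4) (hf : f ∈ lv rk a b 3)
    (hp : (lv rk a f 1).card + 1 = (lv rk a b 1).card) (hw : w ∈ lv rk a b 3) :
    (dsj rk a b w).card = 0 := by
  have hf' := mem_lv.1 hf
  have hw' := mem_lv.1 hw
  have hsub : lv rk a f 1 ⊆ lv rk a b 1 := by
    intro u hu
    rw [mem_lv] at hu ⊢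
    exact ⟨hu.1, hu.2.1.trans hf'.2.1, hu.2.2⟩
  have hsd : (lv rk a b 1 \ lv rk a f 1).card = 1 := by
    rw [Finset.card_sdiff_of_subset hsub]; omega
  obtain ⟨x, hx⟩ := Finset.card_eq_one.1 hsd
  have hx' : ∀ v ∈ lv rk a b 1, ¬ v ≤ f → v = x := by
    intro v hv hvf
    have : v ∈ lv rk a b 1 \ lv rk a f 1 := by
      rw [mem_sdiff]
      exact ⟨hv, fun hm => hvf (mem_lv.1 hm).2.1⟩
    rw [hx, mem_singleton] at this
    exact this
  -- a face other than `f` contains `x`, and has a vertex in `f`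
  have key : ∀ f' ∈ lv rk a b 3, f ≠ f' → x ≤ f' ∧ ∃ v, v ≤ f ∧ v ≤ f' ∧ rk v = rk a + 1 := by
    intro f' hf1 hne
    have hf2 := mem_lv.1 hf1
    obtain ⟨v, hv, hvf⟩ := h.p3_exists_not_le hf hf1 hne
    have hv' := mem_lv.1 hv
    have hvx : v = x := hx' v (mem_lv.2 ⟨hv'.1, hv'.2.1.trans hf2.2.1, hv'.2.2⟩) hvf
    refine ⟨hvx ▸ hv'.2.1, ?_⟩
    have h3 := h.three_le hf2.1 hf2.2.2
    obtain ⟨u, hu, hux⟩ := Finset.exists_mem_ne (by omega : 1 < (lv rk a f' 1).card) x
    rw [mem_lv] at hu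
    refine ⟨u, ?_, hu.2.1, hu.2.2⟩
    by_contra huf
    exact hux (hx' u (mem_lv.2 ⟨hu.1, hu.2.1.trans hf2.2.1, hu.2.2⟩) huf)
  have hxm : x ∈ lv rk a b 1 := by
    have : x ∈ lv rk a b 1 \ lv rk a f 1 := by rw [hx]; simp
    exact (mem_sdiff.1 this).1
  rw [mem_lv] at hxm
  rw [Finset.card_eq_zero, Finset.eq_empty_iff_forall_notMem]
  intro f' hf1
  rw [dsj, mem_filter] at hf1
  obtain ⟨hf1, hd⟩ := hf1
  have hf2 := mem_lv.1 hf1
  -- a common vertex is impossible
  have hno : ∀ v, v ≤ f' → v ≤ w → rk v = rk a + 1 → False := by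
    intro v h1 h2 h3
    have := h.rk_le (le_inf h1 h2)
    rw [hd] at this
    omega
  by_cases hwf : f = w
  · by_cases hff : f = f'
    · subst hwf; subst hff
      rw [inf_idem] at hd
      rw [hd] at hf'
      omega
    · obtain ⟨_, v, h1, h2, h3⟩ := key f' hf1 hff
      exact hno v h2 (hwf ▸ h1) h3
  · by_cases hff : f = f'
    · obtain ⟨_, v, h1, h2, h3⟩ := key w hw hwf
      exact hno v (hff ▸ h1) h2 h3
    · exact hno x (key f' hf1 hff).1 (key w hw hwf).1 hxm.2.2

/-- the faces different from `w` that meet `w` -/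
theorem p3_N {a b w : α} (hab : a ≤ b) (hl : rk b = rk a + 4) (hw : w ∈ lv rk a b 3) :
    (lvg rk a b w).card + (dsj rk a b w).card + 1 = (lv rk a b 3).card := by
  have hw' := mem_lv.1 hw
  set N := (lv rk a b 3).filter (fun f => f ≠ w ∧ f ⊓ w ≠ a) with hN
  have hwd : w ⊓ w ≠ a := by
    rw [inf_idem]; intro hc; rw [hc] at hw'; omega
  have h1 : N.card + (dsj rk a b w).card + 1 = (lv rk a b 3).card := by
    have hu : lv rk a b 3 = insert w (N ∪ dsj rk a b w) := by
      ext f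
      rw [mem_insert, mem_union, hN, dsj, mem_filter, mem_filter]
      constructor
      · intro hf
        by_cases h1 : f = w
        · exact Or.inl h1
        · by_cases h2 : f ⊓ w = a
          · exact Or.inr (Or.inr ⟨hf, h2⟩)
          · exact Or.inr (Or.inl ⟨hf, h1, h2⟩)
      · rintro (rfl | h1 | h1)
        · exact hw
        · exact h1.1
        · exact h1.1
    have hnot : w ∉ N ∪ dsj rk a b w := by
      rw [mem_union, hN, dsj, mem_filter, mem_filter]
      rintro (h1 | h1)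
      · exact h1.2.1 rfl
      · exact hwd h1.2
    have hdisj : Disjoint N (dsj rk a b w) := by
      rw [Finset.disjoint_left]
      intro f hf hf'
      rw [hN, mem_filter] at hf
      rw [dsj, mem_filter] at hf'
      exact hf.2.2 hf'.2
    rw [hu, card_insert_of_notMem hnot, card_union_of_disjoint hdisj]
  -- for a face `f ≠ w`, to meet `w` means to have a common vertex
  have hmeet : ∀ f ∈ lv rk a b 3, f ⊓ w ≠ a → ∃ v ∈ lv rk a w 1, v ≤ f := by
    intro f hf hfw
    have hf' := mem_lv.1 hf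
    have hle : a ≤ f ⊓ w := le_inf hf'.1 hw'.1
    have hlt := h.rk_lt (lt_of_le_of_ne hle (Ne.symm hfw))
    obtain ⟨v, hv⟩ := h.exists_lv (i := 1) hle (by omega)
    rw [mem_lv] at hv
    exact ⟨v, mem_lv.2 ⟨hv.1, hv.2.1.trans inf_le_right, hv.2.2⟩, hv.2.1.trans inf_le_left⟩
  have hnle : ∀ f ∈ lv rk a b 3, f ≠ w → ¬ f ≤ w := by
    intro f hf hne hle
    have hf' := mem_lv.1 hf
    exact hne (h.eq_of_rk hle (by omega))
  have h2 : ∑ f ∈ N, ((lv rk a f 2).filter
      (fun g => ¬ g ≤ w ∧ ∃ v ∈ lv rk a w 1, v ≤ g)).card = 2 * N.card := by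
    rw [Finset.sum_congr rfl (g := fun _ => 2), Finset.sum_const, smul_eq_mul, mul_comm]
    intro f hf
    rw [hN, mem_filter] at hf
    have hf' := mem_lv.1 hf.1
    exact h.polygon_leave hf'.1 hw'.1 hf'.2.2 (hnle f hf.1 hf.2.1) (hmeet f hf.1 hf.2.2)
  have h3 : ∑ g ∈ lvg rk a b w, (lv rk g b 1).card = 2 * (lvg rk a b w).card := by
    rw [Finset.sum_congr rfl (g := fun _ => 2), Finset.sum_const, smul_eq_mul, mul_comm]
    intro g hg
    rw [lvg, mem_filter] at hg
    have hg' := mem_lv.1 hg.1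
    exact h.lv_card_two hg'.2.1 (by omega)
  have h4 : ∑ f ∈ N, ((lv rk a f 2).filter
      (fun g => ¬ g ≤ w ∧ ∃ v ∈ lv rk a w 1, v ≤ g)).card
      = ∑ g ∈ lvg rk a b w, (lv rk g b 1).card := by
    simp only [Finset.card_eq_sum_ones]
    apply Finset.sum_comm'
    intro f g
    rw [hN, lvg, mem_filter, mem_filter, mem_filter]
    simp only [mem_lv]
    constructor
    · rintro ⟨⟨⟨x1, x2, x3⟩, x4, x5⟩, ⟨y1, y2, y3⟩, y4, v, ⟨z1, z2, z3⟩, z4⟩
      exact ⟨⟨y2, x2, by omega⟩, ⟨y1, y2.trans x2, y3⟩, y4, v, ⟨z1, z2, z3⟩, z4⟩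
    · rintro ⟨⟨x1, x2, x3⟩, ⟨y1, y2, y3⟩, y4, v, ⟨z1, z2, z3⟩, z4⟩
      refine ⟨⟨⟨y1.trans x1, x2, by omega⟩, ?_, ?_⟩, ⟨y1, x1, y3⟩, y4, v, ⟨z1, z2, z3⟩, z4⟩
      · rintro rfl
        exact y4 x1
      · intro hc
        have := h.rk_le (le_inf (z4.trans x1) z2)
        rw [hc] at this
        omega
  omega

/-- at least as many edges leave `w` as `w` has vertices -/
theorem p3_lvg {a b w : α} (hab : a ≤ b) (hl : rk b = rk a + 4) (hw : w ∈ lv rk a b 3) :
    (lv rk a w 1).card ≤ (lvg rk a b w).card := by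
  have hw' := mem_lv.1 hw
  have hex : ∀ v ∈ lv rk a w 1, ∃ g ∈ lvg rk a b w, v ≤ g := by
    intro v hv
    have hv' := mem_lv.1 hv
    have h3 : 3 ≤ (lv rk v b 1).card := h.three_le (hv'.2.1.trans hw'.2.1) (by omega)
    have h2 : (lv rk v w 1).card = 2 := h.lv_card_two hv'.2.1 (by omega)
    obtain ⟨g, hg, hgw⟩ := Finset.exists_mem_notMem_of_card_lt_card
      (by omega : (lv rk v w 1).card < (lv rk v b 1).card)
    have hg' := mem_lv.1 hg
    refine ⟨g, ?_, hg'.1⟩
    rw [lvg, mem_filter]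
    refine ⟨mem_lv.2 ⟨hv'.1.trans hg'.1, hg'.2.1, by omega⟩, ?_, v, hv, hg'.1⟩
    intro hle
    exact hgw (mem_lv.2 ⟨hg'.1, hle, hg'.2.2⟩)
  choose! F hF using hex
  refine Finset.card_le_card_of_injOn F (fun v hv => (hF v hv).1) ?_
  intro v hv v' hv' he
  have h1 := hF v hv
  have h2 := hF v' hv'
  by_contra hne
  have hv1 := mem_lv.1 (Finset.mem_coe.1 hv)
  have hv2 := mem_lv.1 (Finset.mem_coe.1 hv')
  have hle : v ⊔ v' ≤ F v := sup_le h1.2 (he ▸ h2.2)
  have hlt := h.lt_rk_sup hne (by omega)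
  have h3 := h1.1
  rw [lvg, mem_filter, mem_lv] at h3
  have heq : v ⊔ v' = F v := h.eq_of_rk hle (by omega)
  exact h3.2.1 (heq ▸ sup_le hv1.2.1 hv2.2.1)

/-- at least three faces are adjacent to `w` -/
theorem dsj_le {a b w : α} (hab : a ≤ b) (hl : rk b = rk a + 4) (hw : w ∈ lv rk a b 3) :
    (dsj rk a b w).card + 4 ≤ (lv rk a b 3).card := by
  have h1 := h.p3_N hab hl hw
  have h2 := h.p3_lvg hab hl hw
  have hw' := mem_lv.1 hw
  have h3 := h.three_le hw'.1 hw'.2.2
  omega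

/-- the edges with exactly one face in `D` -/
def p3B (rk : α → ℕ) (a b : α) (D : Finset α) : Finset α :=
  (lv rk a b 2).filter (fun g => ((lv rk g b 1) ∩ D).card = 1)

theorem p3_even {a b v : α} (hl : rk b = rk a + 4) (hv : v ∈ lv rk a b 1) {D : Finset α}
    (hD : D ⊆ lv rk a b 3) : Even ((p3B rk a b D).filter (fun g => v ≤ g)).card := by
  have hv' := mem_lv.1 hv
  -- double counting of the pairs (edge at v, face in D)
  have h1 : ∑ f ∈ D.filter (fun f => v ≤ f), (lv rk v f 1).card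
      = ∑ g ∈ lv rk v b 1, ((lv rk g b 1) ∩ D).card := by
    simp only [Finset.card_eq_sum_ones]
    apply Finset.sum_comm'
    intro f g
    rw [mem_filter, mem_inter]
    simp only [mem_lv]
    constructor
    · rintro ⟨⟨x1, x2⟩, y1, y2, y3⟩
      have hf := mem_lv.1 (hD x1)
      exact ⟨⟨⟨y2, hf.2.1, by omega⟩, x1⟩, y1, y2.trans hf.2.1, y3⟩
    · rintro ⟨⟨⟨x1, x2, x3⟩, x4⟩, y1, y2, y3⟩
      exact ⟨⟨x4, y1.trans x1⟩, y1, x1, y3⟩
  have h2 : ∑ f ∈ D.filter (fun f => v ≤ f), (lv rk v f 1).card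
      = 2 * (D.filter (fun f => v ≤ f)).card := by
    rw [Finset.sum_congr rfl (g := fun _ => 2), Finset.sum_const, smul_eq_mul, mul_comm]
    intro f hf
    rw [mem_filter] at hf
    have hf' := mem_lv.1 (hD hf.1)
    exact h.lv_card_two hf.2 (by omega)
  have hle : ∀ g ∈ lv rk v b 1, ((lv rk g b 1) ∩ D).card ≤ 2 := by
    intro g hg
    rw [mem_lv] at hg
    have := h.lv_card_two hg.2.1 (by omega)
    exact (Finset.card_le_card inter_subset_left).trans this.le
  -- parity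
  have h3 : (p3B rk a b D).filter (fun g => v ≤ g)
      = (lv rk v b 1).filter (fun g => ((lv rk g b 1) ∩ D).card = 1) := by
    ext g
    rw [p3B, mem_filter, mem_filter, mem_filter, mem_lv, mem_lv]
    constructor
    · rintro ⟨⟨⟨x1, x2, x3⟩, x4⟩, x5⟩
      exact ⟨⟨x5, x2, by omega⟩, x4⟩
    · rintro ⟨⟨x1, x2, x3⟩, x4⟩
      exact ⟨⟨⟨hv'.1.trans x1, x2, by omega⟩, x4⟩, x1⟩
  rw [h3, Finset.card_filter]
  have h4 : ∑ g ∈ lv rk v b 1, ((lv rk g b 1) ∩ D).card
      = ∑ g ∈ lv rk v b 1, ((if ((lv rk g b 1) ∩ D).card = 1 then 1 else 0)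
        + 2 * (((lv rk g b 1) ∩ D).card / 2)) := by
    apply Finset.sum_congr rfl
    intro g hg
    have := hle g hg
    split_ifs with hc
    · omega
    · omega
  rw [Finset.sum_add_distrib, ← Finset.mul_sum] at h4
  rw [h2] at h1
  rw [Nat.even_iff]
  omega

/-- a nonempty proper set of faces has at least three boundary edges -/
theorem p3_three {a b : α} (hab : a ≤ b) (hl : rk b = rk a + 4) {D : Finset α}
    (hD : D ⊆ lv rk a b 3) (h1 : D.Nonempty) (h2 : D ≠ lv rk a b 3) :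
    3 ≤ (p3B rk a b D).card := by
  -- nonempty
  have hne : (p3B rk a b D).Nonempty := by
    by_contra hcon
    rw [Finset.not_nonempty_iff_eq_empty] at hcon
    apply h2
    apply (h.dconn (m := 1) hab (by omega)).2 D hD h1
    rintro u hu v hv ⟨e, he, heu, hev⟩
    by_contra hvD
    rw [mem_lv] at he
    have hu' := mem_lv.1 (hD hu)
    have hv' := mem_lv.1 hv
    have hc2 : (lv rk e b 1).card = 2 := h.lv_card_two he.2.1 (by omega)
    have hum : u ∈ lv rk e b 1 ∩ D :=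
      mem_inter.2 ⟨mem_lv.2 ⟨heu, hu'.2.1, by omega⟩, hu⟩
    have hlt : (lv rk e b 1 ∩ D).card < (lv rk e b 1).card := by
      apply Finset.card_lt_card
      rw [Finset.ssubset_iff_of_subset inter_subset_left]
      exact ⟨v, mem_lv.2 ⟨hev, hv'.2.1, by omega⟩, fun hm => hvD (mem_inter.1 hm).2⟩
    have hpos : 0 < (lv rk e b 1 ∩ D).card := Finset.card_pos.2 ⟨u, hum⟩
    have : e ∈ p3B rk a b D := by
      rw [p3B, mem_filter]
      exact ⟨mem_lv.2 ⟨he.1, he.2.1, by omega⟩, by omega⟩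
    rw [hcon] at this
    simp at this
  obtain ⟨g, hg⟩ := hne
  have hg' := hg
  rw [p3B, mem_filter, mem_lv] at hg'
  obtain ⟨⟨ga, gb, gr⟩, _⟩ := hg'
  have hc2 : (lv rk a g 1).card = 2 := h.lv_card_two ga gr
  obtain ⟨u, v, huv, hs⟩ := Finset.card_eq_two.1 hc2
  have hu : u ∈ lv rk a g 1 := by rw [hs]; simp
  have hv : v ∈ lv rk a g 1 := by rw [hs]; simp
  have other : ∀ x ∈ lv rk a g 1, ∃ g' ∈ p3B rk a b D, g' ≠ g ∧ x ≤ g' := by
    intro x hx
    rw [mem_lv] at hx
    have hev := h.p3_even hl (mem_lv.2 ⟨hx.1, hx.2.1.trans gb, hx.2.2⟩) hD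
    have hmem : g ∈ (p3B rk a b D).filter (fun g => x ≤ g) := mem_filter.2 ⟨hg, hx.2.1⟩
    have hpos : 0 < ((p3B rk a b D).filter (fun g => x ≤ g)).card := Finset.card_pos.2 ⟨g, hmem⟩
    have h2 : 1 < ((p3B rk a b D).filter (fun g => x ≤ g)).card := by
      obtain ⟨k, hk⟩ := hev
      omega
    obtain ⟨g', hg1, hg2⟩ := Finset.exists_mem_ne h2 g
    rw [mem_filter] at hg1
    exact ⟨g', hg1.1, hg2, hg1.2⟩
  obtain ⟨g1, hg1, hne1, hu1⟩ := other u hu
  obtain ⟨g2, hg2, hne2, hv2⟩ := other v hv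
  rw [mem_lv] at hu hv
  have hg12 : g1 ≠ g2 := by
    rintro rfl
    have hr := hg1
    rw [p3B, mem_filter, mem_lv] at hr
    exact hne1 (h.eq_of_two huv (by omega) (by omega) (by omega) hu1 hv2 hu.2.1 hv.2.1)
  have hsub : ({g, g1, g2} : Finset α) ⊆ p3B rk a b D := by
    intro x hx
    simp only [mem_insert, mem_singleton] at hx
    rcases hx with rfl | rfl | rfl
    · exact hg
    · exact hg1
    · exact hg2
  have hcard : ({g, g1, g2} : Finset α).card = 3 := by
    rw [Finset.card_eq_three]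
    exact ⟨g, g1, g2, hne1.symm, hne2.symm, hg12, rfl⟩
  rw [← hcard]
  exact Finset.card_le_card hsub

/-- bound for the number of faces disjoint from `w` by the number of vertices -/
theorem dsj_le' {a b w : α} (hab : a ≤ b) (hl : rk b = rk a + 4) (hw : w ∈ lv rk a b 3)
    (hne : (dsj rk a b w).Nonempty) :
    (dsj rk a b w).card + 2 * (lv rk a w 1).card + 5 ≤ 2 * (lv rk a b 1).card := by
  have hw' := mem_lv.1 hw
  have hDsub : dsj rk a b w ⊆ lv rk a b 3 := filter_subset _ _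
  have hDne : dsj rk a b w ≠ lv rk a b 3 := by
    intro hc
    have : w ∈ dsj rk a b w := by rw [hc]; exact hw
    rw [dsj, mem_filter, inf_idem] at this
    rw [this.2] at hw'
    omega
  have hB := h.p3_three hab hl hDsub hne hDne
  set D := dsj rk a b w with hD
  -- the edges without vertex in `w`
  set E' := (lv rk a b 2).filter (fun g => ¬ ∃ v ∈ lv rk a w 1, v ≤ g) with hE'
  -- partition of the edges
  have hpart : (lv rk a b 2).card = (lv rk a w 2).card + (lvg rk a b w).card + E'.card := by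
    have hu : lv rk a b 2 = lv rk a w 2 ∪ lvg rk a b w ∪ E' := by
      ext g
      rw [mem_union, mem_union, lvg, hE', mem_filter, mem_filter]
      constructor
      · intro hg
        have hg' := mem_lv.1 hg
        by_cases h1 : g ≤ w
        · exact Or.inl (Or.inl (mem_lv.2 ⟨hg'.1, h1, hg'.2.2⟩))
        · by_cases h2 : ∃ v ∈ lv rk a w 1, v ≤ g
          · exact Or.inl (Or.inr ⟨hg, h1, h2⟩)
          · exact Or.inr ⟨hg, h2⟩
      · rintro ((h1 | h1) | h1)
        · rw [mem_lv] at h1 ⊢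
          exact ⟨h1.1, h1.2.1.trans hw'.2.1, h1.2.2⟩
        · exact h1.1
        · exact h1.1
    have hd1 : Disjoint (lv rk a w 2) (lvg rk a b w) := by
      rw [Finset.disjoint_left]
      intro g hg hg'
      rw [lvg, mem_filter] at hg'
      exact hg'.2.1 (mem_lv.1 hg).2.1
    have hd2 : Disjoint (lv rk a w 2 ∪ lvg rk a b w) E' := by
      rw [Finset.disjoint_left]
      intro g hg hg'
      rw [hE', mem_filter] at hg'
      rw [mem_union, lvg, mem_filter] at hg
      rcases hg with hg | hg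
      · rw [mem_lv] at hg
        obtain ⟨v, hv⟩ := h.exists_lv (i := 1) hg.1 (by omega)
        rw [mem_lv] at hv
        exact hg'.2 ⟨v, mem_lv.2 ⟨hv.1, hv.2.1.trans hg.2.1, hv.2.2⟩, hv.2.1⟩
      · exact hg'.2 hg.2.2
    rw [hu, card_union_of_disjoint hd2, card_union_of_disjoint hd1]
  have h3 := h.euler3 hw'.1 hw'.2.2
  have h4 := h.euler4 hab hl
  have h5 := h.p3_N hab hl hw
  rw [← hD] at h5
  -- double counting for D
  have h6 : ∑ f ∈ D, (lv rk a f 2).card = ∑ g ∈ E', ((lv rk g b 1) ∩ D).card := by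
    simp only [Finset.card_eq_sum_ones]
    apply Finset.sum_comm'
    intro f g
    rw [hE', mem_filter, mem_inter]
    constructor
    · rintro ⟨hf, hg⟩
      have hf' := hf
      rw [hD, dsj, mem_filter, mem_lv] at hf'
      rw [mem_lv] at hg
      refine ⟨⟨mem_lv.2 ⟨hg.2.1, hf'.1.2.1, by omega⟩, hf⟩,
        mem_lv.2 ⟨hg.1, hg.2.1.trans hf'.1.2.1, hg.2.2⟩, ?_⟩
      rintro ⟨v, hv, hvg⟩
      rw [mem_lv] at hv
      have := h.rk_le (le_inf (hvg.trans hg.2.1) hv.2.1)
      rw [hf'.2] at this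
      omega
    · rintro ⟨⟨hf, hfD⟩, hg, _⟩
      rw [mem_lv] at hf hg
      exact ⟨hfD, mem_lv.2 ⟨hg.1, hf.1, hg.2.2⟩⟩
  have h7 : 3 * D.card ≤ ∑ f ∈ D, (lv rk a f 2).card := by
    rw [mul_comm, ← smul_eq_mul, ← Finset.sum_const]
    apply Finset.sum_le_sum
    intro f hf
    have hf' := mem_lv.1 (hDsub hf)
    have := h.three_le hf'.1 hf'.2.2
    have := h.euler3 hf'.1 hf'.2.2
    omega
  have hBE : p3B rk a b D ⊆ E' := by
    intro g hg
    rw [p3B, mem_filter] at hg
    rw [hE', mem_filter]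
    refine ⟨hg.1, ?_⟩
    rintro ⟨v, hv, hvg⟩
    have hpos : 0 < (lv rk g b 1 ∩ D).card := by omega
    obtain ⟨f, hf⟩ := Finset.card_pos.1 hpos
    rw [mem_inter, mem_lv, hD, dsj, mem_filter] at hf
    rw [mem_lv] at hv
    have := h.rk_le (le_inf (hvg.trans hf.1.1) hv.2.1)
    rw [hf.2.2] at this
    omega
  have h8 : ∑ g ∈ E', ((lv rk g b 1) ∩ D).card + (p3B rk a b D).card ≤ 2 * E'.card := by
    have hBf : (p3B rk a b D).card = ∑ g ∈ E', (if ((lv rk g b 1) ∩ D).card = 1 then 1 else 0) := by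
      rw [← Finset.card_filter]
      congr 1
      ext g
      rw [p3B, mem_filter, mem_filter]
      constructor
      · intro hg
        exact ⟨hBE (by rw [p3B, mem_filter]; exact hg), hg.2⟩
      · rintro ⟨hg, h1⟩
        rw [hE', mem_filter] at hg
        exact ⟨hg.1, h1⟩
    rw [hBf, ← Finset.sum_add_distrib, mul_comm, ← smul_eq_mul, ← Finset.sum_const]
    apply Finset.sum_le_sum
    intro g hg
    rw [hE', mem_filter, mem_lv] at hg
    have h1 := h.lv_card_two hg.1.2.1 (by omega)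
    have h2 := Finset.card_le_card (inter_subset_left : lv rk g b 1 ∩ D ⊆ lv rk g b 1)
    split_ifs with hc
    · omega
    · omega
  omega

end ELC

end

end FRC
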