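import Pool.Agent.FR.CF

set_option linter.unusedSectionVars false

open Finset
open scoped Classical

namespace FRC

noncomputable section

variable {α : Type*} [Lattice α] [BoundedOrder α] [Fintype α] {rk : α → ℕ}

namespace R2aux

/-- edges inside `S` -/
def ES (rk : α → ℕ) (a b : α) (S : Finset α) : Finset α :=
  (lv rk a b 2).filter (fun e => lv rk a e 1 ⊆ S)

/-- faces inside `S` -/
def FS (rk : α → ℕ) (a b : α) (S : Finset α) : Finset α :=
  (lv rk a b 3).filter (fun f => lv rk a f 1 ⊆ S)

def B (rk : α → ℕ) (a b : α) (S : Finset α) : Matrix S (ES rk a b S) (ZMod 2) :=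
  Matrix.of fun v e => if v.1 ≤ e.1 then 1 else 0

def C (rk : α → ℕ) (a b : α) (S : Finset α) : Matrix (ES rk a b S) (FS rk a b S) (ZMod 2) :=
  Matrix.of fun e f => if e.1 ≤ f.1 then 1 else 0

theorem zmod2_two (n : ℕ) (hn : n = 2) : (n : ZMod 2) = 0 := by
  subst hn; decide

theorem B_mul_C (h : ELC rk) {a b : α} (S : Finset α)
    (hS : S ⊆ lv rk a b 1) : B rk a b S * C rk a b S = 0 := by
  ext v f
  rw [Matrix.mul_apply]
  simp only [B, C, Matrix.of_apply, Matrix.zero_apply]
  have hv := mem_lv.1 (hS v.2)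
  have hf := mem_filter.1 f.2
  have hf1 := mem_lv.1 hf.1
  have h1 : ∀ e : ES rk a b S,
      ((if v.1 ≤ e.1 then (1 : ZMod 2) else 0) * (if e.1 ≤ f.1 then 1 else 0))
        = if (v.1 ≤ e.1 ∧ e.1 ≤ f.1) then 1 else 0 := by
    intro e
    by_cases h1 : v.1 ≤ e.1 <;> by_cases h2 : e.1 ≤ f.1 <;> simp [h1, h2]
  rw [Finset.sum_congr rfl (fun e _ => h1 e)]
  have h2 : ∑ e : ES rk a b S, (if (v.1 ≤ e.1 ∧ e.1 ≤ f.1) then (1 : ZMod 2) else 0)
      = ∑ e ∈ ES rk a b S, (if (v.1 ≤ e ∧ e ≤ f.1) then (1 : ZMod 2) else 0) :=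
    Finset.sum_coe_sort (ES rk a b S) (fun e => if (v.1 ≤ e ∧ e ≤ f.1) then (1 : ZMod 2) else 0)
  rw [h2, Finset.sum_boole]
  by_cases hvf : v.1 ≤ f.1
  · apply zmod2_two
    rw [← h.lv_card_two hvf (by omega)]
    congr 1
    ext e
    simp only [mem_filter, ES, mem_lv]
    constructor
    · rintro ⟨⟨⟨x1, x2, x3⟩, x4⟩, x5, x6⟩
      exact ⟨x5, x6, by omega⟩
    · rintro ⟨x1, x2, x3⟩
      refine ⟨⟨⟨hv.1.trans x1, x2.trans hf1.2.1, by omega⟩, ?_⟩, x1, x2⟩
      intro u hu
      rw [mem_lv] at hu
      exact hf.2 (mem_lv.2 ⟨hu.1, hu.2.1.trans x2, hu.2.2⟩)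
  · rw [Finset.filter_eq_empty_iff.2]
    · simp
    · rintro e - ⟨x1, x2⟩
      exact hvf (x1.trans x2)

theorem rank_C (h : ELC rk) {a b : α} (hab : a ≤ b) (hl : rk b = rk a + 4) (S : Finset α)
    (hS : S ⊆ lv rk a b 1) (hne : S ≠ lv rk a b 1) :
    (C rk a b S).rank = (FS rk a b S).card := by
  have hinj : Function.Injective (C rk a b S).mulVecLin := by
    rw [← LinearMap.ker_eq_bot, LinearMap.ker_eq_bot']
    intro z hz
    by_contra hz0
    have hex : ∃ f, z f ≠ 0 := by
      by_contra hcon
      push Not at hcon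
      exact hz0 (funext hcon)
    obtain ⟨f0, hf0⟩ := hex
    set T : Finset α := (lv rk a b 3).filter (fun f => ∃ hf : f ∈ FS rk a b S, z ⟨f, hf⟩ ≠ 0) with hT
    have hconn := h.dconn (a := a) (b := b) (m := 1) hab (by omega)
    have hTeq : T = lv rk a b 3 := by
      apply hconn.2 T (filter_subset _ _)
      · exact ⟨f0.1, mem_filter.2 ⟨(mem_filter.1 f0.2).1, f0.2, hf0⟩⟩
      · intro f hf g hg hfg
        obtain ⟨e, he, hef, heg⟩ := hfg
        obtain ⟨hfF, hfS, hzf⟩ := mem_filter.1 hf
        by_cases hgf : g = f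
        · rw [hgf]; exact hf
        have he' := mem_lv.1 he
        have heES : e ∈ ES rk a b S := by
          refine mem_filter.2 ⟨he, ?_⟩
          intro u hu
          rw [mem_lv] at hu
          exact (mem_filter.1 hfS).2 (mem_lv.2 ⟨hu.1, hu.2.1.trans hef, hu.2.2⟩)
        have hsum := congrFun hz ⟨e, heES⟩
        rw [Matrix.mulVecLin_apply, Matrix.mulVec, Pi.zero_apply, dotProduct] at hsum
        simp only [C, Matrix.of_apply] at hsum
        have hfF' := mem_lv.1 hfF
        have hg' := mem_lv.1 hg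
        -- the faces above e are exactly f and g
        have hcard : (lv rk e b 1).card = 2 := h.lv_card_two he'.2.1 (by omega)
        have hfe : f ∈ lv rk e b 1 := mem_lv.2 ⟨hef, hfF'.2.1, by omega⟩
        have hge : g ∈ lv rk e b 1 := mem_lv.2 ⟨heg, hg'.2.1, by omega⟩
        have hpair : lv rk e b 1 = {f, g} := by
          symm
          apply Finset.eq_of_subset_of_card_le
          · intro x hx
            simp only [mem_insert, mem_singleton] at hx
            rcases hx with rfl | rfl
            · exact hfe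
            · exact hge
          · rw [hcard, Finset.card_pair (Ne.symm hgf)]
        refine mem_filter.2 ⟨hg, ?_⟩
        by_contra hcon
        push Not at hcon
        have : ∑ x : FS rk a b S, (if e ≤ x.1 then (1 : ZMod 2) else 0) * z x = z ⟨f, hfS⟩ := by
          rw [Finset.sum_eq_single ⟨f, hfS⟩]
          · simp [hef]
          · intro x _ hxf
            by_cases hex : e ≤ x.1
            · have hx' := mem_lv.1 (mem_filter.1 x.2).1
              have : x.1 ∈ lv rk e b 1 := mem_lv.2 ⟨hex, hx'.2.1, by omega⟩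
              rw [hpair, mem_insert, mem_singleton] at this
              rcases this with h1 | h1
              · exact absurd (Subtype.ext h1) hxf
              · have h3 : z x = 0 := by
                  have := hcon (by rw [← h1]; exact x.2)
                  convert this using 2
                  exact Subtype.ext h1
                rw [h3, mul_zero]
            · simp [hex]
          · intro hx
            exact absurd (mem_univ _) hx
        rw [this] at hsum
        exact hzf hsum
    -- a vertex outside S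
    have hex : ∃ v ∈ lv rk a b 1, v ∉ S := by
      by_contra hcon
      push Not at hcon
      exact hne (Finset.Subset.antisymm hS hcon)
    obtain ⟨v, hv, hvS⟩ := hex
    have hv' := mem_lv.1 hv
    obtain ⟨f, hf⟩ := h.exists_lv (i := 2) hv'.2.1 (by omega)
    rw [mem_lv] at hf
    have hfF : f ∈ lv rk a b 3 := mem_lv.2 ⟨hv'.1.trans hf.1, hf.2.1, by omega⟩
    rw [← hTeq] at hfF
    obtain ⟨_, hfS, _⟩ := mem_filter.1 hfF
    exact hvS ((mem_filter.1 hfS).2 (mem_lv.2 ⟨hv'.1, hf.1, hv'.2.2⟩))
  rw [Matrix.rank, LinearMap.finrank_range_of_inj hinj, Module.finrank_fintype_fun_eq_card,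
    Fintype.card_coe]

theorem rank_B (h : ELC rk) {a b : α} (S : Finset α)
    (hS : S ⊆ lv rk a b 1) (hc : Conn (adj rk a b) S) :
    S.card ≤ (B rk a b S).rank + 1 := by
  obtain ⟨v0, hv0⟩ := hc.1
  set R : Submodule (ZMod 2) (S → ZMod 2) := LinearMap.range (B rk a b S).mulVecLin with hR
  set L : Submodule (ZMod 2) (S → ZMod 2) :=
    Submodule.span (ZMod 2) {Pi.single (⟨v0, hv0⟩ : S) (1 : ZMod 2)} with hL
  have hall : ∀ v ∈ S, ∀ hv : v ∈ S, (Pi.single (⟨v, hv⟩ : S) (1 : ZMod 2)) ∈ R ⊔ L := by
    apply hc.induct (fun v => ∀ hv : v ∈ S, (Pi.single (⟨v, hv⟩ : S) (1 : ZMod 2)) ∈ R ⊔ L)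
    · exact ⟨v0, hv0, fun hv => Submodule.mem_sup_right (Submodule.mem_span_singleton_self _)⟩
    · rintro u hu hPu v hv ⟨e, he, hue, hve⟩ hv2
      by_cases huv : u = v
      · subst huv; exact hPu hv2
      have he' := mem_lv.1 he
      have hu' := mem_lv.1 (hS hu)
      have hv' := mem_lv.1 (hS hv)
      have hcard : (lv rk a e 1).card = 2 := h.lv_card_two he'.1 (by omega)
      have hpair : lv rk a e 1 = {u, v} := by
        symm
        apply Finset.eq_of_subset_of_card_le
        · intro x hx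
          simp only [mem_insert, mem_singleton] at hx
          rcases hx with rfl | rfl
          · exact mem_lv.2 ⟨hu'.1, hue, hu'.2.2⟩
          · exact mem_lv.2 ⟨hv'.1, hve, hv'.2.2⟩
        · rw [hcard, Finset.card_pair huv]
      have heES : e ∈ ES rk a b S := by
        refine mem_filter.2 ⟨he, ?_⟩
        rw [hpair]
        intro x hx
        simp only [mem_insert, mem_singleton] at hx
        rcases hx with rfl | rfl
        · exact hu
        · exact hv
      have himg : (B rk a b S).mulVecLin (Pi.single ⟨e, heES⟩ 1)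
          = Pi.single (⟨u, hu⟩ : S) (1 : ZMod 2) + Pi.single (⟨v, hv2⟩ : S) (1 : ZMod 2) := by
        rw [Matrix.mulVecLin_apply, Matrix.mulVec_single_one]
        ext x
        simp only [Matrix.col_apply, B, Matrix.of_apply, Pi.add_apply, Pi.single_apply]
        have hx' := mem_lv.1 (hS x.2)
        by_cases hxe : x.1 ≤ e
        · have hxm : x.1 ∈ lv rk a e 1 := mem_lv.2 ⟨hx'.1, hxe, hx'.2.2⟩
          rw [hpair, mem_insert, mem_singleton] at hxm
          rcases hxm with h1 | h1
          · have e1 : x = ⟨u, hu⟩ := Subtype.ext h1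
            have e2 : x ≠ ⟨v, hv2⟩ := by
              intro hcon; rw [e1] at hcon; exact huv (congrArg Subtype.val hcon)
            simp [e1, huv, hue]
          · have e1 : x = ⟨v, hv2⟩ := Subtype.ext h1
            simp [e1, Ne.symm huv, hve]
        · have e1 : x ≠ ⟨u, hu⟩ := by rintro rfl; exact hxe hue
          have e2 : x ≠ ⟨v, hv2⟩ := by rintro rfl; exact hxe hve
          simp [hxe, e1, e2]
      have h1 : (B rk a b S).mulVecLin (Pi.single ⟨e, heES⟩ 1) ∈ R ⊔ L :=
        Submodule.mem_sup_left (LinearMap.mem_range_self _ _)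
      rw [himg] at h1
      have h2 := (R ⊔ L).sub_mem h1 (hPu hu)
      rwa [add_sub_cancel_left] at h2
  have htop : R ⊔ L = ⊤ := by
    rw [eq_top_iff, ← (Pi.basisFun (ZMod 2) S).span_eq, Submodule.span_le]
    rintro _ ⟨i, rfl⟩
    rw [Pi.basisFun_apply]
    exact hall i.1 i.2 i.2
  have h1 : Module.finrank (ZMod 2) (↥(R ⊔ L)) = S.card := by
    rw [htop, finrank_top, Module.finrank_fintype_fun_eq_card, Fintype.card_coe]
  have h2 := Submodule.finrank_add_le_finrank_add_finrank R L
  have h3 : Module.finrank (ZMod 2) L ≤ 1 := by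
    rw [hL]
    refine (finrank_span_le_card _).trans ?_
    simp
  rw [h1] at h2
  have h4 : (B rk a b S).rank = Module.finrank (ZMod 2) R := rfl
  omega

theorem edges_ge (h : ELC rk) {a b : α} (hab : a ≤ b) (hl : rk b = rk a + 4) (S : Finset α)
    (hS : S ⊆ lv rk a b 1) (hc : Conn (adj rk a b) S) (hne : S ≠ lv rk a b 1) :
    S.card + (FS rk a b S).card ≤ (ES rk a b S).card + 1 := by
  have h1 := Matrix.rank_add_rank_le_card_of_mul_eq_zero (B_mul_C (b := b) h S hS)
  rw [Fintype.card_coe] at h1
  have h2 := rank_B h S hS hc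
  have h3 := rank_C h hab hl S hS hne
  omega

end R2aux

open R2aux

/-- Relative lower bound in dimension 3 (`S` a connected proper set of vertices of the 3-polytope
`[a,b]`). -/
theorem ELC.R2 (h : ELC rk) {a b : α} (hab : a ≤ b) (hl : rk b = rk a + 4) (S : Finset α)
    (hS : S ⊆ lv rk a b 1) (hc : Conn (adj rk a b) S) (hne : S ≠ lv rk a b 1) :
    (((lv rk a b 3).filter (fun f => lv rk a f 1 ⊆ S)).card : ℤ)
      + ((lv rk a b 3).filter (fun f => (lv rk a f 1 ∩ S).Nonempty)).card
      ≤ (∑ v ∈ S, (((lv rk v b 1).card : ℤ) - 2)) + 2 := by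
  have hedge := edges_ge h hab hl S hS hc hne
  -- cut edges
  set Cut : Finset α := (lv rk a b 2).filter (fun e => (lv rk a e 1 ∩ S).card = 1) with hCut
  -- handshake
  have hsum : ∑ v ∈ S, (lv rk v b 1).card = 2 * (ES rk a b S).card + Cut.card := by
    have e1 : ∑ v ∈ S, (lv rk v b 1).card = ∑ e ∈ lv rk a b 2, (lv rk a e 1 ∩ S).card := by
      simp only [Finset.card_eq_sum_ones]
      apply Finset.sum_comm'
      intro x y
      simp only [mem_inter, mem_lv]
      constructor
      · rintro ⟨h1, h2, h3, h4⟩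
        have hx := mem_lv.1 (hS h1)
        exact ⟨⟨⟨hx.1, h2, hx.2.2⟩, h1⟩, hx.1.trans h2, h3, by omega⟩
      · rintro ⟨⟨⟨h1, h2, h3⟩, h4⟩, h5, h6, h7⟩
        exact ⟨h4, h2, h6, by omega⟩
    rw [e1]
    have e2 : ∀ e ∈ lv rk a b 2, (lv rk a e 1 ∩ S).card
        = 2 * (if lv rk a e 1 ⊆ S then 1 else 0) + (if (lv rk a e 1 ∩ S).card = 1 then 1 else 0) := by
      intro e he
      have he' := mem_lv.1 he
      have hcard : (lv rk a e 1).card = 2 := h.lv_card_two he'.1 (by omega)
      by_cases hsub : lv rk a e 1 ⊆ S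
      · rw [Finset.inter_eq_left.2 hsub, hcard]; simp [hsub]
      · have hlt : (lv rk a e 1 ∩ S).card < (lv rk a e 1).card := by
          apply Finset.card_lt_card
          refine ⟨inter_subset_left, ?_⟩
          intro hcon
          exact hsub (fun x hx => (mem_inter.1 (hcon hx)).2)
        rw [hcard] at hlt
        simp only [hsub, if_false]
        split_ifs with hone
        · omega
        · omega
    rw [Finset.sum_congr rfl e2, Finset.sum_add_distrib, ← Finset.mul_sum, Finset.sum_boole,
      Finset.sum_boole]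
    simp [ES, hCut]
  -- faces that meet S and are not inside S
  set M : Finset α := (lv rk a b 3).filter
    (fun f => (lv rk a f 1 ∩ S).Nonempty ∧ ¬ lv rk a f 1 ⊆ S) with hM
  have hMC : 2 * M.card ≤ 2 * Cut.card := by
    have e1 : 2 * M.card ≤ ∑ f ∈ M, (Cut.filter (fun e => e ≤ f)).card := by
      rw [mul_comm, ← smul_eq_mul]
      apply Finset.card_nsmul_le_sum
      intro f hf
      obtain ⟨hfF, hm, hns⟩ := mem_filter.1 hf
      have hf' := mem_lv.1 hfF
      have h1 := h.two_le_cut hf'.1 (by omega) (lv rk a f 1 ∩ S) inter_subset_left hm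
        (by
          intro hcon
          exact hns (Finset.inter_eq_left.1 hcon))
      refine h1.trans (Finset.card_le_card ?_)
      intro e he
      obtain ⟨he1, he2⟩ := mem_filter.1 he
      have he' := mem_lv.1 he1
      have hset : lv rk a e 1 ∩ S = lv rk a e 1 ∩ (lv rk a f 1 ∩ S) := by
        ext x
        simp only [mem_inter, mem_lv]
        constructor
        · rintro ⟨⟨x1, x2, x3⟩, x4⟩
          exact ⟨⟨x1, x2, x3⟩, ⟨x1, x2.trans he'.2.1, x3⟩, x4⟩
        · rintro ⟨x1, x2, x3⟩
          exact ⟨x1, x3⟩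
      refine mem_filter.2 ⟨mem_filter.2 ⟨mem_lv.2 ⟨he'.1, he'.2.1.trans hf'.2.1, he'.2.2⟩, ?_⟩, he'.2.1⟩
      rw [hset]
      exact he2
    have e2 : ∑ f ∈ M, (Cut.filter (fun e => e ≤ f)).card
        = ∑ e ∈ Cut, (M.filter (fun f => e ≤ f)).card := by
      simp only [Finset.card_filter]
      exact Finset.sum_comm
    have e3 : ∑ e ∈ Cut, (M.filter (fun f => e ≤ f)).card ≤ ∑ e ∈ Cut, 2 := by
      apply Finset.sum_le_sum
      intro e he
      obtain ⟨he1, he2⟩ := mem_filter.1 he
      have he' := mem_lv.1 he1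
      rw [← h.lv_card_two (a := e) (b := b) he'.2.1 (by omega)]
      apply Finset.card_le_card
      intro f hf
      obtain ⟨hf1, hf2⟩ := mem_filter.1 hf
      have hf' := mem_lv.1 (mem_filter.1 hf1).1
      exact mem_lv.2 ⟨hf2, hf'.2.1, by omega⟩
    rw [Finset.sum_const, smul_eq_mul] at e3
    omega
  -- the faces meeting S
  have hmeet : ((lv rk a b 3).filter (fun f => (lv rk a f 1 ∩ S).Nonempty)).card
      = M.card + (FS rk a b S).card := by
    rw [← Finset.card_union_of_disjoint]
    · congr 1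
      ext f
      simp only [hM, FS, mem_union, mem_filter]
      constructor
      · rintro ⟨h1, h2⟩
        by_cases hsub : lv rk a f 1 ⊆ S
        · exact Or.inr ⟨h1, hsub⟩
        · exact Or.inl ⟨h1, h2, hsub⟩
      · rintro (⟨h1, h2, h3⟩ | ⟨h1, h2⟩)
        · exact ⟨h1, h2⟩
        · refine ⟨h1, ?_⟩
          have hf' := mem_lv.1 h1
          rw [Finset.inter_eq_left.2 h2]
          exact h.exists_lv hf'.1 (by omega)
    · rw [Finset.disjoint_left]
      intro f hf1 hf2
      exact (mem_filter.1 hf1).2.2 (mem_filter.1 hf2).2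
  have hFS : ((lv rk a b 3).filter (fun f => lv rk a f 1 ⊆ S)).card = (FS rk a b S).card := rfl
  rw [hFS, hmeet, Finset.sum_sub_distrib, ← Nat.cast_sum, hsum]
  simp only [Finset.sum_const, nsmul_eq_mul]
  push_cast
  have h1 : (S.card : ℤ) + (FS rk a b S).card ≤ (ES rk a b S).card + 1 := by exact_mod_cast hedge
  have h2 : (M.card : ℤ) ≤ Cut.card := by
    have : M.card ≤ Cut.card := by omega
    exact_mod_cast this
  linarith

end

end FRC
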