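import Pool.Agent.FR.R2
import Pool.Agent.FR.Comps

set_option linter.unusedSectionVars false
set_option linter.unusedVariables false

open Finset
open scoped Classical

namespace FRC

noncomputable section

variable {α : Type*} [Lattice α] [BoundedOrder α] [Fintype α] {rk : α → ℕ}

namespace ELC

variable (h : ELC rk)
include h

/-- the atoms of any element are connected -/
theorem conn_all {a x : α} (hax : a ≤ x) (hr : rk a + 1 ≤ rk x) :
    Conn (adj rk a x) (lv rk a x 1) := by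
  rcases Nat.lt_or_ge (rk x) (rk a + 3) with hlt | hge
  · refine ⟨h.exists_lv hax hr, ?_⟩
    intro S hS hne hcl
    apply Finset.Subset.antisymm hS
    intro y hy
    obtain ⟨z, hz⟩ := hne
    rcases Nat.lt_or_ge (rk x) (rk a + 2) with h1 | h1
    · have : lv rk a x 1 = {x} := h.lv_top hax (by omega)
      rw [this] at hy hS
      have hz' := hS hz
      rw [mem_singleton] at hy hz'
      rw [hy, ← hz']; exact hz
    · have hx2 : x ∈ lv rk a x 2 := mem_lv.2 ⟨hax, le_rfl, by omega⟩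
      exact hcl z hz y hy ⟨x, hx2, (mem_lv.1 (hS hz)).2.1, (mem_lv.1 hy).2.1⟩
  · exact h.conn a x hax hge

theorem exists_atom_not_le {a y z : α} (hay : a ≤ y) (haz : a ≤ z) (hyz : ¬ y ≤ z) :
    ∃ x ∈ lv rk a y 1, ¬ x ≤ z := by
  have hlt : y ⊓ z < y := lt_of_le_of_ne inf_le_left (fun hh => hyz (inf_eq_left.1 hh))
  obtain ⟨w, hw1, hw2⟩ := exists_le_covBy_of_lt hlt
  have hc := h.covBy _ _ hw2
  have haw : a ≤ w := (le_inf hay haz).trans hw1
  have hraw := h.rk_le haw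
  rcases Nat.lt_or_ge (rk a) (rk w) with h1 | h1
  · obtain ⟨x, hx, hxw⟩ := h.exists_outer (a := a) (b := y) (w := w) (m := rk w - rk a) hay
      (by omega) (by omega) (mem_lv.2 ⟨haw, hw2.le, by omega⟩)
    refine ⟨x, hx, fun hxz => hxw ?_⟩
    exact (le_inf (mem_lv.1 hx).2.1 hxz).trans hw1
  · have : a = w := h.eq_of_rk haw h1
    subst this
    exact ⟨y, mem_lv.2 ⟨hay, le_rfl, by omega⟩, hyz⟩

theorem eq_of_two' {G G' Y Y' : α} (hGG : G ≠ G') (hr : rk G = rk G') (hYY : Y ≠ Y')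
    (hY : rk Y = rk G + 1) (hY' : rk Y' = rk G + 1) (h1 : G ≤ Y) (h2 : G ≤ Y') (h3 : G' ≤ Y)
    (h4 : G' ≤ Y') : False :=
  hYY (h.eq_of_two hGG hr hY hY' h1 h3 h2 h4)

/-- 2-faces of the facet `Y` correspond to the facets sharing a 2-face with `Y` -/
theorem sum_other {a b Y : α} (hab : a ≤ b) (hl : rk b = rk a + 5) (hY : Y ∈ lv rk a b 4)
    (F : α → ℤ) :
    ∑ Y' ∈ ((lv rk a b 4).erase Y).filter (fun Y' => rk (Y' ⊓ Y) = rk a + 3), F (Y' ⊓ Y)
      = ∑ M ∈ lv rk a Y 3, F M := by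
  have hY' := mem_lv.1 hY
  apply Finset.sum_bij (fun Y' _ => Y' ⊓ Y)
  · intro Y' hY1
    rw [mem_filter, mem_erase, mem_lv] at hY1
    exact mem_lv.2 ⟨le_inf hY1.1.2.1 hY'.1, inf_le_right, hY1.2⟩
  · intro Y1 h1 Y2 h2 heq
    rw [mem_filter, mem_erase, mem_lv] at h1 h2
    by_contra hne
    -- three facets above the same codimension 2 element
    have hr : rk b = rk (Y1 ⊓ Y) + 2 := by omega
    refine h.no_three (a := Y1 ⊓ Y) (g := b) (x := Y1) (y := Y2) (z := Y)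
      (inf_le_left.trans h1.1.2.2.1) hr ?_ ?_ ?_ hne h1.1.1 h2.1.1
    · exact mem_lv.2 ⟨inf_le_left, h1.1.2.2.1, by omega⟩
    · exact mem_lv.2 ⟨heq ▸ inf_le_left, h2.1.2.2.1, by omega⟩
    · exact mem_lv.2 ⟨inf_le_right, hY'.2.1, by omega⟩
  · intro M hM
    rw [mem_lv] at hM
    obtain ⟨Y1, hY1, hne⟩ := h.other_atom (a := M) (g := b) (v := Y) (hM.2.1.trans hY'.2.1)
      (by omega) Y
    rw [mem_lv] at hY1
    have h1 : rk (Y1 ⊓ Y) < rk Y1 := h.inf_rk_lt hne (by omega)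
    have h2 : M ≤ Y1 ⊓ Y := le_inf hY1.1 hM.2.1
    have h3 : M = Y1 ⊓ Y := h.eq_of_rk h2 (by omega)
    refine ⟨Y1, ?_, h3.symm⟩
    rw [mem_filter, mem_erase, mem_lv]
    exact ⟨⟨hne, hM.1.trans hY1.1, hY1.2.1, by omega⟩, by rw [← h3]; exact hM.2.2⟩
  · intro Y' _; rfl

/-- the counting identity at a facet -/
theorem facet_count {a b Y : α} (hab : a ≤ b) (hl : rk b = rk a + 5) (hY : Y ∈ lv rk a b 4)
    (S : Finset α) (hS : S ⊆ lv rk a Y 1) :
    ∑ u ∈ S, (((lv rk u b 3).card : ℤ) - 3 + (dsj rk u b Y).card)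
      + ((lv rk a Y 3).filter (fun M => lv rk a M 1 ⊆ S)).card
      + ((lv rk a Y 3).filter (fun M => (lv rk a M 1 ∩ S).Nonempty)).card
    = (((lv rk a b 4).erase Y).filter
          (fun Y' => Y' ⊓ Y ≠ a ∧ lv rk a (Y' ⊓ Y) 1 ⊆ S)).card
      + (((lv rk a b 4).erase Y).filter (fun Y' => (lv rk a Y' 1 ∩ S).Nonempty)).card
      + ∑ u ∈ S, (((lv rk u Y 1).card : ℤ) - 2) := by
  have hY' := mem_lv.1 hY
  set 𝒴 := (lv rk a b 4).erase Y with h𝒴
  -- per vertex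
  have hu1 : ∀ u ∈ S, ((lv rk u b 3).card : ℤ) - 3 + (dsj rk u b Y).card
      = (∑ Y' ∈ 𝒴, ((if u ≤ Y' then (1 : ℤ) else 0) + (if Y' ⊓ Y = u then 1 else 0))) - 2 := by
    intro u hu
    have hu' := mem_lv.1 (hS hu)
    have e1 : lv rk u b 3 = (lv rk a b 4).filter (fun Y' => u ≤ Y') := by
      ext Y'
      rw [mem_filter, mem_lv, mem_lv]
      constructor
      · rintro ⟨h1, h2, h3⟩; exact ⟨⟨hu'.1.trans h1, h2, by omega⟩, h1⟩
      · rintro ⟨⟨h1, h2, h3⟩, h4⟩; exact ⟨h4, h2, by omega⟩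
    have e2 : dsj rk u b Y = 𝒴.filter (fun Y' => Y' ⊓ Y = u) := by
      unfold dsj
      ext Y'
      rw [mem_filter, mem_filter, h𝒴, mem_erase, mem_lv, mem_lv]
      constructor
      · rintro ⟨⟨h1, h2, h3⟩, h4⟩
        refine ⟨⟨?_, hu'.1.trans h1, h2, by omega⟩, h4⟩
        rintro rfl
        rw [inf_idem] at h4
        subst h4
        omega
      · rintro ⟨⟨h0, h1, h2, h3⟩, h4⟩
        exact ⟨⟨h4 ▸ inf_le_left, h2, by omega⟩, h4⟩
    rw [e1, e2, Finset.sum_add_distrib, Finset.sum_boole, Finset.sum_boole]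
    have e3 : ((lv rk a b 4).filter (fun Y' => u ≤ Y')).card
        = (𝒴.filter (fun Y' => u ≤ Y')).card + 1 := by
      have : (lv rk a b 4).filter (fun Y' => u ≤ Y')
          = insert Y (𝒴.filter (fun Y' => u ≤ Y')) := by
        ext Y'
        rw [mem_insert, mem_filter, mem_filter, h𝒴, mem_erase]
        constructor
        · rintro ⟨h1, h2⟩
          by_cases hh : Y' = Y
          · exact Or.inl hh
          · exact Or.inr ⟨⟨hh, h1⟩, h2⟩
        · rintro (rfl | ⟨⟨h1, h2⟩, h3⟩)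
          · exact ⟨hY, hu'.2.1⟩
          · exact ⟨h2, h3⟩
      rw [this, Finset.card_insert_of_notMem]
      rw [mem_filter, h𝒴, mem_erase]
      rintro ⟨⟨h1, -⟩, -⟩
      exact h1 rfl
    rw [e3]
    push_cast
    ring
  -- per facet
  have hg : ∀ Y' ∈ 𝒴, ∑ u ∈ S, ((if u ≤ Y' then (1 : ℤ) else 0) + (if Y' ⊓ Y = u then 1 else 0))
      = (if Y' ⊓ Y ≠ a ∧ lv rk a (Y' ⊓ Y) 1 ⊆ S then (1 : ℤ) else 0)
        + (if (lv rk a Y' 1 ∩ S).Nonempty then 1 else 0)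
        + (if rk (Y' ⊓ Y) = rk a + 3 then ((lv rk a (Y' ⊓ Y) 1 ∩ S).card : ℤ)
            - (if lv rk a (Y' ⊓ Y) 1 ⊆ S then 1 else 0)
            - (if (lv rk a (Y' ⊓ Y) 1 ∩ S).Nonempty then 1 else 0) else 0) := by
    intro Y' hY1
    rw [h𝒴, mem_erase, mem_lv] at hY1
    set I := Y' ⊓ Y with hI
    have haI : a ≤ I := le_inf hY1.2.1 hY'.1
    have hrI : rk I < rk Y' := h.inf_rk_lt hY1.1 (by omega)
    have hraI := h.rk_le haI
    have hA : lv rk a Y' 1 ∩ S = lv rk a I 1 ∩ S := by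
      ext x
      rw [mem_inter, mem_inter, mem_lv, mem_lv]
      constructor
      · rintro ⟨⟨h1, h2, h3⟩, h4⟩
        exact ⟨⟨h1, le_inf h2 (mem_lv.1 (hS h4)).2.1, h3⟩, h4⟩
      · rintro ⟨⟨h1, h2, h3⟩, h4⟩
        exact ⟨⟨h1, h2.trans inf_le_left, h3⟩, h4⟩
    have hA2 : S.filter (fun u => u ≤ Y') = lv rk a I 1 ∩ S := by
      rw [← hA]
      ext x
      rw [mem_filter, mem_inter, mem_lv]
      constructor
      · rintro ⟨h1, h2⟩
        have := mem_lv.1 (hS h1)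
        exact ⟨⟨this.1, h2, this.2.2⟩, h1⟩
      · rintro ⟨⟨h1, h2, h3⟩, h4⟩
        exact ⟨h4, h2⟩
    rw [Finset.sum_add_distrib, Finset.sum_boole, Finset.sum_boole, hA2, hA]
    have hcases : rk I = rk a ∨ rk I = rk a + 1 ∨ rk I = rk a + 2 ∨ rk I = rk a + 3 := by omega
    rcases hcases with h0 | h0 | h0 | h0
    · have hIa : a = I := h.eq_of_rk haI (by omega)
      have e1 : lv rk a I 1 = ∅ := by
        rw [← hIa]
        ext x
        rw [mem_lv]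
        constructor
        · rintro ⟨h1, h2, h3⟩
          have : a = x := le_antisymm h1 h2
          subst this; omega
        · simp
      have e2 : S.filter (fun u => I = u) = ∅ := by
        apply Finset.filter_false_of_mem
        intro u hu hh
        have := mem_lv.1 (hS hu)
        rw [← hh] at this
        omega
      rw [e1, e2]
      simp [← hIa]
    · have hIa : I ≠ a := by intro hh; rw [hh] at h0; omega
      have e1 : lv rk a I 1 = {I} := h.lv_top haI h0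
      rw [e1]
      have h3 : ¬ rk I = rk a + 3 := by omega
      by_cases hIS : I ∈ S
      · have e2 : S.filter (fun u => I = u) = {I} := by
          ext x; rw [mem_filter, mem_singleton]
          constructor
          · rintro ⟨_, h2⟩; exact h2.symm
          · rintro rfl; exact ⟨hIS, rfl⟩
        have e3 : ({I} : Finset α) ∩ S = {I} := by
          rw [Finset.inter_eq_left]; simpa using hIS
        rw [e2, e3]
        simp [hIa, hIS, h3]
      · have e2 : S.filter (fun u => I = u) = ∅ := by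
          apply Finset.filter_false_of_mem
          rintro u hu rfl
          exact hIS hu
        have e3 : ({I} : Finset α) ∩ S = ∅ := by
          rw [Finset.singleton_inter_of_notMem hIS]
        rw [e2, e3]
        simp [hIS, h3]
    · have hIa : I ≠ a := by intro hh; rw [hh] at h0; omega
      have hc := h.lv_card_two haI h0
      have e2 : S.filter (fun u => I = u) = ∅ := by
        apply Finset.filter_false_of_mem
        intro u hu hh
        have := mem_lv.1 (hS hu)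
        rw [← hh] at this
        omega
      have h3 : ¬ rk I = rk a + 3 := by omega
      rw [e2]
      simp only [ne_eq, hIa, not_false_eq_true, true_and, h3, if_false, Finset.card_empty,
        Nat.cast_zero, add_zero]
      by_cases hsub : lv rk a I 1 ⊆ S
      · rw [Finset.inter_eq_left.2 hsub, hc]
        have : (lv rk a I 1).Nonempty := Finset.card_pos.1 (by omega)
        simp [hsub, this]
      · have hle : (lv rk a I 1 ∩ S).card < 2 := by
          rw [← hc]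
          apply Finset.card_lt_card
          rw [Finset.ssubset_iff_subset_ne]
          exact ⟨Finset.inter_subset_left, fun hh => hsub (Finset.inter_eq_left.1 hh)⟩
        by_cases hne : (lv rk a I 1 ∩ S).Nonempty
        · have := hne.card_pos
          have h1 : (lv rk a I 1 ∩ S).card = 1 := by omega
          simp [hsub, hne, h1]
        · rw [Finset.not_nonempty_iff_eq_empty] at hne
          simp [hsub, hne]
    · have hIa : I ≠ a := by intro hh; rw [hh] at h0; omega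
      have e2 : S.filter (fun u => I = u) = ∅ := by
        apply Finset.filter_false_of_mem
        intro u hu hh
        have := mem_lv.1 (hS hu)
        rw [← hh] at this
        omega
      rw [e2]
      simp only [ne_eq, hIa, not_false_eq_true, true_and, h0, if_true, Finset.card_empty,
        Nat.cast_zero, add_zero]
      ring
  -- the double counting for `Y`
  have hdeg : ∑ u ∈ S, ((lv rk u Y 1).card : ℤ)
      = ∑ M ∈ lv rk a Y 3, ((lv rk a M 1 ∩ S).card : ℤ) := by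
    have key := sum_lv_comm (rk := rk) (a := a) (b := Y) (i := 3) (j := 1) (by norm_num)
      (fun _ y => if y ∈ S then (1 : ℤ) else 0)
    have hL : ∀ M ∈ lv rk a Y 3, ∑ y ∈ lv rk a M 1, (if y ∈ S then (1 : ℤ) else 0)
        = ((lv rk a M 1 ∩ S).card : ℤ) := by
      intro M _
      rw [Finset.sum_boole, Finset.filter_mem_eq_inter]
    rw [Finset.sum_congr rfl hL] at key
    rw [key]
    have hR : ∀ y ∈ lv rk a Y 1, ∑ x ∈ lv rk y Y (3 - 1), (if y ∈ S then (1 : ℤ) else 0)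
        = if y ∈ S then ((lv rk y Y 1).card : ℤ) else 0 := by
      intro y hy
      rw [mem_lv] at hy
      rw [Finset.sum_const, show (3 - 1 : ℕ) = 2 from rfl,
        ← h.euler3 hy.2.1 (by omega : rk Y = rk y + 3)]
      split_ifs <;> simp
    rw [Finset.sum_congr rfl hR, ← Finset.sum_filter, Finset.filter_mem_eq_inter,
      Finset.inter_eq_right.2 hS]
  -- assemble
  rw [Finset.sum_congr rfl hu1, Finset.sum_sub_distrib, Finset.sum_comm, Finset.sum_congr rfl hg,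
    Finset.sum_add_distrib, Finset.sum_add_distrib, Finset.sum_boole, Finset.sum_boole,
    ← Finset.sum_filter, Finset.sum_sub_distrib (f := fun u => ((lv rk u Y 1).card : ℤ)), hdeg]
  have hso := h.sum_other hab hl hY (fun I => ((lv rk a I 1 ∩ S).card : ℤ)
            - (if lv rk a I 1 ⊆ S then 1 else 0)
            - (if (lv rk a I 1 ∩ S).Nonempty then 1 else 0))
  rw [← h𝒴] at hso
  rw [hso, Finset.sum_sub_distrib, Finset.sum_sub_distrib, Finset.sum_boole, Finset.sum_boole]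
  ring

/-- the crucial claim: at least three facets not contained in `T` meet both `S` and `K` -/
theorem three_facets {a b Y : α} (hab : a ≤ b) (hl : rk b = rk a + 5) (hY : Y ∈ lv rk a b 4)
    (T S K : Finset α) (hT : T ⊆ lv rk a b 1)
    (hS : S ⊆ T) (hSY : ∀ u ∈ S, u ≤ Y)
    (hScl : ∀ u ∈ S, ∀ v ∈ T, v ≤ Y → adj rk a Y u v → v ∈ S)
    (hK : K ⊆ T \ S) (hKcl : ∀ u ∈ K, ∀ v ∈ T \ S, adj rk a b u v → v ∈ K)
    (hadj : ∃ s ∈ S, ∃ x ∈ K, adj rk a b s x)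
    (hv0 : ∃ v ∈ lv rk a Y 1, v ∉ T) :
    3 ≤ (((lv rk a b 4).erase Y).filter (fun Y' => (lv rk a Y' 1 ∩ S).Nonempty ∧
      (lv rk a Y' 1 ∩ K).Nonempty ∧ ¬ lv rk a Y' 1 ⊆ T)).card := by
  have hY' := mem_lv.1 hY
  have hKT : K ⊆ T := hK.trans Finset.sdiff_subset
  have hKS : ∀ x ∈ K, x ∉ S := fun x hx => (mem_sdiff.1 (hK hx)).2
  set Z := (lvg rk a b Y).filter (fun g => (∃ s ∈ S, s ≤ g) ∧ ∃ x ∈ K, x ≤ g) with hZ
  have hZsub : Z ⊆ lvg rk a b Y := filter_subset _ _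
  have memlvg : ∀ g, g ∈ lvg rk a b Y ↔ g ∈ lv rk a b 2 ∧ ¬ g ≤ Y ∧ ∃ v ∈ lv rk a Y 1, v ≤ g := by
    intro g; unfold lvg; rw [mem_filter]
  have hZmem : ∀ g, g ∈ Z ↔ g ∈ lvg rk a b Y ∧ (∃ s ∈ S, s ≤ g) ∧ ∃ x ∈ K, x ≤ g := by
    intro g; rw [hZ, mem_filter]
  -- Z nonempty
  have hZne : Z.Nonempty := by
    obtain ⟨s, hs, x, hx, e, he, hse, hxe⟩ := hadj
    have he' := mem_lv.1 he
    have hs' := mem_lv.1 (hT (hS hs))
    have hx' := mem_lv.1 (hT (hKT hx))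
    refine ⟨e, (hZmem e).2 ⟨(memlvg e).2 ⟨he, ?_, s, mem_lv.2 ⟨hs'.1, hSY s hs, hs'.2.2⟩, hse⟩,
      ⟨s, hs, hse⟩, x, hx, hxe⟩⟩
    intro heY
    exact hKS x hx (hScl s hs x (hKT hx) (hxe.trans heY)
      ⟨e, mem_lv.2 ⟨he'.1, heY, he'.2.2⟩, hse, hxe⟩)
  -- Z is not everything
  have hZall : Z ≠ lvg rk a b Y := by
    obtain ⟨v0, hv0, hv0T⟩ := hv0
    have hv0' := mem_lv.1 hv0
    obtain ⟨g, hg, hgY⟩ := h.exists_outer (a := v0) (b := b) (w := Y) (m := 3)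
      (hv0'.2.1.trans hY'.2.1) (by norm_num) (by omega) (mem_lv.2 ⟨hv0'.2.1, hY'.2.1, by omega⟩)
    have hg' := mem_lv.1 hg
    intro hh
    have hgm : g ∈ lvg rk a b Y :=
      (memlvg g).2 ⟨mem_lv.2 ⟨hv0'.1.trans hg'.1, hg'.2.1, by omega⟩, hgY, v0, hv0, hg'.1⟩
    rw [← hh, hZmem] at hgm
    obtain ⟨-, ⟨s, hs, hsg⟩, x, hx, hxg⟩ := hgm
    have hs' := mem_lv.1 (hT (hS hs))
    have hx' := mem_lv.1 (hT (hKT hx))
    refine h.no_three (a := a) (g := g) (hv0'.1.trans hg'.1) (by omega) (x := s) (y := x) (z := v0)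
      (mem_lv.2 ⟨hs'.1, hsg, hs'.2.2⟩) (mem_lv.2 ⟨hx'.1, hxg, hx'.2.2⟩)
      (mem_lv.2 ⟨hv0'.1, hg'.1, hv0'.2.2⟩) ?_ ?_ ?_
    · rintro rfl; exact hKS s hx hs
    · rintro rfl; exact hv0T (hS hs)
    · rintro rfl; exact hv0T (hKT hx)
  -- a 2-face with exactly one of its leaving edges in Z
  have hlc := h.lvg_conn (m := 4) hab (by norm_num) (by omega) hY
  have hex : ∃ g ∈ Z, ∃ g' ∈ lvg rk a b Y, g' ∉ Z ∧ ∃ G ∈ lv rk a b 3, g ≤ G ∧ g' ≤ G := by
    by_contra hcon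
    push Not at hcon
    apply hZall
    apply hlc.2 Z hZsub hZne
    rintro u hu v hv ⟨G, hG, huG, hvG⟩
    by_contra hvZ
    exact hcon u hu v hv hvZ G hG huG hvG
  set dZ := (lv rk a b 3).filter (fun G => (lv rk a G 2 ∩ Z).card = 1) with hdZ
  -- the leaving edges of G
  have hGle : ∀ G ∈ lv rk a b 3, (lv rk a G 2 ∩ Z).card ≤ 2 := by
    intro G hG
    have hG' := mem_lv.1 hG
    by_cases hne : (lv rk a G 2 ∩ Z).Nonempty
    · obtain ⟨g, hg⟩ := hne
      rw [mem_inter, hZmem, memlvg] at hg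
      obtain ⟨hg1, ⟨hg2, hg3, v, hv, hvg⟩, -⟩ := hg
      have hgG := (mem_lv.1 hg1).2.1
      have := h.polygon_leave hG'.1 hY'.1 hG'.2.2 (fun hh => hg3 (hgG.trans hh))
        ⟨v, hv, hvg.trans hgG⟩
      refine (Finset.card_le_card ?_).trans this.le
      intro x hx
      rw [mem_inter, hZmem, memlvg] at hx
      rw [mem_filter]
      exact ⟨hx.1, hx.2.1.2.1, hx.2.1.2.2⟩
    · rw [Finset.not_nonempty_iff_eq_empty] at hne
      rw [hne]; simp
  have hdne : dZ.Nonempty := by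
    obtain ⟨g, hg, g', hg', hg'Z, G, hG, hgG, hg'G⟩ := hex
    refine ⟨G, ?_⟩
    rw [hdZ, mem_filter]
    refine ⟨hG, ?_⟩
    have hG' := mem_lv.1 hG
    have hg1 := (memlvg g).1 (hZsub hg)
    have hg1' := (memlvg g').1 hg'
    have m1 := mem_lv.1 hg1.1
    have m2 := mem_lv.1 hg1'.1
    have hpos : 0 < (lv rk a G 2 ∩ Z).card :=
      Finset.card_pos.2 ⟨g, mem_inter.2 ⟨mem_lv.2 ⟨m1.1, hgG, m1.2.2⟩, hg⟩⟩
    obtain ⟨v, hv, hvg⟩ := hg1.2.2
    have hlv := h.polygon_leave hG'.1 hY'.1 hG'.2.2 (fun hh => hg1.2.1 (hgG.trans hh))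
        ⟨v, hv, hvg.trans hgG⟩
    have hlt : (lv rk a G 2 ∩ Z).card < 2 := by
      refine (Finset.card_lt_card ?_).trans_le hlv.le
      rw [Finset.ssubset_iff_of_subset]
      · refine ⟨g', mem_filter.2 ⟨mem_lv.2 ⟨m2.1, hg'G, m2.2.2⟩, hg1'.2.1, hg1'.2.2⟩, ?_⟩
        rw [mem_inter]
        exact fun hh => hg'Z hh.2
      · intro x hx
        rw [mem_inter, hZmem, memlvg] at hx
        rw [mem_filter]
        exact ⟨hx.1, hx.2.1.2.1, hx.2.1.2.2⟩
    omega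
  -- (P1)
  have hP1 : ∀ G ∈ dZ, ∀ Y1 ∈ lv rk G b 1, Y1 ∈ ((lv rk a b 4).erase Y).filter
      (fun Y' => (lv rk a Y' 1 ∩ S).Nonempty ∧ (lv rk a Y' 1 ∩ K).Nonempty ∧
        ¬ lv rk a Y' 1 ⊆ T) := by
    intro G hG Y1 hY1
    rw [hdZ, mem_filter] at hG
    obtain ⟨hG, hGc⟩ := hG
    have hG' := mem_lv.1 hG
    have hY1' := mem_lv.1 hY1
    obtain ⟨g, hg⟩ : (lv rk a G 2 ∩ Z).Nonempty := Finset.card_pos.1 (by omega)
    rw [mem_inter] at hg
    obtain ⟨hg1, hgZ⟩ := hg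
    obtain ⟨hglvg, ⟨s, hs, hsg⟩, x, hx, hxg⟩ := (hZmem g).1 hgZ
    obtain ⟨hg2, hgY, v, hv, hvg⟩ := (memlvg g).1 hglvg
    have hgG := (mem_lv.1 hg1).2.1
    have hs' := mem_lv.1 (hT (hS hs))
    have hx' := mem_lv.1 (hT (hKT hx))
    have hv' := mem_lv.1 hv
    have hg2' := mem_lv.1 hg2
    have hGY : ¬ G ≤ Y := fun hh => hgY (hgG.trans hh)
    have hsx : s ≠ x := by rintro rfl; exact hKS s hx hs
    have hxY : ¬ x ≤ Y := by
      intro hxY
      exact hgY (h.le_of_two hsx (by omega) (by omega) hsg hxg (hSY s hs) hxY)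
    rw [mem_filter, mem_erase]
    refine ⟨⟨?_, mem_lv.2 ⟨hG'.1.trans hY1'.1, hY1'.2.1, by omega⟩⟩, ?_, ?_, ?_⟩
    · rintro rfl; exact hGY hY1'.1
    · exact ⟨s, mem_inter.2 ⟨mem_lv.2 ⟨hs'.1, hsg.trans (hgG.trans hY1'.1), hs'.2.2⟩, hs⟩⟩
    · exact ⟨x, mem_inter.2 ⟨mem_lv.2 ⟨hx'.1, hxg.trans (hgG.trans hY1'.1), hx'.2.2⟩, hx⟩⟩
    · intro hsub
      have hGT : ∀ y ∈ lv rk a G 1, y ∈ T := by
        intro y hy
        have hy' := mem_lv.1 hy
        exact hsub (mem_lv.2 ⟨hy'.1, hy'.2.1.trans hY1'.1, hy'.2.2⟩)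
      -- inner vertices of G are in S
      have hin : ∀ y ∈ lv rk a (G ⊓ Y) 1, y ∈ S := by
        have hcI := h.conn_all (a := a) (x := G ⊓ Y) (le_inf hG'.1 hY'.1)
          (by
            have : s ≤ G ⊓ Y := le_inf (hsg.trans hgG) (hSY s hs)
            have := h.rk_le this
            omega)
        apply hcI.induct (fun y => y ∈ S)
        · exact ⟨s, mem_lv.2 ⟨hs'.1, le_inf (hsg.trans hgG) (hSY s hs), hs'.2.2⟩, hs⟩
        · rintro y hy hyS z hz ⟨e, he, hye, hze⟩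
          have hz' := mem_lv.1 hz
          have he' := mem_lv.1 he
          refine hScl y hyS z (hGT z (mem_lv.2 ⟨hz'.1, hz'.2.1.trans inf_le_left, hz'.2.2⟩))
            (hz'.2.1.trans inf_le_right) ⟨e, ?_, hye, hze⟩
          exact mem_lv.2 ⟨he'.1, he'.2.1.trans inf_le_right, he'.2.2⟩
      -- outer vertices of G are in K
      have hout : ∀ y ∈ (lv rk a G 1).filter (fun v => ¬ v ≤ Y), y ∈ K := by
        have hcO := h.polygon_outer hG'.1 hY'.1 hG'.2.2 hGY ⟨v, hv, hvg.trans hgG⟩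
        apply hcO.induct (fun y => y ∈ K)
        · exact ⟨x, mem_filter.2 ⟨mem_lv.2 ⟨hx'.1, hxg.trans hgG, hx'.2.2⟩, hxY⟩, hx⟩
        · rintro y hy hyK z hz ⟨e, he, hye, hze⟩
          rw [mem_filter] at hz
          have he' := mem_lv.1 he
          refine hKcl y hyK z (mem_sdiff.2 ⟨hGT z hz.1, fun hzS => hz.2 (hSY z hzS)⟩)
            ⟨e, mem_lv.2 ⟨he'.1, he'.2.1.trans hG'.2.1, he'.2.2⟩, hye, hze⟩
      have hlv := h.polygon_leave hG'.1 hY'.1 hG'.2.2 hGY ⟨v, hv, hvg.trans hgG⟩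
      have hsubZ : (lv rk a G 2).filter (fun g => ¬ g ≤ Y ∧ ∃ v ∈ lv rk a Y 1, v ≤ g)
          ⊆ lv rk a G 2 ∩ Z := by
        intro g2 hg2
        rw [mem_filter] at hg2
        obtain ⟨hg2m, hg2Y, v2, hv2, hv2g⟩ := hg2
        have hg2m' := mem_lv.1 hg2m
        have hv2' := mem_lv.1 hv2
        obtain ⟨x2, hx2, hne⟩ := h.other_atom (v := v2) hg2m'.1 hg2m'.2.2 v2
        have hx2' := mem_lv.1 hx2
        have hx2Y : ¬ x2 ≤ Y := by
          intro hh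
          exact hg2Y (h.le_of_two hne (by omega) (by omega) hx2'.2.1 hv2g hh hv2'.2.1)
        rw [mem_inter]
        refine ⟨hg2m, (hZmem g2).2 ⟨(memlvg g2).2
          ⟨mem_lv.2 ⟨hg2m'.1, hg2m'.2.1.trans hG'.2.1, hg2m'.2.2⟩, hg2Y, v2, hv2, hv2g⟩, ?_, ?_⟩⟩
        · exact ⟨v2, hin v2 (mem_lv.2 ⟨hv2'.1, le_inf (hv2g.trans hg2m'.2.1) hv2'.2.1, hv2'.2.2⟩),
            hv2g⟩
        · exact ⟨x2, hout x2 (mem_filter.2
            ⟨mem_lv.2 ⟨hx2'.1, hx2'.2.1.trans hg2m'.2.1, hx2'.2.2⟩, hx2Y⟩), hx2'.2.1⟩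
      have := Finset.card_le_card hsubZ
      omega
  -- (P2) parity
  have hP2 : ∀ Y1 ∈ lv rk a b 4, Even (dZ.filter (fun G => G ≤ Y1)).card := by
    intro Y1 hY1
    have hY1' := mem_lv.1 hY1
    have key := sum_lv_comm (rk := rk) (a := a) (b := Y1) (i := 3) (j := 2) (by norm_num)
      (fun _ y => if y ∈ Z then (1 : ℕ) else 0)
    have hL : ∀ G ∈ lv rk a Y1 3, ∑ y ∈ lv rk a G 2, (if y ∈ Z then (1 : ℕ) else 0)
        = (if (lv rk a G 2 ∩ Z).card = 1 then 1 else 0)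
          + 2 * (if (lv rk a G 2 ∩ Z).card = 2 then 1 else 0) := by
      intro G hG
      have hG' := mem_lv.1 hG
      have h1 : ∑ y ∈ lv rk a G 2, (if y ∈ Z then (1 : ℕ) else 0) = (lv rk a G 2 ∩ Z).card := by
        rw [Finset.sum_boole, Finset.filter_mem_eq_inter]; simp
      have h2 := hGle G (mem_lv.2 ⟨hG'.1, hG'.2.1.trans hY1'.2.1, hG'.2.2⟩)
      rw [h1]
      interval_cases (lv rk a G 2 ∩ Z).card <;> simp
    have hR : ∀ y ∈ lv rk a Y1 2, ∑ x ∈ lv rk y Y1 (3 - 2), (if y ∈ Z then (1 : ℕ) else 0)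
        = 2 * (if y ∈ Z then 1 else 0) := by
      intro y hy
      have hy' := mem_lv.1 hy
      rw [Finset.sum_const, show (3 - 2 : ℕ) = 1 from rfl,
        h.lv_card_two hy'.2.1 (by omega : rk Y1 = rk y + 2)]
      simp
    rw [Finset.sum_congr rfl hL, Finset.sum_congr rfl hR, Finset.sum_add_distrib,
      ← Finset.mul_sum, ← Finset.mul_sum, Finset.sum_boole] at key
    have e1 : dZ.filter (fun G => G ≤ Y1)
        = (lv rk a Y1 3).filter (fun G => (lv rk a G 2 ∩ Z).card = 1) := by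
      ext G
      rw [mem_filter, hdZ, mem_filter, mem_filter, mem_lv, mem_lv]
      constructor
      · rintro ⟨⟨⟨h1, h2, h3⟩, h4⟩, h5⟩; exact ⟨⟨h1, h5, h3⟩, h4⟩
      · rintro ⟨⟨h1, h2, h3⟩, h4⟩; exact ⟨⟨⟨h1, h2.trans hY1'.2.1, h3⟩, h4⟩, h2⟩
    rw [e1, Nat.even_iff]
    push_cast at key
    omega
  -- (P3)
  obtain ⟨G0, hG0⟩ := hdne
  have hG0' := mem_lv.1 (mem_filter.1 (hdZ ▸ hG0)).1
  have hc0 := h.lv_card_two hG0'.2.1 (by omega : rk b = rk G0 + 2)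
  obtain ⟨Y1, Y2, hY12, hs0⟩ := Finset.card_eq_two.1 hc0
  have hY1m : Y1 ∈ lv rk G0 b 1 := by rw [hs0]; simp
  have hY2m : Y2 ∈ lv rk G0 b 1 := by rw [hs0]; simp
  have hY1' := mem_lv.1 hY1m
  have hY2' := mem_lv.1 hY2m
  have hev := hP2 Y1 (mem_lv.2 ⟨hG0'.1.trans hY1'.1, hY1'.2.1, by omega⟩)
  have hmem0 : G0 ∈ dZ.filter (fun G => G ≤ Y1) := mem_filter.2 ⟨hG0, hY1'.1⟩
  have hpos := Finset.card_pos.2 ⟨G0, hmem0⟩
  obtain ⟨G1, hG1, hG10⟩ := Finset.exists_mem_ne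
    (by rw [Nat.even_iff] at hev; omega : 1 < (dZ.filter (fun G => G ≤ Y1)).card) G0
  rw [mem_filter] at hG1
  have hG1' := mem_lv.1 (mem_filter.1 (hdZ ▸ hG1.1)).1
  obtain ⟨Y3, hY3, hY31⟩ := h.other_atom (v := Y1) hG1'.2.1 (by omega : rk b = rk G1 + 2) Y1
  have hY3' := mem_lv.1 hY3
  have hY32 : Y3 ≠ Y2 := by
    rintro rfl
    exact h.eq_of_two' hG10.symm (by omega) hY12 (by omega) (by omega) hY1'.1 hY2'.1 hG1.2 hY3'.1
  have hsub3 : ({Y1, Y2, Y3} : Finset α) ⊆ ((lv rk a b 4).erase Y).filter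
      (fun Y' => (lv rk a Y' 1 ∩ S).Nonempty ∧ (lv rk a Y' 1 ∩ K).Nonempty ∧
        ¬ lv rk a Y' 1 ⊆ T) := by
    intro y hy
    simp only [mem_insert, mem_singleton] at hy
    rcases hy with rfl | rfl | rfl
    · exact hP1 G0 hG0 _ hY1m
    · exact hP1 G0 hG0 _ hY2m
    · exact hP1 G1 hG1.1 _ hY3
  have h3 : ({Y1, Y2, Y3} : Finset α).card = 3 :=
    Finset.card_eq_three.2 ⟨Y1, Y2, Y3, hY12, hY31.symm, hY32.symm, rfl⟩
  rw [← h3]
  exact Finset.card_le_card hsub3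

/-- Relative lower bound theorem for connected proper vertex sets of the 4-polytope `[a,b]`. -/
theorem R3 {a b : α} (hab : a ≤ b) (hl : rk b = rk a + 5) (w : α → ℤ)
    (hw : ∀ u ∈ lv rk a b 1, ∀ Y ∈ lv rk u b 3,
      ((lv rk u b 3).card : ℤ) - 3 + (dsj rk u b Y).card ≤ w u)
    (T : Finset α) (hT : T ⊆ lv rk a b 1) (hc : Conn (adj rk a b) T) (hne : T ≠ lv rk a b 1) :
    2 * (((lv rk a b 4).filter (fun Y => lv rk a Y 1 ⊆ T)).card : ℤ)
      + ((lv rk a b 4).filter (fun Y => (lv rk a Y 1 ∩ T).Nonempty)).card - 3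
      ≤ ∑ u ∈ T, w u := by
  induction' hn : T.card using Nat.strong_induction_on with n ih generalizing T
  -- an edge leaving T
  have hex : ∃ u ∈ T, ∃ v ∈ lv rk a b 1, v ∉ T ∧ ∃ e ∈ lv rk a b 2, u ≤ e ∧ v ≤ e := by
    by_contra hcon
    push Not at hcon
    apply hne
    apply (h.conn a b hab (by omega)).2 T hT hc.1
    rintro u hu v hv ⟨e, he, hue, hve⟩
    by_contra hvT
    exact hcon u hu v hv hvT e he hue hve
  obtain ⟨u0, hu0, v0, hv0, hv0T, e0, he0, hue0, hve0⟩ := hex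
  have he0' := mem_lv.1 he0
  have hu0' := mem_lv.1 (hT hu0)
  have hv0' := mem_lv.1 hv0
  obtain ⟨Y, hYm⟩ := h.exists_lv (a := e0) (b := b) (i := 2) he0'.2.1 (by omega)
  have hYm' := mem_lv.1 hYm
  have hY : Y ∈ lv rk a b 4 := mem_lv.2 ⟨he0'.1.trans hYm'.1, hYm'.2.1, by omega⟩
  have hY' := mem_lv.1 hY
  have hv0Y : v0 ∈ lv rk a Y 1 := mem_lv.2 ⟨hv0'.1, hve0.trans hYm'.1, hv0'.2.2⟩
  -- the component S of T ∩ Y
  obtain ⟨𝒮, h𝒮1, h𝒮2, h𝒮3, h𝒮4⟩ := exists_comps (adj rk a Y) (fun _ _ => adj_symm)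
    (T.filter (fun v => v ≤ Y))
  have hu0f : u0 ∈ T.filter (fun v => v ≤ Y) := mem_filter.2 ⟨hu0, hue0.trans hYm'.1⟩
  rw [← h𝒮3, mem_biUnion] at hu0f
  obtain ⟨S, hSm, hu0S⟩ := hu0f
  simp only [id] at hu0S
  obtain ⟨hSsub, hSconn⟩ := h𝒮1 S hSm
  have hScl := h𝒮4 S hSm
  have hST : S ⊆ T := fun x hx => (mem_filter.1 (hSsub hx)).1
  have hSY : ∀ x ∈ S, x ≤ Y := fun x hx => (mem_filter.1 (hSsub hx)).2
  have hScl' : ∀ u ∈ S, ∀ v ∈ T, v ≤ Y → adj rk a Y u v → v ∈ S :=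
    fun u hu v hv hvY huv => hScl u hu v (mem_filter.2 ⟨hv, hvY⟩) huv
  have hSlv : S ⊆ lv rk a Y 1 := by
    intro x hx
    have hx' := mem_lv.1 (hT (hST hx))
    exact mem_lv.2 ⟨hx'.1, hSY x hx, hx'.2.2⟩
  have hSne : S ≠ lv rk a Y 1 := by
    rintro hh
    rw [← hh] at hv0Y
    exact hv0T (hST hv0Y)
  -- the components of T \ S
  obtain ⟨𝒦, h𝒦1, h𝒦2, h𝒦3, h𝒦4⟩ := exists_comps (adj rk a b) (fun _ _ => adj_symm) (T \ S)
  have hKT : ∀ K ∈ 𝒦, K ⊆ T := fun K hK => (h𝒦1 K hK).1.trans Finset.sdiff_subset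
  have hKS : ∀ K ∈ 𝒦, ∀ x ∈ K, x ∉ S := fun K hK x hx => (mem_sdiff.1 ((h𝒦1 K hK).1 hx)).2
  -- induction hypothesis
  have hIH : ∀ K ∈ 𝒦, 2 * (((lv rk a b 4).filter (fun Y => lv rk a Y 1 ⊆ K)).card : ℤ)
      + ((lv rk a b 4).filter (fun Y => (lv rk a Y 1 ∩ K).Nonempty)).card - 3
      ≤ ∑ u ∈ K, w u := by
    intro K hK
    have hlt : K.card < n := by
      rw [← hn]
      apply Finset.card_lt_card
      rw [Finset.ssubset_iff_of_subset (hKT K hK)]
      exact ⟨u0, hu0, fun hh => hKS K hK u0 hh hu0S⟩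
    refine ih K.card hlt K ((hKT K hK).trans hT) (h𝒦1 K hK).2 ?_ rfl
    rintro rfl
    exact hv0T (hKT _ hK hv0)
  -- adjacency of K and S
  have hadj : ∀ K ∈ 𝒦, ∃ s ∈ S, ∃ x ∈ K, adj rk a b s x := by
    intro K hK
    by_contra hcon
    push Not at hcon
    have : K = T := by
      apply hc.2 K (hKT K hK) (h𝒦1 K hK).2.1
      intro u hu v hv huv
      by_cases hvS : v ∈ S
      · exact absurd (adj_symm huv) (hcon v hvS u hu)
      · exact h𝒦4 K hK u hu v (mem_sdiff.2 ⟨hv, hvS⟩) huv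
    rw [← this] at hu0
    exact hKS K hK u0 hu0 hu0S
  -- sum over T
  have hsumT : ∑ u ∈ T, w u = ∑ u ∈ S, w u + ∑ K ∈ 𝒦, ∑ u ∈ K, w u := by
    rw [← Finset.sum_sdiff hST, add_comm, ← h𝒦3, Finset.sum_biUnion]
    · rfl
    · intro K hK L hL hKL
      exact h𝒦2 K hK L hL hKL
  -- inequality at S
  have hfc := h.facet_count hab hl hY S hSlv
  have hR2 := h.R2 hY'.1 hY'.2.2 S hSlv hSconn hSne
  have hwS : ∑ u ∈ S, (((lv rk u b 3).card : ℤ) - 3 + (dsj rk u b Y).card) ≤ ∑ u ∈ S, w u := by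
    apply Finset.sum_le_sum
    intro u hu
    have hu' := mem_lv.1 (hSlv hu)
    exact hw u (hT (hST hu)) Y (mem_lv.2 ⟨hu'.2.1, hY'.2.1, by omega⟩)
  set cS := (((lv rk a b 4).erase Y).filter
          (fun Y' => Y' ⊓ Y ≠ a ∧ lv rk a (Y' ⊓ Y) 1 ⊆ S)) with hcS
  set VS := (((lv rk a b 4).erase Y).filter (fun Y' => (lv rk a Y' 1 ∩ S).Nonempty)) with hVS
  set mS := ((lv rk a b 4).filter (fun Y' => lv rk a Y' 1 ⊆ T ∧ (lv rk a Y' 1 ∩ S).Nonempty))
    with hmS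
  set B := VS.filter (fun Y' => ¬ lv rk a Y' 1 ⊆ T) with hB
  have hYT : ¬ lv rk a Y 1 ⊆ T := fun hh => hv0T (hh hv0Y)
  have hVScard : VS.card = B.card + mS.card := by
    rw [hB, ← Finset.card_filter_add_card_filter_not (s := VS) (fun Y' => lv rk a Y' 1 ⊆ T),
      add_comm]
    congr 2
    ext Y1
    rw [hmS, hVS, mem_filter, mem_filter, mem_filter, mem_erase]
    constructor
    · rintro ⟨⟨⟨h1, h2⟩, h3⟩, h4⟩; exact ⟨h2, h4, h3⟩
    · rintro ⟨h1, h2, h3⟩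
      exact ⟨⟨⟨by rintro rfl; exact hYT h2, h1⟩, h3⟩, h2⟩
  have hmScS : mS.card ≤ cS.card := by
    apply Finset.card_le_card
    intro Y1 hY1
    rw [hmS, mem_filter] at hY1
    obtain ⟨hY1m, hY1T, x, hx⟩ := hY1
    rw [mem_inter] at hx
    have hY1' := mem_lv.1 hY1m
    have hx' := mem_lv.1 hx.1
    rw [hcS, mem_filter, mem_erase]
    have hxI : x ≤ Y1 ⊓ Y := le_inf hx'.2.1 (hSY x hx.2)
    refine ⟨⟨by rintro rfl; exact hYT hY1T, hY1m⟩, ?_, ?_⟩
    · intro hh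
      rw [hh] at hxI
      have := h.rk_le hxI
      omega
    · have hcI := h.conn_all (a := a) (x := Y1 ⊓ Y) (le_inf hY1'.1 hY'.1)
        (by have := h.rk_le hxI; omega)
      apply hcI.induct (fun y => y ∈ S)
      · exact ⟨x, mem_lv.2 ⟨hx'.1, hxI, hx'.2.2⟩, hx.2⟩
      · rintro y hy hyS z hz ⟨e, he, hye, hze⟩
        have hz' := mem_lv.1 hz
        have he' := mem_lv.1 he
        exact hScl' y hyS z (hY1T (mem_lv.2 ⟨hz'.1, hz'.2.1.trans inf_le_left, hz'.2.2⟩))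
          (hz'.2.1.trans inf_le_right)
          ⟨e, mem_lv.2 ⟨he'.1, he'.2.1.trans inf_le_right, he'.2.2⟩, hye, hze⟩
  -- facets inside T
  have hcT : ((lv rk a b 4).filter (fun Y => lv rk a Y 1 ⊆ T)).card
      ≤ mS.card + ∑ K ∈ 𝒦, ((lv rk a b 4).filter (fun Y => lv rk a Y 1 ⊆ K)).card := by
    have hsub : (lv rk a b 4).filter (fun Y => lv rk a Y 1 ⊆ T)
        ⊆ mS ∪ 𝒦.biUnion (fun K => (lv rk a b 4).filter (fun Y => lv rk a Y 1 ⊆ K)) := by
      intro Y1 hY1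
      rw [mem_filter] at hY1
      obtain ⟨hY1m, hY1T⟩ := hY1
      have hY1' := mem_lv.1 hY1m
      rw [mem_union, mem_biUnion]
      by_cases hmeet : (lv rk a Y1 1 ∩ S).Nonempty
      · left; rw [hmS, mem_filter]; exact ⟨hY1m, hY1T, hmeet⟩
      · right
        rw [Finset.not_nonempty_iff_eq_empty, ← Finset.disjoint_iff_inter_eq_empty,
          Finset.disjoint_left] at hmeet
        have hcI := h.conn_all (a := a) (x := Y1) hY1'.1 (by omega)
        obtain ⟨x, hx⟩ := hcI.1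
        have hxd : x ∈ T \ S := mem_sdiff.2 ⟨hY1T hx, hmeet hx⟩
        rw [← h𝒦3, mem_biUnion] at hxd
        obtain ⟨K, hK, hxK⟩ := hxd
        refine ⟨K, hK, mem_filter.2 ⟨hY1m, ?_⟩⟩
        apply hcI.induct (fun y => y ∈ K)
        · exact ⟨x, hx, hxK⟩
        · rintro y hy hyK z hz ⟨e, he, hye, hze⟩
          have he' := mem_lv.1 he
          exact h𝒦4 K hK y hyK z (mem_sdiff.2 ⟨hY1T hz, hmeet hz⟩)
            ⟨e, mem_lv.2 ⟨he'.1, he'.2.1.trans hY1'.2.1, he'.2.2⟩, hye, hze⟩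
    calc _ ≤ _ := Finset.card_le_card hsub
      _ ≤ mS.card + (𝒦.biUnion (fun K => (lv rk a b 4).filter
          (fun Y => lv rk a Y 1 ⊆ K))).card := Finset.card_union_le _ _
      _ ≤ _ := Nat.add_le_add_left Finset.card_biUnion_le _
  -- facets meeting T
  have hVT : ((lv rk a b 4).filter (fun Y => (lv rk a Y 1 ∩ T).Nonempty)).card
      ≤ 1 + B.card + ∑ K ∈ 𝒦,
        (((lv rk a b 4).filter (fun Y => (lv rk a Y 1 ∩ K).Nonempty)) \ B).card := by
    have hsub : (lv rk a b 4).filter (fun Y => (lv rk a Y 1 ∩ T).Nonempty)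
        ⊆ ({Y} ∪ B) ∪ 𝒦.biUnion (fun K =>
          ((lv rk a b 4).filter (fun Y => (lv rk a Y 1 ∩ K).Nonempty)) \ B) := by
      intro Y1 hY1
      rw [mem_filter] at hY1
      obtain ⟨hY1m, x, hx⟩ := hY1
      rw [mem_inter] at hx
      have hY1' := mem_lv.1 hY1m
      rw [mem_union, mem_union, mem_biUnion, mem_singleton]
      by_cases hYY : Y1 = Y
      · left; left; exact hYY
      by_cases hY1B : Y1 ∈ B
      · left; right; exact hY1B
      right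
      -- some vertex of Y1 in T \ S
      have hz : ∃ z ∈ lv rk a Y1 1, z ∈ T \ S := by
        by_contra hcon
        push Not at hcon
        have hxS : x ∈ S := by
          by_contra hxS
          exact hcon x hx.1 (mem_sdiff.2 ⟨hx.2, hxS⟩)
        have hsubT : lv rk a Y1 1 ⊆ T := by
          by_contra hns
          apply hY1B
          rw [hB, mem_filter, hVS, mem_filter, mem_erase]
          exact ⟨⟨⟨hYY, hY1m⟩, x, mem_inter.2 ⟨hx.1, hxS⟩⟩, hns⟩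
        have hnle : ¬ Y1 ≤ Y := fun hh => hYY (h.eq_of_rk hh (by omega))
        obtain ⟨z, hz, hzY⟩ := h.exists_atom_not_le hY1'.1 hY'.1 hnle
        exact hcon z hz (mem_sdiff.2 ⟨hsubT hz, fun hzS => hzY (hSY z hzS)⟩)
      obtain ⟨z, hz1, hz2⟩ := hz
      rw [← h𝒦3, mem_biUnion] at hz2
      obtain ⟨K, hK, hzK⟩ := hz2
      exact ⟨K, hK, mem_sdiff.2 ⟨mem_filter.2 ⟨hY1m, z, mem_inter.2 ⟨hz1, hzK⟩⟩, hY1B⟩⟩
    calc _ ≤ _ := Finset.card_le_card hsub
      _ ≤ ({Y} ∪ B).card + (𝒦.biUnion (fun K =>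
          ((lv rk a b 4).filter (fun Y => (lv rk a Y 1 ∩ K).Nonempty)) \ B)).card :=
            Finset.card_union_le _ _
      _ ≤ (1 + B.card) + _ := Nat.add_le_add
            ((Finset.card_union_le _ _).trans (by rw [Finset.card_singleton]))
            Finset.card_biUnion_le
  -- three facets
  have h3 : ∀ K ∈ 𝒦, (((lv rk a b 4).filter (fun Y => (lv rk a Y 1 ∩ K).Nonempty)) \ B).card + 3
      ≤ ((lv rk a b 4).filter (fun Y => (lv rk a Y 1 ∩ K).Nonempty)).card := by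
    intro K hK
    have := h.three_facets hab hl hY T S K hT hST hSY hScl' (h𝒦1 K hK).1 (h𝒦4 K hK)
      (hadj K hK) ⟨v0, hv0Y, hv0T⟩
    have hsub : (((lv rk a b 4).erase Y).filter (fun Y' => (lv rk a Y' 1 ∩ S).Nonempty ∧
      (lv rk a Y' 1 ∩ K).Nonempty ∧ ¬ lv rk a Y' 1 ⊆ T))
        ⊆ ((lv rk a b 4).filter (fun Y => (lv rk a Y 1 ∩ K).Nonempty)) ∩ B := by
      intro Y1 hY1
      rw [mem_filter, mem_erase] at hY1
      rw [mem_inter, mem_filter, hB, mem_filter, hVS, mem_filter, mem_erase]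
      exact ⟨⟨hY1.1.2, hY1.2.2.1⟩, ⟨hY1.1, hY1.2.1⟩, hY1.2.2.2⟩
    have h4 := Finset.card_le_card hsub
    have h5 := Finset.card_sdiff_add_card_inter
      ((lv rk a b 4).filter (fun Y => (lv rk a Y 1 ∩ K).Nonempty)) B
    omega
  -- final computation
  have hsum1 : ∑ K ∈ 𝒦, (2 * (((lv rk a b 4).filter (fun Y => lv rk a Y 1 ⊆ K)).card : ℤ)
      + ((lv rk a b 4).filter (fun Y => (lv rk a Y 1 ∩ K).Nonempty)).card - 3)
      ≤ ∑ K ∈ 𝒦, ∑ u ∈ K, w u := Finset.sum_le_sum hIH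
  have hsum2 : ∑ K ∈ 𝒦, ((((lv rk a b 4).filter (fun Y => (lv rk a Y 1 ∩ K).Nonempty)) \ B).card : ℤ)
      ≤ ∑ K ∈ 𝒦, ((((lv rk a b 4).filter (fun Y => (lv rk a Y 1 ∩ K).Nonempty)).card : ℤ) - 3) := by
    apply Finset.sum_le_sum
    intro K hK
    have := h3 K hK
    have h' : ((((lv rk a b 4).filter (fun Y => (lv rk a Y 1 ∩ K).Nonempty)) \ B).card : ℤ) + 3
      ≤ ((lv rk a b 4).filter (fun Y => (lv rk a Y 1 ∩ K).Nonempty)).card := by exact_mod_cast this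
    linarith
  have hcT' : (((lv rk a b 4).filter (fun Y => lv rk a Y 1 ⊆ T)).card : ℤ)
      ≤ mS.card + ∑ K ∈ 𝒦, (((lv rk a b 4).filter (fun Y => lv rk a Y 1 ⊆ K)).card : ℤ) := by
    exact_mod_cast hcT
  have hVT' : (((lv rk a b 4).filter (fun Y => (lv rk a Y 1 ∩ T).Nonempty)).card : ℤ)
      ≤ 1 + B.card + ∑ K ∈ 𝒦,
        ((((lv rk a b 4).filter (fun Y => (lv rk a Y 1 ∩ K).Nonempty)) \ B).card : ℤ) := by
    exact_mod_cast hVT
  have hVS' : (VS.card : ℤ) = B.card + mS.card := by exact_mod_cast hVScard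
  have hmS' : (mS.card : ℤ) ≤ cS.card := by exact_mod_cast hmScS
  have hsplit : ∑ K ∈ 𝒦, (2 * (((lv rk a b 4).filter (fun Y => lv rk a Y 1 ⊆ K)).card : ℤ)
      + ((lv rk a b 4).filter (fun Y => (lv rk a Y 1 ∩ K).Nonempty)).card - 3)
      = 2 * ∑ K ∈ 𝒦, (((lv rk a b 4).filter (fun Y => lv rk a Y 1 ⊆ K)).card : ℤ)
        + ∑ K ∈ 𝒦, ((((lv rk a b 4).filter (fun Y => (lv rk a Y 1 ∩ K).Nonempty)).card : ℤ) - 3) := by
    rw [Finset.mul_sum, ← Finset.sum_add_distrib]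
    apply Finset.sum_congr rfl
    intro K _
    ring
  rw [hsumT]
  linarith

end ELC

end

end FRC
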