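import Pool.Agent.FR.LFace

set_option linter.unusedSectionVars false

open Finset
open scoped Classical

namespace FRC

noncomputable section

variable {ι : Type*} [Fintype ι]

namespace SS

/-- coordinates on which `L` does not vanish identically -/
def NL (L : Submodule ℝ (ι → ℝ)) : Set ι := {i | ∃ z ∈ L, z i ≠ 0}

/-- genericity of `y` with respect to `y0` -/
def Gen (L : Submodule ℝ (ι → ℝ)) (y0 y : ι → ℝ) : Prop :=
  ∀ i j, y i * y0 j = y j * y0 i → ∀ z ∈ L, z i * y0 j = z j * y0 i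

theorem perturb (L : Submodule ℝ (ι → ℝ)) (y0 y : ι → ℝ) (hy : y ∈ L)
    (hy' : ∀ i ∈ NL L, y i ≠ 0) :
    ∃ y' ∈ L, Gen L y0 y' ∧ ∀ i ∈ NL L, (0 < y' i ↔ 0 < y i) ∧ (y' i < 0 ↔ y i < 0) := by
  -- the nonparallel pairs
  let P := {p : ι × ι // ∃ z ∈ L, z p.1 * y0 p.2 ≠ z p.2 * y0 p.1}
  let f : P → Module.Dual ℝ (ι → ℝ) := fun p =>
    y0 p.1.2 • LinearMap.proj p.1.1 - y0 p.1.1 • LinearMap.proj p.1.2
  have hf : ∀ (p : P) (z : ι → ℝ), f p z = z p.1.1 * y0 p.1.2 - z p.1.2 * y0 p.1.1 := by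
    intro p z
    simp [f]
    ring
  obtain ⟨w, hw, hw'⟩ := Module.Dual.exists_forall_mem_ne_zero_of_forall_exists L f (by
    rintro p
    obtain ⟨z, hz, hz'⟩ := p.2
    exact ⟨z, hz, by rw [hf]; exact sub_ne_zero.2 hz'⟩)
  -- bound for `ε`
  obtain ⟨δ, hδ, hδ'⟩ : ∃ δ : ℝ, 0 < δ ∧ ∀ i ∈ NL L, δ * |w i| < |y i| := by
    have key : ∀ F : Finset ι, ∃ δ : ℝ, 0 < δ ∧ ∀ i ∈ F, i ∈ NL L → δ * |w i| < |y i| := by
      intro F
      induction F using Finset.induction_on with
      | empty => exact ⟨1, one_pos, by simp⟩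
      | insert i F _ ih =>
        obtain ⟨δ, hδ, h⟩ := ih
        by_cases hi : i ∈ NL L
        · have hyi : 0 < |y i| := abs_pos.2 (hy' i hi)
          refine ⟨min δ (|y i| / (|w i| + 1)), by positivity, ?_⟩
          intro j hj hjN
          rw [Finset.mem_insert] at hj
          rcases hj with rfl | hj
          · have h1 : min δ (|y j| / (|w j| + 1)) * |w j| ≤ |y j| / (|w j| + 1) * |w j| := by
              gcongr; exact min_le_right _ _
            refine lt_of_le_of_lt h1 ?_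
            rw [div_mul_eq_mul_div, div_lt_iff₀ (by positivity)]
            nlinarith [abs_nonneg (w j)]
          · have h1 : min δ (|y i| / (|w i| + 1)) * |w j| ≤ δ * |w j| := by
              gcongr; exact min_le_left _ _
            exact lt_of_le_of_lt h1 (h j hj hjN)
        · refine ⟨δ, hδ, ?_⟩
          intro j hj hjN
          rw [Finset.mem_insert] at hj
          rcases hj with rfl | hj
          · exact absurd hjN hi
          · exact h j hj hjN
    obtain ⟨δ, hδ, h⟩ := key Finset.univ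
    exact ⟨δ, hδ, fun i hi => h i (Finset.mem_univ _) hi⟩
  obtain ⟨ε, hε, hε'⟩ := (Set.Ioo_infinite hδ).exists_notMem_finset
    (Finset.univ.image (fun p : P => - f p y / f p w))
  refine ⟨y + ε • w, L.add_mem hy (L.smul_mem ε hw), ?_, ?_⟩
  · intro i j hij
    by_contra hcon
    push Not at hcon
    obtain ⟨z, hz, hz'⟩ := hcon
    apply hε'
    rw [Finset.mem_image]
    refine ⟨⟨(i, j), z, hz, hz'⟩, Finset.mem_univ _, ?_⟩
    have h1 := hw' ⟨(i, j), z, hz, hz'⟩
    rw [div_eq_iff h1, hf, hf]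
    simp only [Pi.add_apply, Pi.smul_apply, smul_eq_mul] at hij
    simp only
    linarith
  · intro i hi
    have h1 := hδ' i hi
    have h2 : |ε * w i| < |y i| := by
      rw [abs_mul, abs_of_pos hε.1]
      refine lt_of_le_of_lt ?_ h1
      gcongr
      exact hε.2.le
    have h3 := hy' i hi
    have h4 := abs_lt.1 h2
    simp only [Pi.add_apply, Pi.smul_apply, smul_eq_mul]
    rcases lt_or_gt_of_ne h3 with h5 | h5
    · rw [abs_of_neg h5] at h4
      constructor <;> constructor <;> intro h6 <;> linarith [h4.1, h4.2]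
    · rw [abs_of_pos h5] at h4
      constructor <;> constructor <;> intro h6 <;> linarith [h4.1, h4.2]

theorem finrank_van_single (L : Submodule ℝ (ι → ℝ)) {ρ : ι} (hρ : ρ ∈ NL L) :
    Module.finrank ℝ (van L {ρ}) + 1 = Module.finrank ℝ L := by
  let g : L →ₗ[ℝ] ℝ := (LinearMap.proj ρ).comp L.subtype
  have h1 := LinearMap.finrank_range_add_finrank_ker g
  have h2 : Module.finrank ℝ (LinearMap.range g) = 1 := by
    have : LinearMap.range g = ⊤ := by
      rw [LinearMap.range_eq_top]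
      obtain ⟨z, hz, hz'⟩ := hρ
      intro c
      refine ⟨(c / z ρ) • ⟨z, hz⟩, ?_⟩
      simp [g]
      field_simp
    rw [this, finrank_top, Module.finrank_self]
  have h3 : Module.finrank ℝ (LinearMap.ker g) = Module.finrank ℝ (van L {ρ}) := by
    have h4 : (LinearMap.ker g).map L.subtype = van L {ρ} := by
      ext z
      simp only [Submodule.mem_map, LinearMap.mem_ker, mem_van, Set.mem_singleton_iff,
        forall_eq]
      constructor
      · rintro ⟨x, hx, rfl⟩
        exact ⟨x.2, hx⟩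
      · rintro ⟨hz, hz'⟩
        exact ⟨⟨z, hz⟩, hz', rfl⟩
    rw [← h4]
    exact (Submodule.finrank_map_subtype_eq L _).symm
  omega

/-- the sum in question -/
def Sg (L : Submodule ℝ (ι → ℝ)) (y : ι → ℝ) : Finset (Set ι) :=
  (univ : Finset (Set ι)).filter (fun T => LFace L T ∧ ∀ i ∈ T, i ∈ NL L → y i < 0)

theorem mem_Sg {L : Submodule ℝ (ι → ℝ)} {y : ι → ℝ} {T : Set ι} :
    T ∈ Sg L y ↔ LFace L T ∧ ∀ i ∈ T, i ∈ NL L → y i < 0 := by
  simp [Sg]

theorem Sg_congr {L : Submodule ℝ (ι → ℝ)} {y y' : ι → ℝ}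
    (h : ∀ i ∈ NL L, (y' i < 0 ↔ y i < 0)) : Sg L y' = Sg L y := by
  ext T
  rw [mem_Sg, mem_Sg]
  constructor
  · rintro ⟨h1, h2⟩
    exact ⟨h1, fun i hi hN => (h i hN).1 (h2 i hi hN)⟩
  · rintro ⟨h1, h2⟩
    exact ⟨h1, fun i hi hN => (h i hN).2 (h2 i hi hN)⟩

theorem main : ∀ (n : ℕ) (L : Submodule ℝ (ι → ℝ)), Module.finrank ℝ L = n →
    ∀ (y0 y : ι → ℝ), y0 ∈ L → y ∈ L → (∀ i ∈ NL L, 0 < y0 i) → (∀ i ∈ NL L, y i ≠ 0) →
    ∑ T ∈ Sg L y, (-1 : ℤ) ^ Module.finrank ℝ (van L T)
      = if (∀ i ∈ NL L, 0 < y i) then (-1 : ℤ) ^ n else 0 := by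
  intro n
  induction n using Nat.strong_induction_on with
  | _ n ih =>
  intro L hL y0 y h0 hy h0' hy'
  obtain ⟨y', hyL, hgen, hsgn⟩ := perturb L y0 y hy hy'
  -- replace `y` by `y'`
  rw [← Sg_congr (y' := y') (fun i hi => (hsgn i hi).2)]
  have hiff : (∀ i ∈ NL L, 0 < y i) ↔ (∀ i ∈ NL L, 0 < y' i) :=
    ⟨fun h i hi => (hsgn i hi).1.2 (h i hi), fun h i hi => (hsgn i hi).1.1 (h i hi)⟩
  rw [if_congr hiff rfl rfl]
  have hne : ∀ i ∈ NL L, y' i ≠ 0 := by
    intro i hi h
    rcases lt_or_gt_of_ne (hy' i hi) with h1 | h1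
    · have := (hsgn i hi).2.2 h1
      linarith
    · have := (hsgn i hi).1.2 h1
      linarith
  clear hsgn hiff hy' hy y
  -- notation
  obtain ⟨R, hR⟩ : ∃ R : ℝ → Set ι, ∀ r, R r = {i | i ∈ NL L ∧ y' i = r * y0 i} := ⟨_, fun r => rfl⟩
  obtain ⟨Rat, hRat⟩ : ∃ Rat : Finset ℝ, Rat =
      ((univ.filter (fun i => i ∈ NL L)).image (fun i => y' i / y0 i)).filter (· < 0) := ⟨_, rfl⟩
  have hmemRat : ∀ r, r ∈ Rat ↔ (R r).Nonempty ∧ r < 0 := by
    intro r
    rw [hRat, Finset.mem_filter, Finset.mem_image]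
    constructor
    · rintro ⟨⟨i, hi, rfl⟩, h⟩
      rw [Finset.mem_filter] at hi
      refine ⟨⟨i, ?_⟩, h⟩
      rw [hR]
      refine ⟨hi.2, ?_⟩
      rw [div_mul_cancel₀]
      exact (h0' i hi.2).ne'
    · rintro ⟨⟨i, hi⟩, h⟩
      rw [hR] at hi
      refine ⟨⟨i, ?_, ?_⟩, h⟩
      · rw [Finset.mem_filter]; exact ⟨Finset.mem_univ _, hi.1⟩
      · rw [hi.2, mul_div_assoc, div_self (h0' i hi.1).ne', mul_one]
  -- parallel elements vanish together
  have hpar : ∀ r, ∀ i ∈ R r, ∀ j ∈ R r, ∀ z ∈ L, z i = 0 → z j = 0 := by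
    intro r i hi j hj z hz hzi
    rw [hR] at hi hj
    have h1 := hgen i j (by rw [hi.2, hj.2]; ring) z hz
    rw [hzi, zero_mul] at h1
    have h2 := h0' i hi.1
    rcases mul_eq_zero.1 h1.symm with h3 | h3
    · exact h3
    · exact absurd h3 h2.ne'
  have hvan : ∀ r, ∀ ρ ∈ R r, van L (R r) = van L {ρ} := by
    intro r ρ hρ
    ext z
    rw [mem_van, mem_van]
    constructor
    · rintro ⟨h1, h2⟩
      refine ⟨h1, ?_⟩
      intro i hi
      rw [Set.mem_singleton_iff.1 hi]
      exact h2 ρ hρ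
    · rintro ⟨h1, h2⟩
      exact ⟨h1, fun i hi => hpar r ρ hρ i hi z h1 (h2 ρ rfl)⟩
  have hRN : ∀ r, R r ⊆ NL L := by
    intro r i hi
    rw [hR] at hi
    exact hi.1
  have hfr : ∀ r ∈ Rat, Module.finrank ℝ (van L (R r)) + 1 = n := by
    intro r hr
    obtain ⟨⟨ρ, hρ⟩, _⟩ := (hmemRat r).1 hr
    rw [hvan r ρ hρ, finrank_van_single L (hRN r hρ), hL]
  have hNL : ∀ r, ∀ i, i ∈ NL (van L (R r)) ↔ i ∈ NL L ∧ i ∉ R r := by
    intro r i
    constructor
    · rintro ⟨z, hz, hzi⟩
      exact ⟨⟨z, hz.1, hzi⟩, fun hi => hzi (hz.2 i hi)⟩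
    · rintro ⟨hi, hiR⟩
      by_cases hRr : (R r).Nonempty
      · obtain ⟨ρ, hρ⟩ := hRr
        refine ⟨y' - r • y0, ?_, ?_⟩
        · refine ⟨L.sub_mem hyL (L.smul_mem r h0), ?_⟩
          intro j hj
          rw [hR] at hj
          simp [hj.2]
        · intro h
          apply hiR
          rw [hR]
          refine ⟨hi, ?_⟩
          simp only [Pi.sub_apply, Pi.smul_apply, smul_eq_mul] at h
          linarith
      · obtain ⟨z, hz, hzi⟩ := hi
        rw [Set.not_nonempty_iff_eq_empty] at hRr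
        rw [hRr, van_empty]
        exact ⟨z, hz, hzi⟩
  have hface : ∀ r, ∀ T, LFace (van L (R r)) T ↔ LFace L T ∧ R r ⊆ T := by
    intro r T
    constructor
    · rintro ⟨z, hz, hz0, rfl⟩
      exact ⟨⟨z, hz.1, hz0, rfl⟩, fun i hi => hz.2 i hi⟩
    · rintro ⟨⟨z, hz, hz0, rfl⟩, h⟩
      exact ⟨z, ⟨hz, fun i hi => h hi⟩, hz0, rfl⟩
  have hvv : ∀ r, ∀ T, R r ⊆ T → van (van L (R r)) T = van L T := by
    intro r T hT
    ext z
    simp only [mem_van]
    constructor
    · rintro ⟨⟨h1, _⟩, h3⟩; exact ⟨h1, h3⟩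
    · rintro ⟨h1, h3⟩; exact ⟨⟨h1, fun i hi => h3 i (hT hi)⟩, h3⟩
  have hy2 : ∀ r, y' - r • y0 ∈ van L (R r) := by
    intro r
    refine ⟨L.sub_mem hyL (L.smul_mem r h0), ?_⟩
    intro j hj
    rw [hR] at hj
    simp [hj.2]
  -- the base face
  have hN0 : (NL L)ᶜ ∈ Sg L y' := by
    rw [mem_Sg]
    refine ⟨⟨y0, h0, ?_, ?_⟩, ?_⟩
    · intro i
      by_cases hi : i ∈ NL L
      · exact (h0' i hi).le
      · have : y0 i = 0 := by
          by_contra hcon
          exact hi ⟨y0, h0, hcon⟩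
        rw [this]
    · ext i
      simp only [Set.mem_compl_iff, Set.mem_ofPred_eq]
      constructor
      · intro hi
        by_contra hcon
        exact hi ⟨y0, h0, hcon⟩
      · intro hi hN
        exact (h0' i hN).ne' hi
    · intro i hi hN
      exact absurd hN hi
  -- decomposition
  have hdec : Sg L y' = insert ((NL L)ᶜ) (Rat.biUnion (fun r => Sg (van L (R r)) (y' - r • y0))) := by
    ext T
    rw [Finset.mem_insert, Finset.mem_biUnion]
    constructor
    · intro hT
      have hT' := mem_Sg.1 hT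
      by_cases hTe : ∃ i ∈ T, i ∈ NL L
      · right
        obtain ⟨i0, hi0, hmax⟩ := Finset.exists_max_image
          (univ.filter (fun i => i ∈ T ∧ i ∈ NL L)) (fun i => y' i / y0 i) (by
            obtain ⟨i, hi, hi'⟩ := hTe
            exact ⟨i, by rw [Finset.mem_filter]; exact ⟨Finset.mem_univ _, hi, hi'⟩⟩)
        rw [Finset.mem_filter] at hi0
        obtain ⟨-, hi0T, hi0N⟩ := hi0
        have hpos := h0' i0 hi0N
        have hneg := hT'.2 i0 hi0T hi0N
        have hi0R : i0 ∈ R (y' i0 / y0 i0) := by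
          rw [hR]
          exact ⟨hi0N, by rw [div_mul_cancel₀]; exact hpos.ne'⟩
        refine ⟨y' i0 / y0 i0, (hmemRat _).2 ⟨⟨i0, hi0R⟩, div_neg_of_neg_of_pos hneg hpos⟩, ?_⟩
        rw [mem_Sg, hface]
        refine ⟨⟨hT'.1, ?_⟩, ?_⟩
        · intro j hj
          obtain ⟨z, hz, hz0, hzT⟩ := hT'.1
          rw [hzT] at hi0T ⊢
          exact hpar _ i0 hi0R j hj z hz hi0T
        · intro j hj hjN
          rw [hNL] at hjN
          have h1 := hmax j (by rw [Finset.mem_filter]; exact ⟨Finset.mem_univ _, hj, hjN.1⟩)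
          have h2 := h0' j hjN.1
          simp only [Pi.sub_apply, Pi.smul_apply, smul_eq_mul]
          have h3 : y' j ≤ y' i0 / y0 i0 * y0 j := by
            rwa [div_le_iff₀ h2] at h1
          have h4 : y' j ≠ y' i0 / y0 i0 * y0 j := by
            intro h5
            apply hjN.2
            rw [hR]
            exact ⟨hjN.1, h5⟩
          have := lt_of_le_of_ne h3 h4
          linarith
      · left
        push Not at hTe
        obtain ⟨z, hz, hz0, rfl⟩ := hT'.1
        ext i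
        simp only [Set.mem_compl_iff]
        constructor
        · intro hi; exact hTe i hi
        · intro hi
          show z i = 0
          by_contra hcon
          exact hi ⟨z, hz, hcon⟩
    · rintro (rfl | ⟨r, hr, hT⟩)
      · exact hN0
      · obtain ⟨hne', hr0⟩ := (hmemRat r).1 hr
        rw [mem_Sg, hface] at hT
        rw [mem_Sg]
        refine ⟨hT.1.1, ?_⟩
        intro i hi hiN
        have hpos := h0' i hiN
        by_cases hiR : i ∈ R r
        · rw [hR] at hiR
          rw [hiR.2]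
          exact mul_neg_of_neg_of_pos hr0 hpos
        · have h1 := hT.2 i hi ((hNL r i).2 ⟨hiN, hiR⟩)
          simp only [Pi.sub_apply, Pi.smul_apply, smul_eq_mul] at h1
          have : r * y0 i < 0 := mul_neg_of_neg_of_pos hr0 hpos
          linarith
  have hnot : (NL L)ᶜ ∉ Rat.biUnion (fun r => Sg (van L (R r)) (y' - r • y0)) := by
    rw [Finset.mem_biUnion]
    rintro ⟨r, hr, hT⟩
    rw [mem_Sg, hface] at hT
    obtain ⟨⟨ρ, hρ⟩, _⟩ := (hmemRat r).1 hr
    exact hT.1.2 hρ (hRN r hρ)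
  have hdisj : ∀ r ∈ Rat, ∀ r' ∈ Rat, r ≠ r' →
      Disjoint (Sg (van L (R r)) (y' - r • y0)) (Sg (van L (R r')) (y' - r' • y0)) := by
    have hlt : ∀ r ∈ Rat, ∀ r' ∈ Rat, r ≠ r' → ∀ T, T ∈ Sg (van L (R r)) (y' - r • y0) →
        T ∈ Sg (van L (R r')) (y' - r' • y0) → r' < r := by
      intro r hr r' hr' hne' T hT hT'
      rw [mem_Sg, hface] at hT hT'
      obtain ⟨⟨ρ, hρ⟩, _⟩ := (hmemRat r').1 hr'
      have h1 : ρ ∈ T := hT'.1.2 hρ
      have h2 : ρ ∉ R r := by
        intro h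
        rw [hR] at h hρ
        apply hne'
        have := h0' ρ hρ.1
        have h3 := h.2.symm.trans hρ.2
        exact mul_right_cancel₀ this.ne' h3
      have h3 := hT.2 ρ h1 ((hNL r ρ).2 ⟨hRN r' hρ, h2⟩)
      have hpos := h0' ρ (hRN r' hρ)
      rw [hR] at hρ
      simp only [Pi.sub_apply, Pi.smul_apply, smul_eq_mul] at h3
      rw [hρ.2] at h3
      by_contra hcon
      push Not at hcon
      nlinarith [mul_le_mul_of_nonneg_right hcon hpos.le]
    intro r hr r' hr' hne'
    rw [Finset.disjoint_left]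
    intro T hT hT'
    have h1 := hlt r hr r' hr' hne' T hT hT'
    have h2 := hlt r' hr' r hr hne'.symm T hT' hT
    exact lt_asymm h1 h2
  rw [hdec, Finset.sum_insert hnot, Finset.sum_biUnion hdisj]
  -- the base term
  have hbase : van L (NL L)ᶜ = L := by
    ext z
    rw [mem_van]
    constructor
    · exact fun h => h.1
    · intro h
      refine ⟨h, fun i hi => ?_⟩
      by_contra hcon
      exact hi ⟨z, h, hcon⟩
  rw [hbase, hL]
  -- the terms of the groups
  have hgrp : ∀ r ∈ Rat, ∑ T ∈ Sg (van L (R r)) (y' - r • y0),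
      (-1 : ℤ) ^ Module.finrank ℝ (van L T)
      = if (∀ i ∈ NL L, r * y0 i ≤ y' i) then (-1 : ℤ) ^ (n - 1) else 0 := by
    intro r hr
    have hn := hfr r hr
    have e1 : ∑ T ∈ Sg (van L (R r)) (y' - r • y0), (-1 : ℤ) ^ Module.finrank ℝ (van L T)
        = ∑ T ∈ Sg (van L (R r)) (y' - r • y0),
            (-1 : ℤ) ^ Module.finrank ℝ (van (van L (R r)) T) := by
      apply Finset.sum_congr rfl
      intro T hT
      rw [mem_Sg, hface] at hT
      rw [hvv r T hT.1.2]
    rw [e1]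
    have hiff : (∀ i ∈ NL (van L (R r)), 0 < (y' - r • y0) i) ↔ (∀ i ∈ NL L, r * y0 i ≤ y' i) := by
      simp only [Pi.sub_apply, Pi.smul_apply, smul_eq_mul]
      constructor
      · intro h i hi
        by_cases hiR : i ∈ R r
        · rw [hR] at hiR
          exact hiR.2.ge
        · have := h i ((hNL r i).2 ⟨hi, hiR⟩)
          linarith
      · intro h i hi
        rw [hNL] at hi
        have h1 := h i hi.1
        have h2 : y' i ≠ r * y0 i := by
          intro h3
          apply hi.2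
          rw [hR]
          exact ⟨hi.1, h3⟩
        have := lt_of_le_of_ne h1 h2.symm
        linarith
    have hyne : ∀ i ∈ NL (van L (R r)), (y' - r • y0) i ≠ 0 := by
      intro i hi h3
      rw [hNL] at hi
      apply hi.2
      rw [hR]
      refine ⟨hi.1, ?_⟩
      simp only [Pi.sub_apply, Pi.smul_apply, smul_eq_mul] at h3
      linarith
    by_cases hex : ∃ y1 ∈ van L (R r), ∀ i ∈ NL (van L (R r)), 0 < y1 i
    · obtain ⟨y1, hy1, hy1'⟩ := hex
      have := ih (n - 1) (by omega) (van L (R r)) (by omega) y1 (y' - r • y0) hy1 (hy2 r) hy1' hyne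
      rw [this]
      exact if_congr hiff rfl rfl
    · have hempty : Sg (van L (R r)) (y' - r • y0) = ∅ := by
        rw [Finset.eq_empty_iff_forall_notMem]
        intro T hT
        apply hex
        rw [mem_Sg] at hT
        obtain ⟨⟨z, hz, hz0, rfl⟩, hneg⟩ := hT
        -- choose a small `δ`
        have key : ∀ F : Finset ι, ∃ δ : ℝ, 0 < δ ∧ ∀ δ' : ℝ, 0 < δ' → δ' ≤ δ →
            ∀ i ∈ F, i ∈ NL (van L (R r)) → 0 < z i - δ' * (y' - r • y0) i := by
          intro F
          induction F using Finset.induction_on with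
          | empty => exact ⟨1, one_pos, by simp⟩
          | insert i F _ ihF =>
            obtain ⟨δ, hδ, h⟩ := ihF
            by_cases hiz : z i = 0
            · refine ⟨δ, hδ, ?_⟩
              intro δ' hδ' hle j hj hjN
              rw [Finset.mem_insert] at hj
              rcases hj with rfl | hj
              · have h1 := hneg j hiz hjN
                rw [hiz]
                nlinarith [mul_pos_of_neg_of_neg h1 (neg_neg_of_pos hδ')]
              · exact h δ' hδ' hle j hj hjN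
            · have hzi : 0 < z i := lt_of_le_of_ne (hz0 i) (Ne.symm hiz)
              refine ⟨min δ (z i / (|(y' - r • y0) i| + 1)), by positivity, ?_⟩
              intro δ' hδ' hle j hj hjN
              rw [Finset.mem_insert] at hj
              rcases hj with rfl | hj
              · have h1 : δ' ≤ z j / (|(y' - r • y0) j| + 1) := hle.trans (min_le_right _ _)
                rw [le_div_iff₀ (by positivity)] at h1
                have h2 : δ' * (y' - r • y0) j ≤ δ' * |(y' - r • y0) j| := by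
                  gcongr; exact le_abs_self _
                nlinarith
              · exact h δ' hδ' (hle.trans (min_le_left _ _)) j hj hjN
        obtain ⟨δ, hδ, h⟩ := key Finset.univ
        refine ⟨z - δ • (y' - r • y0), Submodule.sub_mem _ hz (Submodule.smul_mem _ δ (hy2 r)), ?_⟩
        intro i hi
        have := h δ hδ le_rfl i (Finset.mem_univ _) hi
        simpa using this
      rw [hempty, Finset.sum_empty, if_neg]
      intro hmin
      exact hex ⟨y' - r • y0, hy2 r, hiff.2 hmin⟩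
  rw [Finset.sum_congr rfl hgrp]
  by_cases hpos : ∀ i ∈ NL L, 0 < y' i
  · rw [if_pos hpos]
    have : Rat = ∅ := by
      rw [Finset.eq_empty_iff_forall_notMem]
      intro r hr
      obtain ⟨⟨i, hi⟩, hr0⟩ := (hmemRat r).1 hr
      rw [hR] at hi
      have h1 := hpos i hi.1
      have h2 := h0' i hi.1
      rw [hi.2] at h1
      nlinarith [mul_neg_of_neg_of_pos hr0 h2]
    rw [this, Finset.sum_empty, add_zero]
  · rw [if_neg hpos]
    push Not at hpos
    obtain ⟨j, hjN, hj⟩ := hpos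
    -- the minimal ratio
    obtain ⟨i0, hi0, hmin⟩ := Finset.exists_min_image
      (univ.filter (fun i => i ∈ NL L)) (fun i => y' i / y0 i)
      ⟨j, by rw [Finset.mem_filter]; exact ⟨Finset.mem_univ _, hjN⟩⟩
    rw [Finset.mem_filter] at hi0
    have hi0N := hi0.2
    have hmin' : ∀ i ∈ NL L, y' i0 / y0 i0 * y0 i ≤ y' i := by
      intro i hi
      have h1 := hmin i (by rw [Finset.mem_filter]; exact ⟨Finset.mem_univ _, hi⟩)
      have h2 := h0' i hi
      rwa [le_div_iff₀ h2] at h1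
    have hr0 : y' i0 / y0 i0 < 0 := by
      have h1 := hmin j (by rw [Finset.mem_filter]; exact ⟨Finset.mem_univ _, hjN⟩)
      have h2 : y' j < 0 := lt_of_le_of_ne hj (hne j hjN)
      exact lt_of_le_of_lt h1 (div_neg_of_neg_of_pos h2 (h0' j hjN))
    have hi0R : i0 ∈ R (y' i0 / y0 i0) := by
      rw [hR]
      exact ⟨hi0N, by rw [div_mul_cancel₀]; exact (h0' i0 hi0N).ne'⟩
    have hmem : y' i0 / y0 i0 ∈ Rat := (hmemRat _).2 ⟨⟨i0, hi0R⟩, hr0⟩
    have hn1 := hfr _ hmem
    rw [Finset.sum_eq_single_of_mem _ hmem]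
    · rw [if_pos hmin']
      have : n = (n - 1) + 1 := by omega
      conv_lhs => rw [this]
      simp [pow_succ]
    · intro r hr hrne
      rw [if_neg]
      intro hcon
      apply hrne
      obtain ⟨⟨ρ, hρ⟩, _⟩ := (hmemRat r).1 hr
      rw [hR] at hρ
      have h1 := hcon i0 hi0N
      have h2 := hmin' ρ hρ.1
      have p1 := h0' i0 hi0N
      have p2 := h0' ρ hρ.1
      rw [hρ.2] at h2
      have h3 : y' i0 / y0 i0 ≤ r := le_of_mul_le_mul_right h2 p2
      have h4 : r ≤ y' i0 / y0 i0 := by rwa [le_div_iff₀ p1]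
      exact le_antisymm h4 h3

end SS

/-- Signed count of the faces on which `y` is negative. -/
theorem signed_sum (L : Submodule ℝ (ι → ℝ)) (y0 y : ι → ℝ) (h0 : y0 ∈ L) (hy : y ∈ L)
    (h0' : ∀ i, (∃ z ∈ L, z i ≠ 0) → 0 < y0 i) (hy' : ∀ i, (∃ z ∈ L, z i ≠ 0) → y i ≠ 0) :
    ∑ T ∈ (univ : Finset (Set ι)).filter
        (fun T => LFace L T ∧ ∀ i ∈ T, (∃ z ∈ L, z i ≠ 0) → y i < 0),
      (-1 : ℤ) ^ Module.finrank ℝ (van L T)
      = if (∀ i, (∃ z ∈ L, z i ≠ 0) → 0 < y i) then (-1 : ℤ) ^ Module.finrank ℝ L else 0 :=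
  SS.main _ L rfl y0 y h0 hy h0' hy'

end

end FRC
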